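import Pool.Agent.MP_ee8c61_ag.M3S.SpecF
import Pool.Agent.MP_96693b_ag.DR.RLVal

/-! Row UFD: regular local rings of dimension two are factorial. -/

namespace Pool.Agent.MP_ee8c61_ag.M3S

open Pool.Agent.MP_96693b_ag.RS IsLocalRing

namespace RUFD

theorem prin {R : Type} [CommRing R] [IsNoetherianRing R] [IsLocalRing R] {x y : R}
    (hx : Prime x) (hy : ¬IsUnit y) (hm : maximalIdeal R ≤ Ideal.span {x, y}) (q : Ideal R) (hq : q.IsPrime)
    (hxq : x ∉ q) : q.IsPrincipal := by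
  have hp : (Ideal.span {x}).IsPrime := (Ideal.span_singleton_prime hx.ne_zero).2 hx
  let φ := Ideal.Quotient.mk (Ideal.span {x})
  have hs : Function.Surjective φ := Ideal.Quotient.mk_surjective
  have : IsLocalRing (R ⧸ Ideal.span {x}) := IsLocalRing.of_surjective' φ hs
  have h0 : φ x = 0 := Ideal.Quotient.eq_zero_iff_mem.2 (Ideal.mem_span_singleton_self x)
  have h1 : (maximalIdeal (R ⧸ Ideal.span {x})).IsPrincipal := by
    have : IsLocalHom φ := IsLocalHom.of_surjective φ hs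
    refine ⟨φ y, le_antisymm (fun z hz => ?_) ?_⟩
    · obtain ⟨z, rfl⟩ := hs z
      have : z ∈ maximalIdeal R := fun hu => hz (hu.map φ)
      obtain ⟨a, b, rfl⟩ := Ideal.mem_span_pair.1 (hm this)
      rw [map_add, map_mul, map_mul, h0, mul_zero, zero_add]
      exact Ideal.mem_span_singleton'.2 ⟨_, rfl⟩
    · exact (Ideal.span_singleton_le_iff_mem _).2 fun hu => hy (IsUnit.of_map φ y hu)
  have h2 : IsPrincipalIdealRing (R ⧸ Ideal.span {x}) :=
    ((tfae_of_isNoetherianRing_of_isLocalRing_of_isDomain (R ⧸ Ideal.span {x})).out 4 0).1 h1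
  obtain ⟨g', hg'⟩ := (h2.principal (q.map φ)).principal
  obtain ⟨g, hg, rfl⟩ := (Ideal.mem_map_iff_of_surjective φ hs).1
    (hg' ▸ Submodule.mem_span_singleton_self g' : g' ∈ q.map φ)
  refine ⟨g, le_antisymm ?_ ((Ideal.span_singleton_le_iff_mem _).2 hg)⟩
  refine Submodule.le_of_le_smul_of_le_jacobson_bot (I := maximalIdeal R)
    (IsNoetherian.noetherian q) (maximalIdeal_le_jacobson _) fun a ha => ?_
  have h3 : φ a ∈ Submodule.span _ {φ g} := hg' ▸ Ideal.mem_map_of_mem φ ha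
  obtain ⟨c, hc⟩ := Ideal.mem_span_singleton'.1 h3
  obtain ⟨c, rfl⟩ := hs c
  rw [← map_mul, Ideal.Quotient.eq, Ideal.mem_span_singleton'] at hc
  obtain ⟨b, hb⟩ := hc
  have h4 : b ∈ q := (hq.mem_or_mem (hb ▸ sub_mem (q.mul_mem_left c hg) ha)).resolve_right hxq
  have h5 : a = c * g + (-x) • b := by rw [smul_eq_mul]; linear_combination hb
  rw [h5]
  exact add_mem (Submodule.mem_sup_left (Ideal.mem_span_singleton'.2 ⟨c, rfl⟩))
    (Submodule.mem_sup_right (Submodule.smul_mem_smul (neg_mem hx.not_isUnit) h4))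

end RUFD

theorem rowUFD : StUFD := by
  intro K _ _ L κ h
  have := L.noeth
  have hu : ∀ f : L.O, L.ev f ≠ 0 → IsUnit f := fun f hf =>
    IsUnit.of_mul_eq_one ⟨_, L.inv_mem _ f.2 hf⟩ (Subtype.ext (mul_inv_cancel₀ fun e : (f : K) = 0 =>
      hf (by rw [e, Loc.ev_zero])))
  have hn : ∀ f : L.O, L.ev f = 0 → ¬IsUnit f := by
    rintro _ hf ⟨u, rfl⟩
    have h1 := L.ev_mul _ (u : L.O).2 _ ((u⁻¹ : (L.O)ˣ) : L.O).2
    rw [hf, zero_mul, ← Subalgebra.coe_mul, Units.mul_inv, Subalgebra.coe_one, Loc.ev_one] at h1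
    exact one_ne_zero h1
  have : IsLocalRing L.O := IsLocalRing.of_isUnit_or_isUnit_one_sub_self fun f => by
    by_cases hf : L.ev f = 0
    · refine Or.inr (hu _ fun e => ?_)
      have h1 := L.ev_add _ (1 - f).2 _ f.2
      rw [e, hf, ← Subalgebra.coe_add, sub_add_cancel, Subalgebra.coe_one, Loc.ev_one] at h1
      simp at h1
    · exact Or.inl (hu f hf)
  have hx : ∀ i, κ.x i ∈ L.m := fun i => h.span ▸ Submodule.subset_span ⟨i, rfl⟩
  let x : Fin 2 → L.O := fun i => ⟨κ.x i, (hx i).1⟩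
  have hI : ∀ i (f : L.O), (f : K) ∈ κ.I L {i} ↔ x i ∣ f := fun i f => by
    rw [Chart.I_singleton, Loc.span, Submodule.mem_span_singleton]
    exact ⟨fun ⟨c, hc⟩ => ⟨c, Subtype.ext (hc.symm.trans (mul_comm _ _))⟩,
      fun ⟨c, hc⟩ => ⟨c, by rw [hc]; exact mul_comm _ _⟩⟩
  have hp : ∀ i, Prime (x i) := fun i =>
    ⟨fun e => by
      have h1 := h.dual i i
      rw [show κ.x i = 0 from congrArg Subtype.val e] at h1
      simp at h1, hn _ (hx i).2, fun f g hd =>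
      (h.prime f.2 g.2 ((hI i (f * g)).2 hd)).imp (hI i f).1 (hI i g).1⟩
  have hm : ∀ f : L.O, L.ev f = 0 → f ∈ Ideal.span {x 0, x 1} := fun f hf => by
    have h1 : (f : K) ∈ L.span (Set.range κ.x) := h.span ▸ ⟨f.2, hf⟩
    obtain ⟨c, hc⟩ := (Submodule.mem_span_range_iff_exists_fun _).1 h1
    rw [Fin.sum_univ_two] at hc
    exact Ideal.mem_span_pair.2 ⟨c 0, c 1, Subtype.ext hc⟩
  have hm' : maximalIdeal L.O ≤ Ideal.span {x 0, x 1} := fun f hf =>
    hm f (not_not.1 fun e => hf (hu f e))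
  refine ⟨UniqueFactorizationMonoid.iff_exists_prime_mem_of_isPrime.2 fun q hq0 hq => ?_,
    fun q hq ⟨g, hg, hgq⟩ => ?_⟩
  · by_cases h0 : x 0 ∈ q
    · exact ⟨_, h0, hp 0⟩
    obtain ⟨g, rfl⟩ := (RUFD.prin (hp 0) (hp 1).not_isUnit hm' q hq h0).principal
    have hg : g ≠ 0 := fun e => hq0 (by simp [e])
    exact ⟨g, Submodule.mem_span_singleton_self g, (Ideal.span_singleton_prime hg).1 hq⟩
  · by_cases h0 : x 0 ∈ q
    · refine RUFD.prin (hp 1) (hp 0).not_isUnit (Set.pair_comm (x 0) (x 1) ▸ hm') q hq fun h1 => hgq ?_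
      exact (Ideal.span_le.2 (Set.insert_subset h0 (Set.singleton_subset_iff.2 h1))) (hm g hg)
    · exact RUFD.prin (hp 0) (hp 1).not_isUnit hm' q hq h0

end Pool.Agent.MP_ee8c61_ag.M3S
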