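import Pool.Agent.MP_ee8c61_ag.M3S.RWc
import Pool.Agent.MP_ee8c61_ag.M3C.RADJ

/-!
The adjunction formula, from the level three foundations.
-/

set_option autoImplicit false

namespace Pool.Agent.MP_ee8c61_ag.M3S

theorem adj : OfAdj := fun _ hL hD K _ _ M hB C hC g hg =>
  M3C.rowADJ hL hD K M hB.bas (r0 K) (KD M) hB.kZ hB.isK C hC g hg

end Pool.Agent.MP_ee8c61_ag.M3S
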