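import Pool.Agent.MP_ee8c61_ag.M3S.SpecF

/-! Row Ber: from the local form of the theorem of Bertini to reduced smooth members. -/

set_option autoImplicit false

namespace Pool.Agent.MP_ee8c61_ag.M3S

open Pool.Agent.MP_96693b_ag.RS Pool.Agent.MP_cce4c9_lc.H87 WithZero Finsupp Filter Module

namespace RBer

variable {K : Type} [Field K] [Algebra ℂ K] {M : Model K 2}

theorem loc (h : B2 M) {D : Dr M} (hD : IsInt D) {f : K} (hf : f ∈ H0 D) (f0 : f ≠ 0)
    (hm : ∀ p η, Eqn D p η → f * η ∉ (M.loc p).m ^ 2) (p : M.P) :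
    ∃ g, (∀ C : Crv M, On C p → (dvr M f + D) C = C.1.ord g) ∧ ∀ C : Crv M, On C p →
      (dvr M f + D) C = 0 ∨ (Eqn (pr C) p g ∧ ∃ κ : Chart K 2, IsCrd (M.loc p) κ ∧ κ.x 0 = g) := by
  obtain ⟨η, hη⟩ := h.eqn D hD p
  have hg := (h.memH D hD f).1 hf p η hη
  have e : ∀ C : Crv M, On C p → (dvr M f + D) C = C.1.ord (f * η) := fun C hC => by
    rw [Finsupp.add_apply, h.dva, C.1.ord_mul (C.1.val_ne f0) (C.1.val_ne hη.1), Int.cast_add,
      hη.2 C hC]
  refine ⟨f * η, e, fun C hC => ?_⟩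
  rcases (hC _ hg).eq_or_lt with h1 | h1
  · rw [e C hC, C.1.ord_of_val_one h1, Int.cast_zero]
    exact Or.inl rfl
  · obtain ⟨a, b⟩ := h.crd p _ hg (h.evz C p hC _ hg h1) (hm p η hη)
    exact Or.inr ⟨b C hC h1, a⟩

end RBer

theorem rowBer : OfBer := by
  intro K _ _ M h hL X hX
  filter_upwards [hL X hX] with k ⟨f, hf, hm⟩
  have hD : IsInt (X + (k : ℝ) • wD M) := fun C => by
    obtain ⟨a, ha⟩ := hX C
    obtain ⟨b, hb⟩ := h.wZ C
    exact ⟨a + k * b, by rw [Finsupp.add_apply, Finsupp.smul_apply, ha, hb]; push_cast; rfl⟩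
  have f0 : f ≠ 0 := by
    obtain ⟨p⟩ : Nonempty M.P := inferInstance
    obtain ⟨η, hη⟩ := h.eqn _ hD p
    intro e
    exact hm p η hη (by rw [e, zero_mul]; exact zero_mem _)
  refine ⟨f, f0, fun C => ?_, fun C hC p hp => ?_, fun C C' p hC hC' hp hp' => ?_⟩
  · obtain ⟨p, hp, -⟩ := C.2
    obtain ⟨g, h1, h2⟩ := RBer.loc h hD hf f0 hm p
    refine (h2 C hp).imp id fun e => ?_
    rw [h1 C hp, e.1.2 C hp, single_eq_same]
  · obtain ⟨g, -, h2⟩ := RBer.loc h hD hf f0 hm p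
    obtain ⟨e, κ, hκ, rfl⟩ := (h2 C hp).resolve_left (by rw [hC]; exact one_ne_zero)
    exact ⟨κ, hκ, e⟩
  · obtain ⟨g, h1, h2⟩ := RBer.loc h hD hf f0 hm p
    obtain ⟨e, -⟩ := (h2 C hp).resolve_left (by rw [hC]; exact one_ne_zero)
    have := e.2 C' hp'
    rw [← h1 C' hp', hC'] at this
    by_contra hne
    rw [single_eq_of_ne (Ne.symm hne)] at this
    exact one_ne_zero this

end Pool.Agent.MP_ee8c61_ag.M3S
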