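import Pool.Agent.MP_ee8c61_ag.M3S.SpecF

/-!
Local form of the theorem of Bertini: a general section of a sufficiently positive divisor
vanishes to order at most one at every point.
-/

set_option autoImplicit false

namespace Pool.Agent.MP_ee8c61_ag.M3S

open Pool.Agent.MP_96693b_ag.RS Pool.Agent.MP_cce4c9_lc.H87 WithZero Filter

namespace RBerL

variable {K : Type} [Field K] [Algebra ℂ K]

section Pure

open MvPolynomial

/-- Three linear forms over a field of transcendence degree two depend algebraically on the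
variables, and the relation specialises at every point. -/
theorem rel (hK : Algebra.trdeg ℂ K = 2) {ι : Type} [Fintype ι] (h : Fin 3 → ι → K) :
    ∃ Ψ : MvPolynomial (ι ⊕ Fin 3) ℂ, Ψ ≠ 0 ∧ ∀ L : Loc K, (∀ i j, h i j ∈ L.O) →
      ∀ t : ι → ℂ, eval (Sum.elim t fun i => ∑ j, t j * L.ev (h i j)) Ψ = 0 := by
  let τ : ι ⊕ Fin 3 → MvPolynomial ι K := Sum.elim X fun i => ∑ j, X j * C (h i j)
  have hdep : ¬ AlgebraicIndependent ℂ τ := fun hi => by
    have h1 := hi.cardinalMk_le_trdeg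
    rw [← trdeg_add_eq ℂ K (A := MvPolynomial ι K), hK, MvPolynomial.trdeg_of_isDomain,
      Cardinal.lift_id, Cardinal.mk_fintype, Cardinal.mk_fintype, Fintype.card_sum,
      Fintype.card_fin] at h1
    have h2 : Fintype.card ι + 3 ≤ 2 + Fintype.card ι := by exact_mod_cast h1
    omega
  rw [algebraicIndependent_iff] at hdep
  push Not at hdep
  obtain ⟨Ψ, h1, h2⟩ := hdep
  refine ⟨Ψ, h2, fun L hL t => ?_⟩
  let τ' : ι ⊕ Fin 3 → MvPolynomial ι L.O := Sum.elim X fun i => ∑ j, X j * C ⟨h i j, hL i j⟩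
  have e1 : (mapAlgHom (σ := ι) L.O.val).comp (aeval τ') = aeval τ := by
    refine algHom_ext fun x => ?_
    rcases x with x | x <;> simp [τ, τ']
  have e2 : aeval τ' Ψ = 0 := by
    refine map_injective (L.O.val : L.O →+* K) Subtype.val_injective ?_
    rw [map_zero, ← h1, ← e1]
    rfl
  obtain ⟨ε, ε1, ε2⟩ : ∃ ε : MvPolynomial ι L.O →+* ℂ, (∀ r : L.O, ε (C r) = L.ev r) ∧
      ∀ j, ε (X j) = t j :=
    ⟨eval₂Hom (LChart_evHom L) t, fun r => eval₂Hom_C _ _ r, fun j => eval₂Hom_X' _ _ j⟩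
  have e3 : ε.comp (aeval τ' : MvPolynomial (ι ⊕ Fin 3) ℂ →ₐ[ℂ] MvPolynomial ι L.O) =
      eval (Sum.elim t fun i => ∑ j, t j * L.ev (h i j)) := by
    refine ringHom_ext (fun r => ?_) fun x => ?_
    · rw [RingHom.comp_apply, eval_C, RingHom.coe_coe, aeval_C, MvPolynomial.algebraMap_apply, ε1]
      exact L.ev_alg r
    · rw [RingHom.comp_apply, eval_X, RingHom.coe_coe, aeval_X]
      rcases x with x | x
      · simp only [τ', Sum.elim_inl, ε2]
      · simp only [τ', Sum.elim_inr, map_sum, map_mul, ε1, ε2]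
  rw [← e3, RingHom.comp_apply, RingHom.coe_coe, e2, map_zero]

/-- The functions `1, x 0, x 1`. -/
def yy (κ : Chart K 2) : Fin 3 → K := ![1, κ.x 0, κ.x 1]

/-- The dual operators. -/
noncomputable def TT (κ : Chart K 2) : Fin 3 → K →ₗ[ℂ] K :=
  ![LinearMap.id - κ.x 0 • (κ.D 0 : K →ₗ[ℂ] K) - κ.x 1 • (κ.D 1 : K →ₗ[ℂ] K), κ.D 0, κ.D 1]

theorem TT0 (κ : Chart K 2) (f : K) : TT κ 0 f = f - κ.x 0 * κ.D 0 f - κ.x 1 * κ.D 1 f := rfl
theorem TT1 (κ : Chart K 2) (f : K) : TT κ 1 f = κ.D 0 f := rfl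
theorem TT2 (κ : Chart K 2) (f : K) : TT κ 2 f = κ.D 1 f := rfl

theorem TT_yy {κ : Chart K 2} (hd : ∀ i j, κ.D i (κ.x j) = if i = j then 1 else 0)
    (i l : Fin 3) : TT κ i (yy κ l) = if i = l then 1 else 0 := by
  have e0 : yy κ 0 = 1 := rfl
  have e1 : yy κ 1 = κ.x 0 := rfl
  have e2 : yy κ 2 = κ.x 1 := rfl
  fin_cases i <;> fin_cases l <;> simp [TT0, TT1, TT2, e0, e1, e2, hd]

theorem TT_mem {κ : Chart K 2} {L : Loc K} (hx : ∀ i, κ.x i ∈ L.O)
    {I : Submodule L.O K} {f : K} (h0 : f ∈ I) (h1 : ∀ i, κ.D i f ∈ I) (i : Fin 3) :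
    TT κ i f ∈ I := by
  fin_cases i
  · exact sub_mem (sub_mem h0 (Loc.mul_mem_left (hx 0) (h1 0))) (Loc.mul_mem_left (hx 1) (h1 1))
  · exact h1 0
  · exact h1 1

/-- The parameters of singular members lie on a hypersurface. -/
theorem patch (hK : Algebra.trdeg ℂ K = 2) {ι : Type} [Fintype ι] {κ : Chart K 2}
    (hd : ∀ i j, κ.D i (κ.x j) = if i = j then 1 else 0) (g : ι → K) (e : Fin 3 → ι)
    (he : ∀ i, g (e i) = yy κ i) :
    ∃ Φ : MvPolynomial ι ℂ, Φ ≠ 0 ∧ ∀ L : Loc K, (∀ j, g j ∈ L.O) →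
      (∀ i, ∀ f ∈ L.O, κ.D i f ∈ L.O) → ∀ t : ι → ℂ, ∑ j, t j • g j ∈ L.m ^ 2 → eval t Φ = 0 := by
  classical
  obtain ⟨Ψ, h1, h2⟩ := rel hK fun i j => TT κ i (g j)
  obtain ⟨z, hz⟩ : ∃ z, eval z Ψ ≠ 0 := by
    by_contra hn
    push Not at hn
    exact h1 (MvPolynomial.funext fun z => by rw [hn z, map_zero])
  let c : Fin 3 → ℂ := fun i => z (Sum.inr i)
  let d : ι → ℂ := ∑ i, Pi.single (e i) (c i)
  have hd' : ∑ j, d j • g j = ∑ i, c i • yy κ i := by
    simp only [d, Finset.sum_apply, Finset.sum_smul]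
    rw [Finset.sum_comm]
    refine Finset.sum_congr rfl fun i _ => ?_
    rw [Finset.sum_eq_single (e i), Pi.single_eq_same, he]
    · intro j _ hj
      rw [Pi.single_eq_of_ne hj, zero_smul]
    · exact fun h => absurd (Finset.mem_univ _) h
  let ρ : ι ⊕ Fin 3 → MvPolynomial ι ℂ := Sum.elim (fun j => X j + C (d j)) fun i => C (c i)
  have hρ : ∀ t : ι → ℂ, eval t (aeval ρ Ψ) = eval (Sum.elim (t + d) c) Ψ := fun t => by
    have : (eval t).comp (aeval ρ : MvPolynomial (ι ⊕ Fin 3) ℂ →ₐ[ℂ] MvPolynomial ι ℂ) =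
        eval (Sum.elim (t + d) c) := by
      refine ringHom_ext (fun r => by simp) fun x => ?_
      rcases x with x | x <;> simp [ρ]
    exact DFunLike.congr_fun this Ψ
  refine ⟨aeval ρ Ψ, fun h0 => hz ?_, fun L hg hD t ht => ?_⟩
  · have := hρ (fun j => z (Sum.inl j) - d j)
    rw [h0, map_zero] at this
    rw [this]
    congr 2
    funext x
    rcases x with x | x <;> simp [c]
  · have hx : ∀ i, κ.x i ∈ L.O := fun i => by
      have a1 := hg (e 1)
      have a2 := hg (e 2)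
      rw [he] at a1 a2
      fin_cases i
      exacts [a1, a2]
    have hT : ∀ i, ∀ f ∈ L.O, TT κ i f ∈ L.O := fun i f hf => Loc.mem_one.1
      (TT_mem hx (Loc.mem_one.2 hf) (fun i => Loc.mem_one.2 (hD i f hf)) i)
    have hm : ∀ i, TT κ i (∑ j, t j • g j) ∈ L.m := TT_mem hx
      (by simpa using Loc.pow_anti Loc.m_le_one (show 1 ≤ 2 by norm_num) ht) fun i => by
        simpa using Loc.der_pow_succ (Loc.mem_log_empty.2 (hD i)) Loc.m_le_one (k := 1) ht
    have h3 := h2 L (fun i j => hT i _ (hg j)) (t + d)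
    rw [hρ, ← h3]
    congr 3
    funext i
    have a1 : ∑ j, (t + d) j * L.ev (TT κ i (g j)) = L.ev (TT κ i (∑ j, (t + d) j • g j)) := by
      rw [map_sum, Loc.ev_sum _ _ fun j _ => hT i _ (L.O.smul_mem (hg j) _)]
      exact Finset.sum_congr rfl fun j _ => by rw [map_smul, Loc.ev_smul (hT i _ (hg j))]
    have a2 : TT κ i (∑ l, c l • yy κ l) = algebraMap ℂ K (c i) := by
      simp [TT_yy hd, Algebra.algebraMap_eq_smul_one]
    have a3 : ∑ j, (t + d) j • g j = ∑ j, t j • g j + ∑ j, d j • g j := by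
      simp only [Pi.add_apply, add_smul, Finset.sum_add_distrib]
    rw [a1, a3, hd', map_add, a2, L.ev_add _ (hm i).1 _ (L.O.algebraMap_mem _), (hm i).2,
      L.ev_alg, zero_add]

end Pure

variable {M : Model K 2}

theorem isInt_add (h : B2 M) {X : Dr M} (hX : IsInt X) (k : ℕ) : IsInt (X + (k : ℝ) • wD M) :=
  fun C => by
    obtain ⟨a, ha⟩ := hX C
    obtain ⟨b, hb⟩ := h.wZ C
    exact ⟨a + k * b, by rw [Finsupp.add_apply, Finsupp.smul_apply, ha, hb]; simp⟩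

/-- Near every point there are sections that separate one-jets. -/
theorem near (h : B2 M) {X : Dr M} (hX : IsInt X) (a : M.P) :
    ∃ (κ : Chart K 2) (s : ℕ → K), (∀ i j, κ.D i (κ.x j) = if i = j then 1 else 0) ∧
      (∀ᶠ b in zn a, (∀ i, ∀ f ∈ (M.loc b).O, κ.D i f ∈ (M.loc b).O) ∧
        ∀ k : ℕ, Eqn (X + (k : ℝ) • wD M) b (s k)⁻¹) ∧
      ∀ᶠ k : ℕ in atTop, ∀ i, s k * yy κ i ∈ H0 (X + (k : ℝ) • wD M) := by
  classical
  obtain ⟨u, hu, h0, ha⟩ := Model.isPt a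
  obtain ⟨η, hη⟩ := h.eqn X hX a
  obtain ⟨κ, hκ⟩ := Model.exists_crd a
  have hy : ∀ i, yy κ i ∈ (M.loc a).O := fun i => by
    fin_cases i
    exacts [one_mem _, hκ.x_mem 0, hκ.x_mem 1]
  choose q hq hq0 hq1 using fun i => h.clr1 u hu h0 X a ha.le (yy κ i / η)
    ((h.memL X a η hη _).2 (by rw [div_mul_cancel₀ _ hη.1]; exact hy i))
  have hQ : (M.loc a).ev (∏ i, q i) ≠ 0 := by
    rw [Loc.ev_prod _ _ fun i _ => ha.le (hq i)]
    exact Finset.prod_ne_zero_iff.2 fun i _ => hq0 i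
  have hQ0 := Loc.ne_zero_of_ev hQ
  refine ⟨κ, fun k => u ^ k * (∏ i, q i) / η, hκ.dual, ?_, eventually_all.2 fun i => ?_⟩
  · filter_upwards [Model.sp_crd hκ, Model.sp_chart hu h0 ha.le, h.sp X a η hη, zn_ne hQ]
      with b b1 b2 b3 b4
    refine ⟨b1.pres, fun k => ⟨inv_ne_zero
      (div_ne_zero (mul_ne_zero (pow_ne_zero _ h0) hQ0) hη.1), fun C hC => ?_⟩⟩
    have c1 := (h.isW u hu h0 b b2.le).2 C hC
    have c2 := b3.2 C hC
    have c3 := C.1.ord_of_val_one ((h.unit b _).1 b4 C hC)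
    rw [C.1.ord_inv] at c1
    rw [C.1.ord_inv, div_eq_mul_inv, C.1.ord_mul (C.1.val_ne (mul_ne_zero (pow_ne_zero _ h0) hQ0))
      (C.1.val_ne (inv_ne_zero hη.1)), C.1.ord_mul (C.1.val_ne (pow_ne_zero _ h0))
      (C.1.val_ne hQ0), C.1.ord_inv, C.1.ord_pow, c3, Finsupp.add_apply, Finsupp.smul_apply,
      ← c1, ← c2]
    push_cast
    rw [smul_eq_mul]
    ring
  · have g1 : (∏ j, q j) * (yy κ i / η) ∈ Gm X (chA M.U u) := fun C hC => by
      rw [← Finset.prod_erase_mul _ _ (Finset.mem_univ i), mul_assoc, map_mul]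
      exact (mul_le_mul_left (hC _ (prod_mem fun j _ => hq j)) _).trans
        (by rw [one_mul]; exact hq1 i C hC)
    filter_upwards [h.clr2 u hu h0 X _ g1] with k hk
    rwa [show u ^ k * (∏ j, q j) / η * yy κ i = u ^ k * ((∏ j, q j) * (yy κ i / η)) by ring]

theorem berL (h : B2 M) : BerL M := by
  classical
  intro X hX
  choose κ s hd hn hs using near h hX
  obtain ⟨A, -, hA⟩ := exists_finset_cover Set.univ _ fun a _ => hn a
  filter_upwards [(eventually_all_finset A).2 fun a _ => hs a] with k hk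
  let σ : A × Fin 3 → K := fun j => s j.1 k * yy (κ j.1) j.2
  have hσ : ∀ j, σ j ∈ H0 (X + (k : ℝ) • wD M) := fun j => hk j.1 j.1.2 j.2
  choose Φ h1 h2 using fun a : A => patch h.trd (hd a) (fun j => σ j * (s a k)⁻¹)
    (fun i => (a, i)) fun i => by
      have : s a k ≠ 0 := fun e => ((zn_self (hn a)).2 k).1 (by rw [e, inv_zero])
      change s a k * yy (κ a) i * (s a k)⁻¹ = _
      field_simp
  obtain ⟨t, ht⟩ : ∃ t, MvPolynomial.eval t (∏ a, Φ a) ≠ 0 := by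
    by_contra hc
    push Not at hc
    exact Finset.prod_ne_zero_iff.2 (fun a _ => h1 a)
      (MvPolynomial.funext fun z => by rw [hc z, map_zero])
  refine ⟨∑ j, t j • σ j, Submodule.sum_mem _ fun j _ => Submodule.smul_mem _ _ (hσ j),
    fun p η hη hm => ht ?_⟩
  obtain ⟨a, ha, b1, b2⟩ := hA p trivial
  rw [map_prod]
  refine Finset.prod_eq_zero (Finset.mem_univ ⟨a, ha⟩) (h2 ⟨a, ha⟩ (M.loc p)
    (fun j => (h.memH _ (isInt_add h hX k) _).1 (hσ j) p _ (b2 k)) b1 t ?_)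
  have := Loc.mul_mem_right (Loc.mem_of_ev (h.rat _ p _ _ (b2 k) hη)) hm
  rw [mul_assoc, mul_div_cancel₀ _ hη.1, Finset.sum_mul] at this
  simpa only [smul_mul_assoc] using this

end RBerL

theorem rowBerL : OfBerL := fun _ _ _ _ h => RBerL.berL h

end Pool.Agent.MP_ee8c61_ag.M3S
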