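import Pool.Agent.MP_ee8c61_ag.M3S.SpecF

/-!
Centres of valuation rings on a projective model.
-/

set_option autoImplicit false

namespace Pool.Agent.MP_ee8c61_ag.M3S

open Pool.Agent.MP_96693b_ag.RS

namespace RCen

variable {K : Type} [Field K] [Algebra ℂ K] {n : ℕ}

theorem mem_of_loc {B : Subalgebra ℂ K} (hB : B.FG) {f : K}
    (h : ∀ L, LocOf B L → f ∈ L.O) : f ∈ B := by
  let I : Ideal B :=
    { carrier := {q | f * q ∈ B}
      add_mem' := fun {a b} ha hb => by
        change f * ((a : K) + b) ∈ B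
        rw [mul_add]
        exact add_mem ha hb
      zero_mem' := by
        change f * (0 : K) ∈ B
        rw [mul_zero]
        exact zero_mem _
      smul_mem' := fun c x hx => by
        change f * ((c : K) * x) ∈ B
        rw [mul_left_comm]
        exact mul_mem c.2 hx }
  by_cases h1 : (1 : B) ∈ I.radical
  · obtain ⟨k, hk⟩ := h1
    rw [one_pow] at hk
    have : f * (1 : K) ∈ B := hk
    rwa [mul_one] at this
  · obtain ⟨L, hL, h0, -⟩ := exists_locOf_of_notMem hB h1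
    obtain ⟨p, hp, q, hq, h2, e⟩ := hL.frac f (h L hL)
    exact absurd (h0 ⟨q, hq⟩ (show f * q ∈ B from e ▸ hp)) h2

theorem ch (M : Model K n) (V : ValuationSubring K) (hV : ∀ c : ℂ, algebraMap ℂ K c ∈ V) :
    ∃ u ∈ M.U, u ≠ 0 ∧ Sub (chA M.U u) V := by
  obtain ⟨u0, hu0, h00⟩ := M.nz
  obtain ⟨u, hu, hm⟩ := Set.exists_max_image M.U V.valuation M.fin ⟨u0, hu0⟩
  have h0 : u ≠ 0 := by
    rintro rfl
    have := hm u0 hu0
    rw [map_zero, le_zero_iff, map_eq_zero] at this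
    exact h00 this
  let A : Subalgebra ℂ K :=
    { carrier := V
      mul_mem' := fun ha hb => V.mul_mem _ _ ha hb
      add_mem' := fun ha hb => V.add_mem _ _ ha hb
      algebraMap_mem' := hV }
  have hA : chA M.U u ≤ A := chA_le.2 fun x hx => by
    change x / u ∈ V
    rw [← V.valuation_le_one_iff, map_div₀]
    exact div_le_one_of_le₀ (hm x hx) zero_le
  exact ⟨u, hu, h0, fun g hg => hA hg⟩

theorem cen {B : Subalgebra ℂ K} (hB : B.FG) {V : ValuationSubring K} (hA : Sub B V) {q : K}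
    (hq : q ∈ B) (h0 : q ≠ 0) (hi : q⁻¹ ∈ V) : ∃ L, LocOf B L ∧ Sub L.O V ∧ L.ev q ≠ 0 := by
  have hv : ∀ g ∈ B, V.valuation g ≤ 1 := fun g hg => (V.valuation_le_one_iff g).2 (hA g hg)
  let P : Ideal B :=
    { carrier := {g | V.valuation (g : K) < 1}
      add_mem' := fun {a b} ha hb => V.valuation.map_add_lt ha hb
      zero_mem' := by
        change V.valuation (0 : K) < 1
        rw [map_zero]
        exact zero_lt_one
      smul_mem' := fun c x hx => by
        change V.valuation ((c : K) * x) < 1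
        rw [map_mul]
        exact (mul_le_of_le_one_left zero_le (hv c c.2)).trans_lt hx }
  have hq1 : V.valuation q = 1 := by
    refine le_antisymm (hv q hq) ?_
    have := (V.valuation_le_one_iff _).2 hi
    rwa [map_inv₀, inv_le_one₀ (zero_lt_iff.2 ((Valuation.ne_zero_iff _).2 h0))] at this
  have h1 : (⟨q, hq⟩ : B) ∉ P.radical := by
    rintro ⟨k, hk⟩
    have : V.valuation (q ^ k) < 1 := hk
    rw [map_pow, hq1, one_pow] at this
    exact lt_irrefl _ this
  obtain ⟨L, hL, hP, hr⟩ := exists_locOf_of_notMem hB h1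
  refine ⟨L, hL, fun g hg => ?_, hr⟩
  obtain ⟨p, hp, s, hs, h2, e⟩ := hL.frac g hg
  have h3 : V.valuation s = 1 :=
    le_antisymm (hv s hs) (not_lt.1 fun h => h2 (hP ⟨s, hs⟩ h))
  have h4 := hv p hp
  rw [← e, map_mul, h3, mul_one] at h4
  exact (V.valuation_le_one_iff g).1 h4

theorem sep (M : Model K n) (V : ValuationSubring K) (p p' : M.P) (h' : Sub (M.loc p').O V)
    (hd : ∀ g ∈ (M.loc p).O, (M.loc p).ev g = 0 → g ≠ 0 → g⁻¹ ∉ V) : p = p' := by
  obtain ⟨u, hu, hu0, hb⟩ := Model.isPt p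
  obtain ⟨v, hv, hv0, hb'⟩ := Model.isPt p'
  have h1 : v / u ∈ (M.loc p).O := hb.le (div_mem_chA hv)
  have h3 : (M.loc p).ev (v / u) ≠ 0 := fun h0 => hd _ h1 h0 (div_ne_zero hv0 hu0) (by
    rw [inv_div]
    exact h' _ (hb'.le (div_mem_chA hu)))
  have h4 : chA M.U v ≤ (M.loc p).O := chA_le.2 fun x hx => by
    rw [← div_div_div_cancel_right₀ hu0]
    exact Loc.div_mem (hb.le (div_mem_chA hx)) h1 h3
  refine (Model.eq_of_loc_le fun f hf => ?_).symm
  obtain ⟨a, ha, q, hq, h5, e⟩ := hb'.frac f hf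
  have h6 := Loc.ne_zero_of_ev h5
  rw [eq_div_of_mul_eq h6 e]
  exact Loc.div_mem (h4 ha) (h4 hq) fun h0 =>
    hd _ (h4 hq) h0 h6 (h' _ ((M.loc p').inv_mem q (hb'.le hq) h5))

theorem dmn (L : Loc K) :
    ∃ V : ValuationSubring K, Sub L.O V ∧ ∀ g ∈ L.O, L.ev g = 0 → g ≠ 0 → g⁻¹ ∉ V := by
  let I : Ideal L.O.toSubring :=
    { carrier := {g | L.ev (g : K) = 0}
      add_mem' := fun {a b} ha hb => by
        have ha' : L.ev (a : K) = 0 := ha
        have hb' : L.ev (b : K) = 0 := hb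
        change L.ev ((a : K) + b) = 0
        rw [L.ev_add _ a.2 _ b.2, ha', hb', add_zero]
      zero_mem' := Loc.ev_zero
      smul_mem' := fun c x hx => by
        have hx' : L.ev (x : K) = 0 := hx
        change L.ev ((c : K) * x) = 0
        rw [L.ev_mul _ c.2 _ x.2, hx', mul_zero] }
  have hI : I ≠ ⊤ := (Ideal.ne_top_iff_one I).2 fun h => by
    have h1 : L.ev (1 : K) = 0 := h
    rw [Loc.ev_one] at h1
    exact one_ne_zero h1
  obtain ⟨V, h1, h2⟩ := Ideal.image_subset_nonunits_valuationSubring I hI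
  refine ⟨V, fun f hf => h1 hf, fun g hg h0 hne => ?_⟩
  have h3 : g⁻¹⁻¹ ∈ V.nonunits := by
    rw [inv_inv]
    exact h2 ⟨⟨g, hg⟩, h0, rfl⟩
  exact (V.inv_mem_nonunits_iff.1 h3).resolve_left (inv_ne_zero hne)

theorem const {f : K}
    (h : ∀ V : ValuationSubring K, (∀ c : ℂ, algebraMap ℂ K c ∈ V) → f ∈ V) :
    f ∈ Set.range (algebraMap ℂ K) := by
  have e := iInf_valuationSubring_superset (s := ((⊥ : Subalgebra ℂ K).toSubring : Set K))
  rw [Subring.closure_eq] at e
  have h1 : f ∈ (integralClosure (⊥ : Subalgebra ℂ K).toSubring K).toSubring :=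
    e ▸ Subring.mem_iInf.2 fun V => h V.1 fun c => V.2 ((⊥ : Subalgebra ℂ K).algebraMap_mem c)
  have h2 : IsIntegral (⊥ : Subalgebra ℂ K) f := h1
  have : Algebra.IsIntegral ℂ (⊥ : Subalgebra ℂ K) := ⟨fun x => by
    obtain ⟨c, hc⟩ := Algebra.mem_bot.1 x.2
    have : x = algebraMap ℂ _ c := Subtype.ext hc.symm
    rw [this]
    exact isIntegral_algebraMap⟩
  have h3 : IsIntegral ℂ f := isIntegral_trans (A := (⊥ : Subalgebra ℂ K)) f h2
  exact minpoly.mem_range_of_degree_eq_one ℂ f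
    (IsAlgClosed.degree_eq_one_of_irreducible ℂ (minpoly.irreducible h3))

end RCen

open RCen in
theorem rowCen : OfCen := by
  intro K _ _ M
  refine ⟨ch M, fun V u hu h0 hA q hq hq0 hi => ?_, fun V p p' _ => sep M V p p',
    fun p => dmn _, fun u hu h0 f hf => ?_, fun u hu h0 u' hu' h0' f hf => ?_,
    fun u hu h0 I hI => ?_, fun f hf => const fun V hV => ?_⟩
  · obtain ⟨L, hL, h1, h2⟩ := cen (chA_fg M.fin u) hA hq hq0 hi
    exact ⟨⟨L, u, hu, h0, hL⟩, hL.le, h1, h2⟩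
  · exact mem_of_loc (chA_fg M.fin u) fun L hL => hf ⟨L, u, hu, h0, hL⟩ hL.le
  · refine mem_of_loc ((chA_fg M.fin u).sup (chA_fg M.fin u')) fun L hL => ?_
    obtain ⟨p, hle, hp⟩ := Model.exists_le hu h0 (le_sup_left.trans hL.le)
    obtain ⟨p', hle', hp'⟩ := Model.exists_le hu' h0' (le_sup_right.trans hL.le)
    obtain rfl : p = p' := Model.eq_of_le hle hle'
    exact hle (hf p (sup_le hp.le hp'.le))
  · by_contra hne
    have h1 : (1 : chA M.U u) ∉ I.radical := fun h =>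
      hne (Ideal.radical_eq_top.1 ((Ideal.eq_top_iff_one _).2 h))
    obtain ⟨L, hL, h2, -⟩ := exists_locOf_of_notMem (chA_fg M.fin u) h1
    obtain ⟨a, ha, h3⟩ := hI ⟨L, u, hu, h0, hL⟩ hL.le
    exact h3 (h2 a ha)
  · obtain ⟨u, hu, h0, hA⟩ := ch M V hV
    obtain ⟨L, hL, h1, -⟩ := cen (chA_fg M.fin u) hA (one_mem _) one_ne_zero
      (by rw [inv_one]; exact one_mem _)
    exact h1 f (hf ⟨L, u, hu, h0, hL⟩)

end Pool.Agent.MP_ee8c61_ag.M3S
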