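import Pool.Agent.MP_ee8c61_ag.M3S.SpecF

/-!
The class of a divisor in the first cohomology of the one-forms.
-/

set_option autoImplicit false

namespace Pool.Agent.MP_ee8c61_ag.M3S

open Pool.Agent.MP_96693b_ag.RS Pool.Agent.MP_cce4c9_lc.H87 WithZero

namespace RCls

variable {K : Type} [Field K] [Algebra ℂ K] {M : Model K 2}

theorem dd_mul (κ : Chart K 2) (f g : K) : dd κ (f * g) = f • dd κ g + g • dd κ f :=
  funext fun i => (κ.D i).leibniz f g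

theorem om_mem (κ : Chart K 2) {B : Subalgebra ℂ K} {f g : K} (hf : f ∈ B) (hg : g ∈ B) :
    g • dd κ f ∈ Om κ B :=
  (Om κ B).smul_mem ⟨g, hg⟩ (Submodule.subset_span ⟨f, hf, rfl⟩)

theorem eqn_neg {D : Dr M} {p : M.P} {η : K} (h : Eqn D p η) : Eqn (-D) p η⁻¹ :=
  ⟨inv_ne_zero h.1, fun C hC => by
    rw [Place.ord_inv, Int.cast_neg, h.2 C hC, Finsupp.neg_apply]⟩

/-- Pairs of a section of `-D` and a section of `D`. -/
def Pr (D : Dr M) (B : Subalgebra ℂ K) (f g : K) : Prop :=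
  ∀ p η, B ≤ (M.loc p).O → Eqn D p η → f * η⁻¹ ∈ (M.loc p).O ∧ g * η ∈ (M.loc p).O

/-- Sums of products, with the corresponding forms. -/
def T (κ : Chart K 2) (D : Dr M) (B : Subalgebra ℂ K) : AddSubmonoid (K × (Fin 2 → K)) :=
  AddSubmonoid.closure {x | ∃ f g, Pr D B f g ∧ x = (f * g, g • dd κ f)}

variable {κ : Chart K 2} {D : Dr M} {A B : Subalgebra ℂ K}

theorem mul_loc {f g η : K} {O : Subalgebra ℂ K} (h0 : η ≠ 0) (hf : f * η⁻¹ ∈ O)
    (hg : g * η ∈ O) : f * g ∈ O := by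
  have := mul_mem hf hg
  rwa [mul_mul_mul_comm, inv_mul_cancel₀ h0, mul_one] at this

theorem loc {x : K × (Fin 2 → K)} (hx : x ∈ T κ D B) {p : M.P} {η : K} (hp : B ≤ (M.loc p).O)
    (hη : Eqn D p η) : x.2 - (x.1 * η⁻¹) • dd κ η ∈ Om κ (M.loc p).O := by
  induction hx using AddSubmonoid.closure_induction with
  | mem x hx =>
    obtain ⟨f, g, h, rfl⟩ := hx
    obtain ⟨h1, h2⟩ := h p η hp hη
    have e : dd κ f = (f * η⁻¹) • dd κ η + η • dd κ (f * η⁻¹) := by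
      rw [← dd_mul, inv_mul_cancel_right₀ hη.1]
    have e' : g • dd κ f - (f * g * η⁻¹) • dd κ η = (g * η) • dd κ (f * η⁻¹) := by
      rw [e]
      module
    exact e' ▸ om_mem κ h1 h2
  | zero => simp
  | add x y _ _ hx hy =>
    have e : (x + y).2 - ((x + y).1 * η⁻¹) • dd κ η =
        (x.2 - (x.1 * η⁻¹) • dd κ η) + (y.2 - (y.1 * η⁻¹) • dd κ η) := by
      rw [Prod.fst_add, Prod.snd_add]
      module
    exact e ▸ add_mem hx hy

theorem mixed (he : ∀ p, ∃ η, Eqn D p η)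
    (ha : ∀ f, (∀ p, A ⊔ B ≤ (M.loc p).O → f ∈ (M.loc p).O) → f ∈ A ⊔ B)
    {x y : K × (Fin 2 → K)} (hx : x ∈ T κ D A) (hy : y ∈ T κ D B) :
    y.1 • x.2 - x.1 • y.2 ∈ Om κ (A ⊔ B) := by
  induction hx using AddSubmonoid.closure_induction with
  | mem x hx =>
    obtain ⟨f, g, h, rfl⟩ := hx
    induction hy using AddSubmonoid.closure_induction with
    | mem y hy =>
      obtain ⟨f', g', h', rfl⟩ := hy
      have k : ∀ p, A ⊔ B ≤ (M.loc p).O → (f * g ∈ (M.loc p).O ∧ f' * g' ∈ (M.loc p).O) ∧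
          f * g' ∈ (M.loc p).O ∧ f' * g ∈ (M.loc p).O := fun p hp => by
        obtain ⟨η, hη⟩ := he p
        obtain ⟨a, b⟩ := h p η (le_sup_left.trans hp) hη
        obtain ⟨a', b'⟩ := h' p η (le_sup_right.trans hp) hη
        exact ⟨⟨mul_loc hη.1 a b, mul_loc hη.1 a' b'⟩, mul_loc hη.1 a b', mul_loc hη.1 a' b⟩
      have e : (f' * g') • g • dd κ f - (f * g) • g' • dd κ f' =
          (f' * g) • dd κ (f * g') - (f * g) • dd κ (f' * g') := by
        rw [dd_mul, dd_mul]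
        module
      exact e ▸ sub_mem (om_mem κ (ha _ fun p hp => (k p hp).2.1) (ha _ fun p hp => (k p hp).2.2))
        (om_mem κ (ha _ fun p hp => (k p hp).1.2) (ha _ fun p hp => (k p hp).1.1))
    | zero => simp
    | add y z _ _ hy hz =>
      have e : ∀ x : K × (Fin 2 → K), (y + z).1 • x.2 - x.1 • (y + z).2 =
          (y.1 • x.2 - x.1 • y.2) + (z.1 • x.2 - x.1 • z.2) := fun x => by
        rw [Prod.fst_add, Prod.snd_add]
        module
      exact e _ ▸ add_mem hy hz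
  | zero => simp
  | add x z _ _ hx hz =>
    have e : y.1 • (x + z).2 - (x + z).1 • y.2 =
        (y.1 • x.2 - x.1 • y.2) + (y.1 • z.2 - z.1 • y.2) := by
      rw [Prod.fst_add, Prod.snd_add]
      module
    exact e ▸ add_mem hx hz

theorem smul_mem {c : K} (hc : c ∈ B) {x : K × (Fin 2 → K)} (hx : x ∈ T κ D B) :
    c • x ∈ T κ D B := by
  induction hx using AddSubmonoid.closure_induction with
  | mem x hx =>
    obtain ⟨f, g, h, rfl⟩ := hx
    refine AddSubmonoid.subset_closure ⟨f, c * g, fun p η hp hη => ⟨(h p η hp hη).1, ?_⟩, ?_⟩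
    · rw [mul_assoc]
      exact mul_mem (hp hc) (h p η hp hη).2
    · rw [Prod.smul_mk, smul_smul, smul_eq_mul, mul_left_comm]
  | zero => rw [smul_zero]; exact zero_mem _
  | add x y _ _ hx hy => rw [smul_add]; exact add_mem hx hy

variable (κ D B) in
/-- The ideal of the sums of products. -/
def idl : Ideal B where
  carrier := {s | ∃ θ, ((s : K), θ) ∈ T κ D B}
  add_mem' := fun ⟨θ, h⟩ ⟨θ', h'⟩ => ⟨θ + θ', add_mem h h'⟩
  zero_mem' := ⟨0, zero_mem _⟩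
  smul_mem' := fun c _ ⟨θ, h⟩ => ⟨(c : K) • θ, smul_mem c.2 h⟩

theorem gm (h : FinS M) {f η : K} {p : M.P} (hf : f ∈ Gm D B) (hp : B ≤ (M.loc p).O)
    (hη : Eqn D p η) : f * η ∈ (M.loc p).O :=
  (h.memL D p η hη f).1 fun C hC => hf C fun g hg => hC g (hp hg)

theorem one (h : B1 M) (hD : IsInt D) {a : K} (ha : a ∈ M.U) (h0 : a ≠ 0) :
    ∃ θ, ((1 : K), θ) ∈ T κ D (chA M.U a) := by
  have e : idl κ D (chA M.U a) = ⊤ := h.top a ha h0 _ fun p hp => by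
    obtain ⟨η, hη⟩ := h.eqn D hD p
    obtain ⟨q, q1, q2, q3⟩ := h.clr1 a ha h0 (-D) p hp η
      ((h.memL (-D) p η⁻¹ (eqn_neg hη) η).2 (by rw [mul_inv_cancel₀ hη.1]; exact one_mem _))
    obtain ⟨r, r1, r2, r3⟩ := h.clr1 a ha h0 D p hp η⁻¹
      ((h.memL D p η hη η⁻¹).2 (by rw [inv_mul_cancel₀ hη.1]; exact one_mem _))
    refine ⟨⟨q * r, mul_mem q1 r1⟩, ⟨(r * η⁻¹) • dd κ (q * η), AddSubmonoid.subset_closure
      ⟨q * η, r * η⁻¹, fun p' η' hp' hη' =>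
        ⟨gm h.toFinS q3 hp' (eqn_neg hη'), gm h.toFinS r3 hp' hη'⟩, ?_⟩⟩, ?_⟩
    · rw [mul_mul_mul_comm, mul_inv_cancel₀ hη.1, mul_one]
    · change (M.loc p).ev (q * r) ≠ 0
      rw [(M.loc p).ev_mul q (hp q1) r (hp r1)]
      exact mul_ne_zero q2 r2
  exact (Ideal.eq_top_iff_one _).1 e

end RCls

theorem rowCls : OfCls := by
  intro K _ _ M h κ D hD
  have k : ∀ a : K, ∃ θ, a ∈ M.U → a ≠ 0 → ((1 : K), θ) ∈ RCls.T κ D (chA M.U a) := fun a => by
    by_cases ha : a ∈ M.U ∧ a ≠ 0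
    · obtain ⟨θ, hθ⟩ := RCls.one (κ := κ) h hD ha.1 ha.2
      exact ⟨θ, fun _ _ => hθ⟩
    · exact ⟨0, fun h1 h2 => (ha ⟨h1, h2⟩).elim⟩
  choose θ hθ using k
  refine ⟨θ, fun a ha a0 b hb b0 => ?_, fun a ha a0 p η hp hη => ?_⟩
  · simpa using RCls.mixed (h.eqn D hD) (h.aff2 a ha a0 b hb b0) (hθ a ha a0) (hθ b hb b0)
  · simpa using RCls.loc (hθ a ha a0) hp hη

end Pool.Agent.MP_ee8c61_ag.M3S
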