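import Pool.Agent.MP_ee8c61_ag.M3S.SpecF

/-!
Places of a curve on a surface and their centres.
-/

set_option autoImplicit false

namespace Pool.Agent.MP_ee8c61_ag.M3S

open Pool.Agent.MP_96693b_ag.RS Pool.Agent.MP_cce4c9_lc Pool.Agent.MP_cce4c9_lc.H87 WithZero

namespace RCtr

variable {K : Type} [Field K] [Algebra ℂ K]

theorem res_mul_inv {v : Place ℂ K} {f : K} (h0 : f ≠ 0) (h1 : v.val f ≤ 1) (h2 : v.val f⁻¹ ≤ 1) :
    res v f * res v f⁻¹ = 1 := by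
  rw [← res_mul h1 h2, mul_inv_cancel₀ h0, res_one]

theorem res_ne {v : Place ℂ K} {f : K} (h : v.val f = 1) : res v f ≠ 0 :=
  fun e => ((res_eq_zero h.le).1 e).ne h

/-- The composite valuation ring. -/
def cV (v : Place ℂ K) (u : Place ℂ (Rf v)) : ValuationSubring K where
  carrier := {f | v.val f ≤ 1 ∧ u.val (res v f) ≤ 1}
  mul_mem' := fun {a b} ha hb => ⟨by rw [map_mul]; exact mul_le_one' ha.1 hb.1, by
    rw [res_mul ha.1 hb.1, map_mul]; exact mul_le_one' ha.2 hb.2⟩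
  one_mem' := ⟨by simp, by rw [res_one]; simp⟩
  add_mem' := fun {a b} ha hb => ⟨(v.val.map_add a b).trans (max_le ha.1 hb.1), by
    rw [res_add ha.1 hb.1]; exact (u.val.map_add _ _).trans (max_le ha.2 hb.2)⟩
  zero_mem' := ⟨by simp, by rw [res_zero]; simp⟩
  neg_mem' := fun {a} ha => ⟨by rw [Valuation.map_neg]; exact ha.1, by
    rw [res_neg ha.1, Valuation.map_neg]; exact ha.2⟩
  mem_or_inv_mem' := fun f => by
    have k : ∀ g : K, v.val g < 1 → v.val g ≤ 1 ∧ u.val (res v g) ≤ 1 := fun g h =>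
      ⟨h.le, by rw [(res_eq_zero h.le).2 h]; simp⟩
    rcases lt_trichotomy (v.val f) 1 with h | h | h
    · exact Or.inl (k f h)
    · have h0 : f ≠ 0 := fun e => by simp [e] at h
      have h2 : v.val f⁻¹ = 1 := by rw [map_inv₀, h, inv_one]
      rcases le_total (u.val (res v f)) 1 with h3 | h3
      · exact Or.inl ⟨h.le, h3⟩
      · refine Or.inr ⟨h2.le, ?_⟩
        rw [eq_inv_of_mul_eq_one_right (res_mul_inv h0 h.le h2.le), map_inv₀]
        exact inv_le_one_of_one_le₀ h3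
    · exact Or.inr (k _ (by rw [map_inv₀]; exact inv_lt_one_of_one_lt₀ h))

theorem not_inv {v : Place ℂ K} {u : Place ℂ (Rf v)} {g : K} (h0 : g ≠ 0) (h1 : v.val g ≤ 1)
    (h2 : u.val (res v g) < 1) : g⁻¹ ∉ cV v u := fun h => by
  have := congrArg u.val (res_mul_inv h0 h1 h.1)
  rw [map_mul, map_one] at this
  exact ((mul_le_of_le_one_right' h.2).trans_lt h2).ne this

variable {M : Model K 2} {C : Crv M} {u : Place ℂ (Rf C.1)} {p : M.P}

theorem sub_iff : Ctr C u p ↔ Sub (M.loc p).O (cV C.1 u) :=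
  ⟨fun h f hf => ⟨h.1 f hf, h.2 f hf⟩, fun h => ⟨fun f hf => (h f hf).1, fun f hf => (h f hf).2⟩⟩

theorem unit (h : Ctr C u p) {g : K} (hg : g ∈ (M.loc p).O) (h0 : (M.loc p).ev g ≠ 0) :
    u.val (res C.1 g) = 1 := by
  by_contra hn
  exact not_inv (Loc.ne_zero_of_ev h0) (h.1 g hg) (lt_of_le_of_ne (h.2 g hg) hn)
    (sub_iff.1 h _ ((M.loc p).inv_mem g hg h0))

theorem cev (hu : u.Res) (h : Ctr C u p) {g : K} (hg : g ∈ (M.loc p).O) :
    u.ev (res C.1 g) = (M.loc p).ev g ∧ ((M.loc p).ev g = 0 ↔ u.val (res C.1 g) < 1) := by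
  have h1 := hu.ev_spec (h.2 g hg)
  have h2 : u.ev (res C.1 g) = (M.loc p).ev g := by
    by_contra hn
    have hc := (M.loc p).O.algebraMap_mem (u.ev (res C.1 g))
    have := unit h (sub_mem hg hc) (by
      rw [Loc.ev_sub hg hc, (M.loc p).ev_alg]
      exact sub_ne_zero.2 (Ne.symm hn))
    rw [res_sub (h.1 g hg) (C.1.const_le _), res_const] at this
    exact h1.ne this
  refine ⟨h2, fun e => ?_, fun e => by_contra fun hn => e.ne (unit h hg hn)⟩
  rwa [h2, e, map_zero, sub_zero] at h1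

/-- The residue map on the local ring of a point of the curve. -/
noncomputable def rs (h : On C p) : (M.loc p).O →+* Rf C.1 where
  toFun g := res C.1 g
  map_one' := res_one
  map_mul' a b := res_mul (h _ a.2) (h _ b.2)
  map_zero' := res_zero
  map_add' a b := res_add (h _ a.2) (h _ b.2)

/-- The maximal ideal. -/
def mx (L : Loc K) : Ideal L.O := L.m.comap (Algebra.linearMap L.O K)

theorem con (B : B1 M) (hF : IsFF ℂ (Rf C.1)) (h : On C p) : ∃ u, Ctr C u p := by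
  have hI : (mx (M.loc p)).map (rs h).rangeRestrict ≠ ⊤ := fun e => by
    obtain ⟨g, hg, e1⟩ := (Ideal.mem_map_iff_of_surjective _
      (rs h).rangeRestrict_surjective).1 ((Ideal.eq_top_iff_one _).1 e)
    have e2 : res C.1 g = 1 := congrArg Subtype.val e1
    have m1 : (g : K) - 1 ∈ (M.loc p).O := sub_mem g.2 (one_mem _)
    have e3 := B.evz C p h _ m1 ((res_eq_zero (h _ m1)).1 (by
      rw [res_sub (h _ g.2) (by simp), e2, res_one, sub_self]))
    have e4 : (M.loc p).ev g = 0 := hg.2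
    rw [Loc.ev_sub g.2 (one_mem _), e4, Loc.ev_one] at e3
    simp at e3
  obtain ⟨V, h1, h2⟩ := Ideal.image_subset_nonunits_valuationSubring _ hI
  obtain ⟨g, hg, g0, g1⟩ := B.ndom C p h
  have h3 : res C.1 g ∈ V.nonunits :=
    h2 ⟨_, Ideal.mem_map_of_mem _ (show (⟨g, hg⟩ : (M.loc p).O) ∈ mx _ from ⟨hg, g0⟩), rfl⟩
  obtain ⟨u, hu⟩ := H7.dvr ℂ _ hF V
    (fun c => h1 ⟨⟨_, (M.loc p).O.algebraMap_mem c⟩, res_const c⟩) (fun e => by
      refine (V.mem_nonunits_iff_or.1 h3).resolve_left (res_ne g1) ?_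
      rw [e]; trivial)
  exact ⟨u, h, fun f hf => (hu _).1 (h1 ⟨⟨f, hf⟩, rfl⟩)⟩

theorem sm (B : B1 M) (hu : u.Res) (h : Ctr C u p) {κ : Chart K 2} (hκ : IsCrd (M.loc p) κ)
    (hx : Eqn (pr C) p (κ.x 0)) : u.val (res C.1 (κ.x 1)) = exp (-1 : ℤ) ∧
      ∀ s, u.val s ≤ 1 → ∃ g ∈ (M.loc p).O, res C.1 g = s := by
  have xm : ∀ i, κ.x i ∈ (M.loc p).m := fun i => hκ.span ▸ Loc.subset_span ⟨i, rfl⟩
  have x0 : res C.1 (κ.x 0) = 0 := by
    have h1 := hx.2 C h.1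
    rw [Finsupp.single_eq_same] at h1
    have h2 : C.1.ord (κ.x 0) = 1 := by exact_mod_cast h1
    rw [res_eq_zero (h.1 _ (xm 0).1), C.1.val_lt_one (C.1.val_ne hx.1), h2]
    exact one_pos
  have dec : ∀ g ∈ (M.loc p).O, (M.loc p).ev g = 0 →
      ∃ b ∈ (M.loc p).O, res C.1 g = res C.1 b * res C.1 (κ.x 1) := fun g hg g0 => by
    have h1 : g ∈ (M.loc p).span (Set.range κ.x) := hκ.span ▸ (⟨hg, g0⟩ : g ∈ (M.loc p).m)
    obtain ⟨c, hc⟩ := (Submodule.mem_span_range_iff_exists_fun _).1 h1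
    refine ⟨c 1, (c 1).2, ?_⟩
    have e : g = c 0 * κ.x 0 + c 1 * κ.x 1 := by rw [← hc, Fin.sum_univ_two]; rfl
    rw [e, res_add (h.1 _ (mul_mem (c 0).2 (xm 0).1)) (h.1 _ (mul_mem (c 1).2 (xm 1).1)),
      res_mul (h.1 _ (c 0).2) (h.1 _ (xm 0).1), res_mul (h.1 _ (c 1).2) (h.1 _ (xm 1).1), x0,
      mul_zero, zero_add]
  generalize ht : res C.1 (κ.x 1) = t at dec
  have t0 : t ≠ 0 := by
    obtain ⟨g, hg, g0, g1⟩ := B.ndom C p h.1
    obtain ⟨b, -, e⟩ := dec g hg g0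
    exact right_ne_zero_of_mul (e ▸ res_ne g1)
  have t1 : 0 < u.ord t :=
    (u.val_lt_one (u.val_ne t0)).1 (ht ▸ (cev hu h (xm 1).1).2.1 (xm 1).2)
  have A : ∀ n : ℕ, ∀ g ∈ (M.loc p).O, res C.1 g ≠ 0 → u.ord (res C.1 g) ≤ n →
      ∃ w ∈ (M.loc p).O, (M.loc p).ev w ≠ 0 ∧ ∃ e : ℤ, res C.1 g = res C.1 w * t ^ e := by
    intro n
    induction n using Nat.strong_induction_on with
    | _ n ih =>
      intro g hg g0 hn
      by_cases h0 : (M.loc p).ev g = 0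
      · obtain ⟨b, hb, e⟩ := dec g hg h0
        have b0 : res C.1 b ≠ 0 := left_ne_zero_of_mul (e ▸ g0)
        have b1 := (u.val_le_one (u.val_ne b0)).1 (h.2 b hb)
        rw [e, u.ord_mul (u.val_ne b0) (u.val_ne t0)] at hn
        obtain ⟨w, hw, w0, e', he⟩ := ih (n - 1) (by omega) b hb b0 (by omega)
        exact ⟨w, hw, w0, e' + 1, by rw [e, he, zpow_add_one₀ t0, mul_assoc]⟩
      · exact ⟨g, hg, h0, 0, by rw [zpow_zero, mul_one]⟩
  have A2 : ∀ s : Rf C.1, s ≠ 0 →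
      ∃ w ∈ (M.loc p).O, ∃ e : ℤ, s = res C.1 w * t ^ e ∧ u.ord s = e * u.ord t := by
    intro s s0
    obtain ⟨f, f1, rfl⟩ := res_surj s
    obtain ⟨q, hq, q1, hf⟩ := B.frac C p h.1 f f1
    have e0 := res_mul q1.le f1
    obtain ⟨w, hw, w0, e, he⟩ := A _ q hq (res_ne q1) (Int.self_le_toNat _)
    obtain ⟨w', hw', w0', e', he'⟩ := A _ _ hf (e0 ▸ mul_ne_zero (res_ne q1) s0)
      (Int.self_le_toNat _)
    have hi := (M.loc p).inv_mem w hw w0
    have e1 := res_mul_inv (Loc.ne_zero_of_ev w0) (h.1 _ hw) (h.1 _ hi)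
    have u1 : u.val (res C.1 (w' * w⁻¹)) = 1 := unit h (mul_mem hw' hi) (by
      rw [(M.loc p).ev_mul _ hw' _ hi, Loc.ev_inv hw w0]
      exact mul_ne_zero w0' (inv_ne_zero w0))
    have e2 : res C.1 f = res C.1 (w' * w⁻¹) * t ^ (e' - e) := by
      have := left_ne_zero_of_mul_eq_one e1
      have t2 : t ^ e ≠ 0 := zpow_ne_zero _ t0
      rw [res_mul (h.1 _ hw') (h.1 _ hi), eq_inv_of_mul_eq_one_right e1, zpow_sub₀ t0]
      rw [he', he] at e0
      field_simp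
      linear_combination -e0
    refine ⟨_, mul_mem hw' hi, e' - e, e2, ?_⟩
    rw [e2, u.ord_mul (by rw [u1]; exact one_ne_zero) (u.val_ne (zpow_ne_zero _ t0)),
      u.ord_of_val_one u1, u.ord_zpow, zero_add]
  have t2 : u.ord t = 1 := by
    obtain ⟨π, hπ⟩ := u.exists_unif
    obtain ⟨-, -, e, -, he⟩ := A2 π fun e => by
      rw [e, map_zero] at hπ
      exact exp_ne_zero hπ.symm
    rw [u.ord_eq hπ] at he
    exact Int.eq_one_of_mul_eq_one_left t1.le he.symm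
  refine ⟨by rw [u.val_eq (u.val_ne t0), t2], fun s hs => ?_⟩
  by_cases s0 : s = 0
  · exact ⟨0, zero_mem _, by rw [res_zero, s0]⟩
  obtain ⟨w, hw, e, e1, e2⟩ := A2 s s0
  have e3 := (u.val_le_one (u.val_ne s0)).1 hs
  rw [e2, t2, mul_one] at e3
  obtain ⟨n, rfl⟩ := Int.eq_ofNat_of_zero_le e3
  refine ⟨w * κ.x 1 ^ n, mul_mem hw (pow_mem (xm 1).1 n), ?_⟩
  have e4 : res C.1 (κ.x 1 ^ n) = t ^ n := ht ▸ map_pow (rs h.1) ⟨_, (xm 1).1⟩ n
  rw [res_mul (h.1 _ hw) (h.1 _ (pow_mem (xm 1).1 n)), e4, e1, zpow_natCast]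

end RCtr

theorem rowCtr : OfCtr := by
  intro K _ _ M B hF
  have hu := fun (C : Crv M) u => H51.res (hF C) u
  have cex : ∀ (C : Crv M) u, ∃ p, Ctr C u p := fun C u => by
    obtain ⟨a, ha, a0, h⟩ := B.ch (RCtr.cV C.1 u) fun c =>
      ⟨C.1.const_le c, by rw [res_const]; exact u.const_le c⟩
    obtain ⟨p, -, hp, -⟩ := B.cen _ a ha a0 h 1 (one_mem _) one_ne_zero
      (by rw [inv_one]; exact one_mem _)
    exact ⟨p, RCtr.sub_iff.2 hp⟩
  have cuq : ∀ (C : Crv M) u p p', Ctr C u p → Ctr C u p' → p = p' := fun C u p p' h h' =>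
    B.sep _ p p' (RCtr.sub_iff.1 h) (RCtr.sub_iff.1 h') fun g hg g0 g1 =>
      RCtr.not_inv g1 (h.1 g hg) ((RCtr.cev (hu C u) h hg).2.1 g0)
  have cfin : ∀ (C : Crv M) p, {u | Ctr C u p}.Finite := fun C p => by
    by_cases h : On C p
    · obtain ⟨g, hg, g0, g1⟩ := B.ndom C p h
      refine (H7.degF (hF C) (res C.1 g)).1.subset fun u hu' => ?_
      exact ((u.val_lt_one (u.val_ne (RCtr.res_ne g1))).1
        ((RCtr.cev (hu C u) hu' hg).2.1 g0)).ne'
    · exact Set.finite_empty.subset fun u hu' => h hu'.1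
  refine ⟨cex, cuq, fun C p h => RCtr.con B (hF C) h, fun C u p h g hg => RCtr.cev (hu C u) h hg,
    cfin, fun C hfin => ?_, fun C u p h a ha a0 h1 h2 => ?_,
    fun C u p κ h hκ hx => RCtr.sm B (hu C u) h hκ hx⟩
  · have := (H7.ll ℂ _ (hF C)).2.2.2
    refine Set.infinite_univ ((hfin.biUnion fun p _ => cfin C p).subset fun u _ => ?_)
    obtain ⟨p, hp⟩ := cex C u
    exact Set.mem_biUnion (show p ∈ {p | On C p} from hp.1) hp
  · obtain ⟨p', h3, hp, -⟩ := B.cen (RCtr.cV C.1 u) a ha a0 (fun f hf => ⟨h1 f hf, h2 f hf⟩) 1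
      (one_mem _) one_ne_zero (by rw [inv_one]; exact one_mem _)
    rwa [cuq C u p p' h (RCtr.sub_iff.2 hp)]

end Pool.Agent.MP_ee8c61_ag.M3S
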