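import Pool.Agent.MP_ee8c61_ag.M3S.SpecF

/-! Intersection numbers as degrees of restrictions. -/

set_option autoImplicit false

namespace Pool.Agent.MP_ee8c61_ag.M3S

open Pool.Agent.MP_96693b_ag.RS Pool.Agent.MP_cce4c9_lc.H87 WithZero Finsupp Filter
open Pool.Agent.MP_cce4c9_lc (H7.degF)

namespace RDeg

variable {K : Type} [Field K] [Algebra ℂ K] {M : Model K 2} {D D' : Dr M} {C C' : Crv M}
  {p : M.P} {η η' h h' g : K} {u : Place ℂ (Rf C.1)} {R R' : Dv ℂ (Rf C.1)} {n n' : ℤ}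

theorem res_ne {v : Place ℂ K} (e : v.val g = 1) : res v g ≠ 0 := fun k =>
  ((res_eq_zero e.le).1 k).ne e

theorem ord_res_mul (u : Place ℂ (Rf C.1)) (e : C.1.val g = 1) (e' : C.1.val h = 1) :
    u.ord (res C.1 (g * h)) = u.ord (res C.1 g) + u.ord (res C.1 h) := by
  rw [res_mul e.le e'.le, u.ord_mul (u.val_ne (res_ne e)) (u.val_ne (res_ne e'))]

theorem val_one (hp : On C p) (e : Eqn D p η) (m : Mv D C h) : C.1.val (η * h) = 1 := by
  rw [C.1.val_one_iff (C.1.val_ne (mul_ne_zero e.1 m.1)),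
    C.1.ord_mul (C.1.val_ne e.1) (C.1.val_ne m.1), ← Int.cast_inj (α := ℝ), Int.cast_add,
    e.2 C hp, m.2, add_neg_cancel, Int.cast_zero]

theorem eqn_mul (e : Eqn D p η) (e' : Eqn D' p η') : Eqn (D + D') p (η * η') :=
  ⟨mul_ne_zero e.1 e'.1, fun C hp => by
    rw [C.1.ord_mul (C.1.val_ne e.1) (C.1.val_ne e'.1), Int.cast_add, e.2 C hp, e'.2 C hp,
      Finsupp.add_apply]⟩

theorem mv_mul (m : Mv D C h) (m' : Mv D' C h') : Mv (D + D') C (h * h') :=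
  ⟨mul_ne_zero m.1 m'.1, by
    rw [C.1.ord_mul (C.1.val_ne m.1) (C.1.val_ne m'.1), Int.cast_add, m.2, m'.2,
      Finsupp.add_apply, neg_add]⟩

theorem eqn_zero : Eqn (0 : Dr M) p 1 := ⟨one_ne_zero, fun C _ => by simp⟩

theorem int_zero : IsInt (0 : Dr M) := fun _ => ⟨0, by simp⟩

theorem int_add (a : IsInt D) (b : IsInt D') : IsInt (D + D') := fun C => by
  obtain ⟨m, hm⟩ := a C
  obtain ⟨k, hk⟩ := b C
  exact ⟨m + k, by rw [Finsupp.add_apply, hm, hk, Int.cast_add]⟩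

theorem int_neg (a : IsInt D) : IsInt (-D) := fun C => by
  obtain ⟨m, hm⟩ := a C
  exact ⟨-m, by rw [Finsupp.neg_apply, hm, Int.cast_neg]⟩

theorem int_pr (C : Crv M) : IsInt (pr C) := fun C' => by
  classical
  rw [single_apply]
  split_ifs
  · exact ⟨1, Int.cast_one.symm⟩
  · exact ⟨0, Int.cast_zero.symm⟩

theorem II_pr (C C' : Crv M) : II M (pr C) (pr C') = qq C C' := by
  simp [II]

theorem deg_nonneg (k : ∀ u, 0 ≤ R u) : 0 ≤ R.degree := Finset.sum_nonneg fun u _ => k u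

theorem deg_pos (k : ∀ u, 0 ≤ R u) : 0 < R.degree ↔ ∃ u, 0 < R u := by
  refine ⟨fun e => ?_, fun ⟨u, e⟩ => Finset.sum_pos' (fun u _ => k u)
    ⟨u, mem_support_iff.2 e.ne', e⟩⟩
  by_contra hn
  exact e.not_ge (Finset.sum_nonpos fun u _ => not_lt.1 fun e' => hn ⟨u, e'⟩)

variable (H : B2 M)
include H

theorem val_unit (c : Ctr C u p) (e : (M.loc p).ev g ≠ 0) : u.val (res C.1 g) = 1 :=
  le_antisymm (c.2 g (Loc.mem_of_ev e))
    (not_lt.1 fun k => e ((H.cev C u p c g (Loc.mem_of_ev e)).2.2 k))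

theorem indep (c : Ctr C u p) (e : Eqn D p η) (e' : Eqn D p η') (m : Mv D C h) :
    u.ord (res C.1 (η * h)) = u.ord (res C.1 (η' * h)) := by
  have r := H.rat D p η η' e e'
  rw [show η * h = η / η' * (η' * h) by rw [← mul_assoc, div_mul_cancel₀ _ e'.1],
    ord_res_mul u ((H.unit p _).1 r C c.1) (val_one c.1 e' m),
    u.ord_of_val_one (val_unit H c r), zero_add]

theorem isR_of (m : Mv D C h)
    (k : ∀ u p, Ctr C u p → ∃ η, Eqn D p η ∧ R u = u.ord (res C.1 (η * h))) : IsR D C h R :=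
  fun u p η c e => by
    obtain ⟨η', e', k'⟩ := k u p c
    rw [k', indep H c e e' m]

theorem exR (a : IsInt D) (m : Mv D C h) : ∃ R, IsR D C h R := by
  choose c hc using H.cex C
  choose ξ hξ using H.eqn D a
  obtain ⟨t, -, ht⟩ := exists_finset_cover {p | On C p} (fun a b => Eqn D b (ξ a))
    fun a _ => H.sp D a _ (hξ a)
  have fin : (Function.support fun u : Place ℂ (Rf C.1) =>
      u.ord (res C.1 (ξ (c u) * h))).Finite := by
    refine (t.finite_toSet.biUnion fun a _ =>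
      (H7.degF (H.ff C) (res C.1 (ξ a * h))).1).subset fun u hu => ?_
    obtain ⟨a, ha, e⟩ := ht (c u) (hc u).1
    refine Set.mem_biUnion ha ?_
    rwa [Function.mem_support, indep H (hc u) e (hξ _) m]
  refine ⟨ofSupportFinite _ fin, isR_of H m fun u p k => ⟨ξ p, hξ p, ?_⟩⟩
  rw [H.cuq C u p (c u) k (hc u)]
  rfl

theorem ruq (a : IsInt D) (r : IsR D C h R) (r' : IsR D C h R') : R = R' := by
  ext u
  obtain ⟨p, c⟩ := H.cex C u
  obtain ⟨η, e⟩ := H.eqn D a p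
  rw [r u p η c e, r' u p η c e]

theorem isR_add (a : IsInt D) (a' : IsInt D') (m : Mv D C h) (m' : Mv D' C h')
    (r : IsR D C h R) (r' : IsR D' C h' R') : IsR (D + D') C (h * h') (R + R') :=
  isR_of H (mv_mul m m') fun u p c => by
    obtain ⟨η, e⟩ := H.eqn D a p
    obtain ⟨η', e'⟩ := H.eqn D' a' p
    refine ⟨_, eqn_mul e e', ?_⟩
    rw [mul_mul_mul_comm, ord_res_mul u (val_one c.1 e m) (val_one c.1 e' m'), Finsupp.add_apply,
      r u p η c e, r' u p η' c e']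

theorem isR_zero (m : Mv (0 : Dr M) C h) : IsR 0 C h (dv ℂ (res C.1 h)) :=
  isR_of H m fun u p _ => ⟨1, eqn_zero, by rw [one_mul, dv_apply (H7.degF (H.ff C) _).1]⟩

omit H in
/-- The degree of the restriction of `D` to `C` is `n`. -/
def Dg (D : Dr M) (C : Crv M) (n : ℤ) : Prop :=
  ∀ h, Mv D C h → ∃ R, IsR D C h R ∧ R.degree = n

theorem dg_of (a : IsInt D) (m : Mv D C h) (r : IsR D C h R) : Dg D C R.degree := fun h' m' => by
  have m0 : Mv (0 : Dr M) C (h' / h) := ⟨div_ne_zero m'.1 m.1, by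
    rw [div_eq_mul_inv, C.1.ord_mul (C.1.val_ne m'.1) (C.1.val_ne (inv_ne_zero m.1)), C.1.ord_inv,
      Int.cast_add, Int.cast_neg, m.2, m'.2]
    simp⟩
  have := isR_add H a int_zero m m0 r (isR_zero H m0)
  rw [add_zero, mul_div_cancel₀ _ m.1] at this
  exact ⟨_, this, by rw [map_add, (H7.degF (H.ff C) _).2.1, add_zero]⟩

theorem dg_ex (a : IsInt D) (C : Crv M) : ∃ n, Dg D C n :=
  let ⟨_, m⟩ := H.mv D C a
  let ⟨_, r⟩ := exR H a m
  ⟨_, dg_of H a m r⟩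

theorem dg_uniq (a : IsInt D) (k : Dg D C n) (k' : Dg D C n') : n = n' := by
  obtain ⟨h, m⟩ := H.mv D C a
  obtain ⟨R, r, rfl⟩ := k h m
  obtain ⟨R', r', rfl⟩ := k' h m
  rw [ruq H a r r']

theorem dg_add (a : IsInt D) (a' : IsInt D') (k : Dg D C n) (k' : Dg D' C n') :
    Dg (D + D') C (n + n') := by
  obtain ⟨h, m⟩ := H.mv D C a
  obtain ⟨h', m'⟩ := H.mv D' C a'
  obtain ⟨R, r, rfl⟩ := k h m
  obtain ⟨R', r', rfl⟩ := k' h' m'
  rw [← map_add]
  exact dg_of H (int_add a a') (mv_mul m m') (isR_add H a a' m m' r r')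

theorem dg_zero : Dg (0 : Dr M) C 0 := fun _ m => ⟨_, isR_zero H m, (H7.degF (H.ff C) _).2.1⟩

theorem dg_II (a : IsInt D) (C : Crv M) : ∃ n, Dg D C n ∧ (n : ℝ) = II M D (pr C) := by
  let S : AddSubgroup (Dr M) :=
    { carrier := {D | IsInt D ∧ ∃ n, Dg D C n ∧ (n : ℝ) = II M D (pr C)}
      zero_mem' := ⟨int_zero, 0, dg_zero H, by simp⟩
      add_mem' := fun ⟨a, n, k, e⟩ ⟨a', n', k', e'⟩ => ⟨int_add a a', n + n', dg_add H a a' k k', by
        rw [map_add, LinearMap.add_apply, Int.cast_add, e, e']⟩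
      neg_mem' := fun {D} ⟨a, n, k, e⟩ => by
        obtain ⟨n', k'⟩ := dg_ex H (int_neg a) C
        have := dg_add H a (int_neg a) k k'
        rw [add_neg_cancel] at this
        have e' : n' = -n := eq_neg_of_add_eq_zero_right (dg_uniq H int_zero this (dg_zero H))
        exact ⟨int_neg a, n', k', by rw [map_neg, LinearMap.neg_apply, e', Int.cast_neg, e]⟩ }
  have h1 : ∀ C', pr C' ∈ S := fun C' =>
    ⟨int_pr C', qq C' C, Classical.epsilon_spec (dg_ex H (int_pr C') C), (II_pr C' C).symm⟩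
  have h2 : D ∈ S := by
    rw [← D.sum_single]
    refine sum_mem fun C' _ => ?_
    obtain ⟨m, hm⟩ := a C'
    have := zsmul_mem (h1 C') m
    rwa [smul_single, zsmul_eq_mul, mul_one, ← hm] at this
  exact h2.2

theorem rex (a : IsInt D) (m : Mv D C h) :
    ∃ R, IsR D C h R ∧ (R.degree : ℝ) = II M D (pr C) := by
  obtain ⟨n, k, e⟩ := dg_II H a C
  obtain ⟨R, r, rfl⟩ := k h m
  exact ⟨R, r, e⟩

theorem num {f : K} (C : Crv M) (hf : f ≠ 0) : II M (dvr M f) (pr C) = 0 := by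
  have a : IsInt (dvr M f) := fun C => ⟨_, H.dva f C⟩
  have m : Mv (dvr M f) C f⁻¹ := ⟨inv_ne_zero hf, by rw [C.1.ord_inv, Int.cast_neg, H.dva]⟩
  obtain ⟨R, r, e⟩ := rex H a m
  have r0 : IsR (dvr M f) C f⁻¹ 0 := isR_of H m fun u p _ =>
    ⟨f, ⟨hf, fun C _ => (H.dva f C).symm⟩, by rw [mul_inv_cancel₀ hf, res_one, u.ord_one]; rfl⟩
  rw [← e, ruq H a r r0, map_zero, Int.cast_zero]

/-- The restriction of a curve to another curve. -/
theorem two (ne : C' ≠ C) : ∃ R : Dv ℂ (Rf C.1), (R.degree : ℝ) = II M (pr C') (pr C) ∧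
    (∀ u, 0 ≤ R u) ∧ ∀ u p, Ctr C u p → (0 < R u ↔ On C' p) := by
  have m : Mv (pr C') C 1 := ⟨one_ne_zero, by simp [single_eq_of_ne ne.symm]⟩
  obtain ⟨R, r, e⟩ := rex H (int_pr C') m
  have k1 : ∀ u p, Ctr C u p → On C' p → 0 < R u := fun u p c o => by
    obtain ⟨η, h1, h2, -⟩ := H.eqn1 C' p o
    have h3 := val_one c.1 h2 m
    have h4 : C'.1.val η < 1 := by
      rw [C'.1.val_lt_one (C'.1.val_ne h2.1), ← Int.cast_pos (R := ℝ), h2.2 C' o, single_eq_same]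
      exact one_pos
    rw [r u p η c h2]
    rw [mul_one] at h3 ⊢
    exact (u.val_lt_one (u.val_ne (res_ne h3))).1 ((H.cev C u p c η h1).2.1 (H.evz C' p o η h1 h4))
  have k2 : ∀ u p, Ctr C u p → ¬ On C' p → R u = 0 := fun u p c o => by
    rw [r u p 1 c ⟨one_ne_zero, fun C₁ o₁ => ?_⟩, one_mul, res_one, u.ord_one]
    rw [single_eq_of_ne (fun k : C₁ = C' => o (k ▸ o₁))]
    simp
  refine ⟨R, e, fun u => ?_, fun u p c => ⟨fun k => by_contra fun o => k.ne' (k2 u p c o),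
    k1 u p c⟩⟩
  obtain ⟨p, c⟩ := H.cex C u
  by_cases o : On C' p
  · exact (k1 u p c o).le
  · exact (k2 u p c o).ge

theorem wpos (C : Crv M) : 1 ≤ II M (wD M) (pr C) := by
  obtain ⟨p₀, o₀⟩ := (H.cinf C).nonempty
  obtain ⟨u₀, hu₀, n₀, l₀⟩ := Model.isPt p₀
  have i₀ : InC (chA M.U u₀) C := fun f hf => o₀ f (l₀.le hf)
  have m : Mv (wD M) C u₀ := ⟨n₀, eq_neg_of_add_eq_zero_left ((H.wC u₀ hu₀ n₀ C).1 i₀)⟩
  obtain ⟨R, r, e⟩ := rex H H.wZ m
  have key : ∀ y : Place ℂ (Rf C.1), ∃ a, C.1.val (a⁻¹ * u₀) = 1 ∧ a ≠ 0 ∧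
      R y = y.ord (res C.1 (a⁻¹ * u₀)) ∧ ∀ v ∈ M.U, y.val (res C.1 (v / a)) ≤ 1 := fun y => by
    obtain ⟨p, c⟩ := H.cex C y
    obtain ⟨a, ha, a0, l⟩ := Model.isPt p
    have e := H.isW a ha a0 p l.le
    exact ⟨a, val_one c.1 e m, a0, r y p _ c e, fun v hv => c.2 _ (l.le (div_mem_chA hv))⟩
  have nn : ∀ y, 0 ≤ R y := fun y => by
    obtain ⟨a, h1, -, h2, h3⟩ := key y
    rw [h2, ← y.val_le_one (y.val_ne (res_ne h1)), inv_mul_eq_div]
    exact h3 u₀ hu₀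
  rw [← e, ← Int.cast_one, Int.cast_le]
  refine (deg_pos nn).2 (by_contra fun hn => ?_)
  have z : ∀ y, R y = 0 := fun y => le_antisymm (not_lt.1 fun k => hn ⟨y, k⟩) (nn y)
  let A : Subalgebra ℂ K :=
    { carrier := {f | C.1.val f ≤ 1 ∧ res C.1 f ∈ (⊥ : IntermediateField ℂ (Rf C.1))}
      mul_mem' := fun a b => ⟨by rw [map_mul]; exact mul_le_one' a.1 b.1, by
        rw [res_mul a.1 b.1]; exact mul_mem a.2 b.2⟩
      add_mem' := fun a b => ⟨(C.1.val.map_add _ _).trans (max_le a.1 b.1), by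
        rw [res_add a.1 b.1]; exact add_mem a.2 b.2⟩
      algebraMap_mem' := fun c => ⟨C.1.const_le c, by
        rw [res_const]; exact IntermediateField.algebraMap_mem _ c⟩ }
  have hA : chA M.U u₀ ≤ A := chA_le.2 fun v hv => by
    have h0 := i₀ _ (div_mem_chA hv)
    refine ⟨h0, IntermediateField.mem_bot.2 ((H7.degF (H.ff C) _).2.2 fun y => ?_)⟩
    obtain ⟨a, h1, a0, h2, h3⟩ := key y
    have h4 := h3 v hv
    rw [show v / a = v / u₀ * (a⁻¹ * u₀) by field_simp, res_mul h0 h1.le, map_mul,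
      (y.val_one_iff (y.val_ne (res_ne h1))).2 (h2.symm.trans (z y)), mul_one] at h4
    exact h4
  have dv : ∀ {f s : K}, C.1.val f ≤ 1 → C.1.val s = 1 → s ∈ A → f * s ∈ A → f ∈ A :=
    fun {f s} h1 h2 h3 h4 => ⟨h1, by
      have := div_mem h4.2 h3.2
      rwa [res_mul h1 h2.le, mul_div_cancel_right₀ _ (res_ne h2)] at this⟩
  have hO : ∀ g ∈ (M.loc p₀).O, g ∈ A := fun g hg => by
    obtain ⟨a, ha, q, hq, h1, h2⟩ := l₀.frac g hg
    exact dv (o₀ g hg) ((H.unit p₀ q).1 h1 C o₀) (hA hq) (h2 ▸ hA ha)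
  obtain ⟨y, -⟩ := H.con C p₀ o₀
  obtain ⟨π, hπ⟩ := y.exists_unif
  obtain ⟨f, h1, rfl⟩ := res_surj π
  obtain ⟨s, h2, h3, h4⟩ := H.frac C p₀ o₀ f h1
  obtain ⟨c, hc⟩ := IntermediateField.mem_bot.1 (dv h1 h3 (hO s h2) (hO _ (mul_comm s f ▸ h4))).2
  have h5 := y.ord_eq (n := 1) hπ
  rw [← hc, y.ord_const] at h5
  exact zero_ne_one h5

end RDeg

open RDeg

theorem rowDeg : OfDeg := by
  intro K _ _ M H
  refine ⟨fun D C h a m => rex H a m, fun D C h R R' a r r' => ruq H a r r',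
    fun f C hf => num H C hf, fun C' C ne => ?_, fun C' C ne => ?_, fun C' C ne => ?_, wpos H⟩
  all_goals obtain ⟨R, e, nn, k⟩ := two H ne
  · rw [← e]
    exact Int.cast_nonneg (deg_nonneg nn)
  · rw [← e, Int.cast_pos, deg_pos nn]
    refine ⟨fun ⟨u, hu⟩ => ?_, fun ⟨p, o', o⟩ => ?_⟩
    · obtain ⟨p, c⟩ := H.cex C u
      exact ⟨p, (k u p c).1 hu, c.1⟩
    · obtain ⟨u, c⟩ := H.con C p o
      exact ⟨u, (k u p c).2 o'⟩
  · choose c hc using H.cex C
    refine (R.support.finite_toSet.image c).subset fun p ⟨o', o⟩ => ?_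
    obtain ⟨u, cu⟩ := H.con C p o
    exact ⟨u, mem_support_iff.2 ((k u p cu).2 o').ne', H.cuq C u _ _ (hc u) cu⟩

end Pool.Agent.MP_ee8c61_ag.M3S
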