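import Pool.Agent.MP_ee8c61_ag.M3S.SpecF

/-! The restriction sequence of a curve on a surface. -/

set_option autoImplicit false

namespace Pool.Agent.MP_ee8c61_ag.M3S

open Pool.Agent.MP_96693b_ag.RS Pool.Agent.MP_cce4c9_lc.H87 WithZero Finsupp Filter Module

noncomputable section

namespace REx

variable {K : Type} [Field K] [Algebra ℂ K] {M : Model K 2}

theorem val_mv {D : Dr M} {C : Crv M} {h : K} (hm : Mv D C h) : C.1.val h = exp ⌊D C⌋ := by
  have e : D C = ((-C.1.ord h : ℤ) : ℝ) := by rw [Int.cast_neg, hm.2, neg_neg]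
  rw [e, Int.floor_intCast, C.1.val_eq (C.1.val_ne hm.1)]

theorem val_div {D : Dr M} {C : Crv M} {h f : K} (hm : Mv D C h) (hf : f ∈ H0 D) :
    C.1.val (f / h) ≤ 1 := by
  rw [map_div₀, val_mv hm, div_le_one₀ (zero_lt_iff.2 exp_ne_zero)]
  exact hf C

theorem mono {D D' : Dr M} (h : D ≤ D') : H0 D ≤ H0 D' := fun _ hf C =>
  (hf C).trans (exp_le_exp.2 (Int.floor_mono (h C)))

theorem sub_le (D : Dr M) (C : Crv M) : D - pr C ≤ D := by
  refine sub_le_self _ ?_
  exact Finsupp.single_nonneg.2 zero_le_one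

theorem mem_sub {D : Dr M} {C : Crv M} {h f : K} (hm : Mv D C h) (hf : f ∈ H0 D) :
    f ∈ H0 (D - pr C) ↔ C.1.val (f / h) < 1 := by
  have key : C.1.val f ≤ exp ⌊(D - pr C) C⌋ ↔ C.1.val (f / h) < 1 := by
    rw [map_div₀, val_mv hm, div_lt_one₀ (zero_lt_iff.2 exp_ne_zero), Finsupp.sub_apply,
      Finsupp.single_eq_same, Int.floor_sub_one]
    by_cases h0 : f = 0
    · simp [h0, zero_lt_iff]
    · rw [C.1.val_le_exp (C.1.val_ne h0), C.1.val_lt_exp (C.1.val_ne h0)]
      omega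
  refine ⟨fun H => key.1 (H C), fun H C' => ?_⟩
  by_cases e : C' = C
  · rw [e]; exact key.2 H
  · rw [Finsupp.sub_apply, Finsupp.single_eq_of_ne e, sub_zero]
    exact hf C'

theorem hres (hB : B3 M) (D : Dr M) (C : Crv M) (h : K) (hD : IsInt D) (hm : Mv D C h) :
    ∀ f ∈ H0 D, res C.1 (f / h) ∈ WC D C h := by
  intro f hf p η hp hη
  refine ⟨f * η, (hB.memH D hD f).1 hf p η hη, ?_⟩
  have h1 : C.1.val (η * h) ≤ 1 := by
    have h0 := C.1.val_ne (mul_ne_zero hη.1 hm.1)
    rw [C.1.val_le_one h0, C.1.ord_mul (C.1.val_ne hη.1) (C.1.val_ne hm.1)]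
    have : ((C.1.ord η + C.1.ord h : ℤ) : ℝ) = 0 := by
      rw [Int.cast_add, hη.2 C hp, hm.2, add_neg_cancel]
    exact (Int.cast_eq_zero.1 this).ge
  rw [← res_mul (val_div hm hf) h1]
  congr 1
  field_simp [hm.1]

/-- The restriction map. -/
def rm (hB : B3 M) (D : Dr M) (C : Crv M) (h : K) (hD : IsInt D) (hm : Mv D C h) :
    H0 D →ₗ[ℂ] WC D C h where
  toFun f := ⟨res C.1 (f / h), hres hB D C h hD hm f f.2⟩
  map_add' a b := Subtype.ext (by
    change res C.1 ((a + b : K) / h) = res C.1 (a / h) + res C.1 (b / h)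
    rw [add_div, res_add (val_div hm a.2) (val_div hm b.2)])
  map_smul' c a := Subtype.ext (by
    change res C.1 ((c • (a : K)) / h) = c • res C.1 (a / h)
    rw [Algebra.smul_def, Algebra.smul_def, mul_div_assoc,
      res_mul (C.1.const_le c) (val_div hm a.2), res_const])

theorem ker_rm (hB : B3 M) (D : Dr M) (C : Crv M) (h : K) (hD : IsInt D) (hm : Mv D C h) :
    LinearMap.ker (rm hB D C h hD hm) = (H0 (D - pr C)).comap (H0 D).subtype := by
  ext f
  rw [LinearMap.mem_ker, Submodule.mem_comap, Submodule.subtype_apply, mem_sub hm f.2,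
    ← res_eq_zero (val_div hm f.2), Subtype.ext_iff]
  rfl

/-- The kernel of the restriction map. -/
def kerE (hB : B3 M) (D : Dr M) (C : Crv M) (h : K) (hD : IsInt D) (hm : Mv D C h) :
    LinearMap.ker (rm hB D C h hD hm) ≃ₗ[ℂ] H0 (D - pr C) :=
  (LinearEquiv.ofEq _ _ (ker_rm hB D C h hD hm)).trans
    (Submodule.comapSubtypeEquivOfLe (mono (sub_le D C)))

theorem step (hB : B3 M) (hW : WcS M) (D : Dr M) (C : Crv M) (hD : IsInt D)
    (hf : FiniteDimensional ℂ (H0 (D - pr C))) : FiniteDimensional ℂ (H0 D) := by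
  obtain ⟨h, hm⟩ := hB.mv D C hD
  have := hW.wfin D C h hD hm
  have hk : FiniteDimensional ℂ (LinearMap.ker (rm hB D C h hD hm)) :=
    (kerE hB D C h hD hm).symm.finiteDimensional
  refine ⟨Submodule.fg_of_fg_map_of_fg_inf_ker (rm hB D C h hD hm)
    (IsNoetherian.noetherian _) ?_⟩
  rw [top_inf_eq]
  exact Module.Finite.iff_fg.1 hk

theorem int_add {D : Dr M} (hD : IsInt D) (C : Crv M) (n : ℕ) :
    IsInt (D + single C (n : ℝ)) := fun C' => by
  obtain ⟨m, hm⟩ := hD C'
  by_cases e : C' = C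
  · exact ⟨m + n, by rw [Finsupp.add_apply, hm, e, Finsupp.single_eq_same]; simp⟩
  · exact ⟨m, by rw [Finsupp.add_apply, hm, Finsupp.single_eq_of_ne e, add_zero]⟩

theorem steps (hB : B3 M) (hW : WcS M) (D : Dr M) (C : Crv M) (hD : IsInt D)
    (hf : FiniteDimensional ℂ (H0 D)) (n : ℕ) :
    FiniteDimensional ℂ (H0 (D + single C (n : ℝ))) := by
  induction n with
  | zero => rwa [Nat.cast_zero, Finsupp.single_zero, add_zero]
  | succ n ih =>
    refine step hB hW _ C (int_add hD C _) ?_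
    rwa [Nat.cast_succ, Finsupp.single_add, ← add_assoc, add_sub_cancel_right]

theorem zero_fin (hB : B3 M) : FiniteDimensional ℂ (H0 (0 : Dr M)) := by
  refine Submodule.finiteDimensional_of_le (S₂ := Submodule.span ℂ {(1 : K)}) fun f hf => ?_
  obtain ⟨a, rfl⟩ := hB.cst f fun p => hB.hart p f fun C _ => by simpa using hf C
  exact Submodule.mem_span_singleton.2 ⟨a, (Algebra.algebraMap_eq_smul_one a).symm⟩

theorem hfin (hB : B3 M) (hW : WcS M) (E : Dr M) : FiniteDimensional ℂ (H0 E) := by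
  have : ∃ D : Dr M, IsInt D ∧ E ≤ D ∧ FiniteDimensional ℂ (H0 D) := by
    induction E using Finsupp.induction with
    | zero => exact ⟨0, fun _ => ⟨0, by simp⟩, le_rfl, zero_fin hB⟩
    | single_add a b f _ _ ih =>
      obtain ⟨D, h1, h2, h3⟩ := ih
      refine ⟨_, int_add h1 a ⌈b⌉₊, ?_, steps hB hW D a h1 h3 _⟩
      rw [add_comm]
      exact add_le_add h2 (Finsupp.single_le_single.2 (Nat.le_ceil b))
  obtain ⟨D, -, h2, h3⟩ := this
  exact Submodule.finiteDimensional_of_le (mono h2)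

theorem rank (hB : B3 M) (hW : WcS M) (D : Dr M) (C : Crv M) (h : K) (hD : IsInt D)
    (hm : Mv D C h) :
    h0 D = h0 (D - pr C) + finrank ℂ (LinearMap.range (rm hB D C h hD hm)) := by
  have := hfin hB hW D
  rw [h0, h0, ← (rm hB D C h hD hm).finrank_range_add_finrank_ker,
    (kerE hB D C h hD hm).finrank_eq, add_comm]

end REx

theorem rowEx : OfEx := by
  intro K _ _ M hB hW
  refine ⟨REx.hfin hB hW, REx.hres hB, fun D C h hD hm => ?_, fun D C h hD hm => ?_⟩
  · have := hW.wfin D C h hD hm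
    rw [REx.rank hB hW D C h hD hm]
    exact Nat.add_le_add_left (Submodule.finrank_le _) _
  · have := hW.wfin D C h hD hm
    rw [REx.rank hB hW D C h hD hm, Nat.add_left_cancel_iff]
    constructor
    · intro e s hs
      obtain ⟨f, hf⟩ := LinearMap.range_eq_top.1 (Submodule.eq_top_of_finrank_eq e) ⟨s, hs⟩
      exact ⟨f, f.2, congrArg Subtype.val hf⟩
    · intro H
      have : LinearMap.range (REx.rm hB D C h hD hm) = ⊤ := LinearMap.range_eq_top.2 fun s => by
        obtain ⟨f, hf, e⟩ := H s s.2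
        exact ⟨⟨f, hf⟩, Subtype.ext e⟩
      rw [this, finrank_top]

end

end Pool.Agent.MP_ee8c61_ag.M3S
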