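import Pool.Agent.MP_ee8c61_ag.M3S.SpecF

/-! The residue field of a curve is a function field in one variable. -/

set_option autoImplicit false

namespace Pool.Agent.MP_ee8c61_ag.M3S

open Pool.Agent.MP_96693b_ag.RS Pool.Agent.MP_cce4c9_lc.H87 WithZero

namespace RFF

theorem indep {B R ι : Type} [CommRing B] [IsDomain B] [CommRing R] [Algebra ℂ B] [Algebra ℂ R]
    (ρ : B →ₐ[ℂ] R) (x : ι → B) (hx : AlgebraicIndependent ℂ (ρ ∘ x)) (π : B) (h0 : π ≠ 0)
    (h1 : ρ π = 0) : AlgebraicIndependent ℂ fun o : Option ι => o.elim π x := by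
  refine AlgebraicIndependent.option_iff.mpr ⟨hx.of_comp ρ, fun h => ?_⟩
  obtain ⟨⟨r, hr⟩, r0, c, hc⟩ := h.exists_nonzero_dvd (mem_nonZeroDivisors_of_ne_zero h0)
  rw [Algebra.adjoin_range_eq_range_aeval] at hr
  obtain ⟨P, rfl⟩ := hr
  have h2 : MvPolynomial.aeval (ρ ∘ x) P = 0 := by
    have : ρ (MvPolynomial.aeval x P) = 0 := by
      have hc' : MvPolynomial.aeval x P = π * c := hc
      rw [hc', map_mul, h1, zero_mul]
    rwa [MvPolynomial.comp_aeval_apply] at this
  have h3 : P = 0 := algebraicIndependent_iff.mp hx P h2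
  subst h3
  exact r0 (Subtype.ext (map_zero _))

variable {K : Type} [Field K] [Algebra ℂ K] (v : Place ℂ K)

/-- The valuation ring as an algebra. -/
def VA : Subalgebra ℂ K where
  carrier := {f | v.val f ≤ 1}
  mul_mem' := fun {a b} ha hb => by
    change v.val (a * b) ≤ 1
    rw [map_mul]
    exact mul_le_one' ha hb
  add_mem' := fun {a b} ha hb => (v.val.map_add a b).trans (max_le ha hb)
  algebraMap_mem' := v.const_le

/-- The residue map. -/
noncomputable def rho : VA v →ₐ[ℂ] Rf v where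
  toFun f := res v f
  map_one' := res_one
  map_mul' a b := res_mul a.2 b.2
  map_zero' := res_zero
  map_add' a b := res_add a.2 b.2
  commutes' a := res_const a

open IntermediateField in
theorem alg (hd : ∀ r : Fin 3 → K, ¬ AlgebraicIndependent ℂ r) {t : Rf v}
    (ht : Transcendental ℂ t) (s : Rf v) : IsAlgebraic ℂ⟮t⟯ s := by
  by_contra hs
  obtain ⟨g, hg, rfl⟩ := res_surj t
  obtain ⟨a, ha, rfl⟩ := res_surj s
  obtain ⟨π, hπ⟩ := v.exists_unif
  have hπ1 : v.val π < 1 := by rw [hπ, ← exp_zero, exp_lt_exp]; omega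
  have h1 : AlgebraicIndependent ℂ fun o : Option Unit => o.elim (res v a) fun _ => res v g := by
    refine AlgebraicIndependent.option_iff.mpr ⟨algebraicIndependent_unique_type_iff.mpr ht, ?_⟩
    rw [Set.range_const]
    exact fun h => hs (isAlgebraic_adjoin_iff.mpr h)
  have h2 := indep (rho v) (fun o : Option Unit => o.elim ⟨a, ha⟩ fun _ => ⟨g, hg⟩)
    (by
      refine (congrArg (fun y => AlgebraicIndependent ℂ y) (funext fun o => ?_)).mp h1
      cases o <;> rfl) ⟨π, hπ1.le⟩
    (fun h => by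
      have : π = 0 := congrArg Subtype.val h
      rw [this, map_zero] at hπ
      exact exp_ne_zero hπ.symm) ((res_eq_zero hπ1.le).mpr hπ1)
  exact hd _ ((h2.map' (f := (VA v).val) Subtype.val_injective).comp
    ![none, some none, some (some ())] (by decide))

end RFF

open IntermediateField in
theorem rowFF : OfFF := by
  intro K _ _ M h C
  obtain ⟨p, hp, g, hg, g0, g1⟩ := C.2
  have ht : Transcendental ℂ (res C.1 g) := by
    intro ha
    obtain ⟨c, hc⟩ := minpoly.mem_range_of_degree_eq_one ℂ _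
      (IsAlgClosed.degree_eq_one_of_irreducible ℂ (minpoly.irreducible ha.isIntegral))
    have h1 : C.1.val (g - algebraMap ℂ K c) < 1 := by
      rw [← res_eq_zero (hp _ (sub_mem hg ((M.loc p).O.algebraMap_mem c))),
        res_sub g1.le (C.1.const_le c), res_const, hc, sub_self]
    have h2 := h.evz C p hp _ (sub_mem hg ((M.loc p).O.algebraMap_mem c)) h1
    rw [Loc.ev_sub hg ((M.loc p).O.algebraMap_mem c), g0, Loc.ev_alg, zero_sub, neg_eq_zero] at h2
    rw [h2, map_zero, sub_zero, g1] at h1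
    exact lt_irrefl _ h1
  refine ⟨res C.1 g, ht, ?_⟩
  obtain ⟨u, hu, -, hL⟩ := M.isPt p
  have hS : (res C.1 '' dvs u M.U).Finite := (M.fin.image _).image _
  have := hS.to_subtype
  have hfin := finiteDimensional_adjoin (K := ℂ⟮res C.1 g⟯) (S := res C.1 '' dvs u M.U)
    fun x _ => (RFF.alg C.1 h.dep ht x).isIntegral
  set E := adjoin ℂ⟮res C.1 g⟯ (res C.1 '' dvs u M.U)
  have h1 : ∀ f ∈ chA M.U u, res C.1 f ∈ E := by
    intro f hf
    induction hf using Algebra.adjoin_induction with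
    | mem x hx => exact subset_adjoin _ _ ⟨x, hx, rfl⟩
    | algebraMap r =>
      rw [res_const, IsScalarTower.algebraMap_apply ℂ ℂ⟮res C.1 g⟯]
      exact E.algebraMap_mem _
    | add x y hx hy a b =>
      rw [res_add (hp x (hL.le hx)) (hp y (hL.le hy))]
      exact add_mem a b
    | mul x y hx hy a b =>
      rw [res_mul (hp x (hL.le hx)) (hp y (hL.le hy))]
      exact mul_mem a b
  have h2 : ∀ f s, C.1.val f ≤ 1 → C.1.val s ≤ 1 → ¬ C.1.val s < 1 → res C.1 s ∈ E →
      res C.1 (f * s) ∈ E → res C.1 f ∈ E := by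
    intro f s hf hs hs' a b
    rw [res_mul hf hs] at b
    have := div_mem b a
    rwa [mul_div_cancel_right₀ _ (fun k => hs' ((res_eq_zero hs).mp k))] at this
  have h3 : ∀ f ∈ (M.loc p).O, res C.1 f ∈ E := by
    intro f hf
    obtain ⟨a, ha, q, hq, q0, e⟩ := hL.frac f hf
    exact h2 f q (hp f hf) (hp q (hL.le hq)) (fun k => q0 (h.evz C p hp q (hL.le hq) k))
      (h1 q hq) (e ▸ h1 a ha)
  have h4 : E = ⊤ := by
    refine eq_top_iff.mpr fun s _ => ?_
    obtain ⟨f, hf, rfl⟩ := res_surj s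
    obtain ⟨s, hs, s1, hsf⟩ := h.frac C p hp f hf
    exact h2 f s hf s1.le (by rw [s1]; exact lt_irrefl _) (h3 s hs) (h3 _ (mul_comm s f ▸ hsf))
  rw [h4] at hfin
  exact topEquiv.toLinearEquiv.finiteDimensional

end Pool.Agent.MP_ee8c61_ag.M3S
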