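import Pool.Agent.MP_ee8c61_ag.M3S.SpecF

/-!
Divisors of functions and local equations on a smooth projective surface.
-/

set_option autoImplicit false

namespace Pool.Agent.MP_ee8c61_ag.M3S

open Pool.Agent.MP_96693b_ag.RS Pool.Agent.MP_cce4c9_lc.H87 WithZero Finsupp Filter

namespace RFin

variable {K : Type} [Field K] [Algebra ℂ K] {M : Model K 2}

theorem pt (C : Crv M) : ∃ p, On C p := by
  obtain ⟨p, hp, -⟩ := C.2
  exact ⟨p, hp⟩

theorem pow_le (v : Place ℂ K) {q : K} (hq : v.val q < 1) (g : K) (n : ℤ) :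
    ∃ m : ℕ, v.val (q ^ m * g) ≤ exp n := by
  by_cases h0 : q = 0
  · exact ⟨1, by simp [h0]⟩
  by_cases hg : g = 0
  · exact ⟨1, by simp [hg]⟩
  refine ⟨(-n - v.ord g).toNat, ?_⟩
  rw [v.val_le_exp (v.val_ne (mul_ne_zero (pow_ne_zero _ h0) hg)),
    v.ord_mul (v.val_ne (pow_ne_zero _ h0)) (v.val_ne hg), v.ord_pow]
  have h1 := (v.val_lt_one (v.val_ne h0)).1 hq
  have h2 := Int.self_le_toNat (-n - v.ord g)
  have h3 : (0 : ℤ) ≤ ((-n - v.ord g).toNat : ℤ) := Int.natCast_nonneg _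
  nlinarith

theorem ptc (h : CenS M) (u : K) (hu : u ∈ M.U) (h0 : u ≠ 0) (C : Crv M)
    (hC : InC (chA M.U u) C) (q : K) (hq : q ∈ chA M.U u) (hv : C.1.val q = 1) :
    ∃ p, On C p ∧ chA M.U u ≤ (M.loc p).O ∧ (M.loc p).ev q ≠ 0 := by
  have q0 : q ≠ 0 := fun e => by simp [e] at hv
  have hi : C.1.val q⁻¹ ≤ 1 := by rw [map_inv₀, hv, inv_one]
  obtain ⟨p, h1, h2, h3⟩ :=
    h.cen C.1.val.valuationSubring u hu h0 (fun f hf => hC f hf) q hq q0 hi
  exact ⟨p, fun f hf => h2 f hf, h1, h3⟩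

theorem ptc2 (h : CenS M) (u : K) (hu : u ∈ M.U) (h0 : u ≠ 0) (u' : K) (hu' : u' ∈ M.U)
    (h0' : u' ≠ 0) (C : Crv M) (hC : InC (chA M.U u ⊔ chA M.U u') C) :
    ∃ p, On C p ∧ chA M.U u ⊔ chA M.U u' ≤ (M.loc p).O := by
  have hl : InC (chA M.U u) C := fun f hf => hC f ((le_sup_left : chA M.U u ≤ _) hf)
  have hr : InC (chA M.U u') C := fun f hf => hC f ((le_sup_right : chA M.U u' ≤ _) hf)
  have h1 : C.1.val (u' / u) ≤ 1 := hl _ (div_mem_chA hu')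
  have h2 : C.1.val (u / u') ≤ 1 := hr _ (div_mem_chA hu)
  rw [← inv_div, map_inv₀, inv_le_one₀ (zero_lt_iff.2 (C.1.val_ne (div_ne_zero h0' h0)))] at h2
  obtain ⟨p, hp, hB, hq⟩ := ptc h u hu h0 C hl _ (div_mem_chA hu') (le_antisymm h1 h2)
  refine ⟨p, hp, sup_le hB (chA_le.2 fun x hx => ?_)⟩
  have := Loc.div_mem (hB (div_mem_chA hx)) (Loc.mem_of_ev hq) hq
  rwa [div_div_div_cancel_right₀ h0] at this

theorem sepc (u : K) (hu : u ∈ M.U) (h0 : u ≠ 0) (C : Crv M) (p : M.P)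
    (hC : InC (chA M.U u) C) (hB : chA M.U u ≤ (M.loc p).O) (hp : ¬ On C p) :
    ∃ q ∈ chA M.U u, (M.loc p).ev q ≠ 0 ∧ C.1.val q < 1 := by
  by_contra hn
  refine hp fun f hf => ?_
  obtain ⟨r, hr, q, hq, h1, e⟩ := (Model.locOf hu h0 hB).frac f hf
  have h2 : C.1.val q = 1 := le_antisymm (hC q hq) (not_lt.1 fun h3 => hn ⟨q, hq, h1, h3⟩)
  have h3 := hC r hr
  rwa [← e, map_mul, h2, mul_one] at h3

theorem fracB (h : CenS M) (hA : LocA M) (hL : LocB M) {u : K} (hu : u ∈ M.U) (h0 : u ≠ 0)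
    {C : Crv M} (hC : InC (chA M.U u) C) {f : K} (hf : C.1.val f ≤ 1) :
    ∃ s ∈ chA M.U u, C.1.val s = 1 ∧ s * f ∈ chA M.U u := by
  obtain ⟨p, hp, hB, -⟩ := ptc h u hu h0 C hC 1 (one_mem _) (map_one _)
  obtain ⟨s, hs, h1, h2⟩ := hA.frac C p hp f hf
  obtain ⟨r, hr, q, hq, h3, e⟩ := (Model.locOf hu h0 hB).frac s hs
  obtain ⟨r', hr', q', hq', h3', e'⟩ := (Model.locOf hu h0 hB).frac _ h2
  refine ⟨r * q', mul_mem hr hq', ?_, ?_⟩
  · rw [← e, map_mul, map_mul, h1, (hL.unit p q).1 h3 C hp, (hL.unit p q').1 h3' C hp, mul_one,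
      mul_one]
  · rw [show r * q' * f = r' * q by rw [← e, ← e']; ring]
    exact mul_mem hr' hq

/-- The centre of a curve on an affine set. -/
def ctr {B : Subalgebra ℂ K} {C : Crv M} (hC : InC B C) : Ideal B where
  carrier := {b | C.1.val (b : K) < 1}
  add_mem' := fun {a b} ha hb => (C.1.val.map_add (a : K) b).trans_lt (max_lt ha hb)
  zero_mem' := by simp
  smul_mem' := fun c b hb => by
    change C.1.val ((c : K) * b) < 1
    rw [map_mul]
    exact (mul_le_of_le_one_left' (hC c c.2)).trans_lt hb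

theorem mem_ctr {B : Subalgebra ℂ K} {C : Crv M} (hC : InC B C) {b : B} :
    b ∈ ctr hC ↔ C.1.val (b : K) < 1 := Iff.rfl

theorem ctr_prime {B : Subalgebra ℂ K} {C : Crv M} (hC : InC B C) : (ctr hC).IsPrime := by
  refine ⟨(Ideal.ne_top_iff_one _).2 (by simp [mem_ctr]), fun {a b} hab => ?_⟩
  by_contra hn
  rw [not_or, mem_ctr, mem_ctr, not_lt, not_lt] at hn
  rw [mem_ctr, Subalgebra.coe_mul, map_mul, le_antisymm (hC a a.2) hn.1,
    le_antisymm (hC b b.2) hn.2, mul_one] at hab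
  exact lt_irrefl _ hab

theorem finB (h : CenS M) (hA : LocA M) (hL : LocB M) {u : K} (hu : u ∈ M.U) (h0 : u ≠ 0)
    {a : K} (ha : a ∈ chA M.U u) (ha0 : a ≠ 0) :
    {C : Crv M | InC (chA M.U u) C ∧ C.1.val a < 1}.Finite := by
  have hN : IsNoetherianRing (chA M.U u) := isNoetherianRing_of_fg (chA_fg M.fin u)
  have hF := (Ideal.finite_minimalPrimes_of_isNoetherianRing (chA M.U u)
    (Ideal.span {(⟨a, ha⟩ : chA M.U u)})).to_subtype
  have hm : ∀ C : {C : Crv M | InC (chA M.U u) C ∧ C.1.val a < 1},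
      ctr C.2.1 ∈ (Ideal.span {(⟨a, ha⟩ : chA M.U u)}).minimalPrimes := by
    rintro ⟨C, hC, hv⟩
    refine ⟨⟨ctr_prime hC, (Ideal.span_singleton_le_iff_mem _).2 hv⟩, ?_⟩
    rintro Q ⟨hQ, h1⟩ h2 r hr
    obtain ⟨m, hm⟩ := pow_le C.1 ((mem_ctr hC).1 hr) a⁻¹ 0
    obtain ⟨s, hs, h3, h4⟩ := fracB h hA hL hu h0 hC (hm.trans_eq exp_zero)
    have h5 : (⟨s, hs⟩ : chA M.U u) * r ^ m ∈ Q := by
      refine h1 (Ideal.mem_span_singleton'.2 ⟨⟨_, h4⟩, Subtype.ext ?_⟩)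
      change s * ((r : K) ^ m * a⁻¹) * a = s * (r : K) ^ m
      rw [mul_assoc, inv_mul_cancel_right₀ ha0]
    rcases hQ.mem_or_mem h5 with h6 | h6
    · exact absurd ((mem_ctr hC).1 (h2 h6)) (by rw [h3]; exact lt_irrefl _)
    · exact hQ.mem_of_pow_mem m h6
  refine Set.finite_coe_iff.1 (Finite.of_injective (fun C => (⟨_, hm C⟩ :
    (Ideal.span {(⟨a, ha⟩ : chA M.U u)}).minimalPrimes)) ?_)
  rintro ⟨C, hC, hv⟩ ⟨C', hC', hv'⟩ e
  have e' : ctr hC = ctr hC' := congrArg Subtype.val e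
  refine Subtype.ext (Subtype.ext (Place.eq_of_le _ _ fun f hf => ?_))
  obtain ⟨s, hs, h3, h4⟩ := fracB h hA hL hu h0 hC hf
  have h5 : C'.1.val s = 1 := le_antisymm (hC' s hs) (not_lt.1 fun h6 => by
    have h7 : (⟨s, hs⟩ : chA M.U u) ∈ ctr hC := e' ▸ (mem_ctr hC').2 h6
    exact absurd ((mem_ctr hC).1 h7) (by rw [h3]; exact lt_irrefl _))
  have h6 := hC' _ h4
  rwa [map_mul, h5, one_mul] at h6

theorem fin (h : CenS M) (hA : LocA M) (hL : LocB M) (f : K) :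
    {C : Crv M | C.1.ord f ≠ 0}.Finite := by
  by_cases hf : f = 0
  · simp [hf]
  have key : ∀ u ∈ {u ∈ M.U | u ≠ 0},
      {C : Crv M | InC (chA M.U u) C ∧ C.1.ord f ≠ 0}.Finite := by
    rintro u ⟨hu, h0⟩
    obtain ⟨r, hr, q, hq, hq0, e⟩ := M.gens.frac hu h0 f
    refine ((finB h hA hL hu h0 hr (e ▸ mul_ne_zero hf hq0)).union
      (finB h hA hL hu h0 hq hq0)).subset ?_
    rintro C ⟨hC, h1⟩
    by_contra hn
    have h2 : C.1.val r = 1 := le_antisymm (hC r hr) (not_lt.1 fun h3 => hn (Or.inl ⟨hC, h3⟩))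
    have h3 : C.1.val q = 1 := le_antisymm (hC q hq) (not_lt.1 fun h3 => hn (Or.inr ⟨hC, h3⟩))
    rw [← e, map_mul, h3, mul_one] at h2
    exact h1 (C.1.ord_of_val_one h2)
  refine ((M.fin.subset (Set.sep_subset _ _)).biUnion key).subset fun C hC => ?_
  obtain ⟨p, hp⟩ := pt C
  obtain ⟨u, hu, h0, hl⟩ := Model.isPt p
  exact Set.mem_biUnion (t := fun u => {C : Crv M | InC (chA M.U u) C ∧ C.1.ord f ≠ 0})
    (show u ∈ {u ∈ M.U | u ≠ 0} from ⟨hu, h0⟩) ⟨fun g hg => hp g (hl.le hg), hC⟩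

theorem fin2 (h : CenS M) (hA : LocA M) (hL : LocB M) (f : K) (D : Dr M) :
    {C : Crv M | ¬ (C.1.ord f = 0 ∧ D C = 0)}.Finite := by
  refine ((fin h hA hL f).union D.support.finite_toSet).subset fun C hC => ?_
  by_contra hn
  refine hC ⟨?_, ?_⟩
  · by_contra h1
    exact hn (Or.inl h1)
  · by_contra h1
    exact hn (Or.inr (Finsupp.mem_support_iff.2 h1))

theorem eqn_add {D E : Dr M} {p : M.P} {η η' : K} (h : Eqn D p η) (h' : Eqn E p η') :
    Eqn (D + E) p (η * η') :=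
  ⟨mul_ne_zero h.1 h'.1, fun C hC => by
    rw [C.1.ord_mul (C.1.val_ne h.1) (C.1.val_ne h'.1), Int.cast_add, h.2 C hC, h'.2 C hC,
      Finsupp.add_apply]⟩

theorem eqn_smul {D : Dr M} {p : M.P} {η : K} (h : Eqn D p η) (n : ℤ) :
    Eqn ((n : ℝ) • D) p (η ^ n) :=
  ⟨zpow_ne_zero n h.1, fun C hC => by
    rw [C.1.ord_zpow, Int.cast_mul, h.2 C hC, Finsupp.smul_apply, smul_eq_mul]⟩

theorem eqn (hA : LocA M) (D : Dr M) (hD : IsInt D) (p : M.P) : ∃ η, Eqn D p η := by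
  classical
  have h1 : ∀ C : Crv M, ∃ η, Eqn (single C (D C)) p η := fun C => by
    by_cases hC : On C p
    · obtain ⟨η, -, hη, -⟩ := hA.eqn1 C p hC
      obtain ⟨n, hn⟩ := hD C
      refine ⟨η ^ n, ?_⟩
      have := eqn_smul hη n
      rwa [Finsupp.smul_single, smul_eq_mul, mul_one, ← hn] at this
    · refine ⟨1, one_ne_zero, fun C' hC' => ?_⟩
      have hne : C' ≠ C := fun e => hC (e ▸ hC')
      rw [Finsupp.single_eq_of_ne hne, C'.1.ord_one, Int.cast_zero]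
  have h2 : ∀ T : Finset (Crv M), ∃ η, Eqn (∑ C ∈ T, single C (D C)) p η := fun T => by
    induction T using Finset.induction_on with
    | empty => exact ⟨1, one_ne_zero, fun C _ => by simp⟩
    | insert C T hC ih =>
      obtain ⟨η, hη⟩ := h1 C
      obtain ⟨η', hη'⟩ := ih
      exact ⟨η * η', by rw [Finset.sum_insert hC]; exact eqn_add hη hη'⟩
  obtain ⟨η, hη⟩ := h2 D.support
  have e : ∑ C ∈ D.support, single C (D C) = D := Finsupp.sum_single D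
  exact ⟨η, e ▸ hη⟩

theorem spo (C : Crv M) (p : M.P) (hp : ¬ On C p) : ∀ᶠ b in zn p, ¬ On C b := by
  have h1 : ∃ f ∈ (M.loc p).O, ¬ C.1.val f ≤ 1 := by
    by_contra hn
    exact hp fun f hf => by_contra fun h2 => hn ⟨f, hf, h2⟩
  obtain ⟨f, hf, h2⟩ := h1
  exact (Model.sp_mem hf).mono fun b hb hn => h2 (hn f hb)

theorem memL (hL : LocB M) (D : Dr M) (p : M.P) (η : K) (hη : Eqn D p η) (f : K) :
    (∀ C : Crv M, On C p → C.1.val f ≤ exp ⌊D C⌋) ↔ f * η ∈ (M.loc p).O := by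
  by_cases hf : f = 0
  · simp [hf]
  have key : ∀ C : Crv M, On C p → (C.1.val f ≤ exp ⌊D C⌋ ↔ C.1.val (f * η) ≤ 1) := fun C hC => by
    rw [← hη.2 C hC, Int.floor_intCast, C.1.val_le_exp (C.1.val_ne hf),
      C.1.val_le_one (C.1.val_ne (mul_ne_zero hf hη.1)),
      C.1.ord_mul (C.1.val_ne hf) (C.1.val_ne hη.1)]
    omega
  exact ⟨fun H => hL.hart p _ fun C hC => (key C hC).1 (H C hC),
    fun H C hC => (key C hC).2 (hC _ H)⟩

theorem clr1 (h : CenS M) (hA : LocA M) (hL : LocB M) (u : K) (hu : u ∈ M.U) (h0 : u ≠ 0)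
    (D : Dr M) (p : M.P) (hB : chA M.U u ≤ (M.loc p).O) (f : K)
    (H : ∀ C : Crv M, On C p → C.1.val f ≤ exp ⌊D C⌋) :
    ∃ q ∈ chA M.U u, (M.loc p).ev q ≠ 0 ∧ q * f ∈ Gm D (chA M.U u) := by
  by_cases hf : f = 0
  · exact ⟨1, one_mem _, by rw [Loc.ev_one]; exact one_ne_zero, fun C _ => by simp [hf]⟩
  have mono : ∀ C : Crv M, InC (chA M.U u) C → ∀ q ∈ chA M.U u, ∀ g : K,
      C.1.val g ≤ exp ⌊D C⌋ → C.1.val (q * g) ≤ exp ⌊D C⌋ := fun C hC q hq g hg => by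
    rw [map_mul]
    exact (mul_le_of_le_one_left' (hC q hq)).trans hg
  have key : ∀ T : Set (Crv M), T.Finite → ∃ q ∈ chA M.U u, (M.loc p).ev q ≠ 0 ∧
      ∀ C ∈ T, InC (chA M.U u) C → C.1.val (q * f) ≤ exp ⌊D C⌋ := fun T hT => by
    induction T, hT using Set.Finite.induction_on with
    | empty => exact ⟨1, one_mem _, by rw [Loc.ev_one]; exact one_ne_zero, fun C hC => hC.elim⟩
    | @insert C T _ _ ih =>
      obtain ⟨q, hq, h1, h2⟩ := ih
      by_cases hC : InC (chA M.U u) C ∧ ¬ On C p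
      · obtain ⟨r, hr, h3, h4⟩ := sepc u hu h0 C p hC.1 hB hC.2
        obtain ⟨m, hm⟩ := pow_le C.1 h4 (q * f) ⌊D C⌋
        refine ⟨r ^ m * q, mul_mem (pow_mem hr m) hq, ?_, ?_⟩
        · rw [(M.loc p).ev_mul _ (hB (pow_mem hr m)) _ (hB hq), Loc.ev_pow (hB hr)]
          exact mul_ne_zero (pow_ne_zero m h3) h1
        · rintro C' (rfl | hC') hI <;> rw [mul_assoc]
          · exact hm
          · exact mono C' hI _ (pow_mem hr m) _ (h2 C' hC' hI)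
      · refine ⟨q, hq, h1, ?_⟩
        rintro C' (rfl | hC') hI
        · exact mono C' hI q hq f (H C' (by_contra fun hn => hC ⟨hI, hn⟩))
        · exact h2 C' hC' hI
  obtain ⟨q, hq, h1, h2⟩ := key _ (fin2 h hA hL f D)
  refine ⟨q, hq, h1, fun C hC => ?_⟩
  by_cases hb : C.1.ord f = 0 ∧ D C = 0
  · refine mono C hC q hq f ?_
    rw [C.1.val_le_exp (C.1.val_ne hf), hb.1, hb.2]
    simp
  · exact h2 C hb hC

end RFin

theorem rowFin : OfFin := by
  intro K _ _ M h hA hL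
  refine ⟨RFin.fin h hA hL, fun f C => ?_, RFin.eqn hA, fun D p η η' h1 h2 => ?_, RFin.spo,
    fun D p η hη => ?_, fun D C hD => ?_, fun D hD f => ?_, RFin.memL hL, RFin.ptc h,
    RFin.ptc2 h, RFin.sepc, RFin.clr1 h hA hL⟩
  · have H : (Function.support fun C : Crv M => (C.1.ord f : ℝ)).Finite :=
      (RFin.fin h hA hL f).subset fun C hC e => hC (by simp [e])
    rw [dvr, dif_pos H]
    rfl
  · refine (hL.unit p _).2 fun C hC => ?_
    have e : C.1.ord η = C.1.ord η' := by exact_mod_cast (h1.2 C hC).trans (h2.2 C hC).symm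
    rw [C.1.val_one_iff (C.1.val_ne (div_ne_zero h1.1 h2.1)), div_eq_mul_inv,
      C.1.ord_mul (C.1.val_ne h1.1) (C.1.val_ne (inv_ne_zero h2.1)), C.1.ord_inv, e,
      add_neg_cancel]
  · have hT : {C : Crv M | (C.1.ord η : ℝ) ≠ D C}.Finite :=
      (RFin.fin2 h hA hL η D).subset fun C hC e => hC (by simp [e.1, e.2])
    have h1 : ∀ᶠ b in zn p, ∀ C ∈ {C : Crv M | (C.1.ord η : ℝ) ≠ D C}, ¬ On C b :=
      (eventually_all_finite hT).2 fun C hC => RFin.spo C p fun hp => hC (hη.2 C hp)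
    exact h1.mono fun b hb => ⟨hη.1, fun C hC => by_contra fun hn => hb C hn hC⟩
  · obtain ⟨n, hn⟩ := hD C
    obtain ⟨g, hg⟩ := C.1.surj (exp n)
    refine ⟨g, fun e => ?_, ?_⟩
    · rw [e, map_zero] at hg
      exact exp_ne_zero hg.symm
    · rw [C.1.ord_eq (n := -n) (by rw [hg, neg_neg]), hn, Int.cast_neg]
  · refine ⟨fun hf p η hη => (RFin.memL hL D p η hη f).1 fun C _ => hf C, fun H C => ?_⟩
    obtain ⟨p, hp⟩ := RFin.pt C
    obtain ⟨η, hη⟩ := RFin.eqn hA D hD p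
    exact (RFin.memL hL D p η hη f).2 (H p η hη) C hp

end Pool.Agent.MP_ee8c61_ag.M3S
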