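import Pool.Agent.MP_ee8c61_ag.M3S.SpecF

/-! Row Ind: a derivation that preserves a place induces a derivation of the residue field. -/

set_option autoImplicit false

namespace Pool.Agent.MP_ee8c61_ag.M3S

open Pool.Agent.MP_96693b_ag.RS Pool.Agent.MP_cce4c9_lc.H87

namespace RInd

variable {K : Type} [Field K] [Algebra ℂ K] {v : Place ℂ K} {δ : Der K}

theorem wd (h1 : ∀ f, v.val f ≤ 1 → v.val (δ f) ≤ 1) (h2 : ∀ f, v.val f < 1 → v.val (δ f) < 1)
    {f g : K} (hf : v.val f ≤ 1) (hg : v.val g ≤ 1) (e : res v f = res v g) :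
    res v (δ f) = res v (δ g) := by
  have a : v.val (f - g) ≤ 1 := (v.val.map_sub f g).trans (max_le hf hg)
  have b : v.val (f - g) < 1 := (res_eq_zero a).1 (by rw [res_sub hf hg, e, sub_self])
  have c := (res_eq_zero (h1 _ a)).2 (h2 _ b)
  rwa [map_sub, res_sub (h1 f hf) (h1 g hg), sub_eq_zero] at c

end RInd

theorem rowInd : StInd := by
  intro K _ _ v δ h1 h2
  choose l hl1 hl2 using res_surj (v := v)
  have key : ∀ f, v.val f ≤ 1 → res v (δ (l (res v f))) = res v (δ f) := fun f hf =>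
    RInd.wd h1 h2 (hl1 _) hf (hl2 _)
  have hm : ∀ f g, v.val f ≤ 1 → v.val g ≤ 1 → v.val (f * g) ≤ 1 := fun f g hf hg => by
    rw [map_mul]
    exact mul_le_one' hf hg
  let D : Rf v →ₗ[ℂ] Rf v :=
    { toFun := fun s => res v (δ (l s))
      map_add' := fun s t => by
        have e : s + t = res v (l s + l t) := by rw [res_add (hl1 s) (hl1 t), hl2, hl2]
        rw [e, key _ ((v.val.map_add _ _).trans (max_le (hl1 s) (hl1 t))), map_add,
          res_add (h1 _ (hl1 s)) (h1 _ (hl1 t))]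
      map_smul' := fun c s => by
        have e : c • s = res v (algebraMap ℂ K c * l s) := by
          rw [res_mul (v.const_le c) (hl1 s), res_const, hl2, Algebra.smul_def]
        rw [e, key _ (hm _ _ (v.const_le c) (hl1 s)), ← Algebra.smul_def, δ.map_smul,
          Algebra.smul_def, res_mul (v.const_le c) (h1 _ (hl1 s)), res_const, RingHom.id_apply,
          Algebra.smul_def] }
  have hD : ∀ s, D s = res v (δ (l s)) := fun _ => rfl
  refine ⟨Derivation.mk' D fun s t => ?_, fun f hf => (key f hf).symm⟩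
  have e : s * t = res v (l s * l t) := by rw [res_mul (hl1 s) (hl1 t), hl2, hl2]
  rw [hD, hD, hD, e, key _ (hm _ _ (hl1 s) (hl1 t)), δ.leibniz, smul_eq_mul, smul_eq_mul,
    res_add (hm _ _ (hl1 s) (h1 _ (hl1 t))) (hm _ _ (hl1 t) (h1 _ (hl1 s))),
    res_mul (hl1 s) (h1 _ (hl1 t)), res_mul (hl1 t) (h1 _ (hl1 s)), hl2, hl2, smul_eq_mul,
    smul_eq_mul]

end Pool.Agent.MP_ee8c61_ag.M3S
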