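import Pool.Agent.MP_ee8c61_ag.M3S.SpecF

/-! The numerical canonical class is the canonical class. -/

set_option autoImplicit false

namespace Pool.Agent.MP_ee8c61_ag.M3S

open Pool.Agent.MP_96693b_ag.RS Pool.Agent.MP_cce4c9_lc.H87 WithZero Finsupp Filter Module

namespace RKap

variable {K : Type} [Field K] [Algebra ℂ K] {M : Model K 2}

theorem lin (ψ : Dr M →ₗ[ℝ] ℝ) (D : Dr M) (h : ∀ C, D C ≠ 0 → ψ (pr C) = 0) : ψ D = 0 := by
  rw [← Finsupp.sum_single D, map_finsuppSum]
  refine Finset.sum_eq_zero fun C hC => ?_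
  show ψ (single C (D C)) = 0
  rw [← mul_one (D C), ← smul_eq_mul, ← smul_single, map_smul, h C (mem_support_iff.1 hC),
    smul_zero]

theorem II_pr (C C' : Crv M) : II M (pr C) (pr C') = qq C C' := by simp [II]

theorem kap_pr (C : Crv M) : kap M (pr C) = -2 * gam C - qq C C := by simp [kap]

theorem pr_int (C : Crv M) : IsInt (pr C) := fun C' => by
  classical
  rw [single_apply]
  split_ifs
  · exact ⟨1, by simp⟩
  · exact ⟨0, by simp⟩

end RKap

open RKap in
theorem rowKap : OfKap := by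
  intro K _ _ M h hw hr ha hb D
  have sm : ∀ C : Crv M, SmC C → (kap M - II M (KD M)) (pr C) = 0 := fun C hC => by
    obtain ⟨g, hg⟩ := Pool.Agent.MP_cce4c9_lc.H7.genus (h.ff C)
    have h1 := ha C hC g hg
    rw [map_add, LinearMap.add_apply, II_pr] at h1
    rw [LinearMap.sub_apply, kap_pr, (hw.gsm C hC g hg).1]
    push_cast
    linarith
  have red : ∀ (X : Dr M) f, f ≠ 0 → Red (dvr M f + X) → (kap M - II M (KD M)) X = 0 := by
    intro X f hf hR
    have h1 := lin (kap M - II M (KD M)) _ fun C hC => sm C (hR.sm C ((hR.co C).resolve_left hC))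
    have h2 : II M (dvr M f) (KD M) = 0 := lin _ _ fun C _ => h.num f C hf
    rwa [map_add, LinearMap.sub_apply, hr.kdv f hf, hr.sym, h2, sub_zero, zero_add] at h1
  have all : ∀ C : Crv M, (kap M - II M (KD M)) (pr C) = 0 := fun C => by
    obtain ⟨k, ⟨f, hf, h1⟩, g, hg, h2⟩ :=
      ((hb _ (pr_int C)).and (hb 0 fun _ => ⟨0, by simp⟩)).exists
    have h3 := red _ f hf h1
    have h4 := red _ g hg h2
    rw [zero_add] at h4
    rwa [map_add, h4, add_zero] at h3
  exact sub_eq_zero.1 (lin (kap M - II M (KD M)) D fun C _ => all C)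

end Pool.Agent.MP_ee8c61_ag.M3S
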