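import Pool.Agent.MP_ee8c61_ag.M3S.SpecF

/-!
Row Lift: sections on a curve lift to sections on a chart.
-/

set_option autoImplicit false

namespace Pool.Agent.MP_ee8c61_ag.M3S

open Pool.Agent.MP_96693b_ag.RS Pool.Agent.MP_cce4c9_lc.H87 WithZero

namespace RLift

variable {K : Type} [Field K] [Algebra ℂ K] {M : Model K 2} {D : Dr M} {C : Crv M} {h : K}

theorem val_mv (hh : Mv D C h) : C.1.val h = exp ⌊D C⌋ := by
  have e : D C = ((-C.1.ord h : ℤ) : ℝ) := by rw [Int.cast_neg, hh.2, neg_neg]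
  rw [e, Int.floor_intCast, C.1.val_eq (C.1.val_ne hh.1)]

theorem val_div (hh : Mv D C h) {f : K} (hf : C.1.val f ≤ exp ⌊D C⌋) : C.1.val (f / h) ≤ 1 := by
  rw [map_div₀, val_mv hh]
  exact div_le_one_of_le₀ hf zero_le

theorem val_eqn (hh : Mv D C h) {p : M.P} {η : K} (hp : On C p) (hη : Eqn D p η) :
    C.1.val (η * h) = 1 := by
  rw [C.1.val_one_iff (C.1.val_ne (mul_ne_zero hη.1 hh.1)),
    C.1.ord_mul (C.1.val_ne hη.1) (C.1.val_ne hh.1)]
  have e : ((C.1.ord η + C.1.ord h : ℤ) : ℝ) = 0 := by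
    rw [Int.cast_add, hη.2 C hp, hh.2, add_neg_cancel]
  exact_mod_cast e

/-- The ideal of the functions that make the section liftable. -/
def lid (B : Subalgebra ℂ K) (hh : Mv D C h) (hB : InC B C) (s : Rf C.1) : Ideal B where
  carrier := {a | ∃ f ∈ Gm D B, res C.1 (f / h) = res C.1 (a : K) * s}
  zero_mem' := ⟨0, fun _ _ => by simp, by
    rw [zero_div, Subalgebra.coe_zero, res_zero, zero_mul]⟩
  add_mem' := fun {a b} ⟨f, hf, e⟩ ⟨g, hg, e'⟩ =>
    ⟨f + g, fun C' hC' => (C'.1.val.map_add f g).trans (max_le (hf C' hC') (hg C' hC')), by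
      rw [add_div, res_add (val_div hh (hf C hB)) (val_div hh (hg C hB)), e, e',
        Subalgebra.coe_add, res_add (hB _ a.2) (hB _ b.2), add_mul]⟩
  smul_mem' := fun c a ⟨f, hf, e⟩ =>
    ⟨c * f, fun C' hC' => by
      rw [map_mul]
      exact (mul_le_mul' (hC' _ c.2) (hf C' hC')).trans_eq (one_mul _), by
      rw [mul_div_assoc, res_mul (hB _ c.2) (val_div hh (hf C hB)), e, smul_eq_mul,
        Subalgebra.coe_mul, res_mul (hB _ c.2) (hB _ a.2), mul_assoc]⟩

end RLift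

open RLift

theorem rowLift : OfLift := by
  intro K _ _ M H u hu h0 D C h hD hh hB s hs
  have htop : lid (chA M.U u) hh hB s = ⊤ := by
    refine H.top u hu h0 _ fun p hp => ?_
    by_cases hC : On C p
    · obtain ⟨η, hη⟩ := H.eqn D hD p
      obtain ⟨g, hg, e⟩ := hs p η hC hη
      have h1 := (H.memL D p η hη (g / η)).2 (by rwa [div_mul_cancel₀ _ hη.1])
      obtain ⟨q, hq, hq0, hqf⟩ := H.clr1 u hu h0 D p hp _ h1
      refine ⟨⟨q, hq⟩, ⟨_, hqf, ?_⟩, hq0⟩
      have h2 := val_eqn hh hC hη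
      have h3 := val_div hh (h1 C hC)
      have h4 : res C.1 (η * h) ≠ 0 := fun e0 => ((res_eq_zero h2.le).1 e0).ne h2
      have h5 : res C.1 (g / η / h) = s := by
        refine mul_right_cancel₀ h4 ?_
        rw [← res_mul h3 h2.le, e, div_div, div_mul_cancel₀ _ (mul_ne_zero hη.1 hh.1)]
      rw [mul_div_assoc, res_mul (hB q hq) h3, h5]
    · obtain ⟨q, hq, hq0, hq1⟩ := H.sepc u hu h0 C p hB hp hC
      refine ⟨⟨q, hq⟩, ⟨0, fun _ _ => by simp, ?_⟩, hq0⟩
      rw [zero_div, res_zero, (res_eq_zero hq1.le).2 hq1, zero_mul]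
  obtain ⟨f, hf, e⟩ : (1 : chA M.U u) ∈ lid (chA M.U u) hh hB s := htop ▸ Submodule.mem_top
  exact ⟨f, hf, by rw [e, Subalgebra.coe_one, res_one, one_mul]⟩

end Pool.Agent.MP_ee8c61_ag.M3S
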