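import Pool.Agent.MP_ee8c61_ag.M3S.SpecF

/-! Curves through a point of a smooth surface. -/

set_option autoImplicit false

namespace Pool.Agent.MP_ee8c61_ag.M3S

open Pool.Agent.MP_96693b_ag.RS Pool.Agent.MP_cce4c9_lc.H87 WithZero Finsupp Filter

namespace RLocA

variable {K : Type} [Field K] [Algebra ℂ K] {M : Model K 2}

theorem lt1 {a b : WithZero (Multiplicative ℤ)} (ha : a ≤ 1) (hb : b < 1) : a * b < 1 :=
  mul_comm b a ▸ mul_lt_one_of_lt_of_le hb ha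

theorem evz {v : Place ℂ K} {L : Loc K} (h : Ov v L) {g : K} (hg : g ∈ L.O) (hv : v.val g < 1) :
    L.ev g = 0 := by
  by_contra hne
  have h1 := h _ (L.inv_mem g hg hne)
  have h2 : v.val g * v.val g⁻¹ = 1 := by
    rw [← map_mul, mul_inv_cancel₀ (Loc.ne_zero_of_ev hne), map_one]
  exact absurd h2 (mul_lt_one_of_lt_of_le hv h1).ne

theorem unit {v : Place ℂ K} {L : Loc K} (h : Ov v L) {g : K} (hg : g ∈ L.O) (hv : L.ev g ≠ 0) :
    v.val g = 1 :=
  (h g hg).eq_or_lt.resolve_right fun e => hv (evz h hg e)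

theorem ndom (C : Crv M) (p : M.P) (hp : On C p) :
    ∃ g ∈ (M.loc p).O, (M.loc p).ev g = 0 ∧ C.1.val g = 1 := by
  by_contra hne
  have H : ∀ g ∈ (M.loc p).O, C.1.val g = 1 → (M.loc p).ev g ≠ 0 :=
    fun g hg h1 h0 => hne ⟨g, hg, h0, h1⟩
  obtain ⟨p0, h0, hg0⟩ := C.2
  obtain ⟨u, hu, hu0, hb⟩ := Model.isPt p
  obtain ⟨w, hw, hw0, hb'⟩ := Model.isPt p0
  have h1 : w / u ∈ (M.loc p).O := hb.le (div_mem_chA hw)
  have h2 : u / w ∈ (M.loc p0).O := hb'.le (div_mem_chA hu)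
  have h3 : C.1.val (w / u) = 1 := by
    refine (hp _ h1).eq_or_lt.resolve_right fun e => ?_
    have h4 : C.1.val (w / u) * C.1.val (u / w) = 1 := by
      rw [← map_mul, div_mul_div_cancel₀ hu0, div_self hw0, map_one]
    exact absurd h4 (mul_lt_one_of_lt_of_le e (h0 _ h2)).ne
  have h4 : chA M.U w ≤ (M.loc p).O := chA_le.2 fun x hx => by
    have := Loc.div_mem (hb.le (div_mem_chA hx)) h1 (H _ h1 h3)
    rwa [div_div_div_cancel_right₀ hu0] at this
  have h5 : (M.loc p0).O ≤ (M.loc p).O := fun f hf => by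
    obtain ⟨a, ha, q, hq, hq0, e⟩ := hb'.frac f hf
    rw [eq_div_of_mul_eq (Loc.ne_zero_of_ev hq0) e]
    exact Loc.div_mem (h4 ha) (h4 hq) (H _ (h4 hq) (unit h0 (hb'.le hq) hq0))
  obtain rfl := Model.eq_of_loc_le h5
  exact hne hg0

/-- The centre of the place. -/
def cen {v : Place ℂ K} {L : Loc K} (h : Ov v L) : Ideal L.O where
  carrier := {g | v.val (g : K) < 1}
  add_mem' := fun {a b} ha hb => (v.val.map_add (a : K) b).trans_lt (max_lt ha hb)
  zero_mem' := by simp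
  smul_mem' := fun c f hf => by
    change v.val ((c : K) * f) < 1
    rw [map_mul]
    exact lt1 (h c c.2) hf

theorem cen_prime {v : Place ℂ K} {L : Loc K} (h : Ov v L) : (cen h).IsPrime := by
  refine ⟨fun e => ?_, fun {a b} hab => ?_⟩
  · have : (1 : L.O) ∈ cen h := e ▸ Submodule.mem_top
    have h1 : v.val ((1 : L.O) : K) < 1 := this
    simp at h1
  · by_contra hne
    rw [not_or] at hne
    have ha : v.val (a : K) = 1 := (h a a.2).eq_or_lt.resolve_right hne.1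
    have hb : v.val (b : K) = 1 := (h b b.2).eq_or_lt.resolve_right hne.2
    have h1 : v.val ((a : K) * b) < 1 := hab
    rw [map_mul, ha, hb, one_mul] at h1
    exact lt_irrefl _ h1

/-- A generator of the centre. -/
def Gen (v : Place ℂ K) (L : Loc K) (η : K) : Prop :=
  η ∈ L.O ∧ v.val η < 1 ∧ ∀ g ∈ L.O, v.val g < 1 → ∃ c ∈ L.O, g = c * η

theorem ex_gen (hU : StUFD) (C : Crv M) (p : M.P) (hp : On C p) : ∃ η, Gen C.1 (M.loc p) η := by
  obtain ⟨κ, hκ⟩ := Model.exists_crd p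
  obtain ⟨g, hg, h0, h1⟩ := ndom C p hp
  obtain ⟨η, hη⟩ := (hU K (M.loc p) κ hκ).2 (cen hp) (cen_prime hp) ⟨⟨g, hg⟩, h0, fun e => by
    have h2 : C.1.val g < 1 := e
    rw [h1] at h2
    exact lt_irrefl _ h2⟩
  refine ⟨η, η.2, ?_, fun a ha h2 => ?_⟩
  · have : η ∈ cen hp := hη ▸ Submodule.mem_span_singleton_self η
    exact this
  · have : (⟨a, ha⟩ : (M.loc p).O) ∈ cen hp := h2
    rw [hη, Submodule.mem_span_singleton] at this
    obtain ⟨c, hc⟩ := this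
    exact ⟨c, c.2, (congrArg Subtype.val hc).symm⟩

variable {v : Place ℂ K} {p : M.P} {η : K}

theorem Gen.ne (h : Ov v (M.loc p)) (hη : Gen v (M.loc p) η) : η ≠ 0 := by
  rintro rfl
  obtain ⟨π, hπ⟩ := v.exists_unif
  obtain ⟨a, ha, b, hb, hb0, e⟩ := Model.frac p π
  have h1 : v.val π < 1 := by
    rw [hπ, ← exp_zero, exp_lt_exp]
    norm_num
  obtain ⟨c, -, hc⟩ := hη.2.2 a ha (by
    rw [← e, map_mul]
    exact mul_lt_one_of_lt_of_le h1 (h b hb))
  rw [hc, mul_zero, mul_eq_zero] at e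
  rcases e with e | e
  · rw [e, map_zero] at hπ
    exact exp_ne_zero hπ.symm
  · exact hb0 e

theorem Gen.split (h : Ov v (M.loc p)) (hη : Gen v (M.loc p) η) (N : ℕ) :
    ∀ a ∈ (M.loc p).O, a ≠ 0 → v.ord a < N →
      ∃ (n : ℕ) (a' : K), a' ∈ (M.loc p).O ∧ v.val a' = 1 ∧ a = η ^ n * a' := by
  induction N with
  | zero =>
    intro a ha h0 h1
    have := (v.val_le_one (v.val_ne h0)).1 (h a ha)
    simp only [Nat.cast_zero] at h1
    omega
  | succ N ih =>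
    intro a ha h0 h1
    rcases (h a ha).eq_or_lt with e | e
    · exact ⟨0, a, ha, e, by simp⟩
    · obtain ⟨c, hc, rfl⟩ := hη.2.2 a ha e
      have hc0 : c ≠ 0 := left_ne_zero_of_mul h0
      have h2 := (v.val_lt_one (v.val_ne (hη.ne h))).1 hη.2.1
      rw [v.ord_mul (v.val_ne hc0) (v.val_ne (hη.ne h))] at h1
      obtain ⟨n, a', h3, h4, h5⟩ := ih c hc hc0 (by push_cast at h1; omega)
      exact ⟨n + 1, a', h3, h4, by rw [h5]; ring⟩

theorem Gen.form (h : Ov v (M.loc p)) (hη : Gen v (M.loc p) η) {f : K} (hf : f ≠ 0) :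
    ∃ (n m : ℕ) (a b : K), a ∈ (M.loc p).O ∧ b ∈ (M.loc p).O ∧ v.val b = 1 ∧
      f * (η ^ m * b) = η ^ n * a ∧ v.ord f + m * v.ord η = n * v.ord η := by
  obtain ⟨a, ha, b, hb, hb0, e⟩ := Model.frac p f
  have ha0 : a ≠ 0 := e ▸ mul_ne_zero hf hb0
  obtain ⟨n, a', a1, a2, rfl⟩ := hη.split h ((v.ord a).toNat + 1) a ha ha0 (by push_cast; omega)
  obtain ⟨m, b', b1, b2, rfl⟩ := hη.split h ((v.ord b).toNat + 1) b hb hb0 (by push_cast; omega)
  refine ⟨n, m, a', b', a1, b1, b2, e, ?_⟩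
  have h1 := congrArg v.ord e
  have h2 : ∀ k : ℕ, v.val (η ^ k) ≠ 0 := fun k => v.val_ne (pow_ne_zero k (hη.ne h))
  rw [v.ord_mul (v.val_ne hf) (v.val_ne hb0), v.ord_mul (h2 m) (b2 ▸ one_ne_zero),
    v.ord_mul (h2 n) (a2 ▸ one_ne_zero), v.ord_pow, v.ord_pow, v.ord_of_val_one a2,
    v.ord_of_val_one b2] at h1
  omega

theorem Gen.ord (h : Ov v (M.loc p)) (hη : Gen v (M.loc p) η) : v.ord η = 1 := by
  obtain ⟨π, hπ⟩ := v.exists_unif
  have h0 : π ≠ 0 := fun e => by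
    rw [e, map_zero] at hπ
    exact exp_ne_zero hπ.symm
  obtain ⟨n, m, -, -, -, -, -, -, e⟩ := hη.form h h0
  rw [v.ord_eq hπ] at e
  have h2 := (v.val_lt_one (v.val_ne (hη.ne h))).1 hη.2.1
  exact Int.eq_one_of_mul_eq_one_left h2.le (a := (n : ℤ) - m) (by linear_combination -e)

theorem Gen.frac (h : Ov v (M.loc p)) (hη : Gen v (M.loc p) η) {f : K} (hf : v.val f ≤ 1) :
    ∃ s ∈ (M.loc p).O, v.val s = 1 ∧ s * f ∈ (M.loc p).O := by
  by_cases h0 : f = 0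
  · exact ⟨1, one_mem _, map_one _, by rw [h0, mul_zero]; exact zero_mem _⟩
  obtain ⟨n, m, a, b, ha, hb, h1, e, h2⟩ := hη.form h h0
  have h3 := (v.val_le_one (v.val_ne h0)).1 hf
  rw [hη.ord h] at h2
  obtain ⟨k, rfl⟩ : ∃ k, n = m + k := ⟨n - m, by omega⟩
  refine ⟨b, hb, h1, ?_⟩
  have h4 : b * f = η ^ k * a :=
    mul_left_cancel₀ (pow_ne_zero m (hη.ne h)) (by linear_combination e)
  rw [h4]
  exact mul_mem (pow_mem hη.1 k) ha

theorem Gen.uniq {v' : Place ℂ K} {η' : K} (h : Ov v (M.loc p)) (hη : Gen v (M.loc p) η)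
    (h' : Ov v' (M.loc p)) (hη' : Gen v' (M.loc p) η') (hv : v'.val η < 1) : v = v' := by
  obtain ⟨c, hc, e⟩ := hη'.2.2 η hη.1 hv
  have h1 : v.val η' < 1 := by
    refine (h η' hη'.1).eq_or_lt.resolve_left fun h2 => ?_
    have h3 := hη.2.1
    rw [e, map_mul, h2, mul_one] at h3
    obtain ⟨d, hd, e'⟩ := hη.2.2 c hc h3
    have h4 : d * η' = 1 := mul_left_cancel₀ (hη.ne h) (by linear_combination -e - η' * e')
    have h5 : v'.val (d * η') < 1 := by
      rw [map_mul]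
      exact lt1 (h' d hd) hη'.2.1
    rw [h4, map_one] at h5
    exact lt_irrefl _ h5
  refine Place.eq_of_le v v' fun x hx => ?_
  obtain ⟨s, hs, h2, h3⟩ := hη.frac h hx
  have h4 : v'.val s = 1 := by
    refine (h' s hs).eq_or_lt.resolve_right fun h5 => ?_
    obtain ⟨d, hd, e'⟩ := hη'.2.2 s hs h5
    rw [e', map_mul] at h2
    exact absurd h2 (lt1 (h d hd) h1).ne
  have h5 := h' _ h3
  rwa [map_mul, h4, one_mul] at h5

end RLocA

open RLocA

theorem rowLocA : OfLocA := by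
  intro hU K _ _ M
  have hfrac : ∀ (C : Crv M) p, On C p → ∀ f, C.1.val f ≤ 1 →
      ∃ s ∈ (M.loc p).O, C.1.val s = 1 ∧ s * f ∈ (M.loc p).O := fun C p hp f hf => by
    obtain ⟨η, hη⟩ := ex_gen hU C p hp
    exact hη.frac hp hf
  refine ⟨ndom, fun C p hp g hg hv => evz hp hg hv, fun C p hp => ?_, hfrac,
    fun C p hp δ hδ f hf => ?_⟩
  · obtain ⟨η, hη⟩ := ex_gen hU C p hp
    refine ⟨η, hη.1, ⟨hη.ne hp, fun C' hp' => ?_⟩, fun g hg hv => ?_⟩
    · by_cases e : C = C'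
      · subst e
        rw [hη.ord hp, single_eq_same, Int.cast_one]
      · obtain ⟨η', hη'⟩ := ex_gen hU C' p hp'
        have h1 : C'.1.val η = 1 := (hp' η hη.1).eq_or_lt.resolve_right fun h2 =>
          e (Subtype.ext (hη.uniq hp hp' hη' h2))
        rw [C'.1.ord_of_val_one h1, single_eq_of_ne (Ne.symm e), Int.cast_zero]
    · obtain ⟨c, hc, rfl⟩ := hη.2.2 g hg hv
      rwa [mul_div_cancel_right₀ _ (hη.ne hp)]
  · obtain ⟨s, hs, h1, h2⟩ := hfrac C p hp f hf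
    have h3 : s * δ f = δ (s * f) - f * δ s := by
      rw [Derivation.leibniz, smul_eq_mul, smul_eq_mul]
      ring
    have h4 : C.1.val (s * δ f) ≤ 1 := by
      rw [h3]
      refine (C.1.val.map_sub _ _).trans (max_le (hp _ (hδ _ h2)) ?_)
      rw [map_mul]
      exact mul_le_one' hf (hp _ (hδ _ hs))
    rwa [map_mul, h1, one_mul] at h4

end Pool.Agent.MP_ee8c61_ag.M3S
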