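import Pool.Agent.MP_ee8c61_ag.M3S.SpecF

/-!
Row LocB: normality of the local rings of a smooth surface.
-/

set_option autoImplicit false

namespace Pool.Agent.MP_ee8c61_ag.M3S

open Pool.Agent.MP_96693b_ag.RS Pool.Agent.MP_cce4c9_lc.H87 WithZero

namespace RLocB

section Val

variable {R : Type} [CommRing R] [IsDomain R] [WfDvdMonoid R] {π : R}

open Classical in
/-- The valuation attached to a prime element. -/
noncomputable def pv (hπ : Prime π) : Valuation R ℤᵐ⁰ where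
  toFun r := if r = 0 then 0 else exp (-(multiplicity π r : ℤ))
  map_zero' := if_pos rfl
  map_one' := by rw [if_neg one_ne_zero, multiplicity_of_one_right hπ.not_isUnit]; simp
  map_mul' a b := by
    by_cases ha : a = 0
    · simp [ha]
    by_cases hb : b = 0
    · simp [hb]
    rw [if_neg ha, if_neg hb, if_neg (mul_ne_zero ha hb),
      multiplicity_mul hπ (.of_prime_left hπ (mul_ne_zero ha hb)), ← exp_add]
    congr 1
    push_cast
    ring
  map_add_le_max' a b := by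
    by_cases ha : a = 0
    · simp [ha]
    by_cases hb : b = 0
    · simp [hb]
    by_cases hc : a + b = 0
    · simp [hc]
    simp only [if_neg ha, if_neg hb, if_neg hc]
    have h := (FiniteMultiplicity.of_prime_left hπ hc).pow_dvd_iff_le_multiplicity.1
      (dvd_add (pow_dvd_of_le_multiplicity (min_le_left (multiplicity π a) (multiplicity π b)))
        (pow_dvd_of_le_multiplicity (min_le_right (multiplicity π a) (multiplicity π b))))
    rw [le_max_iff, exp_le_exp, exp_le_exp]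
    omega

theorem pv_apply (hπ : Prime π) {r : R} (h : r ≠ 0) :
    pv hπ r = exp (-(multiplicity π r : ℤ)) := if_neg h

theorem ex_val (K : Type) [Field K] [Algebra R K] [IsFractionRing R K] (hπ : Prime π) :
    ∃ v : Valuation K ℤᵐ⁰, Function.Surjective v ∧ (∀ r, v (algebraMap R K r) ≤ 1) ∧
      ∀ r, v (algebraMap R K r) < 1 ↔ π ∣ r := by
  have hS : nonZeroDivisors R ≤ (pv hπ).supp.primeCompl := fun r hr h => by
    have h1 : pv hπ r = 0 := h
    rw [pv_apply hπ (nonZeroDivisors.ne_zero hr)] at h1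
    exact exp_ne_zero h1
  refine ⟨(pv hπ).extendToLocalization hS K, fun x => ?_, fun r => ?_, fun r => ?_⟩
  · by_cases hx : x = 0
    · exact ⟨0, by rw [map_zero, hx]⟩
    refine ⟨algebraMap R K π ^ (-log x), ?_⟩
    rw [map_zpow₀, Valuation.extendToLocalization_apply_map_apply, pv_apply hπ hπ.ne_zero,
      multiplicity_self, ← exp_zsmul]
    simpa using exp_log hx
  · rw [Valuation.extendToLocalization_apply_map_apply]
    by_cases h : r = 0
    · simp [h]
    rw [pv_apply hπ h, ← exp_zero, exp_le_exp]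
    omega
  · rw [Valuation.extendToLocalization_apply_map_apply]
    by_cases h : r = 0
    · simp [h]
    rw [pv_apply hπ h, ← exp_zero, exp_lt_exp, ← not_not (a := π ∣ r), ← multiplicity_eq_zero]
    omega

end Val

variable {K : Type} [Field K] [Algebra ℂ K] {M : Model K 2} {L : Loc K}

theorem isFrac (p : M.P) : IsFractionRing (M.loc p).O K :=
  IsFractionRing.of_field _ _ fun z => by
    obtain ⟨a, ha, b, hb, h0, e⟩ := Model.frac p z
    exact ⟨⟨a, ha⟩, ⟨b, hb⟩, eq_div_of_mul_eq h0 e⟩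

theorem isUnit_iff (g : L.O) : IsUnit g ↔ L.ev g ≠ 0 := by
  refine ⟨fun h h0 => ?_, fun h => IsUnit.of_mul_eq_one ⟨_, L.inv_mem _ g.2 h⟩
    (Subtype.ext (mul_inv_cancel₀ (Loc.ne_zero_of_ev h)))⟩
  obtain ⟨b, hb⟩ := h.exists_right_inv
  have := L.ev_mul _ g.2 _ b.2
  rw [h0, zero_mul, ← MulMemClass.coe_mul, hb, OneMemClass.coe_one, Loc.ev_one] at this
  exact one_ne_zero this

theorem mul_mem_sq {a b : K} (ha : a ∈ L.m) (hb : b ∈ L.m) : a * b ∈ L.m ^ 2 := by
  rw [pow_two]; exact Submodule.mul_mem_mul ha hb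

/-- The maximal ideal is not principal. -/
theorem not_dvd {κ : Chart K 2} (h : IsCrd L κ) {π : L.O} (hπ : ¬ IsUnit π)
    (h0 : π ∣ ⟨κ.x 0, h.x_mem 0⟩) (h1 : π ∣ ⟨κ.x 1, h.x_mem 1⟩) : False := by
  obtain ⟨a, ha⟩ := h0
  obtain ⟨b, hb⟩ := h1
  have ea : κ.x 0 = π * a := congrArg Subtype.val ha
  have eb : κ.x 1 = π * b := congrArg Subtype.val hb
  have hm : (π : K) ∈ L.m := ⟨π.2, not_not.1 fun e => hπ ((isUnit_iff π).2 e)⟩
  have hu : L.ev a ≠ 0 := fun e => h.x_notMem_sup (J := ∅) (j := 0) (by simp)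
    (Submodule.mem_sup_right (by rw [ea]; exact mul_mem_sq hm ⟨a.2, e⟩))
  have h2 : κ.x 1 ∈ κ.I L {0} := by
    rw [Chart.I_singleton, Loc.mem_span_singleton]
    refine ⟨b / a, Loc.div_mem b.2 a.2 hu, ?_⟩
    have := Loc.ne_zero_of_ev hu
    rw [ea, eb]
    field_simp
  simpa using h.x_mem_I.1 h2

/-- A prime element defines a curve through the point. -/
theorem ex_crv (p : M.P) [WfDvdMonoid (M.loc p).O] {π : (M.loc p).O} (hπ : Prime π) :
    ∃ C : Crv M, On C p ∧ ∀ g : (M.loc p).O, C.1.val g < 1 ↔ π ∣ g := by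
  have := isFrac p
  obtain ⟨v, h1, h2, h3⟩ := ex_val K hπ
  have h4 : ∀ g : (M.loc p).O, ¬ π ∣ g → v g = 1 := fun g hg =>
    (h2 g).eq_of_not_lt fun e => hg ((h3 g).1 e)
  let w : Place ℂ K := ⟨v, h1, fun a ha => h4 (algebraMap ℂ (M.loc p).O a) fun e =>
    hπ.not_isUnit (isUnit_of_dvd_unit e ((Ne.isUnit ha).map _))⟩
  have h5 : Ov w (M.loc p) := fun f hf => h2 ⟨f, hf⟩
  obtain ⟨κ, hκ⟩ := M.smooth _ p.2
  refine ⟨⟨w, p, h5, ?_⟩, h5, h3⟩
  by_cases e : π ∣ ⟨κ.x 0, hκ.x_mem 0⟩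
  · exact ⟨_, hκ.x_mem 1, (hκ.x_mem_m 1).2, h4 ⟨_, hκ.x_mem 1⟩ (not_dvd hκ hπ.not_isUnit e)⟩
  · exact ⟨_, hκ.x_mem 0, (hκ.x_mem_m 0).2, h4 ⟨_, hκ.x_mem 0⟩ e⟩

theorem ex_crv' (p : M.P) [UniqueFactorizationMonoid (M.loc p).O] {b : (M.loc p).O}
    (h0 : b ≠ 0) (hb : ¬ IsUnit b) : ∃ C : Crv M, On C p ∧ C.1.val b < 1 ∧
      ∀ a : (M.loc p).O, IsRelPrime a b → C.1.val a = 1 := by
  obtain ⟨π, h1, h2⟩ := WfDvdMonoid.exists_irreducible_factor hb h0
  obtain ⟨C, h3, h4⟩ := ex_crv p (UniqueFactorizationMonoid.irreducible_iff_prime.1 h1)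
  exact ⟨C, h3, (h4 b).2 h2, fun a ha =>
    (h3 a a.2).eq_of_not_lt fun e => h1.not_isUnit (ha ((h4 a).1 e) h2)⟩

theorem hart (p : M.P) [UniqueFactorizationMonoid (M.loc p).O] (f : K)
    (h : ∀ C : Crv M, On C p → C.1.val f ≤ 1) : f ∈ (M.loc p).O := by
  obtain ⟨a, ha, b, hb, h0, e⟩ := Model.frac p f
  obtain ⟨a', b', c, h1, h2, h3⟩ := UniqueFactorizationMonoid.exists_reduced_factors'
    (⟨a, ha⟩ : (M.loc p).O) ⟨b, hb⟩ fun e => h0 (congrArg Subtype.val e)
  have ea : (c : K) * a' = a := congrArg Subtype.val h2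
  have eb : (c : K) * b' = b := congrArg Subtype.val h3
  have hc : (c : K) ≠ 0 := left_ne_zero_of_mul (eb ▸ h0)
  have hb' : (b' : K) ≠ 0 := right_ne_zero_of_mul (eb ▸ h0)
  have e' : f * b' = a' := mul_left_cancel₀ hc (by rw [ea, ← e, ← eb]; ring)
  by_cases hu : IsUnit b'
  · rw [eq_div_of_mul_eq hb' e']
    exact Loc.div_mem a'.2 b'.2 ((isUnit_iff b').1 hu)
  obtain ⟨C, k1, k2, k3⟩ := ex_crv' p (fun e => hb' (congrArg Subtype.val e)) hu
  have k4 := k3 a' h1
  rw [← e', map_mul] at k4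
  exact absurd k4 ((mul_le_of_le_one_left' (h C k1)).trans_lt k2).ne

theorem thru (p : M.P) [UniqueFactorizationMonoid (M.loc p).O] (g : K) (hg : g ∈ (M.loc p).O)
    (h : (M.loc p).ev g = 0) : ∃ C : Crv M, On C p ∧ C.1.val g < 1 := by
  have k : ∀ g ∈ (M.loc p).O, g ≠ 0 → (M.loc p).ev g = 0 →
      ∃ C : Crv M, On C p ∧ C.1.val g < 1 := fun g hg h0 h => by
    obtain ⟨C, k1, k2, -⟩ := ex_crv' p (b := ⟨g, hg⟩) (fun e => h0 (congrArg Subtype.val e))
      fun e => (isUnit_iff _).1 e h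
    exact ⟨C, k1, k2⟩
  by_cases h0 : g = 0
  · obtain ⟨κ, hκ⟩ := M.smooth _ p.2
    obtain ⟨C, k1, -⟩ := k _ (hκ.x_mem 0) (hκ.x_ne_zero 0) (hκ.x_mem_m 0).2
    exact ⟨C, k1, by simp [h0]⟩
  · exact k g hg h0 h

theorem unit (p : M.P) [UniqueFactorizationMonoid (M.loc p).O] (f : K) :
    (M.loc p).ev f ≠ 0 ↔ ∀ C : Crv M, On C p → C.1.val f = 1 := by
  constructor
  · intro h C hC
    have hf : f ∈ (M.loc p).O := by_contra fun e => h ((M.loc p).ev_out f e)
    have h1 := hC _ ((M.loc p).inv_mem f hf h)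
    rw [map_inv₀, inv_le_one₀ (zero_lt_iff.2 (C.1.val_ne (Loc.ne_zero_of_ev h)))] at h1
    exact le_antisymm (hC f hf) h1
  · intro h e
    obtain ⟨C, k1, k2⟩ := thru p f (hart p f fun C hC => (h C hC).le) e
    exact k2.ne (h C k1)

theorem chart_of {κ : Chart K 2} (h : IsCrd L κ) {g : K} (hg : g ∈ L.m) {i j : Fin 2}
    (hij : i ≠ j) (hD : L.ev (κ.D i g) ≠ 0) : ∃ κ' : Chart K 2, IsCrd L κ' ∧ κ'.x 0 = g := by
  obtain ⟨κ', h1, h2⟩ := h.exists_chart ![g, κ.x j] (fun l => by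
    fin_cases l
    · exact hg
    · exact h.x_mem_m j) (fun c hc => by
    rw [Fin.sum_univ_two] at hc
    simp only [Matrix.cons_val_zero, Matrix.cons_val_one] at hc
    have k : ∀ l, L.ev (κ.D l (c 0 • g + c 1 • κ.x j)) = 0 := fun l => by
      have := Loc.der_pow_succ (k := 1) (h.D_log l) Loc.m_le_one hc
      rw [pow_one] at this
      exact this.2
    have k0 := k i
    rw [map_add, Derivation.map_smul, Derivation.map_smul, h.dual, if_neg hij, smul_zero, add_zero,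
      Loc.ev_smul (h.pres i g hg.1)] at k0
    have c0 : c 0 = 0 := (mul_eq_zero.1 k0).resolve_right hD
    have k1 := k j
    rw [c0, zero_smul, zero_add, Derivation.map_smul, h.dual, if_pos rfl,
      Loc.ev_smul (one_mem _), Loc.ev_one, mul_one] at k1
    funext l
    fin_cases l
    · exact c0
    · exact k1)
  exact ⟨κ', h1, by rw [h2]; rfl⟩

theorem chart {κ : Chart K 2} (h : IsCrd L κ) {g : K} (hg : g ∈ L.m) (h2 : g ∉ L.m ^ 2) :
    ∃ κ' : Chart K 2, IsCrd L κ' ∧ κ'.x 0 = g := by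
  by_cases e0 : L.ev (κ.D 0 g) = 0
  · by_cases e1 : L.ev (κ.D 1 g) = 0
    · have := h.sub_linear hg
      rw [Fin.sum_univ_two, e0, e1, zero_smul, zero_smul, add_zero, sub_zero] at this
      exact absurd this h2
    · exact chart_of h hg (j := 0) (by decide) e1
  · exact chart_of h hg (j := 1) (by decide) e0

end RLocB

open RLocB in
theorem rowLocB : OfLocB := by
  intro hU K _ _ M hA
  have u : ∀ p : M.P, UniqueFactorizationMonoid (M.loc p).O := fun p => by
    obtain ⟨κ, hκ⟩ := M.smooth _ p.2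
    exact (hU K _ κ hκ).1
  refine ⟨fun p => hart p, fun p => thru p, fun p => unit p, fun p g hg h0 h2 => ⟨?_, ?_⟩⟩
  · obtain ⟨κ, hκ⟩ := M.smooth _ p.2
    exact chart hκ ⟨hg, h0⟩ h2
  · intro C hC hv
    obtain ⟨η, h3, h4, h5⟩ := hA.eqn1 C p hC
    have g0 : g ≠ 0 := fun e => h2 (e ▸ zero_mem _)
    have e : g = g / η * η := (div_mul_cancel₀ g h4.1).symm
    have h6 : C.1.val η < 1 := by
      have := h4.2 C hC
      rw [Finsupp.single_eq_same] at this
      rw [C.1.val_lt_one (C.1.val_ne h4.1)]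
      exact_mod_cast this ▸ one_pos
    have h7 : (M.loc p).ev (g / η) ≠ 0 := fun k => h2 (by
      rw [e]; exact mul_mem_sq ⟨h5 g hg hv, k⟩ ⟨h3, hA.evz C p hC η h3 h6⟩)
    refine ⟨g0, fun C' hC' => ?_⟩
    have h8 := (unit p _).1 h7 C' hC'
    rw [← h4.2 C' hC', e, C'.1.ord_mul (by rw [h8]; exact one_ne_zero) (C'.1.val_ne h4.1),
      C'.1.ord_of_val_one h8, zero_add]

end Pool.Agent.MP_ee8c61_ag.M3S
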