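import Pool.Agent.MP_ee8c61_ag.M3S.SpecF
import Pool.Agent.MP_ee8c61_ag.M3SN.Basic

/-! The numerical surface of a model has the properties used by the numerical rows. -/

set_option autoImplicit false

namespace Pool.Agent.MP_ee8c61_ag.M3S

open Pool.Agent.MP_96693b_ag.RS Pool.Agent.MP_cce4c9_lc.H87 WithZero Finsupp Filter Module

namespace ROK

variable {K : Type} [Field K] [Algebra ℂ K] {M : Model K 2}

theorem II_pr (C C' : Crv M) : II M (pr C) (pr C') = qq C C' := by simp [II]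

theorem mem_iff (h : FinS M) {D : Dr M} {f : K} (hf : f ≠ 0) : f ∈ H0 D ↔ 0 ≤ dvr M f + D := by
  rw [mem_H0 hf]
  refine forall_congr' fun C => ?_
  rw [Finsupp.add_apply, h.dva]
  rfl

theorem H0_eq (h : FinS M) (D : Dr M) : (toNS h).H0 D = H0 D := by
  ext f
  by_cases hf : f = 0
  · subst hf
    exact ⟨fun _ => zero_mem _, fun _ => zero_mem _⟩
  · rw [mem_iff h hf]
    exact ⟨fun a => a hf, fun a _ => a⟩

theorem h0_eq (h : FinS M) (D : Dr M) : (toNS h).h0 D = h0 D := by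
  unfold M3SN.NS.h0 h0
  rw [H0_eq]

theorem gam_eq (h : Fnd M) (C : Crv M) : (toNS h.toFinS).gam C = gam C := by
  have h1 : kap M (pr C) = -2 * gam C - qq C C := by simp [kap]
  change -(II M (KD M) (pr C) + II M (pr C) (pr C)) / 2 = _
  rw [← h.kapE, h1, II_pr]
  ring

theorem triv (h : Fnd M) {f : K} (hf : f ≠ 0) : M3SN.Triv (II M) (dvr M f) :=
  M3SN.triv_of_cv fun C => h.num f C hf

theorem ww (h : Fnd M) : 0 < II M (wD M) (wD M) := by
  obtain ⟨u, hu, hu0⟩ := M.nz
  obtain ⟨p⟩ : Nonempty M.P := inferInstance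
  obtain ⟨C, -⟩ := h.thru p 0 (zero_mem _) Loc.ev_zero
  have h1 : 0 ≤ dvr M u + wD M := (mem_iff h.toFinS hu0).1 (h.wsec u hu)
  have h2 : dvr M u + wD M ≠ 0 := fun e => by
    have h3 := h.wpos C
    have h4 : II M (dvr M u + wD M) (pr C) = 0 := by rw [e, map_zero, LinearMap.zero_apply]
    rw [map_add, LinearMap.add_apply, h.num u C hu0] at h4
    linarith
  obtain ⟨C', hC'⟩ := Finsupp.ne_iff.1 h2
  have hn : M3SN.Nef (II M) (wD M) := fun C => zero_le_one.trans (h.wpos C)
  have h5 := hn.term_le h1 C'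
  rw [map_add, h.sym (wD M) (dvr M u), triv h hu0, zero_add] at h5
  exact lt_of_lt_of_le (mul_pos (lt_of_le_of_ne (h1 C') (Ne.symm hC'))
    (zero_lt_one.trans_le (h.wpos C'))) h5

theorem off (h : Fnd M) (T : Finset (Crv M)) : ∃ p, ∀ C ∈ T, ¬ On C p := by
  choose g hg using fun C : Crv M => C.1.exists_unif
  obtain ⟨p⟩ : Nonempty M.P := inferInstance
  obtain ⟨b, hb⟩ := (frequently_ne (T.finite_toSet.image g) (by
    rintro _ ⟨C, -, rfl⟩ e
    have := hg C
    rw [e, map_zero] at this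
    exact exp_ne_zero this.symm) p).exists
  refine ⟨b, fun C hC hp => ?_⟩
  have h1 := hb _ ⟨C, hC, rfl⟩
  refine h1 (h.evz C b hp _ (Loc.mem_of_ev h1) ?_)
  rw [hg, ← exp_zero, exp_lt_exp]
  norm_num

/-- A lift of a generating section on `C` generates. -/
theorem gen (h : Fnd M) {L : Dr M} (hL : IsInt L) {C : Crv M} {m : K} (hm : Mv L C m) {p : M.P}
    (hp : On C p) {η f g : K} (hη : Eqn L p η) (hf : f ∈ H0 L) (hg : (M.loc p).ev g ≠ 0)
    (e : res C.1 (f / m) * res C.1 (η * m) = res C.1 g) : (toNS h.toFinS).Gen L p := by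
  have h1 : f * η ∈ (M.loc p).O := (h.memH L hL f).1 hf p η hη
  have h2 : C.1.val (η * m) = 1 := by
    rw [C.1.val_one_iff (C.1.val_ne (mul_ne_zero hη.1 hm.1)),
      C.1.ord_mul (C.1.val_ne hη.1) (C.1.val_ne hm.1)]
    have h3 : ((C.1.ord η + C.1.ord m : ℤ) : ℝ) = 0 := by
      rw [Int.cast_add, hη.2 C hp, hm.2, add_neg_cancel]
    exact_mod_cast h3
  have h3 : f / m * (η * m) = f * η := by
    rw [mul_comm η m, ← mul_assoc, div_mul_cancel₀ _ hm.1]
  have h4 : C.1.val (f / m) ≤ 1 := by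
    have := hp _ h1
    rwa [← h3, map_mul, h2, mul_one] at this
  have hgO := Loc.mem_of_ev hg
  rw [← res_mul h4 h2.le, h3, ← sub_eq_zero, ← res_sub (hp _ h1) (hp _ hgO),
    res_eq_zero (hp _ (sub_mem h1 hgO))] at e
  have h5 := h.evz C p hp _ (sub_mem h1 hgO) e
  rw [Loc.ev_sub h1 hgO, sub_eq_zero] at h5
  have h6 : (M.loc p).ev (f * η) ≠ 0 := h5 ▸ hg
  have hf0 : f ≠ 0 := left_ne_zero_of_mul (Loc.ne_zero_of_ev h6)
  refine ⟨f, hf0, (mem_iff h.toFinS hf0).1 hf, fun C' hC' => ?_⟩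
  have h7 := C'.1.ord_of_val_one ((h.unit p _).1 h6 C' hC')
  rw [C'.1.ord_mul (C'.1.val_ne hf0) (C'.1.val_ne hη.1)] at h7
  change (dvr M f + L) C' = 0
  rw [Finsupp.add_apply, h.dva, ← hη.2 C' hC', ← Int.cast_add, h7, Int.cast_zero]

end ROK

open ROK

theorem rowOK : OfOK := by
  intro K _ _ M h
  refine ⟨?_, fun ⟨T, hT⟩ => ⟨T, fun D hD => M3SN.triv_of_cv (hT D hD)⟩⟩
  exact
    { lat := { sym := h.sym, off := h.off, int := fun C C' => ⟨qq C C', II_pr C C'⟩ }
      meet := h.meet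
      dvZ := fun f _ C => ⟨_, h.dva f C⟩
      KZ := h.kZ
      wZ := h.wZ
      num := fun f hf => triv h hf
      adj := fun C => by
        rw [gam_eq h C]
        exact_mod_cast h.gle C
      wpos := fun C => zero_lt_one.trans_le (h.wpos C)
      ww := ww h
      wbpf := fun p => by
        obtain ⟨f, hf, h0, h1⟩ := h.wbpf p
        refine ⟨f, h0, (mem_iff h.toFinS h0).1 hf, fun C hC => ?_⟩
        change (dvr M f + wD M) C = 0
        rw [Finsupp.add_apply, h.dva, h1 C hC, Finsupp.neg_apply, neg_add_cancel]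
      pt := fun C => ⟨C.2.choose, C.2.choose_spec.1⟩
      off := off h
      ev := fun f p hf h1 => by
        have h2 : f ∈ (M.loc p).O := h.hart p f fun C hC => by
          have h3 : 0 ≤ dvr M f C := h1 C hC
          rw [h.dva] at h3
          exact (C.1.val_le_one (C.1.val_ne hf)).2 (by exact_mod_cast h3)
        refine ⟨(M.loc p).ev f, fun h3 => ?_⟩
        have h4 := Loc.mem_m.1 (Loc.sub_ev_mem h2)
        obtain ⟨C, hC, h5⟩ := h.thru p _ h4.1 h4.2
        refine ⟨C, hC, ?_⟩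
        change 0 < dvr M _ C
        rw [h.dva]
        exact_mod_cast (C.1.val_lt_one (C.1.val_ne h3)).1 h5
      fin := fun D => by
        rw [H0_eq]
        exact h.hfin D
      e0 := fun (L : Dr M) (C : Crv M) hL => by
        obtain ⟨m, hm⟩ := h.mv L C hL
        have h1 : (h0 L : ℝ) ≤ h0 (L - pr C) + finrank ℂ (WC L C m) := by
          exact_mod_cast h.hle L C m hL hm
        rw [h0_eq, h0_eq]
        exact h1.trans (add_le_add_right (h.wbd L C m hL hm) _)
      e1 := fun C : Crv M => by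
        obtain ⟨b, hb⟩ := h.gex C
        refine ⟨b, fun (L : Dr M) hL hbL => ?_⟩
        obtain ⟨m, hm⟩ := h.mv L C hL
        obtain ⟨h1, h2⟩ := hb L m hL hm hbL
        have h3 : (h0 L : ℝ) ≤ h0 (L - pr C) + finrank ℂ (WC L C m) := by
          exact_mod_cast h.hle L C m hL hm
        rw [h0_eq, h0_eq, gam_eq h C, add_assoc]
        refine ⟨h3.trans_eq (congrArg _ h1), fun e p hp => ?_⟩
        have h4 : (h0 L : ℝ) = h0 (L - pr C) + finrank ℂ (WC L C m) := e.trans (congrArg _ h1.symm)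
        obtain ⟨η, hη⟩ := h.eqn L hL p
        obtain ⟨s, hs, g, hg, h5⟩ := h2 p η hp hη
        obtain ⟨f, hf, rfl⟩ := (h.heq L C m hL hm).1 (by exact_mod_cast h4) s hs
        exact gen h hL hm hp hη hf hg h5
      rr := fun D hD => by
        obtain ⟨k0, hk⟩ := eventually_atTop.1 (h.isC0 D hD)
        refine ⟨k0, fun k hle => ?_⟩
        have h1 := hk k hle
        rw [h.kapE] at h1
        rw [h0_eq]
        exact h1
      bert := by
        obtain ⟨k, hk, f, hf, hR⟩ :=
          ((eventually_gt_atTop 0).and (h.ber 0 fun _ => ⟨0, by simp⟩)).exists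
        rw [zero_add] at hR
        refine ⟨k, f, hk, hf, hR.co, fun C C' hne h1 h2 => ?_⟩
        refine le_antisymm (not_lt.1 fun h3 => ?_) (h.off C C' hne)
        obtain ⟨p, h4, h5⟩ := (h.meet C C' hne).1 h3
        exact hne (hR.dis C C' p h1 h2 h4 h5) }

end Pool.Agent.MP_ee8c61_ag.M3S
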