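import Pool.Agent.MP_ee8c61_ag.M3S.SpecF

/-!
Discrepancies of a normal crossings pair.
-/

set_option autoImplicit false

namespace Pool.Agent.MP_ee8c61_ag.M3S

open Pool.Agent.MP_96693b_ag.RS Pool.Agent.MP_cce4c9_lc.H87 WithZero Finsupp

namespace RPlt

variable {K : Type} [Field K] [Algebra ℂ K]

theorem bound {ι : Type} (s : Finset ι) (B : ι → ℝ) (h : ∀ i, B i < 1) :
    ∃ b : ℝ, 0 ≤ b ∧ b < 1 ∧ ∀ i ∈ s, B i ≤ b := by
  classical
  induction s using Finset.induction_on with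
  | empty => exact ⟨0, le_rfl, one_pos, fun i hi => absurd hi (Finset.notMem_empty i)⟩
  | insert a s _ ih =>
    obtain ⟨b, h0, h1, h2⟩ := ih
    refine ⟨max b (B a), le_max_of_le_left h0, max_lt h1 (h a), fun i hi => ?_⟩
    rcases Finset.mem_insert.1 hi with e | hi
    · rw [e]; exact le_max_right _ _
    · exact le_max_of_le_left (h2 i hi)

/-- The logarithmic derivative has a simple pole with residue the order. -/
theorem logd (v : Place ℂ K) {π : K} (hπ : v.val π = exp (-1 : ℤ)) (δ : Der K)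
    (hδ : ∀ f, v.val f ≤ 1 → v.val (δ f) ≤ 1) {f : K} (hf : f ≠ 0) :
    ∃ s, v.val s ≤ 1 ∧ π * δ f = f * ((v.ord f : K) * δ π + π * s) := by
  have h0 : π ≠ 0 := fun e => by
    rw [e, map_zero] at hπ
    exact exp_ne_zero hπ.symm
  have h1 : v.ord π = 1 := v.ord_eq hπ
  obtain ⟨α, hα⟩ : ∃ α, α = f / π ^ v.ord f := ⟨_, rfl⟩
  have hz : π ^ v.ord f ≠ 0 := zpow_ne_zero _ h0
  have hα0 : α ≠ 0 := hα ▸ div_ne_zero hf hz
  have e : f = α * π ^ v.ord f := by rw [hα, div_mul_cancel₀ _ hz]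
  have h2 : v.val α = 1 := by
    rw [v.val_one_iff (v.val_ne hα0)]
    have := congrArg v.ord e
    rw [v.ord_mul (v.val_ne hα0) (v.val_ne hz), v.ord_zpow, h1] at this
    omega
  refine ⟨δ α / α, by rw [map_div₀, h2, div_one]; exact hδ α h2.le, ?_⟩
  generalize v.ord f = m at e hz
  rw [e, Derivation.leibniz, Derivation.leibniz_zpow, zpow_sub_one₀ h0]
  simp only [smul_eq_mul, zsmul_eq_mul]
  field_simp

theorem jac_ord (v : Place ℂ K) (κ : Chart K 2)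
    (hδ : ∀ i f, v.val f ≤ 1 → v.val (κ.D i f) ≤ 1) {x : Fin 2 → K} (hx : ∀ i, x i ≠ 0)
    (hj : jac κ x ≠ 0) : v.ord (x 0) + v.ord (x 1) ≤ v.ord (jac κ x) + 1 := by
  obtain ⟨π, hπ⟩ := v.exists_unif
  have h0 : π ≠ 0 := fun e => by
    rw [e, map_zero] at hπ
    exact exp_ne_zero hπ.symm
  have h1 : v.ord π = 1 := v.ord_eq hπ
  have hp : v.val π ≤ 1 := (v.val_le_one (v.val_ne h0)).2 (by omega)
  obtain ⟨a, ha, ea⟩ := logd v hπ (κ.D 0) (hδ 0) (hx 0)
  obtain ⟨b, hb, eb⟩ := logd v hπ (κ.D 0) (hδ 0) (hx 1)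
  obtain ⟨c, hc, ec⟩ := logd v hπ (κ.D 1) (hδ 1) (hx 0)
  obtain ⟨d, hd, ed⟩ := logd v hπ (κ.D 1) (hδ 1) (hx 1)
  obtain ⟨t, ht⟩ : ∃ t, t = (v.ord (x 0) : K) * (κ.D 0 π * d - κ.D 1 π * b) +
    (v.ord (x 1) : K) * (κ.D 1 π * a - κ.D 0 π * c) + π * (a * d - b * c) := ⟨_, rfl⟩
  have e : π * jac κ x = x 0 * x 1 * t := by
    refine mul_left_cancel₀ h0 ?_
    rw [jac, ht]
    linear_combination (π * κ.D 1 (x 1)) * ea +
      (x 0 * ((v.ord (x 0) : K) * κ.D 0 π + π * a)) * ed - (π * κ.D 1 (x 0)) * eb -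
      (x 1 * ((v.ord (x 1) : K) * κ.D 0 π + π * b)) * ec
  have hm : t ∈ v.val.integer := by
    have m0 : κ.D 0 π ∈ v.val.integer := hδ 0 π hp
    have m1 : κ.D 1 π ∈ v.val.integer := hδ 1 π hp
    have ma : a ∈ v.val.integer := ha
    have mb : b ∈ v.val.integer := hb
    have mc : c ∈ v.val.integer := hc
    have md : d ∈ v.val.integer := hd
    have mp : π ∈ v.val.integer := hp
    rw [ht]
    exact add_mem (add_mem
      (mul_mem (intCast_mem _ _) (sub_mem (mul_mem m0 md) (mul_mem m1 mb)))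
      (mul_mem (intCast_mem _ _) (sub_mem (mul_mem m1 ma) (mul_mem m0 mc))))
      (mul_mem mp (sub_mem (mul_mem ma md) (mul_mem mb mc)))
  have ht0 : t ≠ 0 := fun h => mul_ne_zero h0 hj (by rw [e, h, mul_zero])
  have h2 : 0 ≤ v.ord t := (v.val_le_one (v.val_ne ht0)).1 hm
  have h3 := congrArg v.ord e
  rw [v.ord_mul (v.val_ne h0) (v.val_ne hj),
    v.ord_mul (v.val_ne (mul_ne_zero (hx 0) (hx 1))) (v.val_ne ht0),
    v.ord_mul (v.val_ne (hx 0)) (v.val_ne (hx 1)), h1] at h3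
  omega

variable {M M' : Model K 2} {hd : Dom M' M}

/-- The pull-back of a divisor that is effective near the image point. -/
theorem pb_nonneg (A : PulA hd) {D : Dr M} {p' : M'.P} {C' : Crv M'} (hp : On C' p')
    (hD : ∀ C, On C (hd.map p') → 0 ≤ D C) : 0 ≤ pb hd D C' := by
  have e : pb hd D C' = ∑ C ∈ D.support, D C * pb hd (pr C) C' := by
    conv_lhs => rw [← Finsupp.sum_single D, Finsupp.sum, map_sum, Finsupp.finset_sum_apply]
    refine Finset.sum_congr rfl fun C _ => ?_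
    rw [← smul_eq_mul, ← Finsupp.smul_apply, ← map_smul, Finsupp.smul_single, smul_eq_mul,
      mul_one]
  rw [e]
  refine Finset.sum_nonneg fun C _ => ?_
  have h0 : 0 ≤ pb hd (pr C) C' := A.ppos C C'
  rcases h0.eq_or_lt with h | h
  · rw [← h, mul_zero]
  · exact mul_nonneg (hD C ((A.ploc p' C).2 ⟨C', hp, h⟩)) h0

end RPlt

open RPlt in
theorem rowPlt : OfPlt := by
  intro K _ _ M M' hd h h' A Bp B J hJ hB0 hB1 C'
  rw [Finsupp.sub_apply]
  by_cases hC : C' ∈ Exc M' M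
  swap
  · obtain ⟨C, hC⟩ : ∃ C : Crv M, C.1 = C'.1 := by
      by_contra hn
      exact hC fun C e => hn ⟨C, e⟩
    rw [A.pst _ C C' hC.symm, Bp.kst C C' hC.symm, Finsupp.add_apply]
    linarith [hB1 C]
  obtain ⟨p, hp, hlt⟩ := A.exc C' hC
  obtain ⟨p', hp', -⟩ := C'.2
  obtain rfl : hd.map p' = p := hp p' hp'
  obtain ⟨κ, hκ, hx⟩ := hJ (hd.map p')
  obtain ⟨κ', hκ'⟩ := M'.smooth _ p'.2
  have hκ'' : IsCrd (M'.loc p') κ' := hκ'
  have hx0 : ∀ i, κ.x i ≠ 0 := hκ.x_ne_zero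
  have e1 : KD M' C' = C'.1.ord (jac κ' (r0 K)) := h'.kC C' κ' p' hκ'' hp'
  have e2 := A.isPb _ h.kZ p' _ (h.isK _ κ hκ)
  have e3 := h.chain _ κ hκ κ' (r0 K)
  have n1 : jac κ' (r0 K) ≠ 0 := h'.jne p' κ' hκ'' _ h.ind
  have n2 : jac κ' κ.x ≠ 0 := fun e => n1 (by rw [e3, e, zero_mul])
  have e4 := e2.2 C' hp'
  rw [e3, C'.1.ord_mul (C'.1.val_ne n2) (C'.1.val_ne e2.1), Int.cast_add, e4] at e1
  have j1 := jac_ord C'.1 κ' (fun i => h'.pres C' p' hp' _ (hκ''.pres i)) hx0 n2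
  have j2 : ((C'.1.ord (κ.x 0) : ℝ)) + C'.1.ord (κ.x 1) ≤ C'.1.ord (jac κ' κ.x) + 1 := by
    exact_mod_cast j1
  have m : ∀ i, (0 : ℝ) < C'.1.ord (κ.x i) := fun i => by
    have := (C'.1.val_lt_one (C'.1.val_ne (hx0 i))).1
      (hlt _ (hκ.x_mem_m i).1 (hκ.x_mem_m i).2)
    exact_mod_cast this
  obtain ⟨b, b0, b1, b2⟩ := bound B.support B hB1
  have b3 : ∀ C, B C ≤ b := fun C => by
    by_cases hs : C ∈ B.support
    · exact b2 C hs
    · rw [Finsupp.notMem_support_iff.1 hs]; exact b0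
  have k := pb_nonneg A (D := b • (dvr M (κ.x 0) + dvr M (κ.x 1)) - B) hp' fun C hCp => by
    rw [Finsupp.sub_apply, Finsupp.smul_apply, Finsupp.add_apply, h.dva, h.dva, smul_eq_mul]
    have o : ∀ i, (0 : ℝ) ≤ C.1.ord (κ.x i) := fun i => by
      have := (C.1.val_le_one (C.1.val_ne (hx0 i))).1 (hCp _ (hκ.x_mem i))
      exact_mod_cast this
    by_cases hj : C ∈ J
    · obtain ⟨i, hi⟩ := hx C hj hCp
      have e := hi.2 C hCp
      rw [Finsupp.single_eq_same] at e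
      have s : (1 : ℝ) ≤ C.1.ord (κ.x 0) + C.1.ord (κ.x 1) := by
        have o0 := o 0
        have o1 := o 1
        fin_cases i
        · exact le_add_of_le_of_nonneg e.ge o1
        · exact le_add_of_nonneg_of_le o0 e.ge
      have := mul_le_mul_of_nonneg_left s b0
      linarith [b3 C]
    · rw [hB0 C hj, sub_zero]
      exact mul_nonneg b0 (add_nonneg (o 0) (o 1))
  rw [map_sub, map_smul, map_add, A.pdv _ (hx0 0), A.pdv _ (hx0 1), Finsupp.sub_apply,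
    Finsupp.smul_apply, Finsupp.add_apply, h'.dva, h'.dva, smul_eq_mul] at k
  rw [map_add, Finsupp.add_apply, e1]
  have := mul_lt_mul_of_pos_right b1 (add_pos (m 0) (m 1))
  linarith

end Pool.Agent.MP_ee8c61_ag.M3S
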