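import Pool.Agent.MP_ee8c61_ag.M3S.SpecF

/-!
The pull-back of divisors along a domination of surfaces.
-/

set_option autoImplicit false

namespace Pool.Agent.MP_ee8c61_ag.M3S

open Pool.Agent.MP_96693b_ag.RS Pool.Agent.MP_cce4c9_lc.H87 WithZero Finsupp Filter

namespace RPulA

variable {K : Type} [Field K] [Algebra ℂ K] {M M' : Model K 2} {hd : Dom M' M}

theorem centre (h : CenS M) (V : ValuationSubring K) (hV : ∀ a : ℂ, algebraMap ℂ K a ∈ V) :
    ∃ p, Sub (M.loc p).O V := by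
  obtain ⟨u, hu, h0, hs⟩ := h.ch V hV
  obtain ⟨p, -, hp, -⟩ := h.cen V u hu h0 hs 1 (one_mem _) one_ne_zero
    (by rw [inv_one]; exact one_mem _)
  exact ⟨p, hp⟩

theorem pt (C : Crv M) : ∃ p, On C p := C.2.imp fun _ h => h.1

theorem on_map {C : Crv M} {C' : Crv M'} (e : C'.1 = C.1) {p' : M'.P} (hp : On C' p') :
    On C (hd.map p') := fun f hf => e ▸ hp f (hd.loc_le p' hf)

theorem st (h : B1 M) (h' : B1 M') (hd : Dom M' M) (C : Crv M) : ∃ C' : Crv M', C'.1 = C.1 := by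
  obtain ⟨p', hp⟩ := centre h'.toCenS C.1.val.valuationSubring fun a => C.1.const_le a
  obtain ⟨g, hg, h1, h2⟩ := h.ndom C (hd.map p') fun f hf => hp f (hd.loc_le p' hf)
  exact ⟨⟨C.1, p', hp, g, hd.loc_le p' hg, (hd.loc_ev p' g hg).trans h1, h2⟩, rfl⟩

theorem surj (h : B1 M) (h' : B1 M') (hd : Dom M' M) : Function.Surjective hd.map := fun p => by
  obtain ⟨V, h1, h2⟩ := h.dmn p
  obtain ⟨p', hp⟩ := centre h'.toCenS V fun a => h1 _ ((M.loc p).O.algebraMap_mem a)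
  exact ⟨p', (h.sep V p _ h1 (fun f hf => hp f (hd.loc_le p' hf)) h2).symm⟩

theorem exc (h : B1 M) (hd : Dom M' M) (C' : Crv M') (hC : C' ∈ Exc M' M) :
    ∃ p, (∀ p', On C' p' → hd.map p' = p) ∧
      ∀ g ∈ (M.loc p).O, (M.loc p).ev g = 0 → C'.1.val g < 1 := by
  obtain ⟨q, hq⟩ := pt C'
  have h1 : Ov C'.1 (M.loc (hd.map q)) := fun f hf => hq f (hd.loc_le q hf)
  have h2 : ∀ g ∈ (M.loc (hd.map q)).O, (M.loc (hd.map q)).ev g = 0 → C'.1.val g < 1 :=
    fun g hg h0 => lt_of_le_of_ne (h1 g hg) fun e => hC ⟨C'.1, _, h1, g, hg, h0, e⟩ rfl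
  refine ⟨hd.map q, fun p' hp => (h.sep C'.1.val.valuationSubring _ _ h1
    (fun f hf => hp f (hd.loc_le p' hf)) fun g hg h0 hn hi => ?_).symm, h2⟩
  have h3 : C'.1.val g⁻¹ ≤ 1 := hi
  rw [map_inv₀, inv_le_one₀ (zero_lt_iff.2 (C'.1.val_ne hn))] at h3
  exact absurd (h2 g hg h0) (not_lt.2 h3)

theorem eqn_mul {D E : Dr M} {p : M.P} {η η' : K} (h : Eqn D p η) (h' : Eqn E p η') :
    Eqn (D + E) p (η * η') :=
  ⟨mul_ne_zero h.1 h'.1, fun C hC => by
    rw [C.1.ord_mul (C.1.val_ne h.1) (C.1.val_ne h'.1), Int.cast_add, h.2 C hC, h'.2 C hC,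
      Finsupp.add_apply]⟩

theorem eqn_zpow {D : Dr M} {p : M.P} {η : K} (h : Eqn D p η) (n : ℤ) :
    Eqn ((n : ℝ) • D) p (η ^ n) :=
  ⟨zpow_ne_zero _ h.1, fun C hC => by
    rw [C.1.ord_zpow, Int.cast_mul, h.2 C hC, Finsupp.smul_apply, smul_eq_mul]⟩

theorem eqn_one {C : Crv M} {p : M.P} (h : ¬ On C p) : Eqn (pr C) p (1 : K) :=
  ⟨one_ne_zero, fun C1 h1 => by
    rw [C1.1.ord_one, Int.cast_zero, Finsupp.single_eq_of_ne fun e : C1 = C => h (e ▸ h1)]⟩

theorem int_pr (C : Crv M) : IsInt (pr C) := fun C1 => by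
  by_cases e : C1 = C
  · exact ⟨1, by rw [e, Finsupp.single_eq_same, Int.cast_one]⟩
  · exact ⟨0, by rw [Finsupp.single_eq_of_ne e, Int.cast_zero]⟩

/-- Two equations at the image point have the same orders upstairs. -/
theorem ord_eq (h : B1 M) (h' : B1 M') {D : Dr M} {p' : M'.P} {η η' : K}
    (h1 : Eqn D (hd.map p') η) (h2 : Eqn D (hd.map p') η') {C' : Crv M'} (hC : On C' p') :
    C'.1.ord η = C'.1.ord η' := by
  have h3 := h.rat D _ _ _ h1 h2
  rw [← hd.loc_ev p' _ (Loc.mem_of_ev h3)] at h3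
  have h4 := C'.1.ord_of_val_one ((h'.unit p' _).1 h3 C' hC)
  rw [div_eq_mul_inv, C'.1.ord_mul (C'.1.val_ne h1.1) (C'.1.val_ne (inv_ne_zero h2.1)),
    C'.1.ord_inv] at h4
  omega

theorem ex (h : B1 M) (h' : B1 M') (hd : Dom M' M) (D : Dr M) (hD : IsInt D) :
    ∃ D', IsPb hd D D' := by
  choose q hq using pt (M := M')
  choose η hη using h.eqn D hD
  have key : ∀ (C' : Crv M') p' ζ, On C' p' → Eqn D (hd.map p') ζ →
      C'.1.ord ζ = C'.1.ord (η (hd.map (q C'))) := fun C' p' ζ hp hζ => by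
    by_cases hC : C' ∈ Exc M' M
    · obtain ⟨p, h1, -⟩ := exc h hd C' hC
      rw [h1 _ (hq C'), ← h1 _ hp]
      exact ord_eq h h' hζ (hη _) hp
    · obtain ⟨C, hC⟩ := not_forall.1 hC
      have e : C'.1 = C.1 := (not_not.1 hC).symm
      have a := hζ.2 C (on_map e hp)
      have b := (hη _).2 C (on_map (hd := hd) e (hq C'))
      rw [e]
      exact Int.cast_injective (α := ℝ) (a.trans b.symm)
  obtain ⟨t, -, ht⟩ := exists_finset_cover Set.univ (fun a b => Eqn D b (η a))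
    fun a _ => h.sp D a _ (hη a)
  have fin : (Function.support fun C' : Crv M' => (C'.1.ord (η (hd.map (q C'))) : ℝ)).Finite := by
    refine (t.finite_toSet.biUnion fun a _ => h'.fin (η a)).subset fun C' hC => ?_
    obtain ⟨a, ha, h1⟩ := ht (hd.map (q C')) (Set.mem_univ _)
    refine Set.mem_biUnion ha fun e => hC ?_
    exact Int.cast_eq_zero.2 ((key C' _ _ (hq C') h1).symm.trans e)
  exact ⟨Finsupp.ofSupportFinite _ fin, fun p' ζ hζ => ⟨hζ.1, fun C' hC =>
    congrArg Int.cast (key C' p' ζ hC hζ)⟩⟩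

theorem pb_pr (h : B1 M) (h' : B1 M') (hd : Dom M' M) (C : Crv M) :
    IsPb hd (pr C) (pb hd (pr C)) := by
  rw [pb, linearCombination_single, one_smul]
  exact Classical.epsilon_spec (ex h h' hd _ (int_pr C))

theorem single_eq (C : Crv M) (b : ℝ) : (single C b : Dr M) = b • pr C := by
  rw [Finsupp.smul_single, smul_eq_mul, mul_one]

theorem isPb (h : B1 M) (h' : B1 M') (hd : Dom M' M) (D : Dr M) (hD : IsInt D) :
    IsPb hd D (pb hd D) := fun p' η hη => by
  suffices H : ∃ ζ, Eqn D (hd.map p') ζ ∧ Eqn (pb hd D) p' ζ by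
    obtain ⟨ζ, h1, h2⟩ := H
    exact ⟨hη.1, fun C' hC => by rw [ord_eq h h' hη h1 hC, h2.2 C' hC]⟩
  clear hη
  induction D using Finsupp.induction with
  | zero => exact ⟨1, ⟨one_ne_zero, fun C _ => by simp⟩, ⟨one_ne_zero, fun C _ => by simp⟩⟩
  | single_add C b E hC _ ih =>
    have h0 : E C = 0 := Finsupp.notMem_support_iff.1 hC
    obtain ⟨n, hn⟩ := hD C
    rw [Finsupp.add_apply, Finsupp.single_eq_same, h0, add_zero] at hn
    obtain ⟨ζ, h1, h2⟩ := ih fun C1 => by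
      by_cases e : C1 = C
      · exact ⟨0, by rw [e, h0, Int.cast_zero]⟩
      · have := hD C1
        rwa [Finsupp.add_apply, Finsupp.single_eq_of_ne e, zero_add] at this
    obtain ⟨ξ, h3⟩ := h.eqn _ (int_pr C) (hd.map p')
    rw [single_eq, hn, map_add, map_smul]
    exact ⟨ξ ^ n * ζ, eqn_mul (eqn_zpow h3 n) h1,
      eqn_mul (eqn_zpow (pb_pr h h' hd C p' ξ h3) n) h2⟩

end RPulA

open RPulA in
theorem rowPulA : OfPulA := fun _ _ _ M M' hd h h' =>
  { st := st h h' hd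
    surj := surj h h' hd
    exc := exc h hd
    isPb := isPb h h' hd
    pZ := fun D hD C' => by
      obtain ⟨p', hp⟩ := pt C'
      obtain ⟨η, hη⟩ := h.eqn D hD (hd.map p')
      exact ⟨_, ((isPb h h' hd D hD p' η hη).2 C' hp).symm⟩
    pdv := fun f hf => by
      ext C'
      obtain ⟨p', hp⟩ := pt C'
      rw [h'.dva]
      exact ((isPb h h' hd _ (fun C => ⟨_, h.dva f C⟩) p' f
        ⟨hf, fun C _ => (h.dva f C).symm⟩).2 C' hp).symm
    pst := fun D C C' e => by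
      obtain ⟨p', hp⟩ := pt C'
      induction D using Finsupp.induction_linear with
      | zero => simp
      | add D E h1 h2 => rw [map_add, Finsupp.add_apply, Finsupp.add_apply, h1, h2]
      | single C0 b =>
        obtain ⟨η, hη⟩ := h.eqn _ (int_pr C0) (hd.map p')
        rw [single_eq, map_smul, Finsupp.smul_apply, Finsupp.smul_apply,
          ← (pb_pr h h' hd C0 p' η hη).2 C' hp, ← hη.2 C (on_map e hp), e]
    ppos := fun C C' => by
      obtain ⟨p', hp⟩ := pt C'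
      by_cases hC : On C (hd.map p')
      · obtain ⟨η, h1, h2, -⟩ := h.eqn1 C _ hC
        rw [← (pb_pr h h' hd C p' η h2).2 C' hp]
        exact Int.cast_nonneg ((C'.1.val_le_one (C'.1.val_ne h2.1)).1 (hp η (hd.loc_le p' h1)))
      · rw [← (pb_pr h h' hd C p' 1 (eqn_one hC)).2 C' hp, C'.1.ord_one, Int.cast_zero]
        exact le_rfl
    ploc := fun p' C => by
      refine ⟨fun hC => ?_, fun ⟨C', hp, h0⟩ => by_contra fun hC => ?_⟩
      · obtain ⟨η, h1, h2, -⟩ := h.eqn1 C _ hC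
        have h3 := h2.2 C hC
        rw [Finsupp.single_eq_same, Int.cast_eq_one] at h3
        have h4 := h.evz C _ hC η h1 ((C.1.val_lt_one (C.1.val_ne h2.1)).2 (by omega))
        obtain ⟨C', h5, h6⟩ := h'.thru p' η (hd.loc_le p' h1) ((hd.loc_ev p' η h1).trans h4)
        refine ⟨C', h5, ?_⟩
        rw [← (pb_pr h h' hd C p' η h2).2 C' h5]
        exact Int.cast_pos.2 ((C'.1.val_lt_one (C'.1.val_ne h2.1)).1 h6)
      · rw [← (pb_pr h h' hd C p' 1 (eqn_one hC)).2 C' hp, C'.1.ord_one, Int.cast_zero] at h0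
        exact lt_irrefl _ h0 }

end Pool.Agent.MP_ee8c61_ag.M3S
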