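import Pool.Agent.MP_ee8c61_ag.M3S.SpecF

/-!
Projection formulas and the canonical divisor of a domination.
-/

set_option autoImplicit false

namespace Pool.Agent.MP_ee8c61_ag.M3S

open Pool.Agent.MP_96693b_ag.RS Pool.Agent.MP_cce4c9_lc.H87 WithZero Finsupp Filter Module

namespace RPulB

variable {K : Type} [Field K] [Algebra ℂ K] {M M' : Model K 2}

theorem pt (C : Crv M) : ∃ p, On C p := ⟨_, C.2.choose_spec.1⟩

theorem crd (p : M.P) : ∃ κ : Chart K 2, IsCrd (M.loc p) κ := M.smooth _ p.2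

theorem x_m {L : Loc K} {κ : Chart K 2} (hκ : IsCrd L κ) (i : Fin 2) : κ.x i ∈ L.m :=
  hκ.span ▸ Loc.subset_span ⟨i, rfl⟩

theorem int_pr (C : Crv M) : IsInt (pr C) := fun C' => by
  classical
  rw [Finsupp.single_apply]
  split_ifs
  · exact ⟨1, by simp⟩
  · exact ⟨0, by simp⟩

theorem lin {φ ψ : Dr M →ₗ[ℝ] ℝ} (h : ∀ D, IsInt D → φ D = ψ D) (D : Dr M) : φ D = ψ D := by
  induction D using Finsupp.induction_linear with
  | zero => simp
  | add a b ha hb => rw [map_add, map_add, ha, hb]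
  | single C a =>
    have e : (single C a : Dr M) = a • pr C := by simp
    rw [e, map_smul, map_smul, h _ (int_pr C)]

theorem jac_le (h : LocA M) {C : Crv M} {p : M.P} (hp : On C p) {κ : Chart K 2}
    (hκ : IsCrd (M.loc p) κ) {r : Fin 2 → K} (hr : ∀ i, C.1.val (r i) ≤ 1) :
    C.1.val (jac κ r) ≤ 1 := by
  have k : ∀ i j, C.1.val (κ.D i (r j)) ≤ 1 := fun i j => h.pres C p hp _ (hκ.pres i) _ (hr j)
  refine (C.1.val.map_sub _ _).trans (max_le ?_ ?_) <;> rw [map_mul] <;>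
    exact mul_le_one' (k _ _) (k _ _)

theorem jac_lt (h : LocA M) {C : Crv M} {p : M.P} (hp : On C p) {κ : Chart K 2}
    (hκ : IsCrd (M.loc p) κ) {r : Fin 2 → K} (hO : ∀ i, r i ∈ (M.loc p).O)
    (hr : ∀ i, C.1.val (r i) < 1) : C.1.val (jac κ r) < 1 := by
  obtain ⟨η, hη, he, hd⟩ := h.eqn1 C p hp
  have h1 : C.1.val η < 1 := by
    rw [C.1.val_lt_one (C.1.val_ne he.1)]
    have := he.2 C hp
    rw [Finsupp.single_eq_same] at this
    have h2 : C.1.ord η = 1 := by exact_mod_cast this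
    omega
  obtain ⟨a, ha, ea⟩ : ∃ a ∈ (M.loc p).O, r 0 = η * a :=
    ⟨_, hd _ (hO 0) (hr 0), (mul_div_cancel₀ _ he.1).symm⟩
  obtain ⟨b, hb, eb⟩ : ∃ a ∈ (M.loc p).O, r 1 = η * a :=
    ⟨_, hd _ (hO 1) (hr 1), (mul_div_cancel₀ _ he.1).symm⟩
  have e : jac κ r = η * (η * (κ.D 0 a * κ.D 1 b - κ.D 0 b * κ.D 1 a) +
      (κ.D 0 a * b * κ.D 1 η + a * κ.D 0 η * κ.D 1 b - κ.D 0 b * a * κ.D 1 η -
        b * κ.D 0 η * κ.D 1 a)) := by
    simp only [jac, ea, eb, Derivation.leibniz, smul_eq_mul]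
    ring
  have a0 := hκ.pres 0 a ha
  have a1 := hκ.pres 1 a ha
  have b0 := hκ.pres 0 b hb
  have b1 := hκ.pres 1 b hb
  have c0 := hκ.pres 0 η hη
  have c1 := hκ.pres 1 η hη
  rw [e, map_mul]
  refine lt_of_le_of_lt (mul_le_of_le_one_right' (hp _ ?_)) h1
  exact add_mem (mul_mem hη (sub_mem (mul_mem a0 b1) (mul_mem b0 a1)))
    (sub_mem (sub_mem (add_mem (mul_mem (mul_mem a0 hb) c1) (mul_mem (mul_mem ha c0) b1))
      (mul_mem (mul_mem b0 ha) c1)) (mul_mem (mul_mem hb c0) a1))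

theorem kle (h : B2 M) (h' : B2 M') (C : Crv M) (C' : Crv M') (e : C'.1 = C.1) :
    KD M C ≤ KD M' C' := by
  obtain ⟨p, hp⟩ := pt C
  obtain ⟨p', hp'⟩ := pt C'
  obtain ⟨κ, hκ⟩ := crd p
  obtain ⟨κ', hκ'⟩ := crd p'
  have n := h.jne p κ hκ _ h.ind
  have n' := h'.jne p' κ' hκ' _ h.ind
  have c := h.chain p κ hκ κ' (r0 K)
  have n'' : jac κ' κ.x ≠ 0 := fun z => n' (by rw [c, z, zero_mul])
  have l : C'.1.val (jac κ' κ.x) ≤ 1 :=
    jac_le h'.toLocA hp' hκ' fun i => by rw [e]; exact hp _ (x_m hκ i).1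
  rw [C'.1.val_le_one (C'.1.val_ne n'')] at l
  rw [h.kC C κ p hκ hp, h'.kC C' κ' p' hκ' hp', c,
    C'.1.ord_mul (C'.1.val_ne n'') (C'.1.val_ne n), ← e, Int.cast_le]
  omega

theorem kex (h : B2 M) (h' : B2 M') {hd : Dom M' M} (ha : PulA hd) (C' : Crv M')
    (hC : C' ∈ Exc M' M) : pb hd (KD M) C' + 1 ≤ KD M' C' := by
  obtain ⟨p, hm, hv⟩ := ha.exc C' hC
  obtain ⟨p', hp'⟩ := pt C'
  obtain rfl := hm p' hp'
  obtain ⟨κ, hκ⟩ := crd (hd.map p')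
  obtain ⟨κ', hκ'⟩ := crd p'
  have n := h.jne _ κ hκ _ h.ind
  have n' := h'.jne p' κ' hκ' _ h.ind
  have c := h.chain _ κ hκ κ' (r0 K)
  have n'' : jac κ' κ.x ≠ 0 := fun z => n' (by rw [c, z, zero_mul])
  have l : C'.1.val (jac κ' κ.x) < 1 :=
    jac_lt h'.toLocA hp' hκ' (fun i => hd.loc_le p' (x_m hκ i).1)
      fun i => hv _ (x_m hκ i).1 (x_m hκ i).2
  rw [C'.1.val_lt_one (C'.1.val_ne n'')] at l
  rw [← (ha.isPb _ h.kZ p' _ (h.isK _ κ hκ)).2 C' hp', h'.kC C' κ' p' hκ' hp', c,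
    C'.1.ord_mul (C'.1.val_ne n'') (C'.1.val_ne n)]
  have : C'.1.ord (jac κ (r0 K)) + 1 ≤ C'.1.ord (jac κ' κ.x) + C'.1.ord (jac κ (r0 K)) := by omega
  exact_mod_cast this

theorem ist (h : B3 M) (h' : B3 M') {hd : Dom M' M} (ha : PulA hd) (D : Dr M) (hD : IsInt D)
    (C : Crv M) (C' : Crv M') (e : C'.1 = C.1) : II M' (pb hd D) (pr C') = II M D (pr C) := by
  obtain ⟨g, hg⟩ := h.mv D C hD
  have hg' : Mv (pb hd D) C' g := ⟨hg.1, by rw [ha.pst D C C' e, e]; exact hg.2⟩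
  obtain ⟨v, hv⟩ := C
  obtain ⟨v', hv'⟩ := C'
  obtain rfl : v' = v := e
  obtain ⟨R, hR, eR⟩ := h.rex D _ g hD hg
  obtain ⟨R', hR', eR'⟩ := h'.rex _ _ g (ha.pZ D hD) hg'
  have E : R' = R := by
    ext u
    obtain ⟨p', hp'⟩ := h'.cex ⟨v', hv'⟩ u
    obtain ⟨η, hη⟩ := h.eqn D hD (hd.map p')
    have hp : Ctr (⟨v', hv⟩ : Crv M) u (hd.map p') :=
      ⟨fun f hf => hp'.1 f (hd.loc_le p' hf), fun f hf => hp'.2 f (hd.loc_le p' hf)⟩
    exact (hR' u p' η hp' (ha.isPb D hD p' η hη)).trans (hR u _ η hp hη).symm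
  rw [← eR, ← eR', E]

theorem iex (h : B3 M) (h' : B3 M') {hd : Dom M' M} (ha : PulA hd) (D : Dr M) (hD : IsInt D)
    (C' : Crv M') (hC : C' ∈ Exc M' M) : II M' (pb hd D) (pr C') = 0 := by
  obtain ⟨p, hm, -⟩ := ha.exc C' hC
  obtain ⟨η, hη⟩ := h.eqn D hD p
  have k : ∀ p', On C' p' → Eqn (pb hd D) p' η := fun p' hp' =>
    ha.isPb D hD p' η (by rw [hm p' hp']; exact hη)
  obtain ⟨p', hp'⟩ := pt C'
  have hg : Mv (pb hd D) C' η⁻¹ :=
    ⟨inv_ne_zero hη.1, by rw [C'.1.ord_inv, Int.cast_neg, (k p' hp').2 C' hp']⟩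
  obtain ⟨R, hR, eR⟩ := h'.rex _ _ _ (ha.pZ D hD) hg
  have E : R = 0 := by
    ext u
    obtain ⟨q, hq⟩ := h'.cex C' u
    rw [hR u q η hq (k q hq.1), mul_inv_cancel₀ hη.1, res_one, u.ord_one]
    rfl
  rw [← eR, E]
  simp

end RPulB

theorem rowPulB : OfPulB := fun _ _ _ M M' hd h h' ha =>
  { kst := fun C C' e =>
      le_antisymm (RPulB.kle h'.toB2 h.toB2 C' C e.symm) (RPulB.kle h.toB2 h'.toB2 C C' e)
    kex := RPulB.kex h.toB2 h'.toB2 ha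
    efin := (KD M' - pb hd (KD M)).support.finite_toSet.subset fun C' hC => by
      have := RPulB.kex h.toB2 h'.toB2 ha C' hC
      rw [Finset.mem_coe, Finsupp.mem_support_iff, Finsupp.sub_apply]
      exact ne_of_gt (by linarith)
    ist := fun D C C' e => RPulB.lin (φ := ((II M').flip (pr C')).comp (pb hd))
      (ψ := (II M).flip (pr C)) (fun D hD => RPulB.ist h h' ha D hD C C' e) D
    iex := fun D C' hC => RPulB.lin (φ := ((II M').flip (pr C')).comp (pb hd))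
      (ψ := 0) (fun D hD => RPulB.iex h h' ha D hD C' hC) D }

end Pool.Agent.MP_ee8c61_ag.M3S
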