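import Pool.Agent.MP_ee8c61_ag.M3S.SpecF

/-!
The numerical lattice of a smooth projective surface has finite rank.
-/

set_option autoImplicit false

namespace Pool.Agent.MP_ee8c61_ag.M3S

open Pool.Agent.MP_96693b_ag.RS Pool.Agent.MP_cce4c9_lc.H87 WithZero Finsupp Filter Module

noncomputable section

namespace RRho

variable {K : Type} [Field K] [Algebra ℂ K]

/-- Contraction with a vector field. -/
def io (κ : Chart K 2) (δ : Der K) : (Fin 2 → K) →ₗ[K] K where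
  toFun := fun w => δ (κ.x 0) * w 0 + δ (κ.x 1) * w 1
  map_add' := fun a b => by simp only [Pi.add_apply]; ring
  map_smul' := fun c a => by simp only [Pi.smul_apply, smul_eq_mul, RingHom.id_apply]; ring

theorem io_csmul (κ : Chart K 2) (δ : Der K) (c : ℂ) (w : Fin 2 → K) :
    io κ δ (c • w) = algebraMap ℂ K c * io κ δ w := by
  rw [← smul_eq_mul, ← map_smul, algebraMap_smul]

variable {v : Place ℂ K} {κ : Chart K 2} {δ : Der K} {d : Derivation ℂ (Rf v) (Rf v)}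

theorem om_le (hio : ∀ f, io κ δ (dd κ f) = δ f)
    (hd : ∀ f, v.val f ≤ 1 → v.val (δ f) ≤ 1 ∧ res v (δ f) = d (res v f))
    {B : Subalgebra ℂ K} (hB : ∀ f ∈ B, v.val f ≤ 1) {w : Fin 2 → K} (hw : w ∈ Om κ B) :
    v.val (io κ δ w) ≤ 1 ∧ ∀ y : Place ℂ (Rf v), M3C.LocF d y →
      (∀ f ∈ B, y.val (res v f) ≤ 1) → y.val (res v (io κ δ w)) ≤ exp (M3C.cw d y) := by
  induction hw using Submodule.span_induction with
  | mem x hx =>
    obtain ⟨f, hf, rfl⟩ := hx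
    rw [hio]
    refine ⟨(hd f (hB f hf)).1, fun y hy hy' => ?_⟩
    rw [(hd f (hB f hf)).2]
    exact hy.reg _ (hy' f hf)
  | zero =>
    rw [map_zero, res_zero]
    exact ⟨by simp, fun y _ _ => by simp⟩
  | add a b _ _ ha hb =>
    rw [map_add]
    refine ⟨(v.val.map_add _ _).trans (max_le ha.1 hb.1), fun y hy hy' => ?_⟩
    rw [res_add ha.1 hb.1]
    exact (y.val.map_add _ _).trans (max_le (ha.2 y hy hy') (hb.2 y hy hy'))
  | smul c a _ ha =>
    have e : io κ δ (c • a) = (c : K) * io κ δ a := by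
      rw [← smul_eq_mul, ← map_smul]; rfl
    rw [e]
    refine ⟨by rw [map_mul]; exact mul_le_one' (hB _ c.2) ha.1, fun y hy hy' => ?_⟩
    rw [res_mul (hB _ c.2) ha.1, map_mul]
    exact (mul_le_of_le_one_left' (hy' _ c.2)).trans (ha.2 y hy hy')

theorem res_div {f g : K} (hf : v.val f ≤ 1) (hg : v.val g = 1) :
    v.val (f / g) ≤ 1 ∧ res v g ≠ 0 ∧ res v (f / g) = res v f / res v g := by
  have g0 : g ≠ 0 := fun e => by simp [e] at hg
  have h1 : v.val (f / g) ≤ 1 := by rw [map_div₀, hg, div_one]; exact hf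
  have h2 : res v g ≠ 0 := fun e =>
    absurd ((res_eq_zero hg.le).1 e) (by rw [hg]; exact lt_irrefl _)
  refine ⟨h1, h2, ?_⟩
  rw [eq_div_iff h2, ← res_mul h1 hg.le, div_mul_cancel₀ _ g0]

theorem res_sum {ι : Type} (s : Finset ι) (c : ι → ℂ) (f : ι → K) (hf : ∀ i, v.val (f i) ≤ 1)
    {y : Place ℂ (Rf v)} (hy : M3C.LocF d y) :
    v.val (∑ i ∈ s, algebraMap ℂ K (c i) * f i) ≤ 1 ∧
      M3C.res d y (res v (∑ i ∈ s, algebraMap ℂ K (c i) * f i)) =
        ∑ i ∈ s, c i * M3C.res d y (res v (f i)) := by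
  classical
  induction s using Finset.induction_on with
  | empty =>
    rw [Finset.sum_empty, Finset.sum_empty, res_zero]
    exact ⟨by simp, hy.zero _ (by simp)⟩
  | insert a s ha ih =>
    have h1 : v.val (algebraMap ℂ K (c a) * f a) ≤ 1 := by
      rw [map_mul]; exact mul_le_one' (v.const_le _) (hf a)
    rw [Finset.sum_insert ha, Finset.sum_insert ha, res_add h1 ih.1, hy.add, ih.2,
      res_mul (v.const_le _) (hf a), res_const, ← Algebra.smul_def (A := Rf v), hy.smul]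
    exact ⟨(v.val.map_add _ _).trans (max_le h1 ih.1), rfl⟩

theorem res_sub' {y : Place ℂ (Rf v)} (hy : M3C.LocF d y) (a b : Rf v) :
    M3C.res d y (a - b) = M3C.res d y a - M3C.res d y b := by
  rw [eq_sub_iff_add_eq, ← hy.add, sub_add_cancel]

variable {M : Model K 2}

theorem isInt_pr (C : Crv M) : IsInt (pr C) := fun C' => by
  classical
  rw [single_apply]
  split_ifs
  · exact ⟨1, by simp⟩
  · exact ⟨0, by simp⟩

theorem inC_sup {B B' : Subalgebra ℂ K} {G : Crv M} (h : InC B G) (h' : InC B' G) :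
    InC (B ⊔ B') G := by
  let V : Subalgebra ℂ K :=
    { G.1.val.valuationSubring.toSubring with algebraMap_mem' := fun a => G.1.const_le a }
  exact fun f hf => (sup_le (a := B) (b := B') (c := V) h h') hf

/-- The local computation: the form `θ + dlog m` is regular along the curve, with residue the
order of the local equation. -/
theorem loc {G : Crv M} {d : Derivation ℂ (Rf G.1) (Rf G.1)} (hio : ∀ f, io κ δ (dd κ f) = δ f)
    (hd : ∀ f, G.1.val f ≤ 1 → G.1.val (δ f) ≤ 1 ∧ res G.1 (δ f) = d (res G.1 f))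
    {D : Dr M} {m η : K} {p : M.P} {w : Fin 2 → K} (hm : Mv D G m) (hp : On G p)
    (hη : Eqn D p η) (hw : w - η⁻¹ • dd κ η ∈ Om κ (M.loc p).O) :
    G.1.val (io κ δ w + δ m / m) ≤ 1 ∧ ∀ y, M3C.LocF d y → Ctr G y p →
      M3C.res d y (res G.1 (io κ δ w + δ m / m)) = (y.ord (res G.1 (η * m)) : ℂ) := by
  have h1 : G.1.val (η * m) = 1 := by
    rw [G.1.val_one_iff (G.1.val_ne (mul_ne_zero hη.1 hm.1)),
      G.1.ord_mul (G.1.val_ne hη.1) (G.1.val_ne hm.1)]
    have : ((G.1.ord η + G.1.ord m : ℤ) : ℝ) = 0 := by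
      rw [Int.cast_add, hη.2 G hp, hm.2, add_neg_cancel]
    exact_mod_cast this
  have e : io κ δ w + δ m / m = io κ δ (w - η⁻¹ • dd κ η) + δ (η * m) / (η * m) := by
    have := hη.1
    have := hm.1
    rw [map_sub, map_smul, hio, Derivation.leibniz, smul_eq_mul, smul_eq_mul, smul_eq_mul]
    field_simp
    ring
  obtain ⟨h2, h3⟩ := om_le hio hd hp hw
  obtain ⟨h4, h5⟩ := hd _ h1.le
  obtain ⟨h6, -, h7⟩ := res_div h4 h1
  rw [e]
  refine ⟨(G.1.val.map_add _ _).trans (max_le h2 h6), fun y hy hc => ?_⟩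
  have h8 := hy.dlog 1 (res G.1 (η * m)) (by simp)
  rw [one_mul, Place.ev_one, one_mul] at h8
  rw [res_add h2 h6, hy.add, hy.zero _ (h3 y hy hc.2), zero_add, h7, h5, h8]

theorem key (hL : M3C.StmtLoc) (hR : M3C.StmtRES) (h : B3 M) (hT : TanS M) {p0 : M.P}
    (hκ : IsCrd (M.loc p0) κ) {n : ℕ} (t : Fin n → K → K → Fin 2 → K)
    (ht : ∀ i, ∀ a ∈ M.U, a ≠ 0 → ∀ b ∈ M.U, b ≠ 0 → t i a b ∈ Om κ (chA M.U a ⊔ chA M.U b))
    (G : Crv M) : ∃ τ : Fin n → ℂ, ∀ (D : Dr M) (θ φ : K → Fin 2 → K) (c : Fin n → ℂ), IsInt D →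
      (∀ a ∈ M.U, a ≠ 0 → ∀ p η, chA M.U a ≤ (M.loc p).O → Eqn D p η →
        θ a - η⁻¹ • dd κ η ∈ Om κ (M.loc p).O) →
      (∀ a ∈ M.U, a ≠ 0 → φ a ∈ Om κ (chA M.U a)) →
      (∀ a ∈ M.U, a ≠ 0 → ∀ b ∈ M.U, b ≠ 0 → θ a - θ b = ∑ i, c i • t i a b + (φ a - φ b)) →
      ((II M D (pr G) : ℝ) : ℂ) = ∑ i, c i * τ i := by
  classical
  obtain ⟨δ, d, d0, hd⟩ := hT G
  have hio : ∀ f, io κ δ (dd κ f) = δ f := fun f => (h.der p0 κ hκ δ f).symm
  have hy : ∀ y, M3C.LocF d y := hL ℂ _ (h.ff G) d d0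
  obtain ⟨-, hR'⟩ := hR ℂ _ (h.ff G) d d0
  choose bad hbad using fun φ : Rf G.1 => (hR' φ).1.exists_finset_coe
  have hz : ∀ (φ : Rf G.1) y, y ∉ bad φ → M3C.res d y φ = 0 := fun φ y hn => by
    refine (hy y).zero φ ?_
    by_contra hc
    exact hn (Finset.mem_coe.1 (by rw [hbad]; exact hc))
  choose p hp using h.cex G
  have hch : ∀ q : M.P, ∃ a ∈ M.U, a ≠ 0 ∧ chA M.U a ≤ (M.loc q).O := fun q => by
    obtain ⟨a, ha, a0, hl⟩ := q.2
    exact ⟨a, ha, a0, hl.le⟩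
  choose a haU ha0 hal using hch
  obtain ⟨q, hq, -⟩ := G.2
  have hin : ∀ r, On G r → InC (chA M.U (a r)) G := fun r hr f hf => hr f (hal r hf)
  let T : Fin n → K → Rf G.1 := fun i b => res G.1 (io κ δ (t i b (a q)))
  let S0 : Finset (Place ℂ (Rf G.1)) :=
    (Finset.univ ×ˢ M.fin.toFinset).biUnion fun x => bad (T x.1 x.2)
  refine ⟨fun i => ∑ y ∈ S0, M3C.res d y (T i (a (p y))), fun D θ φ c hD hθ hφ hc => ?_⟩
  obtain ⟨m, hm⟩ := h.mv D G hD
  obtain ⟨R, hR1, hR2⟩ := h.rex D G m hD hm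
  let Ψ : K := io κ δ (θ (a q)) + δ m / m
  let Φ : K := io κ δ (φ (a q))
  have hΨ : G.1.val Ψ ≤ 1 := by
    obtain ⟨η, hη⟩ := h.eqn D hD q
    exact (loc hio hd hm hq hη (hθ _ (haU q) (ha0 q) q η (hal q) hη)).1
  have hΦ : G.1.val Φ ≤ 1 := (om_le hio hd (hin q hq) (hφ _ (haU q) (ha0 q))).1
  have main : ∀ y, (R y : ℂ) = M3C.res d y (res G.1 Ψ) - M3C.res d y (res G.1 Φ) +
      ∑ i, c i * M3C.res d y (T i (a (p y))) := fun y => by
    obtain ⟨η, hη⟩ := h.eqn D hD (p y)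
    obtain ⟨-, h2⟩ := loc hio hd hm (hp y).1 hη
      (hθ _ (haU (p y)) (ha0 (p y)) (p y) η (hal (p y)) hη)
    obtain ⟨h3, h4⟩ := om_le hio hd (hin _ (hp y).1) (hφ _ (haU (p y)) (ha0 (p y)))
    obtain ⟨h5, h6⟩ := res_sum Finset.univ c (fun i => io κ δ (t i (a (p y)) (a q)))
      (fun i => (om_le hio hd (inC_sup (hin _ (hp y).1) (hin q hq))
        (ht i _ (haU (p y)) (ha0 (p y)) _ (haU q) (ha0 q))).1) (hy y)
    have e : io κ δ (θ (a (p y))) + δ m / m = (Ψ - Φ) +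
        (∑ i, algebraMap ℂ K (c i) * io κ δ (t i (a (p y)) (a q)) + io κ δ (φ (a (p y)))) := by
      have e1 := congrArg (io κ δ) (hc _ (haU (p y)) (ha0 (p y)) _ (haU q) (ha0 q))
      rw [map_sub, map_add, map_sub, map_sum] at e1
      simp only [io_csmul] at e1
      simp only [Ψ, Φ]
      linear_combination e1
    have h7 : G.1.val (Ψ - Φ) ≤ 1 := (G.1.val.map_sub _ _).trans (max_le hΨ hΦ)
    rw [hR1 y (p y) η (hp y) hη, ← h2 y (hy y) (hp y), e,
      res_add h7 ((G.1.val.map_add _ _).trans (max_le h5 h3)), res_add h5 h3, res_sub hΨ hΦ,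
      (hy y).add, (hy y).add, res_sub' (hy y), h6,
      (hy y).zero _ (h4 y (hy y) fun f hf => (hp y).2 f (hal _ hf)), add_zero]
  let S : Finset (Place ℂ (Rf G.1)) := (R.support ∪ S0) ∪ (bad (res G.1 Ψ) ∪ bad (res G.1 Φ))
  have s1 : ((II M D (pr G) : ℝ) : ℂ) = ∑ y ∈ S, (R y : ℂ) := by
    rw [← hR2, degree_apply, Complex.ofReal_intCast, Int.cast_sum]
    refine Finset.sum_subset (Finset.subset_union_left.trans Finset.subset_union_left)
      fun y _ hn => ?_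
    rw [notMem_support_iff.1 hn, Int.cast_zero]
  have s2 : ∑ y ∈ S, M3C.res d y (res G.1 Ψ) = 0 := (hR' _).2 S fun y hn =>
    hz _ y fun hm => hn (Finset.mem_union_right _ (Finset.mem_union_left _ hm))
  have s3 : ∑ y ∈ S, M3C.res d y (res G.1 Φ) = 0 := (hR' _).2 S fun y hn =>
    hz _ y fun hm => hn (Finset.mem_union_right _ (Finset.mem_union_right _ hm))
  rw [s1, Finset.sum_congr rfl fun y _ => main y, Finset.sum_add_distrib, Finset.sum_sub_distrib,
    s2, s3, sub_zero, zero_add, Finset.sum_comm]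
  refine Finset.sum_congr rfl fun i _ => ?_
  rw [← Finset.mul_sum]
  congr 1
  refine (Finset.sum_subset (Finset.subset_union_right.trans Finset.subset_union_left)
    fun y _ hn => hz _ y fun hm => hn ?_).symm
  exact Finset.mem_biUnion.2 ⟨(i, a (p y)), Finset.mem_product.2
    ⟨Finset.mem_univ _, M.fin.mem_toFinset.2 (haU _)⟩, hm⟩

end RRho

theorem rowRho : OfRho := by
  classical
  intro hL hR K _ _ M h h1 hC hT
  rcases isEmpty_or_nonempty (Crv M) with he | ⟨⟨C0⟩⟩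
  · exact ⟨∅, fun D _ C => he.elim C⟩
  obtain ⟨p0, -, -⟩ := C0.2
  obtain ⟨κ, hκ⟩ := M.smooth p0.1 p0.2
  obtain ⟨n, t, ht, hc⟩ := h1 κ
  choose τ hτ using RRho.key hL hR h hT (p0 := p0) hκ t ht
  have hcl : ∀ C : Crv M, ∃ c : Fin n → ℂ, ∀ G,
      ((II M (pr C) (pr G) : ℝ) : ℂ) = ∑ i, c i * τ G i := fun C => by
    obtain ⟨θ, h2, h3⟩ := hC κ (pr C) (RRho.isInt_pr C)
    obtain ⟨c, φ, h4, h5⟩ := hc θ h2
    exact ⟨c, fun G => hτ G _ θ φ c (RRho.isInt_pr C) h3 h4 h5⟩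
  have hall : ∀ D : Dr M, ∃ l : (Fin n → ℂ) →ₗ[ℂ] ℂ, ∀ G,
      ((II M D (pr G) : ℝ) : ℂ) = l (τ G) := fun D => by
    induction D using Finsupp.induction_linear with
    | zero => exact ⟨0, fun G => by simp⟩
    | add D E hD hE =>
      obtain ⟨l, hl⟩ := hD
      obtain ⟨l', hl'⟩ := hE
      exact ⟨l + l', fun G => by
        rw [map_add, LinearMap.add_apply, Complex.ofReal_add, hl, hl', LinearMap.add_apply]⟩
    | single C r =>
      obtain ⟨c, hc'⟩ := hcl C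
      refine ⟨(r : ℂ) • ∑ i, c i • LinearMap.proj i, fun G => ?_⟩
      have e : (single C r : Dr M) = r • pr C := by rw [smul_single, smul_eq_mul, mul_one]
      rw [e, map_smul, LinearMap.smul_apply, smul_eq_mul, Complex.ofReal_mul, hc']
      simp
  obtain ⟨s, hs, hs'⟩ := (Submodule.fg_span_iff_fg_span_finset_subset (R := ℂ)
    (Set.range τ)).1 (IsNoetherian.noetherian _)
  obtain ⟨T, hT'⟩ := Finset.subset_set_image_iff.1
    (Set.image_univ.symm ▸ hs : (s : Set _) ⊆ τ '' Set.univ)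
  refine ⟨T, fun D hD C => ?_⟩
  obtain ⟨l, hl⟩ := hall D
  have hk : Submodule.span ℂ (Set.range τ) ≤ LinearMap.ker l := by
    rw [hs', Submodule.span_le, ← hT'.2]
    intro x hx
    obtain ⟨G, hG, rfl⟩ := Finset.mem_image.1 (Finset.mem_coe.1 hx)
    show l (τ G) = 0
    rw [← hl, hD G hG, Complex.ofReal_zero]
  have := hk (Submodule.subset_span ⟨C, rfl⟩)
  rw [LinearMap.mem_ker, ← hl] at this
  exact_mod_cast this

end

end Pool.Agent.MP_ee8c61_ag.M3S
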