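import Pool.Agent.MP_ee8c61_ag.M3S.SpecF

/-!
The asymptotic Riemann-Roch theorem on a surface.
-/

set_option autoImplicit false

namespace Pool.Agent.MP_ee8c61_ag.M3S

open Pool.Agent.MP_96693b_ag.RS Pool.Agent.MP_cce4c9_lc.H87 WithZero Finsupp Filter Module

namespace RRr

variable {K : Type} [Field K] [Algebra ℂ K] {M : Model K 2}

theorem int_zero : IsInt (0 : Dr M) := fun _ => ⟨0, by simp⟩

theorem int_add {D E : Dr M} (h : IsInt D) (h' : IsInt E) : IsInt (D + E) := fun C => by
  obtain ⟨a, ha⟩ := h C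
  obtain ⟨b, hb⟩ := h' C
  exact ⟨a + b, by rw [Finsupp.add_apply, ha, hb, Int.cast_add]⟩

theorem int_smul {D : Dr M} (h : IsInt D) (n : ℤ) : IsInt ((n : ℝ) • D) := fun C => by
  obtain ⟨a, ha⟩ := h C
  exact ⟨n * a, by rw [Finsupp.smul_apply, ha, Int.cast_mul, smul_eq_mul]⟩

theorem int_pr (C : Crv M) : IsInt (pr C) := fun C' => by
  classical
  by_cases h : C = C'
  · exact ⟨1, by simp [h]⟩
  · exact ⟨0, by simp [h]⟩

theorem int_sub {D : Dr M} (h : IsInt D) (C : Crv M) : IsInt (D - pr C) := by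
  have := int_add h (int_smul (int_pr C) (-1))
  rwa [Int.cast_neg, Int.cast_one, neg_one_smul, ← sub_eq_add_neg] at this

theorem key (h : B3 M) (hw : WcS M) (he : ExS M) (hs : SerS M) {D : Dr M} (hD : IsInt D)
    (C : Crv M) : ∀ᶠ k : ℕ in atTop, (h0 (D + (k : ℝ) • wD M) : ℝ) =
      h0 (D - pr C + (k : ℝ) • wD M) + II M (D + (k : ℝ) • wD M) (pr C) + gam C := by
  obtain ⟨b, hb⟩ := hw.gex C
  obtain ⟨k0, hk0⟩ := exists_nat_ge (b - II M D (pr C))
  filter_upwards [hs D C hD, eventually_ge_atTop k0] with k h1 h2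
  have h3 : IsInt (D + (k : ℝ) • wD M) := int_add hD (by simpa using int_smul h.wZ k)
  obtain ⟨g, hg⟩ := h.mv _ C h3
  have h4 : (k0 : ℝ) ≤ k := Nat.cast_le.2 h2
  have h5 := (hb _ g h3 hg (by
    rw [map_add, map_smul, LinearMap.add_apply, LinearMap.smul_apply, smul_eq_mul]
    have := mul_le_mul_of_nonneg_left (h.wpos C) (Nat.cast_nonneg (α := ℝ) k)
    linarith)).1
  rw [(he.heq _ C g h3 hg).2 (h1 g hg), Nat.cast_add, h5, add_sub_right_comm, add_assoc]

theorem sym_pr (h : B3 M) (hw : WcS M) (he : ExS M) (hs : SerS M) (C C' : Crv M) :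
    II M (pr C) (pr C') = II M (pr C') (pr C) := by
  obtain ⟨k, ⟨h1, h2⟩, h3, h4⟩ := (((key h hw he hs int_zero C).and
    (key h hw he hs (int_sub int_zero C) C')).and ((key h hw he hs int_zero C').and
    (key h hw he hs (int_sub int_zero C') C))).exists
  rw [sub_right_comm] at h4
  simp only [map_add, map_sub, LinearMap.add_apply, LinearMap.sub_apply] at h1 h2 h3 h4
  linarith

theorem single_eq (C : Crv M) (a : ℝ) : (single C a : Dr M) = a • pr C := by simp

theorem sym (h : ∀ C C' : Crv M, II M (pr C) (pr C') = II M (pr C') (pr C)) (D E : Dr M) :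
    II M D E = II M E D := by
  induction D using Finsupp.induction_linear with
  | zero => simp
  | add f g h1 h2 => rw [map_add, LinearMap.add_apply, map_add, h1, h2]
  | single C a =>
    induction E using Finsupp.induction_linear with
    | zero => simp
    | add f g h1 h2 => rw [map_add, map_add, LinearMap.add_apply, h1, h2]
    | single C' b =>
      rw [single_eq C, single_eq C']
      simp only [map_smul, LinearMap.smul_apply, h C C']
      exact smul_comm _ _ _

/-- The defect. -/
noncomputable def df (D : Dr M) : ℝ := h0 D - (II M D D - kap M D) / 2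

theorem kap_pr (C : Crv M) : kap M (pr C) = -2 * gam C - II M (pr C) (pr C) := by
  simp [kap, II]

theorem step (h : B3 M) (hw : WcS M) (he : ExS M) (hs : SerS M) {D : Dr M} (hD : IsInt D)
    (C : Crv M) : ∀ᶠ k : ℕ in atTop,
      df (D + (k : ℝ) • wD M) = df (D - pr C + (k : ℝ) • wD M) := by
  filter_upwards [key h hw he hs hD C] with k hk
  rw [df, df, hk, ← add_sub_right_comm]
  generalize D + (k : ℝ) • wD M = X
  simp only [map_sub, LinearMap.sub_apply, kap_pr, sym (sym_pr h hw he hs) (pr C) X]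
  ring

theorem steps (h : B3 M) (hw : WcS M) (he : ExS M) (hs : SerS M) {D : Dr M} (hD : IsInt D)
    (C : Crv M) (n : ℤ) : ∀ᶠ k : ℕ in atTop,
      df (D + (n : ℝ) • pr C + (k : ℝ) • wD M) = df (D + (k : ℝ) • wD M) := by
  induction n using Int.induction_on with
  | zero => simp
  | succ n ih =>
    filter_upwards [ih, step h hw he hs (int_add hD (int_smul (int_pr C) (n + 1))) C] with k h1 h2
    rw [h2, ← h1, Int.cast_add, Int.cast_one, add_smul, one_smul, ← add_assoc, add_sub_cancel_right]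
  | pred n ih =>
    filter_upwards [ih, step h hw he hs (int_add hD (int_smul (int_pr C) (-n))) C] with k h1 h2
    rw [← h1, h2, Int.cast_sub, Int.cast_one, sub_smul, one_smul, add_sub_assoc]

theorem all (h : B3 M) (hw : WcS M) (he : ExS M) (hs : SerS M) (E : Dr M) (hE : IsInt E) :
    ∀ᶠ k : ℕ in atTop, df (E + (k : ℝ) • wD M) = df ((k : ℝ) • wD M) := by
  induction E using Finsupp.induction with
  | zero => simp
  | single_add C a f hC _ ih =>
    have h1 : IsInt f := fun C' => by
      by_cases e : C = C'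
      · exact ⟨0, by rw [← e, notMem_support_iff.1 hC, Int.cast_zero]⟩
      · obtain ⟨n, hn⟩ := hE C'
        exact ⟨n, by rwa [Finsupp.add_apply, single_eq_of_ne (Ne.symm e), zero_add] at hn⟩
    obtain ⟨n, hn⟩ := hE C
    rw [Finsupp.add_apply, single_eq_same, notMem_support_iff.1 hC, add_zero] at hn
    filter_upwards [ih h1, steps h hw he hs h1 C n] with k h2 h3
    rw [single_eq, hn, add_comm _ f, h3, h2]

theorem exC0 (h : B3 M) (hw : WcS M) (he : ExS M) (hs : SerS M) : ∃ c, IsC0 M c := by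
  obtain ⟨k0, hk0⟩ := eventually_atTop.1 (all h hw he hs _ h.wZ)
  have h1 : ∀ k, k0 ≤ k → df ((k : ℝ) • wD M) = df ((k0 : ℝ) • wD M) := by
    intro k hk
    induction k, hk using Nat.le_induction with
    | base => rfl
    | succ k hk ih => rw [← ih, ← hk0 k hk, Nat.cast_succ, add_smul, one_smul, add_comm]
  refine ⟨df ((k0 : ℝ) • wD M), fun D hD => ?_⟩
  filter_upwards [all h hw he hs D hD, eventually_ge_atTop k0] with k h2 h3
  rw [← h1 k h3, ← h2, df, sub_add_cancel]

theorem h0_dvr (h : FinS M) {f : K} (hf : f ≠ 0) (D : Dr M) : h0 (dvr M f + D) = h0 D := by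
  let e : K ≃ₗ[ℂ] K := LinearEquiv.ofBijective (LinearMap.mulRight ℂ f) (mulRight_bijective₀ f hf)
  have h1 : ∀ g, g ∈ H0 (dvr M f + D) ↔ g * f ∈ H0 D := fun g => by
    by_cases hg : g = 0
    · simp [hg]
    · rw [mem_H0 hg, mem_H0 (mul_ne_zero hg hf)]
      refine forall_congr' fun C => ?_
      rw [Finsupp.add_apply, h.dva, C.1.ord_mul (C.1.val_ne hg) (C.1.val_ne hf), Int.cast_add,
        add_assoc]
  have h2 : (H0 (dvr M f + D)).map (e : K →ₗ[ℂ] K) = H0 D := by
    ext g
    rw [Submodule.mem_map_equiv, h1]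
    exact Iff.of_eq (congrArg (· ∈ H0 D) (e.apply_symm_apply g))
  rw [h0, h0, ← h2, LinearEquiv.finrank_map_eq]

end RRr

open RRr in
theorem rowRr : OfRr := by
  intro K _ _ M h hw he hs
  have h1 := sym (sym_pr h hw he hs)
  refine ⟨h1, Classical.epsilon_spec (exC0 h hw he hs), fun f hf => ?_⟩
  have h2 : ∀ E, II M (dvr M f) E = 0 := fun E => by
    induction E using Finsupp.induction_linear with
    | zero => simp
    | add a b e1 e2 => rw [map_add, e1, e2, add_zero]
    | single C a => rw [single_eq, map_smul, h.num f C hf, smul_zero]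
  obtain ⟨k, hk⟩ := (all h hw he hs (dvr M f) fun C => ⟨_, h.dva f C⟩).exists
  rw [df, df, h0_dvr h.toFinS hf] at hk
  generalize (k : ℝ) • wD M = X at hk
  simp only [map_add, LinearMap.add_apply, h2, h1 X (dvr M f)] at hk
  linarith

end Pool.Agent.MP_ee8c61_ag.M3S
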