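import Pool.Agent.MP_ee8c61_ag.M3S.SpecF
import Pool.Agent.MP_96693b_ag.DR.RTow
import Pool.Agent.MP_ee8c61_ag.M3B1.Tw

/-!
Embedded resolution of a finite set of curves on a surface.
-/

set_option autoImplicit false

namespace Pool.Agent.MP_ee8c61_ag.M3S

open Pool.Agent.MP_96693b_ag.RS Pool.Agent.MP_cce4c9_lc.H87 WithZero Finsupp Filter

namespace RSnc

variable {K : Type} [Field K] [Algebra ℂ K] {M M' : Model K 2}

theorem exE (T : Finset (Crv M)) :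
    ∃ E : Dr M, (∀ C ∈ T, E C = 1) ∧ ∀ C, C ∉ T → E C = 0 := by
  classical
  refine ⟨Finsupp.onFinset T (fun C => if C ∈ T then 1 else 0) fun C hC => ?_,
    fun C hC => ?_, fun C hC => ?_⟩
  · by_contra h
    exact hC (if_neg h)
  · rw [Finsupp.onFinset_apply, if_pos hC]
  · rw [Finsupp.onFinset_apply, if_neg hC]

theorem eqn_mem (h : B3 M) {E : Dr M} (h0 : ∀ C, 0 ≤ E C) {b : M.P} {η : K} (hη : Eqn E b η) :
    η ∈ (M.loc b).O := by
  refine h.hart b η fun C hC => (C.1.val_le_one (C.1.val_ne hη.1)).2 ?_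
  have := h0 C
  rw [← hη.2 C hC] at this
  exact_mod_cast this

theorem coh (h : B3 M) {E : Dr M} (hE : IsInt E) (h0 : ∀ C, 0 ≤ E C) :
    M.Coh fun b => {η | Eqn E b η} := fun a => by
  obtain ⟨η, hη⟩ := h.eqn E hE a
  refine ⟨{η}, Set.finite_singleton _, ⟨η, rfl, hη.1⟩, ?_⟩
  filter_upwards [h.sp E a η hη] with b hb
  refine ⟨fun g hg => hg ▸ eqn_mem h h0 hb, le_antisymm (Loc.span_le.2 fun g hg => ?_)
    (Loc.span_mono fun g hg => hg ▸ hb)⟩
  exact Loc.mem_span_singleton.2 ⟨g / η, Loc.mem_of_ev (h.rat E b g η hg hb),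
    (div_mul_cancel₀ g hb.1).symm⟩

theorem chart {B : Set M.P} (t : Twr M B M') {b : M.P} (hb : b ∉ B) :
    ∃ u ∈ M.U, u ≠ 0 ∧ chA M.U u ≤ (M.loc b).O ∧ ∃ (w : K) (d : ℕ),
      (M.loc b).ev (w / u ^ d) ≠ 0 ∧ u * w ∈ M'.U ∧ w ≠ 0 ∧ chA M'.U (u * w) ≤ (M.loc b).O ∧
      IsPt M'.U (M.loc b) := by
  obtain ⟨W, d, -, h1, h2, h3⟩ := M3B1.rowTW K 2 M M' B t
  obtain ⟨u, hu, h0, hl⟩ := Model.isPt b
  obtain ⟨w, hw, h4⟩ := h3 b hb u hu h0 hl.le
  have h5 := div_ne_zero_iff.1 (Loc.ne_zero_of_ev h4)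
  have h6 : ∀ f ∈ W, f / w ∈ (M.loc b).O := fun f hf => by
    rw [← div_div_div_cancel_right₀ h5.2]
    exact Loc.div_mem (hl.le (form_div (h1 f hf) u)) (Loc.mem_of_ev h4) h4
  refine ⟨u, hu, h0, hl.le, w, d, h4, ?_, h5.1, ?_, ?_⟩ <;> rw [h2]
  · exact Set.mem_image2_of_mem hu hw
  · exact chA_mul_le hl.le h6
  · exact (Model.isPt b).mul hw h5.1 h6

theorem crd_lt (h : B3 M) {p : M.P} {κ : Chart K 2} {Y : ℕ → Set K} {σ : ℕ → Option (Fin 2)}
    (ha : Adp (M.loc p) κ Y σ) {k : ℕ} {μ : K} (hm : Mon (M.loc p) Y k μ) {C : Crv M}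
    (hC : On C p) (hv : C.1.val μ ≠ 1) : ∃ i, Eqn (pr C) p (κ.x i) := by
  obtain ⟨y, e, u, hy, -, hu, rfl⟩ := hm
  have h1 : ∃ j, C.1.val (κ.x j) ≠ 1 := by
    by_contra hn
    push Not at hn
    apply hv
    rw [map_mul, (h.unit p u).1 hu C hC, one_mul, mon, map_prod]
    refine Finset.prod_eq_one fun i hi => ?_
    obtain ⟨a, -, h2, h3⟩ := Loc.span_singleton_eq_iff.1
      ((ha.span i).symm.trans (hy i (Finset.mem_range.1 hi)).symm)
    have h4 : C.1.val (κ.y (σ i)) = 1 := by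
      cases σ i with
      | none => exact map_one _
      | some j => exact hn j
    rw [map_pow, h3, map_mul, (h.unit p a).1 h2 C hC, h4, one_mul, one_pow]
  obtain ⟨j, hj⟩ := h1
  have h2 := ha.crd.x_mem_m j
  refine ⟨j, (h.crd p _ h2.1 h2.2 fun h3 => ?_).2 C hC (lt_of_le_of_ne (hC _ h2.1) hj)⟩
  exact ha.crd.x_notMem_sup (J := ∅) (Finset.notMem_empty j) (Submodule.mem_sup_right h3)

end RSnc

open RSnc in
theorem rowSnc : OfSnc := by
  classical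
  intro H3 HA HB K _ _ M T
  have h := H3 K M
  obtain ⟨T1, t1, t2, t3⟩ : ∃ T1 : Finset (Crv M), T ⊆ T1 ∧ (∀ C, C ∉ T1 → KD M C = 0) ∧
      ∀ C, C ∉ T1 → wD M C = 0 :=
    ⟨T ∪ ((KD M).support ∪ (wD M).support), Finset.subset_union_left,
      fun C hC => notMem_support_iff.1 fun a => hC
        (Finset.mem_union_right _ (Finset.mem_union_left _ a)),
      fun C hC => notMem_support_iff.1 fun a => hC
        (Finset.mem_union_right _ (Finset.mem_union_right _ a))⟩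
  obtain ⟨E, e1, e0⟩ := exE T1
  have hE : IsInt E := fun C => by
    by_cases a : C ∈ T1
    · exact ⟨1, by rw [e1 C a, Int.cast_one]⟩
    · exact ⟨0, by rw [e0 C a, Int.cast_zero]⟩
  have h0 : ∀ C, 0 ≤ E C := fun C => by
    by_cases a : C ∈ T1
    · rw [e1 C a]; exact zero_le_one
    · rw [e0 C a]
  obtain ⟨M', hd, k, F, tw, sn, pc⟩ := principalise (coh h hE h0)
  have h' := H3 K M'
  have pa := HA K M M' hd
  have pb' := HB K M M' hd
  have off : ∀ b : M.P, (∀ C ∈ T1, ¬ On C b) →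
      b ∉ {b : M.P | ∀ g ∈ {η | Eqn E b η}, g ∈ (M.loc b).m} := fun b hb a =>
    Loc.one_notMem_m (a 1 ⟨one_ne_zero, fun C hC => by
      rw [e0 C fun c => hb C c hC, Place.ord_one, Int.cast_zero]⟩)
  have ex : ∀ C' ∈ Exc M' M, C' ∈ (pb hd E).support := fun C' hC => by
    obtain ⟨p, a1, a2⟩ := pa.exc C' hC
    obtain ⟨p', a3, -⟩ := C'.2
    have a4 := a1 p' a3
    subst a4
    by_cases c : ∀ C ∈ T1, ¬ On C (hd.map p')
    · exfalso
      obtain ⟨u, -, -, -, w, d, -, -, -, -, b1⟩ := chart tw (off _ c)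
      obtain ⟨g, b2, b3, b4⟩ := h'.ndom C' ⟨_, b1⟩ fun f hf => a3 f (hd.loc_le p' hf)
      exact (a2 g b2 b3).ne b4
    · push Not at c
      obtain ⟨C, c1, c2⟩ := c
      obtain ⟨η, hη⟩ := h.eqn E hE (hd.map p')
      have b1 : (M.loc (hd.map p')).ev η = 0 := by
        by_contra b
        have := hη.2 C c2
        rw [C.1.ord_of_val_one ((h.unit _ η).1 b C c2), e1 C c1, Int.cast_zero] at this
        exact zero_ne_one this
      have b2 := (C'.1.val_lt_one (C'.1.val_ne hη.1)).1 (a2 η (eqn_mem h h0 hη) b1)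
      rw [mem_support_iff, ← (pa.isPb E hE p' η hη).2 C' a3]
      exact_mod_cast b2.ne'
  have st : ∀ C', C' ∉ (pb hd E).support → ∃ C : Crv M, C'.1 = C.1 ∧ C ∉ T1 := fun C' hC => by
    have a1 : ¬ ∀ C : Crv M, C.1 ≠ C'.1 := fun a => hC (ex C' a)
    push Not at a1
    obtain ⟨C, a1⟩ := a1
    refine ⟨C, a1.symm, fun a => hC ?_⟩
    rw [mem_support_iff, pa.pst E C C' a1.symm, e1 C a]
    exact one_ne_zero
  refine ⟨M', hd, (pb hd E).support, fun p' => ?_, fun C hC C' e => ?_, ex, fun C' hC => ?_,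
    fun C' hC => ?_⟩
  · obtain ⟨κ, σ, ha⟩ := sn.adp p'
    obtain ⟨μ, hm, -, g, hg, hu⟩ := pc p'
    refine ⟨κ, ha.crd, fun C' hC hp => crd_lt h' ha hm hp fun a => ?_⟩
    have a1 := (h'.unit p' _).1 hu C' hp
    rw [map_div₀, a, div_one] at a1
    apply mem_support_iff.1 (Finset.mem_coe.1 hC)
    rw [← (pa.isPb E hE p' g hg).2 C' hp, C'.1.ord_of_val_one a1, Int.cast_zero]
  · rw [mem_support_iff, pa.pst E C C' e, e1 C (t1 hC)]
    exact one_ne_zero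
  · obtain ⟨C, a1, a2⟩ := st C' hC
    rw [pb'.kst C C' a1, t2 C a2]
  · obtain ⟨C, a1, a2⟩ := st C' hC
    have fin : (⋃ C1 ∈ T1, {p | On C p ∧ On C1 p}).Finite :=
      T1.finite_toSet.biUnion fun C1 c => h.mfin C C1 fun e => a2 (e ▸ c)
    obtain ⟨b, b1, b2⟩ := (h.cinf C).exists_notMem_finite fin
    obtain ⟨u, hu, u0, c1, w, d, c2, c3, w0, c4, -⟩ := chart tw (off b fun C1 c hb =>
      b2 (Set.mem_biUnion (Finset.mem_coe.2 c) ⟨b1, hb⟩))
    have d1 := (h.wC u hu u0 C).1 fun f hf => b1 f (c1 hf)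
    rw [t3 C a2, add_zero] at d1
    have d2 : C.1.val u = 1 := (C.1.val_one_iff (C.1.val_ne u0)).2 (by exact_mod_cast d1)
    have d3 := (h.unit b _).1 c2 C b1
    rw [map_div₀, map_pow, d2, one_pow, div_one] at d3
    have d4 := (h'.wC _ c3 (mul_ne_zero u0 w0) C').1 fun f hf => a1 ▸ b1 f (c4 hf)
    rwa [a1, C.1.ord_of_val_one (by rw [map_mul, d2, d3, one_mul]), Int.cast_zero, zero_add] at d4

end Pool.Agent.MP_ee8c61_ag.M3S
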