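import Pool.Agent.MP_ee8c61_ag.M3S.SpecF

/-!
A vector field tangent to a curve on a smooth projective surface.
-/

set_option autoImplicit false

namespace Pool.Agent.MP_ee8c61_ag.M3S

open Pool.Agent.MP_96693b_ag.RS Pool.Agent.MP_cce4c9_lc.H87 WithZero

noncomputable section

namespace RTan

variable {K : Type} [Field K] [Algebra ℂ K]

theorem le_of_lt {a : ℤᵐ⁰} (h : a < 1) : a ≤ exp (-1 : ℤ) := by
  by_cases h0 : a = 0
  · simp [h0]
  · rw [← exp_log h0] at h ⊢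
    rw [← exp_zero, exp_lt_exp] at h
    rw [exp_le_exp]
    omega

theorem keep (v : Place ℂ K) (δ : Der K) {η : K} (hη : v.val η = exp (-1 : ℤ))
    (h1 : ∀ f, v.val f ≤ 1 → v.val (δ f) ≤ 1) (h2 : v.val (δ η) < 1) (f : K) (hf : v.val f < 1) :
    v.val (δ f) < 1 := by
  have h0 : η ≠ 0 := by
    rintro rfl
    rw [map_zero] at hη
    exact exp_ne_zero hη.symm
  have hlt : v.val η < 1 := by
    rw [hη, ← exp_zero, exp_lt_exp]
    omega
  have hq : v.val (f / η) ≤ 1 := by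
    rw [map_div₀, hη]
    exact div_le_one_of_le₀ (le_of_lt hf) zero_le
  have e : δ f = η * δ (f / η) + f / η * δ η := by
    conv_lhs => rw [← mul_div_cancel₀ f h0]
    rw [Derivation.leibniz, smul_eq_mul, smul_eq_mul]
  rw [e]
  refine lt_of_le_of_lt (v.val.map_add _ _) (max_lt ?_ ?_)
  · rw [map_mul]
    exact mul_lt_one_of_lt_of_le hlt (h1 _ hq)
  · rw [map_mul, mul_comm]
    exact mul_lt_one_of_lt_of_le h2 hq

end RTan

theorem rowTan : OfTan := by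
  intro hI hD K _ _ M h C
  obtain ⟨p, hp, -⟩ := C.2
  obtain ⟨κ, hκ⟩ := M.smooth p.1 p.2
  change IsCrd (M.loc p) κ at hκ
  obtain ⟨η, hηO, hE, -⟩ := h.eqn1 C p hp
  have hη : C.1.val η = exp (-1 : ℤ) := by
    have e : (C.1.ord η : ℝ) = 1 := by simpa using hE.2 C hp
    have e' : C.1.ord η = 1 := by exact_mod_cast e
    have h0 : C.1.val η ≠ 0 := C.1.val_ne hE.1
    rw [← exp_log h0]
    congr 1
    rw [Place.ord] at e'
    omega
  let δ : Der K := κ.D 0 η • κ.D 1 - κ.D 1 η • κ.D 0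
  have hδ : ∀ f, δ f = κ.D 0 η * κ.D 1 f - κ.D 1 η * κ.D 0 f := fun f => by
    simp [δ]
  have h1 : ∀ f, C.1.val f ≤ 1 → C.1.val (δ f) ≤ 1 := h.pres C p hp δ fun f hf => by
    rw [hδ]
    exact sub_mem (mul_mem (hκ.pres 0 η hηO) (hκ.pres 1 f hf))
      (mul_mem (hκ.pres 1 η hηO) (hκ.pres 0 f hf))
  have h2 : C.1.val (δ η) < 1 := by
    rw [hδ, mul_comm, sub_self, map_zero]
    exact zero_lt_one
  obtain ⟨d, hd⟩ := hI K C.1 δ h1 (RTan.keep C.1 δ hη h1 h2)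
  refine ⟨δ, d, fun h0 => ?_, fun f hf => ⟨h1 f hf, hd f hf⟩⟩
  have hx : ∀ i, C.1.val (κ.x i) ≤ 1 := fun i => hp _ (hκ.x_mem i)
  have hz : ∀ i, C.1.val (δ (κ.x i)) < 1 := fun i => by
    rw [← res_eq_zero (h1 _ (hx i)), hd _ (hx i), h0]
    rfl
  have hp' : ∀ i f, C.1.val f ≤ 1 → C.1.val (κ.D i f) ≤ 1 := fun i =>
    h.pres C p hp (κ.D i) (hκ.pres i)
  have a0 : C.1.val (κ.D 0 η) < 1 := by simpa [hδ, hκ.dual] using hz 1
  have a1 : C.1.val (κ.D 1 η) < 1 := by simpa [hδ, hκ.dual] using hz 0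
  obtain ⟨d0, e0⟩ := hI K C.1 _ (hp' 0) (RTan.keep C.1 _ hη (hp' 0) a0)
  obtain ⟨d1, e1⟩ := hI K C.1 _ (hp' 1) (RTan.keep C.1 _ hη (hp' 1) a1)
  have n0 : d0 ≠ 0 := fun e => by
    have := e0 _ (hx 0)
    rw [e, hκ.dual, if_pos rfl, res_one] at this
    exact one_ne_zero this
  have b0 : d0 (res C.1 (κ.x 1)) = 0 := by
    rw [← e0 _ (hx 1), hκ.dual, if_neg (by decide), res_zero]
  have b1 : d1 (res C.1 (κ.x 1)) = 1 := by
    rw [← e1 _ (hx 1), hκ.dual, if_pos rfl, res_one]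
  by_cases hc : res C.1 (κ.x 1) ∈ Set.range (algebraMap ℂ (Rf C.1))
  · obtain ⟨c, hc⟩ := hc
    rw [← hc, Derivation.map_algebraMap] at b1
    exact zero_ne_one b1
  · exact (hD ℂ _ (h.ff C) d0 n0).1 _ hc b0

end

end Pool.Agent.MP_ee8c61_ag.M3S
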