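import Pool.Agent.MP_ee8c61_ag.M3S.SpecF

/-!
Transcendence degree and derivations of the function field of a surface.
-/

set_option autoImplicit false

namespace Pool.Agent.MP_ee8c61_ag.M3S

open Pool.Agent.MP_96693b_ag.RS

namespace RTrd

section Ext

open MvPolynomial

/-- Field extensions in characteristic zero are formally smooth. -/
theorem smooth_field (F K : Type) [Field F] [Field K] [Algebra F K] [CharZero F] :
    Algebra.FormallySmooth F K := by
  obtain ⟨s, hs⟩ := exists_isTranscendenceBasis F K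
  have h1 := hs.isAlgebraic_field
  have : CharZero (IntermediateField.adjoin F (Set.range ((↑) : s → K))) :=
    algebraRat.charZero _
  exact Algebra.FormallySmooth.of_algebraicIndependent_of_isSeparable hs.1

/-- Dual numbers, as a new type. -/
def T (K : Type) [Field K] : Type := TrivSqZeroExt K K

noncomputable instance (K : Type) [Field K] : CommRing (T K) :=
  inferInstanceAs (CommRing (TrivSqZeroExt K K))

theorem exists_der (K : Type) [Field K] [Algebra ℂ K] {ι : Type} (u : ι → K)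
    (hu : AlgebraicIndependent ℂ u) (w : ι → K) :
    ∃ δ : Derivation ℂ K K, ∀ j, δ (u j) = w j := by
  let P := MvPolynomial ι ℂ
  let : Algebra P K := (aeval u : P →ₐ[ℂ] K).toRingHom.toAlgebra
  have hP : ∀ p : P, algebraMap P K p = aeval u p := fun _ => rfl
  have hinj : Function.Injective (algebraMap P K) := hu
  have : FaithfulSMul P K := (faithfulSMul_iff_algebraMap_injective P K).2 hinj
  let : Algebra (FractionRing P) K := FractionRing.liftAlgebra P K
  have : IsScalarTower P (FractionRing P) K := FractionRing.isScalarTower_liftAlgebra P K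
  have : Algebra.FormallySmooth (FractionRing P) K := smooth_field _ _
  have : Algebra.FormallySmooth P (FractionRing P) :=
    Algebra.FormallySmooth.of_isLocalization (nonZeroDivisors P)
  have : Algebra.FormallySmooth P K := Algebra.FormallySmooth.comp P (FractionRing P) K
  let ψ : P →ₐ[ℂ] TrivSqZeroExt K K :=
    aeval (fun j => TrivSqZeroExt.inl (u j) + TrivSqZeroExt.inr (w j))
  let ψ' : P →+* T K := ψ.toRingHom
  let : Algebra P (T K) := ψ'.toAlgebra
  have hfst : ∀ p : P, (ψ p).fst = aeval u p := by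
    intro p
    have : (TrivSqZeroExt.fstHom ℂ K K).comp ψ = aeval u := by
      apply MvPolynomial.algHom_ext
      intro j
      simp [ψ]
    exact DFunLike.congr_fun this p
  let g0 : T K →+* K := (TrivSqZeroExt.fstHom ℂ K K).toRingHom
  let g : T K →ₐ[P] K := { g0 with commutes' := fun p => hfst p }
  have hg : Function.Surjective g := fun k => ⟨(TrivSqZeroExt.inl k : TrivSqZeroExt K K), rfl⟩
  have hnil : IsNilpotent (RingHom.ker (g : T K →+* K)) := by
    refine ⟨2, ?_⟩
    rw [pow_two, Ideal.zero_eq_bot, eq_bot_iff, Ideal.mul_le]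
    intro a ha b hb
    have key : ∀ a b : TrivSqZeroExt K K, a.fst = 0 → b.fst = 0 → a * b = 0 := by
      intro a b ha' hb'
      apply TrivSqZeroExt.ext
      · rw [TrivSqZeroExt.fst_mul, ha', zero_mul]; rfl
      · rw [TrivSqZeroExt.snd_mul, ha', hb']; simp
    exact key a b ha hb
  let s : K →ₐ[P] T K := Algebra.FormallySmooth.liftOfSurjective (AlgHom.id P K) g hg hnil
  have hs : ∀ k, g (s k) = k := fun k =>
    Algebra.FormallySmooth.liftOfSurjective_apply (AlgHom.id P K) g hg hnil k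
  let s' : K →+* TrivSqZeroExt K K := s.toRingHom
  have hs1 : ∀ k, (s' k).fst = k := hs
  have hs2 : ∀ p : P, s' (aeval u p) = ψ p := fun p => s.commutes p
  have hmul : ∀ a b, (s' (a * b)).snd = a * (s' b).snd + b * (s' a).snd := by
    intro a b
    rw [map_mul, TrivSqZeroExt.snd_mul, hs1, hs1]
    simp [mul_comm]
  have hc : ∀ c : ℂ, (s' (algebraMap ℂ K c)).snd = 0 := by
    intro c
    have h1 := hs2 (C c)
    rw [aeval_C] at h1
    have h2 : ψ (C c) = algebraMap ℂ (TrivSqZeroExt K K) c := aeval_C _ c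
    rw [h1, h2, TrivSqZeroExt.algebraMap_eq_inl', TrivSqZeroExt.snd_inl]
  let d : K →ₗ[ℂ] K :=
    { toFun := fun k => (s' k).snd
      map_add' := fun a b => by rw [map_add, TrivSqZeroExt.snd_add]
      map_smul' := fun c a => by
        rw [Algebra.smul_def, hmul, hc, RingHom.id_apply, Algebra.smul_def]; ring }
  refine ⟨Derivation.mk' d (fun a b => hmul a b), fun j => ?_⟩
  have h1 := hs2 (X j)
  rw [aeval_X] at h1
  show (s' (u j)).snd = w j
  have h2 : ψ (X j) = TrivSqZeroExt.inl (u j) + TrivSqZeroExt.inr (w j) := aeval_X _ j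
  rw [h1, h2, TrivSqZeroExt.snd_add, TrivSqZeroExt.snd_inl, TrivSqZeroExt.snd_inr, zero_add]

end Ext

variable {K : Type} [Field K] [Algebra ℂ K] {M : Model K 2}

theorem den (p : M.P) {T : Set K} (hT : T.Finite) :
    ∃ s ∈ (M.loc p).O, s ≠ 0 ∧ ∀ t ∈ T, s * t ∈ (M.loc p).O := by
  induction T, hT using Set.Finite.induction_on with
  | empty => exact ⟨1, one_mem _, one_ne_zero, fun _ h => h.elim⟩
  | @insert a T _ _ ih =>
    obtain ⟨s, hs, h0, h⟩ := ih
    obtain ⟨x, hx, q, hq, hq0, e⟩ := Model.frac p a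
    refine ⟨s * q, mul_mem hs hq, mul_ne_zero h0 hq0, ?_⟩
    rintro t (rfl | ht)
    · rw [mul_assoc, mul_comm q, e]
      exact mul_mem hs hx
    · rw [mul_right_comm]
      exact mul_mem (h t ht) hq

theorem der (p : M.P) (κ : Chart K 2) (h : IsCrd (M.loc p) κ) (δ : Der K) (f : K) :
    δ f = δ (κ.x 0) * κ.D 0 f + δ (κ.x 1) * κ.D 1 f := by
  obtain ⟨u, -, -, hb⟩ := Model.isPt p
  obtain ⟨s, -, h0, hs⟩ := den p ((M.fin.image fun z => z / u).image δ)
  have hl : s • δ ∈ (M.loc p).log ∅ :=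
    hb.mem_log (der_mem_adjoin hb.le fun g hg => hs _ ⟨g, hg, rfl⟩)
  have key : ∀ g ∈ (M.loc p).O, δ g = δ (κ.x 0) * κ.D 0 g + δ (κ.x 1) * κ.D 1 g := by
    intro g hg
    have e := h.der_eq hl hg
    simp only [Fin.sum_univ_two, Derivation.smul_apply, smul_eq_mul] at e
    refine mul_left_cancel₀ h0 ?_
    linear_combination e
  obtain ⟨x, hx, q, hq, hq0, e⟩ := Model.frac p f
  have e1 := key x hx
  have e2 := key q hq
  simp only [← e, Derivation.leibniz, smul_eq_mul] at e1
  refine mul_left_cancel₀ hq0 ?_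
  linear_combination e1 - f * e2

theorem ind {L : Loc K} {κ : Chart K 2} (h : IsCrd L κ) : AlgebraicIndependent ℂ κ.x := by
  rw [algebraicIndependent_iff]
  intro P hP
  ext α
  exact h.coeff_eq_zero (k := α.degree + 1) (hP ▸ zero_mem _) α (Nat.lt_succ_self _)

theorem dep (M : Model K 2) (r : Fin 3 → K) : ¬ AlgebraicIndependent ℂ r := by
  intro hr
  obtain ⟨p⟩ : Nonempty M.P := inferInstance
  obtain ⟨κ, h⟩ := Model.exists_crd p
  choose δ hδ using fun i : Fin 3 => exists_der K r hr (Pi.single i 1)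
  have e : (Matrix.of fun i j : Fin 3 =>
      δ i (κ.x 0) * κ.D 0 (r j) + δ i (κ.x 1) * κ.D 1 (r j)) = 1 := by
    ext i j
    rw [Matrix.of_apply, ← der p κ h, hδ, Matrix.one_apply, Pi.single_apply]
    simp only [eq_comm]
  have e1 := congrArg Matrix.det e
  rw [Matrix.det_one, Matrix.det_fin_three] at e1
  simp only [Matrix.of_apply] at e1
  exact one_ne_zero (α := K) (by linear_combination -e1)

theorem jne (p : M.P) (κ : Chart K 2) (h : IsCrd (M.loc p) κ) (r : Fin 2 → K)
    (hr : AlgebraicIndependent ℂ r) : jac κ r ≠ 0 := by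
  intro h0
  obtain ⟨a, ha⟩ := exists_der K r hr ![1, 0]
  obtain ⟨b, hb⟩ := exists_der K r hr ![0, 1]
  have a0 : a (r 0) = 1 := ha 0
  have a1 : a (r 1) = 0 := ha 1
  have b0 : b (r 0) = 0 := hb 0
  have b1 : b (r 1) = 1 := hb 1
  rw [der p κ h] at a0 a1 b0 b1
  rw [jac] at h0
  refine one_ne_zero (α := K) ?_
  linear_combination (a (κ.x 0) * b (κ.x 1) - a (κ.x 1) * b (κ.x 0)) * h0
    - (b (κ.x 0) * κ.D 0 (r 1) + b (κ.x 1) * κ.D 1 (r 1)) * a0 - b1
    + (b (κ.x 0) * κ.D 0 (r 0) + b (κ.x 1) * κ.D 1 (r 0)) * a1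

theorem trd (M : Model K 2) : Algebra.trdeg ℂ K = 2 := by
  obtain ⟨p⟩ : Nonempty M.P := inferInstance
  obtain ⟨κ, h⟩ := Model.exists_crd p
  refine le_antisymm ?_ (by simpa using (ind h).cardinalMk_le_trdeg)
  by_contra hlt
  obtain ⟨s, hs⟩ := exists_isTranscendenceBasis ℂ K
  have h3 : Cardinal.mk (Fin 3) ≤ Cardinal.mk s := by
    rw [hs.cardinalMk_eq_trdeg, Cardinal.mk_fin]
    have h4 := Order.succ_le_of_lt (not_le.1 hlt)
    rw [← Nat.cast_ofNat, Cardinal.succ_natCast] at h4
    exact_mod_cast h4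
  obtain ⟨e⟩ := (Cardinal.le_def _ _).1 h3
  exact dep M _ (hs.1.comp e e.injective)

end RTrd

theorem rowTrd : OfTrd := by
  intro K _ _ M
  refine ⟨RTrd.trd M, ?_, ?_, RTrd.dep M, RTrd.der, fun p κ h κ' r => ?_, RTrd.jne⟩
  · exact IntermediateField.fg_top_iff.1
      (IntermediateField.fg_def.2 ⟨_, M.fin.image2 _ M.fin, M.gens⟩)
  · obtain ⟨p⟩ : Nonempty M.P := inferInstance
    obtain ⟨κ, h⟩ := Model.exists_crd p
    exact Classical.epsilon_spec (p := fun r : Fin 2 → K => AlgebraicIndependent ℂ r)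
      ⟨κ.x, RTrd.ind h⟩
  · simp only [jac]
    rw [RTrd.der p κ h (κ'.D 0) (r 0), RTrd.der p κ h (κ'.D 1) (r 1),
      RTrd.der p κ h (κ'.D 0) (r 1), RTrd.der p κ h (κ'.D 1) (r 0)]
    ring

end Pool.Agent.MP_ee8c61_ag.M3S
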