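import Pool.Agent.MP_ee8c61_ag.M3S.SpecF

/-!
The hyperplane class and the canonical divisor.
-/

set_option autoImplicit false

namespace Pool.Agent.MP_ee8c61_ag.M3S

open Pool.Agent.MP_96693b_ag.RS Pool.Agent.MP_cce4c9_lc.H87 WithZero Finsupp Filter

namespace RWK

variable {K : Type} [Field K] [Algebra ℂ K] {M : Model K 2} {C : Crv M} {u u' f : K} {p p' : M.P}

theorem le_floor (v : Place ℂ K) (hf : f ≠ 0) (x : ℝ) :
    v.val f ≤ exp ⌊x⌋ ↔ 0 ≤ (v.ord f : ℝ) + x := by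
  rw [v.val_le_exp (v.val_ne hf), neg_le, Int.le_floor, Int.cast_neg, neg_le_iff_add_nonneg']

theorem chart_ex (C : Crv M) :
    ∃ p u, On C p ∧ u ∈ M.U ∧ u ≠ 0 ∧ chA M.U u ≤ (M.loc p).O := by
  obtain ⟨p, hp, -⟩ := C.2
  obtain ⟨u, hu, h0, h⟩ := Model.isPt p
  exact ⟨p, u, hp, hu, h0, h.le⟩

theorem inC_of {B : Subalgebra ℂ K} (hp : On C p) (h : B ≤ (M.loc p).O) : InC B C :=
  fun f hf => hp f (h hf)

theorem ord_div (v : Place ℂ K) (h : u ≠ 0) (h' : u' ≠ 0) :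
    v.ord (u / u') = v.ord u - v.ord u' := by
  rw [div_eq_mul_inv, v.ord_mul (v.val_ne h) (v.val_ne (inv_ne_zero h')), v.ord_inv,
    sub_eq_add_neg]

theorem ord_le (h : InC (chA M.U u) C) (h0 : u ≠ 0) (hu' : u' ∈ M.U) (h0' : u' ≠ 0) :
    C.1.ord u ≤ C.1.ord u' := by
  have := (C.1.val_le_one (C.1.val_ne (div_ne_zero h0' h0))).1 (h _ (div_mem_chA hu'))
  rw [ord_div _ h0' h0] at this
  omega

theorem inC_of_le (h0 : u ≠ 0) (h : ∀ x ∈ M.U, x ≠ 0 → C.1.ord u ≤ C.1.ord x) :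
    InC (chA M.U u) C := by
  let A : Subalgebra ℂ K :=
    { C.1.val.valuationSubring.toSubring with algebraMap_mem' := C.1.const_le }
  refine fun f hf => (chA_le (A := A)).2 (fun x hx => ?_) hf
  show C.1.val (x / u) ≤ 1
  by_cases hx0 : x = 0
  · rw [hx0, zero_div, map_zero]; exact zero_le
  · rw [C.1.val_le_one (C.1.val_ne (div_ne_zero hx0 h0)), ord_div _ hx0 h0]
    have := h x hx hx0
    omega

theorem isW (h : FinS M) : IsW (wD M) := by
  refine Classical.epsilon_spec (p := IsW) ?_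
  choose p u h1 h2 h3 h4 using chart_ex (M := M)
  have hfin : (Function.support fun C : Crv M => (C.1.ord (u C)⁻¹ : ℝ)).Finite :=
    (M.fin.biUnion fun x _ => h.fin x).subset fun C hC => Set.mem_biUnion (h2 C) fun e =>
      hC (by beta_reduce; rw [C.1.ord_inv, e, neg_zero, Int.cast_zero])
  refine ⟨Finsupp.ofSupportFinite _ hfin, fun x hx h0 q hq => ⟨inv_ne_zero h0, fun C hC => ?_⟩⟩
  rw [Finsupp.ofSupportFinite_coe, C.1.ord_inv, C.1.ord_inv,
    le_antisymm (ord_le (inC_of hC hq) h0 (h2 C) (h3 C))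
      (ord_le (inC_of (h1 C) (h4 C)) (h3 C) hx h0)]

theorem w_ex (h : FinS M) (C : Crv M) : ∃ u ∈ M.U, u ≠ 0 ∧ InC (chA M.U u) C ∧
    wD M C = -(C.1.ord u : ℝ) := by
  obtain ⟨p, u, h1, h2, h3, h4⟩ := chart_ex C
  refine ⟨u, h2, h3, inC_of h1 h4, ?_⟩
  rw [← (isW h u h2 h3 p h4).2 C h1, C.1.ord_inv, Int.cast_neg]

theorem wC (h : FinS M) (hu : u ∈ M.U) (h0 : u ≠ 0) (C : Crv M) :
    (InC (chA M.U u) C → (C.1.ord u : ℝ) + wD M C = 0) ∧
    (¬ InC (chA M.U u) C → 1 ≤ (C.1.ord u : ℝ) + wD M C) := by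
  obtain ⟨x, h1, h2, h3, h4⟩ := w_ex h C
  rw [h4]
  refine ⟨fun hC => ?_, fun hC => ?_⟩
  · rw [le_antisymm (ord_le hC h0 h1 h2) (ord_le h3 h2 hu h0), add_neg_cancel]
  · have : C.1.ord x < C.1.ord u := not_le.1 fun e =>
      hC (inC_of_le h0 fun y hy hy0 => e.trans (ord_le h3 h2 hy hy0))
    exact_mod_cast (by omega : 1 ≤ C.1.ord u + -C.1.ord x)

theorem jac_le (h : B1 M) {κ κ' : Chart K 2} (hp : On C p) (hp' : On C p')
    (hκ : IsCrd (M.loc p) κ) (hκ' : IsCrd (M.loc p') κ') (r : Fin 2 → K) :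
    C.1.val (jac κ' r) ≤ C.1.val (jac κ r) := by
  have a : ∀ i j, C.1.val (κ'.D i (κ.x j)) ≤ 1 := fun i j =>
    h.pres C p' hp' _ (hκ'.pres i) _ (hp _ (hκ.x_mem j))
  have b : ∀ i j k l, C.1.val (κ'.D i (κ.x j) * κ'.D k (κ.x l)) ≤ 1 := fun i j k l => by
    rw [map_mul]; exact mul_le_one' (a i j) (a k l)
  rw [h.chain p κ hκ κ' r, map_mul]
  exact mul_le_of_le_one_left' (C.1.val.map_sub_le (b _ _ _ _) (b _ _ _ _))

theorem jac_eq (h : B1 M) {κ κ' : Chart K 2} (hp : On C p) (hp' : On C p')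
    (hκ : IsCrd (M.loc p) κ) (hκ' : IsCrd (M.loc p') κ') (r : Fin 2 → K) :
    C.1.ord (jac κ' r) = C.1.ord (jac κ r) := by
  rw [Place.ord, Place.ord, le_antisymm (jac_le h hp hp' hκ hκ' r) (jac_le h hp' hp hκ' hκ r)]

theorem isK (h : B1 M) : IsK (r0 K) (KD M) := by
  refine Classical.epsilon_spec (p := IsK (r0 K)) ?_
  choose p u h1 _ using chart_ex (M := M)
  choose κ hκ using Model.exists_crd (M := M)
  obtain ⟨t, -, ht⟩ := exists_finset_cover Set.univ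
    (fun a b => IsCrd (M.loc b) ((κ a).shift (M.loc b))) fun a _ => Model.sp_crd (hκ a)
  have hfin : (Function.support fun C : Crv M =>
      (C.1.ord (jac (κ (p C)) (r0 K)) : ℝ)).Finite :=
    (t.finite_toSet.biUnion fun a _ => h.fin (jac (κ a) (r0 K))).subset fun C hC => by
      obtain ⟨a, ha, hb⟩ := ht (p C) (Set.mem_univ _)
      refine Set.mem_biUnion ha fun e => hC ?_
      beta_reduce
      rw [jac_eq h (h1 C) (h1 C) hb (hκ _)]
      exact_mod_cast e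
  refine ⟨Finsupp.ofSupportFinite _ hfin, fun q κ' hq =>
    ⟨h.jne q κ' hq _ h.ind, fun C hC => ?_⟩⟩
  rw [Finsupp.ofSupportFinite_coe, jac_eq h (h1 C) hC (hκ _) hq]

theorem clr2 (h : FinS M) (hu : u ∈ M.U) (h0 : u ≠ 0) (D : Dr M) (hf : f ∈ Gm D (chA M.U u)) :
    ∀ᶠ e : ℕ in atTop, u ^ e * f ∈ H0 (D + (e : ℝ) • wD M) := by
  by_cases hf0 : f = 0
  · exact Eventually.of_forall fun e => by rw [hf0, mul_zero]; exact zero_mem _
  have hB := (h.fin f).union D.support.finite_toSet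
  filter_upwards [(eventually_all_finite hB).2 fun C _ =>
    (tendsto_natCast_atTop_atTop (R := ℝ)).eventually_ge_atTop (-((C.1.ord f : ℝ) + D C))]
    with e he
  refine (mem_H0 (mul_ne_zero (pow_ne_zero e h0) hf0)).2 fun C => ?_
  rw [C.1.ord_mul (C.1.val_ne (pow_ne_zero e h0)) (C.1.val_ne hf0), C.1.ord_pow,
    Finsupp.add_apply, Finsupp.smul_apply, smul_eq_mul]
  push_cast
  have e0 : (0 : ℝ) ≤ e := Nat.cast_nonneg e
  by_cases hC : InC (chA M.U u) C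
  · have a := (wC h hu h0 C).1 hC
    have b := (le_floor C.1 hf0 _).1 (hf C hC)
    linear_combination b - (e : ℝ) * a
  · have a := mul_le_mul_of_nonneg_left ((wC h hu h0 C).2 hC) e0
    have b : -((C.1.ord f : ℝ) + D C) ≤ e := by
      by_cases hm : C ∈ {C : Crv M | C.1.ord f ≠ 0} ∪ (D.support : Set (Crv M))
      · exact he C hm
      · rw [Set.mem_union, not_or] at hm
        rw [not_not.1 hm.1, Finsupp.notMem_support_iff.1 hm.2]
        simp
    linarith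

theorem bpf (h : B1 M) (D : Dr M) (hD : IsInt D) :
    ∀ᶠ e : ℕ in atTop, Bpf (D + (e : ℝ) • wD M) := by
  have key : ∀ a : M.P, ∃ N : M.P → Prop, (∀ᶠ b in zn a, N b) ∧ ∀ᶠ e : ℕ in atTop, ∀ b, N b →
      ∃ f ∈ H0 (D + (e : ℝ) • wD M), Eqn (-(D + (e : ℝ) • wD M)) b f := fun a => by
    obtain ⟨u, hu, h0, ha⟩ := Model.isPt a
    obtain ⟨η, hη⟩ := h.eqn D hD a
    obtain ⟨q, hq, h1, h2⟩ := h.clr1 u hu h0 D a ha.le η⁻¹ fun C hC => by
      rw [le_floor _ (inv_ne_zero hη.1), C.1.ord_inv, Int.cast_neg, hη.2 C hC, neg_add_cancel]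
    refine ⟨fun b => Eqn D b η ∧ LocOf (chA M.U u) (M.loc b) ∧ (M.loc b).ev q ≠ 0,
      (h.sp D a η hη).and ((Model.sp_chart hu h0 ha.le).and (zn_ne h1)), ?_⟩
    filter_upwards [clr2 h.toFinS hu h0 D h2] with e he b ⟨b1, b2, b3⟩
    have q0 : q ≠ 0 := Loc.ne_zero_of_ev h1
    have q1 := mul_ne_zero q0 (inv_ne_zero hη.1)
    refine ⟨_, he, mul_ne_zero (pow_ne_zero e h0) q1, fun C hC => ?_⟩
    have a := (wC h.toFinS hu h0 C).1 (inC_of hC b2.le)
    rw [C.1.ord_mul (C.1.val_ne (pow_ne_zero e h0)) (C.1.val_ne q1), C.1.ord_pow,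
      C.1.ord_mul (C.1.val_ne q0) (C.1.val_ne (inv_ne_zero hη.1)), C.1.ord_inv,
      C.1.ord_of_val_one ((h.unit b q).1 b3 C hC), Finsupp.neg_apply, Finsupp.add_apply,
      Finsupp.smul_apply, smul_eq_mul, ← b1.2 C hC]
    push_cast
    linear_combination (e : ℝ) * a
  choose N h1 h2 using key
  obtain ⟨t, -, ht⟩ := exists_finset_cover Set.univ N fun a _ => h1 a
  filter_upwards [(eventually_all_finset t).2 fun a _ => h2 a] with e he b
  obtain ⟨a, ha, hb⟩ := ht b (Set.mem_univ _)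
  exact he a ha b hb

end RWK

open RWK

theorem rowWK : OfWK := by
  intro K _ _ M h
  have hs : ∀ u ∈ M.U, u ∈ H0 (wD M) := fun u hu => by
    by_cases h0 : u = 0
    · rw [h0]; exact zero_mem _
    refine (mem_H0 h0).2 fun C => ?_
    by_cases hC : InC (chA M.U u) C
    · exact ((wC h.toFinS hu h0 C).1 hC).ge
    · exact zero_le_one.trans ((wC h.toFinS hu h0 C).2 hC)
  refine ⟨isW h.toFinS, fun C => ?_, isK h, fun C => ?_, hs,
    fun u hu h0 C => wC h.toFinS hu h0 C, fun p => ?_,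
    fun C κ p hκ hp => ((isK h p κ hκ).2 C hp).symm,
    fun u hu h0 D f hf => clr2 h.toFinS hu h0 D hf, bpf h⟩
  · obtain ⟨u, -, -, -, e⟩ := w_ex h.toFinS C
    exact ⟨-C.1.ord u, by rw [e, Int.cast_neg]⟩
  · obtain ⟨p, -, hp, -⟩ := chart_ex C
    obtain ⟨κ, hκ⟩ := Model.exists_crd p
    exact ⟨_, ((isK h p κ hκ).2 C hp).symm⟩
  · obtain ⟨u, hu, h0, hp⟩ := Model.isPt p
    exact ⟨u, hs u hu, h0, fun C hC =>
      eq_neg_of_add_eq_zero_left ((wC h.toFinS hu h0 C).1 (inC_of hC hp.le))⟩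

end Pool.Agent.MP_ee8c61_ag.M3S
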