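import Pool.Agent.MP_ee8c61_ag.M3S.SpecF
import Pool.Agent.MP_ee8c61_ag.M3C.RWC

/-!
Sections on a curve of the surface, from the level three foundations.
-/

set_option autoImplicit false

namespace Pool.Agent.MP_ee8c61_ag.M3S

open Pool.Agent.MP_96693b_ag.RS Pool.Agent.MP_cce4c9_lc.H87 WithZero Finsupp Module

variable {K : Type} [Field K] [Algebra ℂ K] {M : Model K 2}

theorem B3.bas (h : B3 M) : M3C.Bas M where
  ff := h.ff
  ctr := h.cex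
  plc := h.con
  eqn := h.eqn
  hart := h.hart
  frac := fun C p hp f hf => by
    obtain ⟨s, hs, h1, h2⟩ := h.frac C p hp f hf
    exact ⟨s * f, h2, s, hs, h1, mul_comm _ _⟩
  deg := h.rex

theorem B3.wle (hB : B3 M) {D : Dr M} {C : Crv M} {h : K} {R : Dv ℂ (Rf C.1)} (hD : IsInt D)
    (hh : Mv D C h) (hR : IsR D C h R) : WC D C h ≤ LL R := by
  intro s hs u
  obtain ⟨p, hp⟩ := hB.cex C u
  obtain ⟨η, hη⟩ := hB.eqn D hD p
  obtain ⟨g, hg, e⟩ := hs p η hp.1 hη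
  have h1 := hp.2 g hg
  rw [← e, map_mul, u.val_eq (u.val_ne (M3C.G0.res_ne (M3C.G0.val_mv hp.1 hη hh))), exp_neg,
    mul_inv_le_iff₀ (zero_lt_iff.2 exp_ne_zero), one_mul, ← hR u p η hp hη] at h1
  exact h1

theorem wc : OfWc := by
  intro h1 h2 K _ _ M hB
  have hpos : ∀ C : Crv M, ∃ D, IsInt D ∧ 0 < II M D (pr C) := fun C =>
    ⟨wD M, hB.wZ, one_pos.trans_le (hB.wpos C)⟩
  have hW := fun C => M3C.rowWC h1 h2 K M hB.bas C (hpos C)
  refine ⟨fun D C h R hD hh hR => hB.wle hD hh hR, fun D C => (hW C).fin D,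
    fun D C => (hW C).bd D, fun C => (hW C).gamb, fun C => (hW C).le,
    fun C hC g hg => ⟨((hW C).sm hC g hg).1, ?_⟩⟩
  obtain ⟨O, c, hS, hO⟩ := M3C.RWC.sing h2 hB.bas C
  have hoff : ∀ y : Place ℂ (Rf C.1), ∀ s, y.val s ≤ 1 → s ∈ O y := fun y s hs => by
    obtain ⟨p, hp⟩ := hB.cex C y
    obtain ⟨κ, hκ, h0⟩ := hC p hp.1
    exact (hO y p hp s).2 (M3C.G0.sm_mem hB.bas hp hκ h0 hs)
  have hS0 : M3C.Sing O 0 :=
    ⟨hS.le, hS.inv, le_rfl, fun y s hs => hoff y s (by simpa using hs y rfl), fun y _ => hoff y⟩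
  obtain ⟨δ, d0, hγ, -⟩ := M3C.RWC.gamb h1 hB.bas hS0 hO hg
  obtain rfl := d0 rfl
  simpa using hγ

end Pool.Agent.MP_ee8c61_ag.M3S
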