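import Pool.Agent.MP_ee8c61_ag.M3C.All
import Pool.Agent.MP_ee8c61_ag.M3S.RAdj
import Pool.Agent.MP_ee8c61_ag.M3S.RBer
import Pool.Agent.MP_ee8c61_ag.M3S.RBerL
import Pool.Agent.MP_ee8c61_ag.M3S.RCen
import Pool.Agent.MP_ee8c61_ag.M3S.RCls
import Pool.Agent.MP_ee8c61_ag.M3S.RCtr
import Pool.Agent.MP_ee8c61_ag.M3S.RDeg
import Pool.Agent.MP_ee8c61_ag.M3S.REx
import Pool.Agent.MP_ee8c61_ag.M3S.RFF
import Pool.Agent.MP_ee8c61_ag.M3S.RFin
import Pool.Agent.MP_ee8c61_ag.M3S.RH1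
import Pool.Agent.MP_ee8c61_ag.M3S.RInd
import Pool.Agent.MP_ee8c61_ag.M3S.RKap
import Pool.Agent.MP_ee8c61_ag.M3S.RLift
import Pool.Agent.MP_ee8c61_ag.M3S.RLocA
import Pool.Agent.MP_ee8c61_ag.M3S.RLocB
import Pool.Agent.MP_ee8c61_ag.M3S.ROK
import Pool.Agent.MP_ee8c61_ag.M3S.RPlt
import Pool.Agent.MP_ee8c61_ag.M3S.RPulA
import Pool.Agent.MP_ee8c61_ag.M3S.RPulB
import Pool.Agent.MP_ee8c61_ag.M3S.RRho
import Pool.Agent.MP_ee8c61_ag.M3S.RRr
import Pool.Agent.MP_ee8c61_ag.M3S.RSer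
import Pool.Agent.MP_ee8c61_ag.M3S.RSnc
import Pool.Agent.MP_ee8c61_ag.M3S.RTan
import Pool.Agent.MP_ee8c61_ag.M3S.RTrd
import Pool.Agent.MP_ee8c61_ag.M3S.RUFD
import Pool.Agent.MP_ee8c61_ag.M3S.RWK
import Pool.Agent.MP_ee8c61_ag.M3S.RWc

/-!
The foundations of the theory of surfaces, without hypotheses.
-/

set_option autoImplicit false

namespace Pool.Agent.MP_ee8c61_ag.M3S

theorem thmB1 : All B1 := fun K _ _ M =>
  have a := rowLocA rowUFD K M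
  have b := rowLocB rowUFD K M a
  ⟨rowCen K M, rowTrd K M, a, b, rowFin K M (rowCen K M) a b⟩

theorem thmB2 : All B2 := fun K _ _ M =>
  have h := thmB1 K M
  ⟨h, rowCtr K M h (rowFF K M h), rowWK K M h, rowFF K M h⟩

theorem thmB3 : All B3 := fun K _ _ M => ⟨thmB2 K M, rowDeg K M (thmB2 K M)⟩

theorem thmFnd : All Fnd := fun K _ _ M =>
  have h := thmB3 K M
  have w := wc M3C.thmWC1 M3C.thmWC2 K M h
  have e := rowEx K M h w
  have s := rowSer M3C.thmFING K M h (rowLift K M h)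
  have r := rowRr K M h w e s
  have a := adj rowInd M3C.thmLoc M3C.thmDUAL K M h
  have b := rowBer K M h.toB2 (rowBerL K M h.toB2)
  ⟨h, w, e, r, s, a, b, rowKap K M h w r a b⟩

theorem thmTan : All TanS := fun K _ _ M => rowTan rowInd M3C.thmDer K M (thmB2 K M)

theorem thmRho : All RhoS := fun K _ _ M =>
  rowRho M3C.thmLoc M3C.thmRES K M (thmB3 K M) (rowH1 K M) (rowCls K M (thmB1 K M)) (thmTan K M)

theorem thmPulA : All2 PulA := fun K _ _ M M' hd => rowPulA K M M' hd (thmB1 K M) (thmB1 K M')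

theorem thmPulB : All2 PulB := fun K _ _ M M' hd =>
  rowPulB K M M' hd (thmB3 K M) (thmB3 K M') (thmPulA K M M' hd)

theorem thmPlt : All2 PltS := fun K _ _ M M' hd =>
  rowPlt K M M' hd (thmB2 K M) (thmB2 K M') (thmPulA K M M' hd) (thmPulB K M M' hd)

theorem thmSnc : All SncS := rowSnc thmB3 thmPulA thmPulB

theorem thmOK : All fun M => (toNS (thmFnd _ M).toFinS).OK := fun K _ _ M =>
  (rowOK K M (thmFnd K M)).1

theorem thmNRho : All fun M => (toNS (thmFnd _ M).toFinS).Rho := fun K _ _ M =>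
  (rowOK K M (thmFnd K M)).2 (thmRho K M)

end Pool.Agent.MP_ee8c61_ag.M3S
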