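import Pool.Agent.MP_ee8c61_ag.M3SN.RBPF

/-!
Descent of finite generation along a birational morphism of numerical surfaces.
-/

set_option autoImplicit false

namespace Pool.Agent.MP_ee8c61_ag.M3SN

open Finset RBPF

namespace DescN

variable {K : Type} [Field K] [Algebra ℂ K] {S' S : NS K} (d : Dom S' S)

theorem pb_sum (D : S.Crv →₀ ℝ) (C' : S'.Crv) :
    d.pb D C' = ∑ C ∈ D.support, D C * d.pb (cv C) C' := by
  have := lin_sum ((Finsupp.lapply C').comp d.pb) (sup_support D)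
  simpa only [LinearMap.comp_apply, Finsupp.lapply_apply] using this

theorem pb_isZ {D : S.Crv →₀ ℝ} (h : IsZ D) : IsZ (d.pb D) := fun C' =>
  h.lin ((Finsupp.lapply C').comp d.pb) fun C => d.pb_Z C C'

theorem pb_bpf {D : S.Crv →₀ ℝ} (h : S.Bpf D) : S'.Bpf (d.pb D) := fun p' => by
  obtain ⟨f, hf, h1, h2⟩ := h (d.pr p')
  refine ⟨f, hf, ?_, fun C' hC' => ?_⟩
  · rw [← d.pb_dv f hf, ← map_add]
    exact pb_nonneg d h1
  · rw [← d.pb_dv f hf, ← map_add, pb_sum]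
    refine sum_eq_zero fun C _ => ?_
    rcases (show (0 : ℝ) ≤ d.pb (cv C) C' from d.pb_pos C C').eq_or_lt with e | e
    · rw [← e, mul_zero]
    · rw [h2 C ((d.loc p' C).2 ⟨C', hC', e⟩), zero_mul]

theorem pb_off {H Z : S.Crv →₀ ℝ} (hH : 0 ≤ H) (hZ : ∀ C, H C = 0 → 0 ≤ Z C) {C' : S'.Crv}
    (h : d.pb H C' = 0) : 0 ≤ d.pb Z C' := by
  rw [pb_sum]
  refine sum_nonneg fun C _ => ?_
  have h0 : (0 : ℝ) ≤ d.pb (cv C) C' := d.pb_pos C C'
  by_cases e : H C = 0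
  · exact mul_nonneg (hZ C e) h0
  · have h1 := pb_term d hH C C'
    have h2 : (0 : ℝ) < H C := lt_of_le_of_ne (hH C) (Ne.symm e)
    rw [h] at h1
    rw [le_antisymm (nonpos_of_mul_nonpos_right h1 h2) h0, mul_zero]

/-- A rational number below one that bounds finitely many numbers below one. -/
theorem bound {ι : Type} (s : Finset ι) (x : ι → ℝ) (h : ∀ i ∈ s, x i < 1) :
    ∃ b : ℚ, 0 ≤ (b : ℝ) ∧ (b : ℝ) < 1 ∧ ∀ i ∈ s, x i < b := by
  classical
  induction s using Finset.induction_on with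
  | empty => exact ⟨0, by simp, by simp, fun i hi => absurd hi (notMem_empty i)⟩
  | insert a s _ ih =>
    obtain ⟨b, h0, h1, h2⟩ := ih fun i hi => h i (mem_insert_of_mem hi)
    obtain ⟨c, c1, c2⟩ := exists_rat_btwn (max_lt h1 (h a (mem_insert_self _ _)))
    refine ⟨c, h0.trans ((le_max_left _ _).trans c1.le), c2, fun i hi => ?_⟩
    rcases mem_insert.1 hi with e | hi
    · rw [e]; exact (le_max_right _ _).trans_lt c1
    · exact (h2 i hi).trans ((le_max_left _ _).trans_lt c1)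

theorem small {ι : Type} (s : Finset ι) (x y : ι → ℝ) (h : ∀ i ∈ s, 0 < x i) {e : ℝ}
    (he : 0 < e) : ∃ ε : ℚ, 0 < (ε : ℝ) ∧ (ε : ℝ) ≤ e ∧ ∀ i ∈ s, ε * y i ≤ x i := by
  have h1 : ∀ᶠ t in nhdsWithin (0 : ℝ) (Set.Ioi 0), t < e ∧ ∀ i ∈ s, t * y i < x i := by
    refine Filter.Eventually.filter_mono nhdsWithin_le_nhds ((eventually_lt_nhds he).and ?_)
    refine (Filter.eventually_all_finset s).2 fun i hi => ?_
    have hc : Continuous fun t : ℝ => t * y i := continuous_id.mul continuous_const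
    exact hc.continuousAt.eventually_lt continuousAt_const (by simpa using h i hi)
  obtain ⟨u, hu, h2⟩ := mem_nhdsGT_iff_exists_Ioo_subset.1 h1
  obtain ⟨c, c1, c2⟩ := exists_rat_btwn (show (0 : ℝ) < u from hu)
  exact ⟨c, c1, (h2 ⟨c1, c2⟩).1.le, fun i hi => ((h2 ⟨c1, c2⟩).2 i hi).le⟩

end DescN

open DescN in
theorem descN {K : Type} [Field K] [Algebra ℂ K] {S' S : NS K} (d : Dom S' S) (L : LatAll)
    (O' : S'.OK) (hN : S'.NULL) (h4 : S'.T4) {l : ℕ} (W' : Finset S'.Crv)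
    (T H : S.Crv →₀ ℝ) (B : Fin l → S.Crv →₀ ℝ) (m : Fin l → ℕ) (hTQ : IsQ T)
    (hT : Nef S.I T) (hTT : 0 < S.I T T) (hTp : ∀ C, H C = 0 → 0 < S.I T (cv C)) (hHZ : IsZ H)
    (hH : 0 ≤ H) (hb : S.Bpf H) (hB : ∀ i, IsQ (B i) ∧ 0 ≤ B i ∧ ∀ C, B i C < 1)
    (hW : ∀ i C, B i C ≠ 0 → d.st C ∈ W') (hE : ∀ C', C' ∉ Set.range d.st → C' ∈ W')
    (hR : ∀ B', IsQ B' → 0 ≤ B' → Sup W' B' → (∀ C, B' C < 1) → S'.Res B')
    (hP : ∀ i C', C' ∉ Set.range d.st → d.pb H C' = 0 → (d.pb (S.Kc + B i) - S'.Kc) C' < 1)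
    (hm : ∀ i, 0 < m i) :
    FGr fun n : Fin l → ℕ => S.Ha H (S.DD T B fun i => n i * m i) := by
  classical
  obtain ⟨N, n1, n2, n3⟩ := hN (d.pb T) (pb_nef d hT) (by rwa [pb_I])
  obtain ⟨G, g1, g2, g3⟩ := L.anti _ S'.I N O'.lat n2
  obtain ⟨e, he, hpos⟩ := n3 G g2 fun C hC => (g3 C hC).2
  let E : Finset S'.Crv := d.fin.toFinset.filter fun C' => d.pb H C' = 0
  have hEm : ∀ C', C' ∈ E ↔ C' ∉ Set.range d.st ∧ d.pb H C' = 0 := fun C' => by
    simp only [E, mem_filter, Set.Finite.mem_toFinset, Set.mem_ofPred_eq]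
  obtain ⟨b, b0, b1, b2⟩ := bound ((univ : Finset (Fin l)) ×ˢ E)
    (fun q => (d.pb (S.Kc + B q.1) - S'.Kc) q.2) fun q hq =>
      hP q.1 q.2 ((hEm _).1 (mem_product.1 hq).2).1 ((hEm _).1 (mem_product.1 hq).2).2
  obtain ⟨ε, e0, e1, e2⟩ := small ((univ : Finset (Fin l)) ×ˢ E)
    (fun q => b - (d.pb (S.Kc + B q.1) - S'.Kc) q.2) (fun q => G q.2)
    (fun q hq => sub_pos.2 (b2 q hq)) he
  let X : S'.Crv →₀ ℝ := ∑ C' ∈ E, cv C'
  have hX : ∀ C', X C' = if C' ∈ E then 1 else 0 := fun C' => by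
    simp only [X, Finsupp.finsetSum_apply, cv, Finsupp.single_apply, sum_ite_eq']
  let B' : Fin l → S'.Crv →₀ ℝ := fun i => (B i).mapDomain d.st + (b : ℝ) • X
  have s1 : ∀ i C, B' i (d.st C) = B i C := fun i C => by
    simp only [B', Finsupp.add_apply, Finsupp.smul_apply, Finsupp.mapDomain_apply d.inj, hX]
    rw [if_neg fun h => ((hEm _).1 h).1 ⟨C, rfl⟩, smul_zero, add_zero]
  have s2 : ∀ i C', C' ∉ Set.range d.st → B' i C' = if C' ∈ E then (b : ℝ) else 0 :=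
    fun i C' h => by
      simp only [B', Finsupp.add_apply, Finsupp.smul_apply, Finsupp.mapDomain_of_notMem_range _ _ h,
        hX, zero_add]
      split_ifs <;> simp
  have hA : S'.Adj W' (d.pb T - (ε : ℝ) • G) (d.pb H) B' := by
    refine ⟨(pb_isQ d hTQ).sub (g1.isQ.smul ε), hpos ε e0 e1, pb_isZ d hHZ, pb_nonneg d hH,
      pb_bpf d hb, fun i C' => ?_, fun i C' => ?_, fun i C' => ?_, fun i C' hC' => ?_, hR⟩
    · by_cases h : C' ∈ Set.range d.st
      · obtain ⟨C, rfl⟩ := h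
        rw [s1]; exact (hB i).1 C
      · rw [s2 i C' h]
        split_ifs
        · exact ⟨b, rfl⟩
        · exact ⟨0, by simp⟩
    · show (0 : ℝ) ≤ B' i C'
      by_cases h : C' ∈ Set.range d.st
      · obtain ⟨C, rfl⟩ := h
        rw [s1]; exact (hB i).2.1 C
      · rw [s2 i C' h]
        split_ifs
        · exact b0
        · exact le_rfl
    · by_cases h : C' ∈ Set.range d.st
      · obtain ⟨C, rfl⟩ := h
        rw [s1]; exact (hB i).2.2 C
      · rw [s2 i C' h]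
        split_ifs
        · exact b1
        · exact one_pos
    · by_cases h : C' ∈ Set.range d.st
      · obtain ⟨C, rfl⟩ := h
        rw [s1]
        exact by_contra fun h => hC' (hW i C h)
      · exact absurd (hE C' h) hC'
  have k1 : ∀ i C, H C = 0 →
      (S'.Kc + (d.pb T - (ε : ℝ) • G) + B' i) (d.st C) = (S.Kc + T + B i) C := fun i C hC => by
    have hG : G (d.st C) = 0 := g2 _ fun h => by
      have := (n1 _).1 h
      rw [d.I_st] at this
      exact (hTp C hC).ne' this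
    simp only [Finsupp.add_apply, Finsupp.sub_apply, Finsupp.smul_apply, s1, d.K_st, d.pb_st, hG,
      smul_zero, sub_zero]
  have k2 : ∀ i C', d.pb H C' = 0 →
      d.pb (S.Kc + T + B i) C' ≤ (S'.Kc + (d.pb T - (ε : ℝ) • G) + B' i) C' := fun i C' hC => by
    by_cases h : C' ∈ Set.range d.st
    · obtain ⟨C, rfl⟩ := h
      rw [d.pb_st] at hC
      rw [k1 i C hC, d.pb_st]
    · have h1 := e2 (i, C') (mem_product.2 ⟨mem_univ _, (hEm _).2 ⟨h, hC⟩⟩)
      simp only [Finsupp.add_apply, Finsupp.sub_apply, Finsupp.smul_apply, map_add, s2 i C' h,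
        if_pos ((hEm _).2 ⟨h, hC⟩), smul_eq_mul] at h1 ⊢
      linarith
  have key : ∀ (n : Fin l → ℕ) (f : K),
      S'.Ha (d.pb H) (S'.DD (d.pb T - (ε : ℝ) • G) B' n) f ↔ S.Ha H (S.DD T B n) f := by
    intro n f
    refine ⟨fun h hf C hC => ?_, fun h hf C' hC => ?_⟩
    · have h1 := h hf (d.st C) (by rw [d.pb_st]; exact hC)
      rw [Finsupp.add_apply, ← d.pb_dv f hf, d.pb_st, NS.DD, Finsupp.finsetSum_apply] at h1
      rw [Finsupp.add_apply, NS.DD, Finsupp.finsetSum_apply]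
      convert h1 using 3 with i
      rw [Finsupp.smul_apply, Finsupp.smul_apply, k1 i C hC]
    · refine (pb_off d hH (h hf) hC).trans ?_
      rw [map_add, d.pb_dv f hf, Finsupp.add_apply, Finsupp.add_apply, NS.DD, NS.DD, map_sum,
        Finsupp.finsetSum_apply, Finsupp.finsetSum_apply]
      refine add_le_add le_rfl (sum_le_sum fun i _ => ?_)
      rw [map_smul, Finsupp.smul_apply, Finsupp.smul_apply]
      exact mul_le_mul_of_nonneg_left (k2 i C' hC) (Nat.cast_nonneg _)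
  obtain ⟨s, ν, g, h1, h2⟩ := h4 l W' _ _ B' m hA hm
  exact ⟨s, ν, g, fun j => (key _ _).1 (h1 j), fun n u hu => h2 n u ((key _ _).2 hu)⟩

end Pool.Agent.MP_ee8c61_ag.M3SN
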