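import Pool.Agent.MP_ee8c61_ag.M3S.SpecF

/-!
Resolutions of numerical surfaces.
-/

set_option autoImplicit false

namespace Pool.Agent.MP_ee8c61_ag.M3S

open Pool.Agent.MP_96693b_ag.RS

namespace RRes

variable {K : Type} [Field K] [Algebra ℂ K] {M M' : Model K 2} {hd : Dom M' M}

theorem pr_int (C : Crv M) : IsInt (pr C) := fun C' => by
  classical
  refine ⟨if C = C' then 1 else 0, ?_⟩
  rw [pr, Finsupp.single_apply]
  split_ifs <;> simp

/-- The strict transform. -/
noncomputable def st (a : PulA hd) (C : Crv M) : Crv M' := (a.st C).choose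

theorem st_val (a : PulA hd) (C : Crv M) : (st a C).1 = C.1 := (a.st C).choose_spec

theorem exc (a : PulA hd) {C' : Crv M'} (h : C' ∉ Set.range (st a)) : C' ∈ Exc M' M :=
  fun C e => h ⟨C, Subtype.ext ((st_val a C).trans e)⟩

/-- The domination of numerical surfaces. -/
noncomputable def dom (h : FinS M) (h' : FinS M') (a : PulA hd) (b : PulB hd) :
    M3SN.Dom (toNS h') (toNS h) where
  st := st a
  pb := pb hd
  pr := hd.map
  inj := fun C C' e =>
    Subtype.ext ((st_val a C).symm.trans ((congrArg Subtype.val e).trans (st_val a C')))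
  surj := a.surj
  fin := b.efin.subset fun _ h => exc a h
  pb_dv := a.pdv
  pb_st := fun D C => a.pst D C _ (st_val a C)
  pb_Z := fun C => a.pZ _ (pr_int C)
  pb_pos := a.ppos
  I_st := fun D C => b.ist D C _ (st_val a C)
  I_ex := fun D _ h => b.iex D _ (exc a h)
  K_st := fun C => b.kst C _ (st_val a C)
  loc := a.ploc

end RRes

theorem rowRes : OfRes := by
  intro hF hA hB hP hS hOK hV K _ _ M B J hJ h0 h1 T
  obtain ⟨M', hd, J', s1, s2, s3, s4, s5⟩ := hS K M T
  refine ⟨toNS (hF K M').toFinS,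
    RRes.dom (hF K M).toFinS (hF K M').toFinS (hA K M M' hd) (hB K M M' hd), J', hOK K M',
    hV K M' J' s1 s4 s5,
    fun C hC => s2 C hC _ (RRes.st_val (hA K M M' hd) C),
    fun C' h => s3 C' (RRes.exc (hA K M M' hd) h), hP K M M' hd B J hJ h0 h1⟩

end Pool.Agent.MP_ee8c61_ag.M3S
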