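import Pool.Agent.MP_ee8c61_ag.M3S.SpecG
import Pool.Agent.MP_ee8c61_ag.M3S.DescN
import Pool.Agent.MP_ee8c61_ag.M3S.RCen
import Pool.Agent.MP_ee8c61_ag.M3S.RPlt
import Pool.Agent.MP_ee8c61_ag.M3S.RRes
import Pool.Agent.MP_ee8c61_ag.M3SN.All

/-!
Finite generation of adjoint rings on an open surface.
-/

set_option autoImplicit false

namespace Pool.Agent.MP_ee8c61_ag.M3S

open Pool.Agent.MP_96693b_ag.RS Pool.Agent.MP_cce4c9_lc.H87 WithZero Finsupp

variable {K : Type} [Field K] [Algebra ℂ K] {M M' : Model K 2} {hd : Dom M' M}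

theorem cen2 (h : B1 M) : (toNS h.toFinS).Cen2 := by
  intro V hV U hU hUV
  obtain ⟨u, hu, h0, hs⟩ := h.ch V hV
  obtain ⟨s, rfl⟩ : U.FG := (Submodule.fg_top U).1 Module.Finite.fg_top
  have hfg : (chA M.U u ⊔ Algebra.adjoin ℂ (s : Set K)).FG :=
    (chA_fg M.fin u).sup ⟨s, rfl⟩
  have hle : chA M.U u ⊔ Algebra.adjoin ℂ (s : Set K) ≤
      ({ V.toSubring with algebraMap_mem' := hV } : Subalgebra ℂ K) :=
    sup_le hs (Algebra.adjoin_le fun x hx => hUV x (Submodule.subset_span hx))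
  obtain ⟨L, hL, hLV, -⟩ := RCen.cen hfg (V := V) hle (one_mem _) one_ne_zero (by simp)
  obtain ⟨p, hp, -⟩ := Model.exists_le hu h0 (le_sup_left.trans hL.le)
  refine ⟨p, fun f hf hr => ?_⟩
  have hfO : f ∈ (M.loc p).O := h.hart p f fun C hC => by
    have : (0 : ℝ) ≤ dvr M f C := hr C hC
    rw [h.dva] at this
    exact (C.1.val_le_one (C.1.val_ne hf)).2 (by exact_mod_cast this)
  refine ⟨hLV f (hp hfO), fun ⟨C, hC, hpos⟩ hi => ?_⟩
  have h1 : (0 : ℝ) < dvr M f C := hpos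
  rw [h.dva] at h1
  have h2 := h.evz C p hC f hfO ((C.1.val_lt_one (C.1.val_ne hf)).2 (by exact_mod_cast h1))
  have h3 : f⁻¹ ∈ L.O := hL.le ((le_sup_right : _ ≤ chA M.U u ⊔ _)
    (Submodule.span_le.2 (Algebra.subset_adjoin (R := ℂ) (s := (s : Set K))) hi :
      f⁻¹ ∈ (Algebra.adjoin ℂ (s : Set K)).toSubmodule))
  have h4 := L.ev_mul f (hp hfO) _ h3
  rw [mul_inv_cancel₀ hf, Loc.ev_eq_of_le hp hfO, h2, zero_mul] at h4
  have h5 := L.ev_alg 1
  rw [map_one, h4] at h5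
  exact zero_ne_one h5

open RPlt in
/-- Discrepancies over a point with normal crossings. -/
theorem pltL (h : B2 M) (h' : B2 M') (A : PulA hd) {B : Dr M} {J : Set (Crv M)}
    (hB0 : ∀ C, C ∉ J → B C = 0) (hB1 : ∀ C, B C < 1) {C' : Crv M'} (hC : C' ∈ Exc M' M)
    (hJ : ∀ p', On C' p' → SncP J (hd.map p')) : (pb hd (KD M + B) - KD M') C' < 1 := by
  rw [Finsupp.sub_apply]
  obtain ⟨p, hp, hlt⟩ := A.exc C' hC
  obtain ⟨p', hp', -⟩ := C'.2
  obtain rfl : hd.map p' = p := hp p' hp'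
  obtain ⟨κ, hκ, hx⟩ := hJ p' hp'
  obtain ⟨κ', hκ'⟩ := M'.smooth _ p'.2
  have hκ'' : IsCrd (M'.loc p') κ' := hκ'
  have hx0 : ∀ i, κ.x i ≠ 0 := hκ.x_ne_zero
  have e1 : KD M' C' = C'.1.ord (jac κ' (r0 K)) := h'.kC C' κ' p' hκ'' hp'
  have e2 := A.isPb _ h.kZ p' _ (h.isK _ κ hκ)
  have e3 := h.chain _ κ hκ κ' (r0 K)
  have n1 : jac κ' (r0 K) ≠ 0 := h'.jne p' κ' hκ'' _ h.ind
  have n2 : jac κ' κ.x ≠ 0 := fun e => n1 (by rw [e3, e, zero_mul])
  have e4 := e2.2 C' hp'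
  rw [e3, C'.1.ord_mul (C'.1.val_ne n2) (C'.1.val_ne e2.1), Int.cast_add, e4] at e1
  have j1 := jac_ord C'.1 κ' (fun i => h'.pres C' p' hp' _ (hκ''.pres i)) hx0 n2
  have j2 : ((C'.1.ord (κ.x 0) : ℝ)) + C'.1.ord (κ.x 1) ≤ C'.1.ord (jac κ' κ.x) + 1 := by
    exact_mod_cast j1
  have m : ∀ i, (0 : ℝ) < C'.1.ord (κ.x i) := fun i => by
    have := (C'.1.val_lt_one (C'.1.val_ne (hx0 i))).1
      (hlt _ (hκ.x_mem_m i).1 (hκ.x_mem_m i).2)
    exact_mod_cast this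
  obtain ⟨b, b0, b1, b2⟩ := bound B.support B hB1
  have b3 : ∀ C, B C ≤ b := fun C => by
    by_cases hs : C ∈ B.support
    · exact b2 C hs
    · rw [Finsupp.notMem_support_iff.1 hs]; exact b0
  have k := pb_nonneg A (D := b • (dvr M (κ.x 0) + dvr M (κ.x 1)) - B) hp' fun C hCp => by
    rw [Finsupp.sub_apply, Finsupp.smul_apply, Finsupp.add_apply, h.dva, h.dva, smul_eq_mul]
    have o : ∀ i, (0 : ℝ) ≤ C.1.ord (κ.x i) := fun i => by
      have := (C.1.val_le_one (C.1.val_ne (hx0 i))).1 (hCp _ (hκ.x_mem i))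
      exact_mod_cast this
    by_cases hj : C ∈ J
    · obtain ⟨i, hi⟩ := hx C hj hCp
      have e := hi.2 C hCp
      rw [Finsupp.single_eq_same] at e
      have s : (1 : ℝ) ≤ C.1.ord (κ.x 0) + C.1.ord (κ.x 1) := by
        have o0 := o 0
        have o1 := o 1
        fin_cases i
        · exact le_add_of_le_of_nonneg e.ge o1
        · exact le_add_of_nonneg_of_le o0 e.ge
      have := mul_le_mul_of_nonneg_left s b0
      linarith [b3 C]
    · rw [hB0 C hj, sub_zero]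
      exact mul_nonneg b0 (add_nonneg (o 0) (o 1))
  rw [map_sub, map_smul, map_add, A.pdv _ (hx0 0), A.pdv _ (hx0 1), Finsupp.sub_apply,
    Finsupp.smul_apply, Finsupp.add_apply, h'.dva, h'.dva, smul_eq_mul] at k
  rw [map_add, Finsupp.add_apply, e1]
  have := mul_lt_mul_of_pos_right b1 (add_pos (m 0) (m 1))
  linarith

/-- A curve through the centre of an exceptional curve has a positive pull-back along it. -/
theorem pb_exc_pos (h : B1 M) (A : PulA hd) {C' : Crv M'} (hC : C' ∈ Exc M' M) {p' : M'.P}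
    (hp' : On C' p') {C : Crv M} (hp : On C (hd.map p')) : 0 < pb hd (pr C) C' := by
  obtain ⟨p, e, hlt⟩ := A.exc C' hC
  obtain rfl := e p' hp'
  obtain ⟨η, hη, he, -⟩ := h.eqn1 C _ hp
  have e1 := he.2 C hp
  rw [Finsupp.single_eq_same] at e1
  have e2 := h.evz C _ hp η hη ((C.1.val_lt_one (C.1.val_ne he.1)).2 (by
    have : (0 : ℝ) < C.1.ord η := by rw [e1]; exact one_pos
    exact_mod_cast this))
  rw [← (A.isPb _ (RRes.pr_int C) p' η he).2 C' hp']
  exact_mod_cast (C'.1.val_lt_one (C'.1.val_ne he.1)).1 (hlt η hη e2)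

theorem desc (hF : All Fnd) (hA : All2 PulA) (hB : All2 PulB) (hS : All SncS) (hO : OfOK)
    (hρ : All RhoS) (hV : M3SN.StmtFINV)
    (hR : All fun M => ∀ (B : Dr M) (J : Set (Crv M)), SncC J → (∀ C, C ∉ J → B C = 0) →
      (∀ C, B C < 1) → (toNS (hF _ M).toFinS).Res B) : StDESC := by
  intro K _ _ M l W T H B m hTQ hT hTT hTp hHZ hH hb hW hBB hm
  obtain ⟨M', hd, J, s1, s2, s3, -, -⟩ := hS K M W
  have h := hF K M
  have h' := hF K M'
  have a := hA K M M' hd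
  have O' := (hO K M' h').1
  have := h.eft
  have hb' : (toNS h.toFinS).Bpf H := fun p => by
    obtain ⟨f, hf, he⟩ := hb p
    refine ⟨f, he.1, fun C => ?_, fun C hC => ?_⟩
    · show (0 : ℝ) ≤ dvr M f C + H C
      rw [h.dva]; exact (mem_H0 he.1).1 hf C
    · show dvr M f C + H C = 0
      rw [h.dva, he.2 C hC, Finsupp.neg_apply, neg_add_cancel]
  have := M3SN.descN (RRes.dom h.toFinS h'.toFinS a (hB K M M' hd)) M3SN.latAll O'
    O'.tools.null (O'.t4 hV ((hO K M' h').2 (hρ K M')) (cen2 h'.toB1)) J T H B m hTQ hT hTT hTp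
    hHZ hH hb' (fun i => ⟨(hBB i).1, (hBB i).2.1, (hBB i).2.2.1⟩)
    (fun i C hC => s2 C (by_contra fun e => hC ((hBB i).2.2.2 C e)) _ (RRes.st_val a C))
    (fun C' hC => s3 C' (RRes.exc a hC))
    (fun B' _ _ b1 b2 => hR K M' B' J s1 b1 b2)
    (fun i C' hC h0 => pltL h.toB2 h'.toB2 a (J := W) (hBB i).2.2.2 (hBB i).2.2.1
      (RRes.exc a hC) fun p' hp' => hW _ fun C hp => by
        have e1 := pb_exc_pos h.toB1 a (RRes.exc a hC) hp' hp
        have e2 := M3SN.RBPF.pb_term (RRes.dom h.toFinS h'.toFinS a (hB K M M' hd)) hH C C'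
        rw [h0] at e2
        exact le_antisymm (nonpos_of_mul_nonpos_left e2 e1) (hH C)) hm
  have key : ∀ (D : Dr M) (f : K), (toNS h.toFinS).Ha H D f ↔ Ha H D f := fun D f =>
    forall_congr' fun _ => forall_congr' fun C => forall_congr' fun _ => by
      show (0 : ℝ) ≤ dvr M f C + D C ↔ _
      rw [h.dva]
  obtain ⟨s, ν, g, h1, h2⟩ := this
  exact ⟨s, ν, g, fun j => (key _ _).1 (h1 j), fun n u hu => h2 n u ((key _ _).2 hu)⟩

end Pool.Agent.MP_ee8c61_ag.M3S
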