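import Pool.Agent.MP_ee8c61_ag.M3S.AllF
import Pool.Agent.MP_ee8c61_ag.M3S.Desc
import Pool.Agent.MP_ee8c61_ag.M3V.KVN
import Pool.Agent.MP_ee8c61_ag.M3V.RKVM
import Pool.Agent.MP_ee8c61_ag.M3V.RSYS
import Pool.Agent.MP_ee8c61_ag.M3V.RATL
import Pool.Agent.MP_ee8c61_ag.M3V.RDEN
import Pool.Agent.MP_ee8c61_ag.M3V.RDER
import Pool.Agent.MP_ee8c61_ag.M3V.RETK
import Pool.Agent.MP_ee8c61_ag.M3B1.Et
import Pool.Agent.MP_ee8c61_ag.KV59.Out

/-!
Vanishing, resolutions and finite generation on surfaces, without hypotheses.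
-/

set_option autoImplicit false

namespace Pool.Agent.MP_ee8c61_ag.M3S

theorem thmKVM : M3V.StmtKVM :=
  M3V.kvm M3V.der (M3V.sys M3V.den M3V.der (M3V.etk M3B1.rowET) (M3V.atl M3V.den)) KV59.skvg

theorem thmAMP : M3V.SAMP := M3V.samp fun _ _ _ _ O => O.tools.nak

theorem thmVanS : All fun M => VanS M (thmFnd _ M).toFinS := fun K _ _ M =>
  M3V.vanS (thmFnd K M) (thmOK K M) thmKVM thmAMP (M3V.shod fun _ _ _ _ O => O.tools.hodge)

theorem thmVANH : M3V.StmtVANH := M3V.vanh thmFnd rowOK thmKVM thmAMP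

theorem thmKVN : M3V.StmtKVN :=
  M3V.kvn thmFnd rowOK thmPulA thmPulB thmPlt thmSnc thmVANH
    (M3V.snul M3SN.latAll.anti fun _ _ _ _ O => O.tools.null)

theorem thmRes : All fun M => ∀ (B : Dr M) (J : Set (Crv M)), SncC J → (∀ C, C ∉ J → B C = 0) →
    (∀ C, B C < 1) → (toNS (thmFnd _ M).toFinS).Res B :=
  rowRes thmFnd thmPulA thmPulB thmPlt thmSnc thmOK thmVanS

theorem thmFINV : M3SN.StmtFINV := fun L _ _ _ R h N => (M3C.thmFIN ℂ L R h N).2

theorem thmDESC : StDESC := desc thmFnd thmPulA thmPulB thmSnc rowOK thmRho thmFINV thmRes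

end Pool.Agent.MP_ee8c61_ag.M3S
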