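import Pool.Agent.MP_ee8c61_ag.M3S.Defs
import Pool.Agent.MP_ee8c61_ag.M3C.SpecB
import Pool.Agent.MP_ee8c61_ag.M3SN.Defs

/-!
Foundations of the theory of smooth projective surfaces: the statements.
-/

set_option autoImplicit false

namespace Pool.Agent.MP_ee8c61_ag.M3S

open Pool.Agent.MP_96693b_ag.RS Pool.Agent.MP_cce4c9_lc.H87 WithZero Finsupp Filter Module

noncomputable section

section Str

variable {K : Type} [Field K] [Algebra ℂ K]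

/-- The valuation ring contains the algebra. -/
def Sub (B : Subalgebra ℂ K) (V : ValuationSubring K) : Prop := ∀ f ∈ B, f ∈ V

/-- The curve meets the affine set with ring `B`. -/
def InC {M : Model K 2} (B : Subalgebra ℂ K) (C : Crv M) : Prop := ∀ f ∈ B, C.1.val f ≤ 1

/-- Sections of `D` over the affine set with ring `B`. -/
def Gm {M : Model K 2} (D : Dr M) (B : Subalgebra ℂ K) : Set K :=
  {f | ∀ C : Crv M, InC B C → C.1.val f ≤ exp ⌊D C⌋}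

/-- A reduced divisor with smooth and disjoint components. -/
structure Red {M : Model K 2} (D : Dr M) : Prop where
  co : ∀ C, D C = 0 ∨ D C = 1
  sm : ∀ C, D C = 1 → SmC C
  dis : ∀ C C' p, D C = 1 → D C' = 1 → On C p → On C' p → C = C'

variable (M : Model K 2)

/-- Centres of valuation rings. -/
structure CenS : Prop where
  ch : ∀ V : ValuationSubring K, (∀ a : ℂ, algebraMap ℂ K a ∈ V) →
    ∃ u ∈ M.U, u ≠ 0 ∧ Sub (chA M.U u) V
  cen : ∀ V : ValuationSubring K, ∀ u ∈ M.U, u ≠ 0 → Sub (chA M.U u) V →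
    ∀ q ∈ chA M.U u, q ≠ 0 → q⁻¹ ∈ V →
      ∃ p, chA M.U u ≤ (M.loc p).O ∧ Sub (M.loc p).O V ∧ (M.loc p).ev q ≠ 0
  sep : ∀ (V : ValuationSubring K) p p', Sub (M.loc p).O V → Sub (M.loc p').O V →
    (∀ g ∈ (M.loc p).O, (M.loc p).ev g = 0 → g ≠ 0 → g⁻¹ ∉ V) → p = p'
  dmn : ∀ p, ∃ V : ValuationSubring K, Sub (M.loc p).O V ∧
    ∀ g ∈ (M.loc p).O, (M.loc p).ev g = 0 → g ≠ 0 → g⁻¹ ∉ V
  aff : ∀ u ∈ M.U, u ≠ 0 → ∀ f, (∀ p, chA M.U u ≤ (M.loc p).O → f ∈ (M.loc p).O) →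
    f ∈ chA M.U u
  aff2 : ∀ u ∈ M.U, u ≠ 0 → ∀ u' ∈ M.U, u' ≠ 0 → ∀ f,
    (∀ p, chA M.U u ⊔ chA M.U u' ≤ (M.loc p).O → f ∈ (M.loc p).O) → f ∈ chA M.U u ⊔ chA M.U u'
  top : ∀ u ∈ M.U, u ≠ 0 → ∀ I : Ideal (chA M.U u),
    (∀ p, chA M.U u ≤ (M.loc p).O → ∃ a ∈ I, (M.loc p).ev (a : K) ≠ 0) → I = ⊤
  cst : ∀ f, (∀ p, f ∈ (M.loc p).O) → f ∈ Set.range (algebraMap ℂ K)

/-- Transcendence degree and derivations. -/
structure TrdS : Prop where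
  trd : Algebra.trdeg ℂ K = 2
  eft : Algebra.EssFiniteType ℂ K
  ind : AlgebraicIndependent ℂ (r0 K)
  dep : ∀ r : Fin 3 → K, ¬ AlgebraicIndependent ℂ r
  der : ∀ p (κ : Chart K 2), IsCrd (M.loc p) κ → ∀ (δ : Der K) (f : K),
    δ f = δ (κ.x 0) * κ.D 0 f + δ (κ.x 1) * κ.D 1 f
  chain : ∀ p (κ : Chart K 2), IsCrd (M.loc p) κ → ∀ (κ' : Chart K 2) r,
    jac κ' r = jac κ' κ.x * jac κ r
  jne : ∀ p (κ : Chart K 2), IsCrd (M.loc p) κ → ∀ r, AlgebraicIndependent ℂ r → jac κ r ≠ 0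

/-- Curves through a point. -/
structure LocA : Prop where
  ndom : ∀ (C : Crv M) p, On C p → ∃ g ∈ (M.loc p).O, (M.loc p).ev g = 0 ∧ C.1.val g = 1
  evz : ∀ (C : Crv M) p, On C p → ∀ g ∈ (M.loc p).O, C.1.val g < 1 → (M.loc p).ev g = 0
  eqn1 : ∀ (C : Crv M) p, On C p → ∃ η ∈ (M.loc p).O, Eqn (pr C) p η ∧
    ∀ g ∈ (M.loc p).O, C.1.val g < 1 → g / η ∈ (M.loc p).O
  frac : ∀ (C : Crv M) p, On C p → ∀ f, C.1.val f ≤ 1 →
    ∃ s ∈ (M.loc p).O, C.1.val s = 1 ∧ s * f ∈ (M.loc p).O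
  pres : ∀ (C : Crv M) p, On C p → ∀ δ : Der K, (∀ f ∈ (M.loc p).O, δ f ∈ (M.loc p).O) →
    ∀ f, C.1.val f ≤ 1 → C.1.val (δ f) ≤ 1

/-- Normality. -/
structure LocB : Prop where
  hart : ∀ p f, (∀ C : Crv M, On C p → C.1.val f ≤ 1) → f ∈ (M.loc p).O
  thru : ∀ p, ∀ g ∈ (M.loc p).O, (M.loc p).ev g = 0 → ∃ C : Crv M, On C p ∧ C.1.val g < 1
  unit : ∀ p f, (M.loc p).ev f ≠ 0 ↔ ∀ C : Crv M, On C p → C.1.val f = 1
  crd : ∀ p, ∀ g ∈ (M.loc p).O, (M.loc p).ev g = 0 → g ∉ (M.loc p).m ^ 2 →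
    (∃ κ : Chart K 2, IsCrd (M.loc p) κ ∧ κ.x 0 = g) ∧
      ∀ C : Crv M, On C p → C.1.val g < 1 → Eqn (pr C) p g

/-- Divisors of functions and local equations. -/
structure FinS : Prop where
  fin : ∀ f : K, {C : Crv M | C.1.ord f ≠ 0}.Finite
  dva : ∀ f C, dvr M f C = C.1.ord f
  eqn : ∀ D : Dr M, IsInt D → ∀ p, ∃ η, Eqn D p η
  rat : ∀ (D : Dr M) p η η', Eqn D p η → Eqn D p η' → (M.loc p).ev (η / η') ≠ 0
  spo : ∀ (C : Crv M) p, ¬ On C p → ∀ᶠ b in zn p, ¬ On C b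
  sp : ∀ (D : Dr M) p η, Eqn D p η → ∀ᶠ b in zn p, Eqn D b η
  mv : ∀ (D : Dr M) C, IsInt D → ∃ h, Mv D C h
  memH : ∀ D : Dr M, IsInt D → ∀ f, f ∈ H0 D ↔ ∀ p η, Eqn D p η → f * η ∈ (M.loc p).O
  memL : ∀ (D : Dr M) p η, Eqn D p η → ∀ f,
    (∀ C : Crv M, On C p → C.1.val f ≤ exp ⌊D C⌋) ↔ f * η ∈ (M.loc p).O
  ptc : ∀ u ∈ M.U, u ≠ 0 → ∀ C : Crv M, InC (chA M.U u) C → ∀ q ∈ chA M.U u, C.1.val q = 1 →
    ∃ p, On C p ∧ chA M.U u ≤ (M.loc p).O ∧ (M.loc p).ev q ≠ 0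
  ptc2 : ∀ u ∈ M.U, u ≠ 0 → ∀ u' ∈ M.U, u' ≠ 0 → ∀ C : Crv M,
    InC (chA M.U u ⊔ chA M.U u') C → ∃ p, On C p ∧ chA M.U u ⊔ chA M.U u' ≤ (M.loc p).O
  sepc : ∀ u ∈ M.U, u ≠ 0 → ∀ (C : Crv M) p, InC (chA M.U u) C → chA M.U u ≤ (M.loc p).O →
    ¬ On C p → ∃ q ∈ chA M.U u, (M.loc p).ev q ≠ 0 ∧ C.1.val q < 1
  clr1 : ∀ u ∈ M.U, u ≠ 0 → ∀ (D : Dr M) p, chA M.U u ≤ (M.loc p).O → ∀ f,
    (∀ C : Crv M, On C p → C.1.val f ≤ exp ⌊D C⌋) →
      ∃ q ∈ chA M.U u, (M.loc p).ev q ≠ 0 ∧ q * f ∈ Gm D (chA M.U u)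

/-- Level one. -/
structure B1 : Prop extends CenS M, TrdS M, LocA M, LocB M, FinS M

/-- The function fields of curves. -/
def FFS : Prop := ∀ C : Crv M, IsFF ℂ (Rf C.1)

/-- Places of a curve and their centres. -/
structure CtrS : Prop where
  cex : ∀ (C : Crv M) u, ∃ p, Ctr C u p
  cuq : ∀ (C : Crv M) u p p', Ctr C u p → Ctr C u p' → p = p'
  con : ∀ (C : Crv M) p, On C p → ∃ u, Ctr C u p
  cev : ∀ (C : Crv M) u p, Ctr C u p → ∀ g ∈ (M.loc p).O, u.ev (res C.1 g) = (M.loc p).ev g ∧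
    ((M.loc p).ev g = 0 ↔ u.val (res C.1 g) < 1)
  cfin : ∀ (C : Crv M) p, {u | Ctr C u p}.Finite
  cinf : ∀ C : Crv M, {p | On C p}.Infinite
  cch : ∀ (C : Crv M) u p, Ctr C u p → ∀ a ∈ M.U, a ≠ 0 → InC (chA M.U a) C →
    (∀ f ∈ chA M.U a, u.val (res C.1 f) ≤ 1) → chA M.U a ≤ (M.loc p).O
  csm : ∀ (C : Crv M) u p (κ : Chart K 2), Ctr C u p → IsCrd (M.loc p) κ →
    Eqn (pr C) p (κ.x 0) → u.val (res C.1 (κ.x 1)) = exp (-1 : ℤ) ∧
      ∀ s, u.val s ≤ 1 → ∃ g ∈ (M.loc p).O, res C.1 g = s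

/-- The hyperplane class and the canonical divisor. -/
structure WKS : Prop where
  isW : IsW (wD M)
  wZ : IsInt (wD M)
  isK : IsK (r0 K) (KD M)
  kZ : IsInt (KD M)
  wsec : ∀ u ∈ M.U, u ∈ H0 (wD M)
  wC : ∀ u ∈ M.U, u ≠ 0 → ∀ C : Crv M,
    (InC (chA M.U u) C → (C.1.ord u : ℝ) + wD M C = 0) ∧
    (¬ InC (chA M.U u) C → 1 ≤ (C.1.ord u : ℝ) + wD M C)
  wbpf : Bpf (wD M)
  kC : ∀ (C : Crv M) (κ : Chart K 2) p, IsCrd (M.loc p) κ → On C p →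
    KD M C = C.1.ord (jac κ (r0 K))
  clr2 : ∀ u ∈ M.U, u ≠ 0 → ∀ (D : Dr M), ∀ f ∈ Gm D (chA M.U u),
    ∀ᶠ e : ℕ in atTop, u ^ e * f ∈ H0 (D + (e : ℝ) • wD M)
  bpf : ∀ D : Dr M, IsInt D → ∀ᶠ e : ℕ in atTop, Bpf (D + (e : ℝ) • wD M)

/-- Level two. -/
structure B2 : Prop extends B1 M, CtrS M, WKS M where
  ff : FFS M

/-- Intersection numbers. -/
structure DegS : Prop where
  rex : ∀ (D : Dr M) C h, IsInt D → Mv D C h →
    ∃ R, IsR D C h R ∧ (R.degree : ℝ) = II M D (pr C)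
  ruq : ∀ (D : Dr M) C h R R', IsInt D → IsR D C h R → IsR D C h R' → R = R'
  num : ∀ f C, f ≠ 0 → II M (dvr M f) (pr C) = 0
  off : ∀ C C' : Crv M, C ≠ C' → 0 ≤ II M (pr C) (pr C')
  meet : ∀ C C' : Crv M, C ≠ C' → (0 < II M (pr C) (pr C') ↔ ∃ p, On C p ∧ On C' p)
  mfin : ∀ C C' : Crv M, C ≠ C' → {p | On C p ∧ On C' p}.Finite
  wpos : ∀ C, 1 ≤ II M (wD M) (pr C)

/-- Level three. -/
structure B3 : Prop extends B2 M, DegS M

/-- Sections on a curve. -/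
structure WcS : Prop where
  wle : ∀ (D : Dr M) C h R, IsInt D → Mv D C h → IsR D C h R → WC D C h ≤ LL R
  wfin : ∀ (D : Dr M) C h, IsInt D → Mv D C h → FiniteDimensional ℂ (WC D C h)
  wbd : ∀ (D : Dr M) C h, IsInt D → Mv D C h →
    (finrank ℂ (WC D C h) : ℝ) ≤ max 0 (II M D (pr C) + 1)
  gex : ∀ C : Crv M, ∃ b, GamB C (gam C) b
  gle : ∀ C : Crv M, gam C ≤ 1
  gsm : ∀ C : Crv M, SmC C → ∀ g, IsGenus ℂ (Rf C.1) g →
    gam C = 1 - g ∧ GamB C (1 - g) (2 * g + 1)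

/-- The restriction sequence. -/
structure ExS : Prop where
  hfin : ∀ D : Dr M, FiniteDimensional ℂ (H0 D)
  hres : ∀ (D : Dr M) C h, IsInt D → Mv D C h → ∀ f ∈ H0 D, res C.1 (f / h) ∈ WC D C h
  hle : ∀ (D : Dr M) C h, IsInt D → Mv D C h →
    h0 D ≤ h0 (D - pr C) + finrank ℂ (WC D C h)
  heq : ∀ (D : Dr M) C h, IsInt D → Mv D C h →
    (h0 D = h0 (D - pr C) + finrank ℂ (WC D C h) ↔
      ∀ s ∈ WC D C h, ∃ f ∈ H0 D, res C.1 (f / h) = s)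

/-- Lifting of sections on a chart. -/
def LiftS : Prop := ∀ u ∈ M.U, u ≠ 0 → ∀ (D : Dr M) C h, IsInt D → Mv D C h →
  InC (chA M.U u) C → ∀ s ∈ WC D C h, ∃ f ∈ Gm D (chA M.U u), res C.1 (f / h) = s

/-- Restriction is onto in large degree. -/
def SerS : Prop := ∀ (D : Dr M) C, IsInt D → ∀ᶠ k : ℕ in atTop, Onto (D + (k : ℝ) • wD M) C

/-- The asymptotic Riemann-Roch theorem. -/
structure RrS : Prop where
  sym : ∀ D E : Dr M, II M D E = II M E D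
  isC0 : IsC0 M (c0 M)
  kdv : ∀ f, f ≠ 0 → kap M (dvr M f) = 0

/-- Adjunction for smooth curves. -/
def AdjS : Prop := ∀ C : Crv M, SmC C → ∀ g, IsGenus ℂ (Rf C.1) g →
  II M (KD M + pr C) (pr C) = 2 * g - 2

/-- Bertini. -/
def BerS : Prop := ∀ X : Dr M, IsInt X → ∀ᶠ k : ℕ in atTop,
  ∃ f, f ≠ 0 ∧ Red (dvr M f + (X + (k : ℝ) • wD M))

/-- The numerical canonical class is the canonical class. -/
def KapS : Prop := ∀ D : Dr M, kap M D = II M (KD M) D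

/-- Everything about one surface. -/
structure Fnd : Prop extends B3 M, WcS M, ExS M, RrS M where
  ser : SerS M
  adj : AdjS M
  ber : BerS M
  kapE : KapS M

/-! ### Finite rank -/

/-- The differential in the frame `κ`. -/
def dd (κ : Chart K 2) (f : K) : Fin 2 → K := fun i => κ.D i f

/-- The forms generated by the differentials of `B`. -/
def Om (κ : Chart K 2) (B : Subalgebra ℂ K) : Submodule B (Fin 2 → K) :=
  Submodule.span B (dd κ '' B)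

/-- The first cohomology of the one-forms is finite dimensional. -/
def H1S : Prop := ∀ κ : Chart K 2, ∃ (n : ℕ) (t : Fin n → K → K → Fin 2 → K),
  (∀ i, ∀ a ∈ M.U, a ≠ 0 → ∀ b ∈ M.U, b ≠ 0 → t i a b ∈ Om κ (chA M.U a ⊔ chA M.U b)) ∧
  ∀ θ : K → Fin 2 → K,
    (∀ a ∈ M.U, a ≠ 0 → ∀ b ∈ M.U, b ≠ 0 → θ a - θ b ∈ Om κ (chA M.U a ⊔ chA M.U b)) →
    ∃ (c : Fin n → ℂ) (φ : K → Fin 2 → K), (∀ a ∈ M.U, a ≠ 0 → φ a ∈ Om κ (chA M.U a)) ∧
      ∀ a ∈ M.U, a ≠ 0 → ∀ b ∈ M.U, b ≠ 0 → θ a - θ b = ∑ i, c i • t i a b + (φ a - φ b)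

/-- The class of a divisor. -/
def ClsS : Prop := ∀ (κ : Chart K 2) (D : Dr M), IsInt D → ∃ θ : K → Fin 2 → K,
  (∀ a ∈ M.U, a ≠ 0 → ∀ b ∈ M.U, b ≠ 0 → θ a - θ b ∈ Om κ (chA M.U a ⊔ chA M.U b)) ∧
  ∀ a ∈ M.U, a ≠ 0 → ∀ p η, chA M.U a ≤ (M.loc p).O → Eqn D p η →
    θ a - η⁻¹ • dd κ η ∈ Om κ (M.loc p).O

/-- A vector field tangent to a curve. -/
def TanS : Prop := ∀ C : Crv M, ∃ (δ : Der K) (d : Derivation ℂ (Rf C.1) (Rf C.1)), d ≠ 0 ∧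
  ∀ f, C.1.val f ≤ 1 → C.1.val (δ f) ≤ 1 ∧ res C.1 (δ f) = d (res C.1 f)

/-- The numerical lattice has finite rank. -/
def RhoS : Prop := ∃ T : Finset (Crv M), ∀ D : Dr M,
  (∀ C ∈ T, II M D (pr C) = 0) → ∀ C, II M D (pr C) = 0

/-! ### Dominations -/

variable {M} {M' : Model K 2} (hd : Dom M' M)

/-- The pull-back. -/
structure PulA : Prop where
  st : ∀ C : Crv M, ∃ C' : Crv M', C'.1 = C.1
  surj : Function.Surjective hd.map
  exc : ∀ C' ∈ Exc M' M, ∃ p, (∀ p', On C' p' → hd.map p' = p) ∧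
    ∀ g ∈ (M.loc p).O, (M.loc p).ev g = 0 → C'.1.val g < 1
  isPb : ∀ D, IsInt D → IsPb hd D (pb hd D)
  pZ : ∀ D, IsInt D → IsInt (pb hd D)
  pdv : ∀ f, f ≠ 0 → pb hd (dvr M f) = dvr M' f
  pst : ∀ D (C : Crv M) (C' : Crv M'), C'.1 = C.1 → pb hd D C' = D C
  ppos : ∀ C, 0 ≤ pb hd (pr C)
  ploc : ∀ p' C, On C (hd.map p') ↔ ∃ C', On C' p' ∧ 0 < pb hd (pr C) C'

/-- Projection formulas and the canonical divisor. -/
structure PulB : Prop where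
  kst : ∀ (C : Crv M) (C' : Crv M'), C'.1 = C.1 → KD M' C' = KD M C
  kex : ∀ C' ∈ Exc M' M, pb hd (KD M) C' + 1 ≤ KD M' C'
  efin : (Exc M' M).Finite
  ist : ∀ D (C : Crv M) (C' : Crv M'), C'.1 = C.1 → II M' (pb hd D) (pr C') = II M D (pr C)
  iex : ∀ D, ∀ C' ∈ Exc M' M, II M' (pb hd D) (pr C') = 0

/-- Discrepancies of a normal crossings pair. -/
def PltS : Prop := ∀ (B : Dr M) (J : Set (Crv M)), SncC J → (∀ C, C ∉ J → B C = 0) →
  (∀ C, B C < 1) → ∀ C', (pb hd (KD M + B) - KD M') C' < 1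

variable (M)

/-- Embedded resolution. -/
def SncS : Prop := ∀ T : Finset (Crv M), ∃ (M' : Model K 2) (_ : Dom M' M) (J : Finset (Crv M')),
  SncC (J : Set (Crv M')) ∧ (∀ C ∈ T, ∀ C' : Crv M', C'.1 = C.1 → C' ∈ J) ∧
  (∀ C' ∈ Exc M' M, C' ∈ J) ∧ (∀ C', C' ∉ J → KD M' C' = 0) ∧ ∀ C', C' ∉ J → wD M' C' = 0

/-! ### The numerical surface -/

variable {M}

/-- The numerical surface of a model. -/
def toNS (h : FinS M) : M3SN.NS K where
  Crv := Crv M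
  Pt := M.P
  on := fun p C => On C p
  dv := dvr M
  I := II M
  Kc := KD M
  w := wD M
  c0 := c0 M
  dv_mul := fun f g hf hg => by
    ext C
    rw [Finsupp.add_apply, h.dva, h.dva, h.dva, C.1.ord_mul (C.1.val_ne hf) (C.1.val_ne hg),
      Int.cast_add]
  dv_add := fun f g C hf hg hfg => by
    rw [h.dva, h.dva, h.dva, ← Int.cast_min, Int.cast_le, ← neg_neg (min _ _),
      ← C.1.val_le_exp (C.1.val_ne hfg)]
    refine (C.1.val.map_add f g).trans (max_le ?_ ?_)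
    · rw [C.1.val_le_exp (C.1.val_ne hf), neg_neg]; exact min_le_left _ _
    · rw [C.1.val_le_exp (C.1.val_ne hg), neg_neg]; exact min_le_right _ _
  dv_const := fun a _ => by
    ext C
    rw [h.dva, C.1.ord_const]
    simp

end Str

/-! ### Rows -/

/-- A statement about all surfaces. -/
def All (P : ∀ {K : Type} [Field K] [Algebra ℂ K], Model K 2 → Prop) : Prop :=
  ∀ (K : Type) [Field K] [Algebra ℂ K] (M : Model K 2), P M

/-- A statement about all dominations. -/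
def All2 (P : ∀ {K : Type} [Field K] [Algebra ℂ K] {M M' : Model K 2}, Dom M' M → Prop) : Prop :=
  ∀ (K : Type) [Field K] [Algebra ℂ K] (M M' : Model K 2) (hd : Dom M' M), P hd

/-- Regular local rings of dimension two are factorial. -/
def StUFD : Prop := ∀ (K : Type) [Field K] [Algebra ℂ K] (L : Loc K) (κ : Chart K 2),
  IsCrd L κ → UniqueFactorizationMonoid L.O ∧ ∀ q : Ideal L.O, q.IsPrime →
    (∃ g : L.O, L.ev g = 0 ∧ g ∉ q) → q.IsPrincipal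

/-- A derivation that preserves a place induces a derivation of the residue field. -/
def StInd : Prop := ∀ (K : Type) [Field K] [Algebra ℂ K] (v : Place ℂ K) (δ : Der K),
  (∀ f, v.val f ≤ 1 → v.val (δ f) ≤ 1) → (∀ f, v.val f < 1 → v.val (δ f) < 1) →
    ∃ d : Derivation ℂ (Rf v) (Rf v), ∀ f, v.val f ≤ 1 → res v (δ f) = d (res v f)

/-- Local form of the theorem of Bertini. -/
def BerL {K : Type} [Field K] [Algebra ℂ K] (M : Model K 2) : Prop :=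
  ∀ X : Dr M, IsInt X → ∀ᶠ k : ℕ in atTop, ∃ f ∈ H0 (X + (k : ℝ) • wD M),
    ∀ p η, Eqn (X + (k : ℝ) • wD M) p η → f * η ∉ (M.loc p).m ^ 2

/-- Vanishing. -/
def VanS {K : Type} [Field K] [Algebra ℂ K] (M : Model K 2) (h : FinS M) : Prop :=
  ∀ J : Finset (Crv M), SncC (J : Set (Crv M)) → (∀ C, C ∉ J → KD M C = 0) →
    (∀ C, C ∉ J → wD M C = 0) → (toNS h).Van J

def OfCen : Prop := All CenS
def OfTrd : Prop := All TrdS
def OfLocA : Prop := StUFD → All LocA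
def OfLocB : Prop := StUFD → All fun M => LocA M → LocB M
def OfFin : Prop := All fun M => CenS M → LocA M → LocB M → FinS M
def OfFF : Prop := All fun M => B1 M → FFS M
def OfCtr : Prop := All fun M => B1 M → FFS M → CtrS M
def OfWK : Prop := All fun M => B1 M → WKS M
def OfDeg : Prop := All fun M => B2 M → DegS M
def OfWc : Prop := M3C.StmtWC1 → M3C.StmtWC2 → All fun M => B3 M → WcS M
def OfEx : Prop := All fun M => B3 M → WcS M → ExS M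
def OfLift : Prop := All fun M => B3 M → LiftS M
def OfSer : Prop := M3C.StmtFING → All fun M => B3 M → LiftS M → SerS M
def OfRr : Prop := All fun M => B3 M → WcS M → ExS M → SerS M → RrS M
def OfAdj : Prop := StInd → M3C.StmtLoc → M3C.StmtDUAL → All fun M => B3 M → AdjS M
def OfBerL : Prop := All fun M => B2 M → BerL M
def OfBer : Prop := All fun M => B2 M → BerL M → BerS M
def OfKap : Prop := All fun M => B3 M → WcS M → RrS M → AdjS M → BerS M → KapS M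
def OfH1 : Prop := All H1S
def OfCls : Prop := All fun M => B1 M → ClsS M
def OfTan : Prop := StInd → M3C.StmtDer → All fun M => B2 M → TanS M
def OfRho : Prop := M3C.StmtLoc → M3C.StmtRES →
  All fun M => B3 M → H1S M → ClsS M → TanS M → RhoS M
def OfPulA : Prop := All2 fun {_ _ _ M M'} hd => B1 M → B1 M' → PulA hd
def OfPulB : Prop := All2 fun {_ _ _ M M'} hd => B3 M → B3 M' → PulA hd → PulB hd
def OfPlt : Prop := All2 fun {_ _ _ M M'} hd => B2 M → B2 M' → PulA hd → PulB hd → PltS hd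
def OfSnc : Prop := All B3 → All2 PulA → All2 PulB → All SncS
def OfOK : Prop := All fun M => ∀ h : Fnd M, (toNS h.toFinS).OK ∧ (RhoS M → (toNS h.toFinS).Rho)
def OfRes : Prop := ∀ hF : All Fnd, All2 PulA → All2 PulB → All2 PltS → All SncS →
  All (fun M => (toNS (hF _ M).toFinS).OK) → All (fun M => VanS M (hF _ M).toFinS) →
  All fun M => ∀ (B : Dr M) (J : Set (Crv M)), SncC J → (∀ C, C ∉ J → B C = 0) →
    (∀ C, B C < 1) → (toNS (hF _ M).toFinS).Res B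

end

end Pool.Agent.MP_ee8c61_ag.M3S
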