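import Pool.Agent.MP_96693b_ag.DR.RDens
import Pool.Agent.MP_cce4c9_lc.H7.Spec

/-!
Curves, divisors, sections and intersection numbers on a smooth projective surface.
-/

set_option autoImplicit false

namespace Pool.Agent.MP_ee8c61_ag.M3S

open Pool.Agent.MP_96693b_ag.RS Pool.Agent.MP_cce4c9_lc.H87 WithZero Finsupp Filter

noncomputable section

variable {K : Type} [Field K] [Algebra ℂ K]

/-! ### Residue fields of places -/

/-- The residue field of a place. -/
def Rf (v : Place ℂ K) : Type := IsLocalRing.ResidueField v.val.valuationSubring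

instance (v : Place ℂ K) : Field (Rf v) :=
  inferInstanceAs (Field (IsLocalRing.ResidueField v.val.valuationSubring))

/-- The residue map on the valuation ring. -/
def rh (v : Place ℂ K) : v.val.valuationSubring →+* Rf v :=
  IsLocalRing.residue v.val.valuationSubring

instance (v : Place ℂ K) : Algebra ℂ (Rf v) :=
  ((rh v).comp ((algebraMap ℂ K).codRestrict v.val.valuationSubring
    fun a => v.const_le a)).toAlgebra

open Classical in
/-- The residue class (junk value `0` at a pole). -/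
def res (v : Place ℂ K) (f : K) : Rf v := if h : v.val f ≤ 1 then rh v ⟨f, h⟩ else 0

section Res

variable {v : Place ℂ K} {f g : K}

theorem res_of_le (h : v.val f ≤ 1) : res v f = rh v ⟨f, h⟩ := dif_pos h

theorem res_add (hf : v.val f ≤ 1) (hg : v.val g ≤ 1) : res v (f + g) = res v f + res v g := by
  rw [res_of_le hf, res_of_le hg, res_of_le ((v.val.map_add f g).trans (max_le hf hg)), ← map_add]
  rfl

theorem res_mul (hf : v.val f ≤ 1) (hg : v.val g ≤ 1) : res v (f * g) = res v f * res v g := by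
  have h : v.val (f * g) ≤ 1 := by rw [map_mul]; exact mul_le_one' hf hg
  rw [res_of_le hf, res_of_le hg, res_of_le h, ← map_mul]
  rfl

theorem res_neg (hf : v.val f ≤ 1) : res v (-f) = -res v f := by
  have h : v.val (-f) ≤ 1 := by rwa [Valuation.map_neg]
  rw [res_of_le hf, res_of_le h, ← map_neg]
  rfl

theorem res_sub (hf : v.val f ≤ 1) (hg : v.val g ≤ 1) : res v (f - g) = res v f - res v g := by
  rw [sub_eq_add_neg, res_add hf (by rwa [Valuation.map_neg]), res_neg hg, sub_eq_add_neg]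

theorem res_const (a : ℂ) : res v (algebraMap ℂ K a) = algebraMap ℂ (Rf v) a :=
  res_of_le (v.const_le a)

theorem res_zero : res v 0 = 0 := by simpa using res_const (v := v) 0

theorem res_one : res v 1 = 1 := by simpa using res_const (v := v) 1

theorem res_eq_zero (hf : v.val f ≤ 1) : res v f = 0 ↔ v.val f < 1 := by
  rw [res_of_le hf]
  refine (IsLocalRing.residue_eq_zero_iff _).trans ?_
  rw [ValuationSubring.valuation_lt_one_iff]
  exact ((Valuation.isEquiv_valuation_valuationSubring v.val).lt_one_iff_lt_one (x := f)).symm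

theorem res_surj (s : Rf v) : ∃ f, v.val f ≤ 1 ∧ res v f = s := by
  obtain ⟨f, hf⟩ := IsLocalRing.residue_surjective (R := v.val.valuationSubring) s
  exact ⟨f, f.2, (res_of_le f.2).trans hf⟩

end Res

/-! ### Curves and divisors -/

/-- The place is nonnegative on the local ring. -/
def Ov (v : Place ℂ K) (L : Loc K) : Prop := ∀ f ∈ L.O, v.val f ≤ 1

/-- Curves: places whose centre is not a closed point. -/
def Crv (M : Model K 2) : Type :=
  {v : Place ℂ K // ∃ p : M.P, Ov v (M.loc p) ∧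
    ∃ g ∈ (M.loc p).O, (M.loc p).ev g = 0 ∧ v.val g = 1}

/-- Real divisors. -/
abbrev Dr (M : Model K 2) : Type := Crv M →₀ ℝ

variable {M M' : Model K 2}

/-- The point lies on the curve. -/
def On (C : Crv M) (p : M.P) : Prop := Ov C.1 (M.loc p)

/-- The prime divisor. -/
abbrev pr (C : Crv M) : Dr M := single C 1

/-- Integral divisors. -/
def IsInt (D : Dr M) : Prop := ∀ C, ∃ n : ℤ, D C = n

open Classical in
/-- The divisor of a function. -/
def dvr (M : Model K 2) (f : K) : Dr M :=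
  if H : (Function.support fun C : Crv M => (C.1.ord f : ℝ)).Finite then
    Finsupp.ofSupportFinite (fun C => (C.1.ord f : ℝ)) H else 0

/-- Global sections. -/
def H0 (D : Dr M) : Submodule ℂ K where
  carrier := {f | ∀ C : Crv M, C.1.val f ≤ exp ⌊D C⌋}
  zero_mem' := by simp
  add_mem' := fun {a b} ha hb C => (C.1.val.map_add a b).trans (max_le (ha C) (hb C))
  smul_mem' := fun c h hh C => by
    rw [Algebra.smul_def, map_mul]
    by_cases hc : c = 0
    · simp [hc]
    · rw [C.1.triv c hc, one_mul]; exact hh C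

theorem mem_H0 {D : Dr M} {f : K} (hf : f ≠ 0) :
    f ∈ H0 D ↔ ∀ C : Crv M, 0 ≤ (C.1.ord f : ℝ) + D C := by
  refine forall_congr' fun C => ?_
  rw [C.1.val_le_exp (C.1.val_ne hf), neg_le, Int.le_floor, Int.cast_neg, neg_le_iff_add_nonneg']

/-- The dimension of the space of sections. -/
def h0 (D : Dr M) : ℕ := Module.finrank ℂ (H0 D)

/-- `η` is a local equation of `D` at `p`. -/
def Eqn (D : Dr M) (p : M.P) (η : K) : Prop :=
  η ≠ 0 ∧ ∀ C : Crv M, On C p → (C.1.ord η : ℝ) = D C

/-- Generated by global sections. -/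
def Bpf (D : Dr M) : Prop := ∀ p, ∃ f ∈ H0 D, Eqn (-D) p f

/-- The place `u` of the function field of `C` is centred at `p`. -/
def Ctr (C : Crv M) (u : Place ℂ (Rf C.1)) (p : M.P) : Prop :=
  On C p ∧ ∀ f ∈ (M.loc p).O, u.val (res C.1 f) ≤ 1

/-- `h` moves `D` away from `C`. -/
def Mv (D : Dr M) (C : Crv M) (h : K) : Prop := h ≠ 0 ∧ (C.1.ord h : ℝ) = -D C

/-- `R` is the restriction to `C` of `D` moved by `h`. -/
def IsR (D : Dr M) (C : Crv M) (h : K) (R : Dv ℂ (Rf C.1)) : Prop :=
  ∀ u p η, Ctr C u p → Eqn D p η → R u = u.ord (res C.1 (η * h))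

/-- The intersection number of two curves. -/
def qq (C C' : Crv M) : ℤ :=
  Classical.epsilon fun n : ℤ => ∀ h, Mv (pr C) C' h → ∃ R, IsR (pr C) C' h R ∧ R.degree = n

/-- The intersection form. -/
def II (M : Model K 2) : Dr M →ₗ[ℝ] Dr M →ₗ[ℝ] ℝ :=
  linearCombination ℝ fun C => linearCombination ℝ fun C' => (qq C C' : ℝ)

/-- Sections of the restriction to the (possibly singular) curve `C` of `D` moved by `h`. -/
def WC (D : Dr M) (C : Crv M) (h : K) : Submodule ℂ (Rf C.1) where
  carrier := {s | ∀ p η, On C p → Eqn D p η →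
    ∃ g ∈ (M.loc p).O, s * res C.1 (η * h) = res C.1 g}
  zero_mem' := fun p _ _ _ => ⟨0, zero_mem _, by rw [zero_mul, res_zero]⟩
  add_mem' := fun {a b} ha hb p η hp hη => by
    obtain ⟨g, hg, e⟩ := ha p η hp hη
    obtain ⟨g', hg', e'⟩ := hb p η hp hη
    exact ⟨g + g', add_mem hg hg', by rw [add_mul, e, e', res_add (hp g hg) (hp g' hg')]⟩
  smul_mem' := fun c a ha p η hp hη => by
    obtain ⟨g, hg, e⟩ := ha p η hp hη
    refine ⟨algebraMap ℂ K c * g, mul_mem ((M.loc p).O.algebraMap_mem c) hg, ?_⟩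
    rw [res_mul (C.1.const_le c) (hp g hg), res_const, ← e, Algebra.smul_def, mul_assoc]

/-- Restriction to `C` is onto. -/
def Onto (D : Dr M) (C : Crv M) : Prop :=
  ∀ h, Mv D C h → ∀ s ∈ WC D C h, ∃ f ∈ H0 D, res C.1 (f / h) = s

/-- The hyperplane class. -/
def IsW (D : Dr M) : Prop :=
  ∀ u ∈ M.U, u ≠ 0 → ∀ p, chA M.U u ≤ (M.loc p).O → Eqn D p u⁻¹

def wD (M : Model K 2) : Dr M := Classical.epsilon IsW

/-- The Jacobian of `r` in a chart. -/
def jac (κ : Chart K 2) (r : Fin 2 → K) : K :=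
  κ.D 0 (r 0) * κ.D 1 (r 1) - κ.D 0 (r 1) * κ.D 1 (r 0)

/-- The reference frame; it depends on the field only. -/
def r0 (K : Type) [Field K] [Algebra ℂ K] : Fin 2 → K :=
  Classical.epsilon fun r : Fin 2 → K => AlgebraicIndependent ℂ r

/-- The divisor of the two-form `d r 0 ∧ d r 1`. -/
def IsK (r : Fin 2 → K) (D : Dr M) : Prop := ∀ p κ, IsCrd (M.loc p) κ → Eqn D p (jac κ r)

/-- The canonical divisor. -/
def KD (M : Model K 2) : Dr M := Classical.epsilon (IsK (r0 K))

/-- From degree `b` on, the space of sections on `C` has dimension degree plus `γ` and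
generates. -/
def GamB (C : Crv M) (γ b : ℤ) : Prop :=
  ∀ D h, IsInt D → Mv D C h → (b : ℝ) ≤ II M D (pr C) →
    (Module.finrank ℂ (WC D C h) : ℝ) = II M D (pr C) + γ ∧
    ∀ p η, On C p → Eqn D p η →
      ∃ s ∈ WC D C h, ∃ g, (M.loc p).ev g ≠ 0 ∧ s * res C.1 (η * h) = res C.1 g

/-- The Euler characteristic of the structure sheaf of the curve. -/
def gam (C : Crv M) : ℤ := Classical.epsilon fun γ : ℤ => ∃ b, GamB C γ b

/-- The numerical canonical class. -/
def kap (M : Model K 2) : Dr M →ₗ[ℝ] ℝ :=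
  linearCombination ℝ fun C => (-2 * gam C - qq C C : ℝ)

/-- The asymptotic Riemann-Roch formula with constant `c`. -/
def IsC0 (M : Model K 2) (c : ℝ) : Prop :=
  ∀ D, IsInt D → ∀ᶠ k : ℕ in atTop, (h0 (D + (k : ℝ) • wD M) : ℝ) =
    c + (II M (D + (k : ℝ) • wD M) (D + (k : ℝ) • wD M) - kap M (D + (k : ℝ) • wD M)) / 2

def c0 (M : Model K 2) : ℝ := Classical.epsilon (IsC0 M)

/-- The Riemann-Roch polynomial. -/
def chi (D : Dr M) : ℝ := c0 M + (II M D D - II M (KD M) D) / 2

/-- The defect. -/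
def ee (D : Dr M) : ℝ := h0 D - chi D

def Nef (D : Dr M) : Prop := ∀ C, 0 ≤ II M D (pr C)

def Pos (D : Dr M) : Prop := ∃ ε : ℝ, 0 < ε ∧ Nef (D - ε • wD M)

/-- Smooth curves. -/
def SmC (C : Crv M) : Prop :=
  ∀ p, On C p → ∃ κ : Chart K 2, IsCrd (M.loc p) κ ∧ Eqn (pr C) p (κ.x 0)

/-- Simple normal crossings. -/
def SncC (J : Set (Crv M)) : Prop :=
  ∀ p, ∃ κ : Chart K 2, IsCrd (M.loc p) κ ∧ ∀ C ∈ J, On C p → ∃ i, Eqn (pr C) p (κ.x i)

/-! ### Dominations -/

/-- `D'` is the pull-back of `D`. -/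
def IsPb (hd : Dom M' M) (D : Dr M) (D' : Dr M') : Prop :=
  ∀ p' η, Eqn D (hd.map p') η → Eqn D' p' η

/-- The pull-back. -/
def pb (hd : Dom M' M) : Dr M →ₗ[ℝ] Dr M' :=
  linearCombination ℝ fun C => Classical.epsilon (IsPb hd (pr C))

/-- Exceptional curves. -/
def Exc (M' M : Model K 2) : Set (Crv M') := {C' | ∀ C : Crv M, C.1 ≠ C'.1}

end

end Pool.Agent.MP_ee8c61_ag.M3S
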