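import Pool.Agent.MP_ee8c61_ag.M3S.SpecF
import Pool.Agent.MP_ee8c61_ag.H59.RT1
import Pool.Agent.MP_ee8c61_ag.H59.RCar
import Pool.Agent.MP_ee8c61_ag.H59.RCone
import Pool.Agent.MP_ee8c61_ag.H59.RFg
import Pool.Agent.MP_ee8c61_ag.H59.RT1f
import Pool.Agent.MP_ee8c61_ag.H59.RT1k
import Pool.Agent.MP_ee8c61_ag.H59.RCx

/-! The first cohomology of the one-forms on a projective surface is finite dimensional. -/

set_option autoImplicit false

namespace Pool.Agent.MP_ee8c61_ag.M3S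

open Pool.Agent.MP_96693b_ag.RS Finset

namespace RH1

open H59

section Cech

variable {ι V : Type} [Fintype ι] [LinearOrder ι] [AddCommGroup V]

theorem cech_apply (γ : Ch ι V) (σ : Finset ι) :
    (cech 0 : Op (Ch ι V)) γ σ = ∑ i ∈ σ, sgn i σ • γ (σ.erase i) := by
  have h0 : (od (0 : Op V) : Op (Ch ι V)) γ σ = 0 := by
    show (-1 : ℤ) ^ σ.card • (0 : V) = 0
    exact smul_zero _
  have h1 : ∀ i, (ep i * ev 1 : Op (Ch ι V)) γ σ =
      if i ∈ σ then sgn i σ • γ (σ.erase i) else 0 := fun _ => rfl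
  rw [cech, kos, op_add, H59.op_sum, Pi.add_apply, h0, zero_add, Finset.sum_apply,
    sum_congr rfl fun i _ => h1 i, sum_ite_mem, univ_inter]

theorem cech_pair (γ : Ch ι V) {a b : ι} (h : a < b) :
    (cech 0 : Op (Ch ι V)) γ {a, b} = γ {b} - γ {a} := by
  have h1 : sgn a ({a, b} : Finset ι) = 1 := by
    simp [sgn, filter_insert, filter_singleton, h.not_gt]
  have h2 : sgn b ({a, b} : Finset ι) = -1 := by
    simp [sgn, filter_insert, filter_singleton, h]
  rw [cech_apply, sum_pair h.ne, h1, h2, erase_insert (by simpa using h.ne), pair_comm,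
    erase_insert (by simpa using h.ne'), one_smul, neg_one_zsmul, sub_eq_add_neg]

theorem fin_h1 [Module ℂ V] (G : Finset ι → AddSubgroup V)
    (hF : FG ℂ (cech 0) (lat fun σ : Finset ι => if σ = ∅ then ⊥ else deg0 (G σ)) ⊥ 2) :
    ∃ (n : ℕ) (T : Fin n → ι → ι → V), (∀ s a b, T s a b ∈ G {a, b}) ∧ ∀ θ : ι → V,
      (∀ a b, θ a - θ b ∈ G {a, b}) → ∃ (c : Fin n → ℂ) (φ : ι → V), (∀ a, φ a ∈ G {a}) ∧
        ∀ a b, θ a - θ b = ∑ s, c s • T s a b + (φ a - φ b) := by
  obtain ⟨s, hs, hF⟩ := hF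
  obtain ⟨n, e, -, he⟩ := s.finite_toSet.fin_param
  have hm : ∀ (j : ℤ) (γ : Ch ι V) (σ : Finset ι), σ.Nonempty →
      γ ∈ lat (fun σ : Finset ι => if σ = ∅ then ⊥ else deg0 (G σ)) j → γ σ ∈ G σ := by
    intro j γ σ hσ hγ
    have h := (mem_lat _ _ _).1 hγ σ
    rw [if_neg hσ.ne_empty] at h
    exact ((mem_deg0 _ _ _).1 h).1
  have he' : ∀ k a b, e k {a, b} ∈ G {a, b} := fun k a b =>
    hm 2 _ _ (insert_nonempty _ _) (hs _ (by rw [← mem_coe, ← he]; exact ⟨k, rfl⟩)).1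
  refine ⟨n, fun k a b => if a < b then -e k {a, b} else if b < a then e k {a, b} else 0,
    fun k a b => ?_, fun θ hθ => ?_⟩
  · dsimp only
    split_ifs
    exacts [neg_mem (he' k a b), he' k a b, zero_mem _]
  let η : Ch ι V := fun σ => if σ.card = 1 then ∑ i ∈ σ, θ i else 0
  have hη : ∀ a, η {a} = θ a := fun a => by simp [η]
  have hdd : (cech 0 : Op (Ch ι V)) (cech 0 η) = 0 :=
    (T1X.pair_bot (rowCone rowCar rowCx) (F := fun _ => ⊥) fun _ _ _ => le_rfl).dd' η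
  obtain ⟨y, hy, w, hw, h⟩ := hF (cech 0 η) ((mem_lat _ _ _).2 fun σ => by
    by_cases h2 : σ.card = 2
    · rw [if_neg (by rintro rfl; simp at h2), mem_deg0]
      refine ⟨?_, fun h => absurd (by rw [h2]; norm_num) h⟩
      obtain ⟨a, b, hab, rfl⟩ := card_eq_two.1 h2
      rcases hab.lt_or_gt with h | h
      · rw [cech_pair η h, hη, hη, pair_comm]
        exact hθ b a
      · rw [pair_comm, cech_pair η h, hη, hη, pair_comm]
        exact hθ a b
    · rw [cech_apply, sum_eq_zero fun i hi => ?_]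
      · exact zero_mem _
      · have h3 : (σ.erase i).card ≠ 1 := by
          have := card_erase_add_one hi
          omega
        rw [show η (σ.erase i) = 0 from if_neg h3, smul_zero]) (by rw [hdd]; exact zero_mem _)
  rw [← he, Submodule.mem_span_range_iff_exists_fun] at hw
  obtain ⟨c, rfl⟩ := hw
  have key : ∀ a b, a < b → θ b - θ a = ∑ k, c k • e k {a, b} + (y {b} - y {a}) := by
    intro a b hab
    have h1 := congrFun ((mem_lat_bot _ _).1 h) {a, b}
    rw [Pi.sub_apply, Pi.sub_apply, cech_pair η hab, cech_pair y hab, hη, hη, Finset.sum_apply,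
      Pi.zero_apply, sub_sub, sub_eq_zero] at h1
    exact h1
  refine ⟨c, fun a => y {a}, fun a => hm _ y _ (singleton_nonempty a) hy, fun a b => ?_⟩
  rcases lt_trichotomy a b with hab | rfl | hab
  · simp only [if_pos hab, smul_neg, sum_neg_distrib]
    rw [← neg_sub, key a b hab]
    abel
  · simp
  · simp only [if_neg hab.not_gt, if_pos hab]
    rw [key b a hab, pair_comm]

end Cech

variable {K : Type} [Field K] [Algebra ℂ K] {ι : Type} [Fintype ι] (κ : Chart K 2)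
  (u : ι → K) (hu : ∀ i, u i ≠ 0)

/-- Laurent monomials. -/
noncomputable def mon : Multiplicative (ι → ℤ) →* K where
  toFun β := ∏ i, u i ^ β.toAdd i
  map_one' := by simp
  map_mul' β γ := by
    rw [← prod_mul_distrib]
    exact prod_congr rfl fun i _ => zpow_add₀ (hu i) _ _

/-- Their action on forms. -/
noncomputable def act : Multiplicative (ι → ℤ) →* Module.End ℂ (Fin 2 → K) :=
  (Algebra.lsmul ℂ ℂ (Fin 2 → K) : K →ₐ[ℂ] _).toMonoidHom.comp (mon u hu)

/-- The generators. -/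
noncomputable def gen (p : ι × ι) : Fin 2 → K := u p.1 • dd κ (u p.2) - u p.2 • dd κ (u p.1)

theorem act_apply (β : ι → ℤ) (x : Fin 2 → K) :
    act u hu (Multiplicative.ofAdd β) x = (∏ i, u i ^ β i) • x := rfl

theorem dd_div {a : K} (ha : a ≠ 0) (v : K) :
    dd κ (v / a) = (a ^ 2)⁻¹ • (a • dd κ v - v • dd κ a) := by
  funext i
  simp only [dd, Pi.smul_apply, Pi.sub_apply, smul_eq_mul, Derivation.leibniz_div, inv_pow]

omit [Algebra ℂ K] [Fintype ι] in
theorem zp {a : K} (ha : a ≠ 0) (s : Finset ι) (β : ι → ℤ) :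
    ∏ i ∈ s, a ^ β i = a ^ ∑ i ∈ s, β i := by
  classical
  induction s using Finset.induction_on with
  | empty => simp
  | insert b s hb ih => rw [prod_insert hb, sum_insert hb, ih, zpow_add₀ ha]

theorem gsp_le (B : Subalgebra ℂ K) (σ : Finset ι) {a : ι} (ha : a ∈ σ)
    (hB : ∀ b ∈ σ, ∀ v, u v / u b ∈ B) (x : Fin 2 → K)
    (hx : x ∈ gsp ℂ (act u hu) (gen κ u) (fun _ => 2) 0 σ) : x ∈ Om κ B := by
  refine Submodule.span_induction (p := fun x _ => x ∈ Om κ B) ?_ (zero_mem _)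
    (fun _ _ _ _ => add_mem) (fun c y _ hy => ?_) hx
  · rintro _ ⟨⟨v, w⟩, β, h1, h2, rfl⟩
    have h3 : ∏ i, (u i / u a) ^ β i ∈ B := by
      refine prod_mem fun i _ => ?_
      rcases le_or_gt 0 (β i) with h | h
      · obtain ⟨n, hn⟩ := Int.eq_ofNat_of_zero_le h
        rw [hn, zpow_natCast]
        exact pow_mem (hB a ha i) n
      · obtain ⟨n, hn⟩ := Int.eq_ofNat_of_zero_le (neg_nonneg.2 h.le)
        rw [← neg_neg (β i), hn, zpow_neg, zpow_natCast, ← inv_pow, inv_div]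
        exact pow_mem (hB i (by_contra fun hi => (h1 i hi).not_gt h) a) n
    have h4 : ∏ i, u i ^ β i = (∏ i, (u i / u a) ^ β i) * (u a ^ 2)⁻¹ := by
      simp only [div_zpow]
      rw [prod_div_distrib, zp (hu a), show ∑ i, β i = -2 from eq_neg_of_add_eq_zero_left h2]
      have := hu a
      field_simp
    have h5 : (u a ^ 2)⁻¹ • gen κ u (v, w) =
        (u v / u a) • dd κ (u w / u a) - (u w / u a) • dd κ (u v / u a) := by
      rw [dd_div κ (hu a), dd_div κ (hu a), gen]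
      funext i
      simp only [Pi.smul_apply, Pi.sub_apply, smul_eq_mul]
      have := hu a
      field_simp
      ring
    rw [act_apply, h4, mul_smul, h5]
    exact (Om κ B).smul_mem ⟨_, h3⟩ (sub_mem
      ((Om κ B).smul_mem ⟨_, hB a ha v⟩ (Submodule.subset_span ⟨_, hB a ha w, rfl⟩))
      ((Om κ B).smul_mem ⟨_, hB a ha w⟩ (Submodule.subset_span ⟨_, hB a ha v, rfl⟩)))
  · have h := (Om κ B).smul_mem (algebraMap ℂ B c) hy
    rwa [algebraMap_smul] at h

/-- The functions that preserve `N` and have their differential in `N`. -/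
def stab (N : Submodule ℂ (Fin 2 → K)) : Subalgebra ℂ K where
  carrier := {f | (∀ x ∈ N, f • x ∈ N) ∧ dd κ f ∈ N}
  mul_mem' := fun {f g} hf hg => ⟨fun x hx => by rw [mul_smul]; exact hf.1 _ (hg.1 x hx), by
    have e : dd κ (f * g) = f • dd κ g + g • dd κ f := funext fun i => (κ.D i).leibniz f g
    rw [e]
    exact add_mem (hf.1 _ hg.2) (hg.1 _ hf.2)⟩
  add_mem' := fun {f g} hf hg => ⟨fun x hx => by
    rw [add_smul]; exact add_mem (hf.1 x hx) (hg.1 x hx), by
    have e : dd κ (f + g) = dd κ f + dd κ g := funext fun i => map_add (κ.D i) f g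
    rw [e]
    exact add_mem hf.2 hg.2⟩
  algebraMap_mem' := fun c => ⟨fun x hx => by rw [algebraMap_smul]; exact N.smul_mem c hx, by
    have e : dd κ (algebraMap ℂ K c) = 0 := funext fun i => (κ.D i).map_algebraMap c
    rw [e]
    exact zero_mem _⟩

theorem om_le (N : Submodule ℂ (Fin 2 → K)) (B : Subalgebra ℂ K) (h : B ≤ stab κ N)
    (x : Fin 2 → K) (hx : x ∈ Om κ B) : x ∈ N := by
  refine Submodule.span_induction (R := B) (p := fun x _ => x ∈ N) ?_ (zero_mem _)
    (fun _ _ _ _ => add_mem) (fun c y _ hy => (h c.2).1 y hy) hx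
  rintro _ ⟨f, hf, rfl⟩
  exact (h hf).2

theorem div_stab (σ : Finset ι) {a : ι} (ha : a ∈ σ) (v : ι) :
    u v / u a ∈ stab κ (Submodule.span ℂ {x | ∃ (p : ι × ι) (β : ι → ℤ), (∀ b ∉ σ, 0 ≤ β b) ∧
      ∑ b, β b + 2 = 0 ∧ x = act u hu (Multiplicative.ofAdd β) (gen κ u p)}) := by
  classical
  have hs : ∀ (b : ι) (n : ℤ), ∏ i, u i ^ (Pi.single b n : ι → ℤ) i = u b ^ n := fun b n => by
    rw [prod_eq_single b (fun i _ hi => by rw [Pi.single_eq_of_ne hi, zpow_zero])
      fun h => absurd (mem_univ b) h, Pi.single_eq_same]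
  have hz : ∀ (n : ℤ), ∀ b ∉ σ, (Pi.single a n : ι → ℤ) b = 0 := fun n b hb =>
    Pi.single_eq_of_ne (M := fun _ => ℤ) (fun e : b = a => hb (e ▸ ha)) n
  refine ⟨fun x hx => ?_, Submodule.subset_span ⟨(a, v), Pi.single a (-2),
    fun b hb => (hz _ b hb).ge, by simp, ?_⟩⟩
  · refine Submodule.span_induction (p := fun x _ => (u v / u a) • x ∈ _) ?_ ?_
      (fun x y _ _ h1 h2 => ?_) (fun c y _ hy => ?_) hx
    · rintro _ ⟨p, β, h1, h2, rfl⟩
      refine Submodule.subset_span ⟨p, Pi.single v 1 + Pi.single a (-1) + β, fun b hb => ?_, ?_, ?_⟩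
      · have h3 : (0 : ℤ) ≤ (Pi.single v 1 : ι → ℤ) b := by
          rw [Pi.single_apply]
          split_ifs <;> norm_num
        rw [Pi.add_apply, Pi.add_apply, hz _ b hb, add_zero]
        exact add_nonneg h3 (h1 b hb)
      · simp only [Pi.add_apply, sum_add_distrib, Finset.sum_pi_single', mem_univ, if_true]
        omega
      · rw [act_apply, act_apply, smul_smul]
        simp only [Pi.add_apply, zpow_add₀ (hu _), prod_mul_distrib, hs]
        rw [zpow_one, zpow_neg_one, div_eq_mul_inv]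
    · rw [smul_zero]
      exact zero_mem _
    · rw [smul_add]
      exact add_mem h1 h2
    · rw [smul_comm]
      exact Submodule.smul_mem _ c hy
  · rw [act_apply, hs, dd_div κ (hu a), zpow_neg, zpow_ofNat]
    rfl

end RH1

open H59 in
theorem rowH1 : OfH1 := by
  intro K _ _ M κ
  obtain ⟨m, u, -, hr⟩ := (M.fin.subset (Set.diff_subset (t := {0}))).fin_param
  have hU : ∀ i, u i ∈ M.U \ {0} := fun i => hr ▸ Set.mem_range_self i
  have hu : ∀ i, u i ≠ 0 := fun i => (hU i).2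
  obtain ⟨a₀, h₀, h₀'⟩ := M.nz
  have hex : ∀ a : K, ∃ i, a ∈ M.U → a ≠ 0 → u i = a := fun a => by
    by_cases h : a ∈ M.U ∧ a ≠ 0
    · obtain ⟨i, hi⟩ : a ∈ Set.range u := hr ▸ h
      exact ⟨i, fun _ _ => hi⟩
    · obtain ⟨i, -⟩ : a₀ ∈ Set.range u := hr ▸ ⟨h₀, h₀'⟩
      exact ⟨i, fun h1 h2 => absurd ⟨h1, h2⟩ h⟩
  choose ix hix using hex
  obtain ⟨n, T, hT, hθ⟩ := RH1.fin_h1 _
    (rowT1 rowCar (rowCone rowCar rowCx) rowFg (rowT1f rowCar rowCx rowFg) rowT1k ℂ (Fin m)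
      (Fin m × Fin m) (Fin 2 → K) (RH1.act u hu) (RH1.gen κ u) (fun _ => 2) 0 2)
  have hA : ∀ a v, u v / u a ∈ chA M.U (u a) := fun a v =>
    Algebra.subset_adjoin ⟨u v, (hU v).1, rfl⟩
  have h1 : ∀ a, ∀ x ∈ gsp ℂ (RH1.act u hu) (RH1.gen κ u) (fun _ => 2) 0 {a},
      x ∈ Om κ (chA M.U (u a)) := fun a =>
    RH1.gsp_le κ u hu _ _ (mem_singleton_self a) fun b hb v => mem_singleton.1 hb ▸ hA b v
  have h2 : ∀ a b, ∀ x ∈ gsp ℂ (RH1.act u hu) (RH1.gen κ u) (fun _ => 2) 0 {a, b},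
      x ∈ Om κ (chA M.U (u a) ⊔ chA M.U (u b)) := fun a b =>
    RH1.gsp_le κ u hu _ _ (mem_insert_self a _) fun c hc v => by
      rcases mem_insert.1 hc with rfl | hc
      · exact (le_sup_left : chA M.U (u c) ≤ _) (hA c v)
      · rw [mem_singleton.1 hc]
        exact (le_sup_right : chA M.U (u b) ≤ _) (hA b v)
  have h3 : ∀ a b, ∀ x ∈ Om κ (chA M.U (u a) ⊔ chA M.U (u b)),
      x ∈ gsp ℂ (RH1.act u hu) (RH1.gen κ u) (fun _ => 2) 0 {a, b} := fun a b => by
    have h4 : ∀ c ∈ ({a, b} : Finset (Fin m)), chA M.U (u c) ≤ _ := fun c hc =>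
      Algebra.adjoin_le (S := RH1.stab κ _) (by
        rintro _ ⟨v, hv, rfl⟩
        by_cases h0 : v = 0
        · simp only [h0, zero_div]
          exact zero_mem (RH1.stab κ _)
        · rw [← hix v hv h0]
          exact RH1.div_stab κ u hu {a, b} hc (ix v))
    exact RH1.om_le κ _ _ (sup_le (h4 a (mem_insert_self a _))
      (h4 b (mem_insert_of_mem (mem_singleton_self b))))
  refine ⟨n, fun s a b => T s (ix a) (ix b), fun s a ha ha0 b hb hb0 => ?_, fun θ h => ?_⟩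
  · have h5 := h2 _ _ _ (hT s (ix a) (ix b))
    rwa [hix a ha ha0, hix b hb hb0] at h5
  obtain ⟨c, φ, hφ, e⟩ := hθ (fun i => θ (u i)) fun a b =>
    h3 a b _ (h _ (hU a).1 (hu a) _ (hU b).1 (hu b))
  refine ⟨c, fun a => φ (ix a), fun a ha ha0 => ?_, fun a ha ha0 b hb hb0 => ?_⟩
  · have h5 := h1 _ _ (hφ (ix a))
    rwa [hix a ha ha0] at h5
  · have h5 := e (ix a) (ix b)
    rwa [hix a ha ha0, hix b hb hb0] at h5

end Pool.Agent.MP_ee8c61_ag.M3S
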