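import Pool.Agent.MP_ee8c61_ag.M3S.SpecF
import Pool.Agent.MP_cce4c9_lc.H7.AllA

/-! Restriction to a curve is onto in large degree. -/

set_option autoImplicit false

namespace Pool.Agent.MP_ee8c61_ag.M3S

open Pool.Agent.MP_96693b_ag.RS Pool.Agent.MP_cce4c9_lc.H87 WithZero Finsupp Filter Module
open scoped IntermediateField Pointwise

namespace RSer

/-! ### The algebraic lemma -/

theorem alg {k F : Type} [Field k] [Field F] [Algebra k F] (U : Finset F)
    (W L : ℕ → Submodule k F) (n0 : ℕ) (hL : ∀ n, ∀ u ∈ U, ∀ s ∈ L n, u * s ∈ L (n + 1))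
    (hW : ∀ n, n0 ≤ n → W (n + 1) = Submodule.span k (U : Set F) * W n)
    (hfin : FiniteDimensional k (W n0))
    (hev : ∀ s ∈ W n0, ∀ u ∈ U, ∀ᶠ e : ℕ in atTop, u ^ e * s ∈ L (n0 + e)) :
    ∀ᶠ n : ℕ in atTop, W n ≤ L n := by
  classical
  obtain ⟨S, hS⟩ := (Submodule.fg_iff_finiteDimensional _).2 hfin
  have hSW : ∀ s ∈ S, s ∈ W n0 := fun s hs => hS ▸ Submodule.subset_span hs
  have h1 : ∀ᶠ e : ℕ in atTop, ∀ s ∈ S, ∀ u ∈ U, u ^ e * s ∈ L (n0 + e) :=
    (eventually_all_finset S).2 fun s hs => (eventually_all_finset U).2 (hev s (hSW s hs))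
  obtain ⟨e, he⟩ := h1.exists
  have hmul : ∀ (m : Multiset F), (∀ u ∈ m, u ∈ U) → ∀ n, ∀ x ∈ L n,
      m.prod * x ∈ L (n + m.card) := by
    intro m
    induction m using Multiset.induction_on with
    | empty => intro _ n x hx; simpa using hx
    | cons a m ih =>
      intro hm n x hx
      rw [Multiset.prod_cons, Multiset.card_cons, mul_assoc, ← add_assoc]
      exact hL _ a (hm a (Multiset.mem_cons_self _ _)) _
        (ih (fun u hu => hm u (Multiset.mem_cons_of_mem hu)) n x hx)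
  have hspan : ∀ N, W (n0 + N) ≤ Submodule.span k
      {x | ∃ m : Multiset F, (∀ u ∈ m, u ∈ U) ∧ m.card = N ∧ ∃ s ∈ S, x = m.prod * s} := by
    intro N
    induction N with
    | zero =>
      rw [add_zero, ← hS]
      exact Submodule.span_mono fun s hs => ⟨0, by simp, rfl, s, hs, by simp⟩
    | succ N ih =>
      rw [← add_assoc, hW _ (Nat.le_add_right _ _)]
      refine (mul_le_mul_right ih _).trans ?_
      rw [Submodule.span_mul_span]
      refine Submodule.span_mono ?_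
      rintro _ ⟨u, hu, _, ⟨m, hm, hc, s, hs, rfl⟩, rfl⟩
      refine ⟨u ::ₘ m, fun a ha => ?_, by rw [Multiset.card_cons, hc], s, hs, ?_⟩
      · rcases Multiset.mem_cons.1 ha with rfl | ha
        exacts [hu, hm a ha]
      · simp only [Multiset.prod_cons, mul_assoc]
  refine eventually_atTop.2 ⟨n0 + (U.card * e + 1), fun n hn => ?_⟩
  obtain ⟨N, rfl⟩ : ∃ N, n = n0 + N := ⟨n - n0, by omega⟩
  refine (hspan N).trans (Submodule.span_le.2 ?_)
  rintro _ ⟨m, hm, hc, s, hs, rfl⟩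
  have hex : ∃ u ∈ U, e ≤ m.count u := by
    by_contra hcon
    push Not at hcon
    have h2 := Multiset.sum_count_eq_card hm
    have h3 := Finset.sum_le_card_nsmul U (fun u => m.count u) e fun u hu => (hcon u hu).le
    rw [smul_eq_mul] at h3
    omega
  obtain ⟨u, hu, hle⟩ := hex
  obtain ⟨m', rfl⟩ := Multiset.le_iff_exists_add.1 (Multiset.le_count_iff_replicate_le.1 hle)
  have h4 := hmul m' (fun a ha => hm a (Multiset.mem_add.2 (Or.inr ha))) _ _ (he s hs u hu)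
  rw [Multiset.card_add, Multiset.card_replicate] at hc
  rw [add_assoc, hc] at h4
  rw [Multiset.prod_add, Multiset.prod_replicate, mul_comm (u ^ e), mul_assoc]
  exact h4

theorem eft {k F : Type} [Field k] [Field F] [Algebra k F] (h : IsFF k F) :
    Algebra.EssFiniteType k F := by
  obtain ⟨t, -, ht⟩ := h
  have : Algebra.EssFiniteType k k⟮t⟯ :=
    IntermediateField.essFiniteType_iff.2 (IntermediateField.fg_adjoin_of_finite (by simp))
  exact Algebra.EssFiniteType.comp k k⟮t⟯ F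

/-! ### Residues and local equations -/

variable {K : Type} [Field K] [Algebra ℂ K]

theorem res_pow {v : Place ℂ K} {f : K} (hf : v.val f ≤ 1) (n : ℕ) :
    res v (f ^ n) = res v f ^ n := by
  induction n with
  | zero => simp [res_one]
  | succ n ih => rw [pow_succ, res_mul (by rw [map_pow]; exact pow_le_one' hf n) hf, ih, pow_succ]

theorem res_ne {v : Place ℂ K} {f : K} (hf : v.val f = 1) : res v f ≠ 0 := fun h =>
  ((res_eq_zero hf.le).1 h).ne hf

theorem res_div {v : Place ℂ K} {f g : K} (hf : v.val f ≤ 1) (hg : v.val g = 1) :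
    res v (f / g) = res v f / res v g := by
  have h0 : g ≠ 0 := fun e => by simp [e] at hg
  have h1 : v.val (f / g) ≤ 1 := by rwa [map_div₀, hg, div_one]
  rw [eq_div_iff (res_ne hg), ← res_mul h1 hg.le, div_mul_cancel₀ _ h0]

variable {M : Model K 2} {D E : Dr M} {C : Crv M} {p : M.P}

theorem int_add (hD : IsInt D) (hE : IsInt E) : IsInt (D + E) := fun C => by
  obtain ⟨a, ha⟩ := hD C
  obtain ⟨b, hb⟩ := hE C
  exact ⟨a + b, by rw [Finsupp.add_apply, ha, hb, Int.cast_add]⟩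

theorem int_smul (hE : IsInt E) (n : ℤ) : IsInt ((n : ℝ) • E) := fun C => by
  obtain ⟨b, hb⟩ := hE C
  exact ⟨n * b, by rw [Finsupp.smul_apply, hb, smul_eq_mul, Int.cast_mul]⟩

theorem int_nsmul (hE : IsInt E) (n : ℕ) : IsInt ((n : ℝ) • E) := by
  simpa using int_smul hE n

theorem eqn_mul {η ζ : K} (h : Eqn D p η) (h' : Eqn E p ζ) : Eqn (D + E) p (η * ζ) :=
  ⟨mul_ne_zero h.1 h'.1, fun C hC => by
    rw [C.1.ord_mul (C.1.val_ne h.1) (C.1.val_ne h'.1), Int.cast_add, h.2 C hC, h'.2 C hC,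
      Finsupp.add_apply]⟩

theorem eqn_pow {ζ : K} (h : Eqn E p ζ) (n : ℕ) : Eqn ((n : ℝ) • E) p (ζ ^ n) :=
  ⟨pow_ne_zero n h.1, fun C hC => by
    rw [C.1.ord_pow, Int.cast_mul, h.2 C hC, Finsupp.smul_apply, smul_eq_mul, Int.cast_natCast]⟩

theorem mv_mul {h k : K} (h1 : Mv D C h) (h2 : Mv E C k) : Mv (D + E) C (h * k) :=
  ⟨mul_ne_zero h1.1 h2.1, by
    rw [C.1.ord_mul (C.1.val_ne h1.1) (C.1.val_ne h2.1), Int.cast_add, h1.2, h2.2,
      Finsupp.add_apply, neg_add]⟩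

theorem mv_pow {k : K} (h : Mv E C k) (n : ℕ) : Mv ((n : ℝ) • E) C (k ^ n) :=
  ⟨pow_ne_zero n h.1, by
    rw [C.1.ord_pow, Int.cast_mul, h.2, Finsupp.smul_apply, smul_eq_mul, Int.cast_natCast,
      mul_neg]⟩

theorem val_eqn_mv {η h : K} (hp : On C p) (h1 : Eqn D p η) (h2 : Mv D C h) :
    C.1.val (η * h) = 1 := by
  rw [C.1.val_one_iff (C.1.val_ne (mul_ne_zero h1.1 h2.1)),
    C.1.ord_mul (C.1.val_ne h1.1) (C.1.val_ne h2.1), ← Int.cast_inj (α := ℝ), Int.cast_add,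
    h1.2 C hp, h2.2]
  simp

theorem val_mv {h : K} (h2 : Mv D C h) : C.1.val h = exp ⌊D C⌋ := by
  rw [C.1.val_eq (C.1.val_ne h2.1)]
  have : D C = ((-C.1.ord h : ℤ) : ℝ) := by rw [Int.cast_neg, h2.2, neg_neg]
  rw [this, Int.floor_intCast]

theorem val_div_mv {f h : K} (hf : C.1.val f ≤ exp ⌊D C⌋) (h2 : Mv D C h) :
    C.1.val (f / h) ≤ 1 := by
  rw [map_div₀, val_mv h2]
  exact div_le_one_of_le₀ hf zero_le

theorem val_mv_div {h h' : K} (h1 : Mv D C h) (h2 : Mv D C h') : C.1.val (h / h') = 1 := by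
  rw [map_div₀, val_mv h1, val_mv h2, div_self exp_ne_zero]

theorem h0_mul {f g : K} (hf : f ∈ H0 D) (hg : g ∈ H0 E) : f * g ∈ H0 (D + E) := fun C => by
  rw [map_mul, Finsupp.add_apply]
  refine (mul_le_mul' (hf C) (hg C)).trans ?_
  rw [← exp_add, exp_le_exp]
  exact Int.le_floor_add _ _

theorem wc_mul (H : FinS M) (hD : IsInt D) (hE : IsInt E) {h k f : K} (h1 : Mv D C h)
    (h2 : Mv E C k) (hf : f ∈ H0 E) {s : Rf C.1} (hs : s ∈ WC D C h) :
    res C.1 (f / k) * s ∈ WC (D + E) C (h * k) := by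
  intro p η' hp hη'
  obtain ⟨η, hη⟩ := H.eqn D hD p
  obtain ⟨ζ, hζ⟩ := H.eqn E hE p
  have hε : η' / (η * ζ) ∈ (M.loc p).O := by
    by_contra hn
    exact H.rat _ p _ _ hη' (eqn_mul hη hζ) ((M.loc p).ev_out _ hn)
  have hfζ : f * ζ ∈ (M.loc p).O := (H.memH E hE f).1 hf p ζ hζ
  obtain ⟨g, hg, e⟩ := hs p η hp hη
  have ha := mul_mem hε hfζ
  refine ⟨η' / (η * ζ) * (f * ζ) * g, mul_mem ha hg, ?_⟩
  rw [res_mul (hp _ ha) (hp _ hg), ← e, mul_right_comm,
    ← res_mul (val_div_mv (hf C) h2) (val_eqn_mv hp hη' (mv_mul h1 h2)).le, mul_comm s,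
    ← mul_assoc (res C.1 _), ← res_mul (hp _ ha) (val_eqn_mv hp hη h1).le]
  have := hη.1
  have := hζ.1
  have := h2.1
  congr 2
  field_simp

/-- The liftable classes. -/
def LF (D : Dr M) (C : Crv M) (h : K) (hh : Mv D C h) : Submodule ℂ (Rf C.1) where
  carrier := {s | ∃ f ∈ H0 D, res C.1 (f / h) = s}
  zero_mem' := ⟨0, zero_mem _, by rw [zero_div, res_zero]⟩
  add_mem' := by
    rintro _ _ ⟨f, hf, rfl⟩ ⟨g, hg, rfl⟩
    exact ⟨f + g, add_mem hf hg, by
      rw [add_div, res_add (val_div_mv (hf C) hh) (val_div_mv (hg C) hh)]⟩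
  smul_mem' := by
    rintro c _ ⟨f, hf, rfl⟩
    refine ⟨c • f, Submodule.smul_mem _ c hf, ?_⟩
    rw [Algebra.smul_def, Algebra.smul_def, mul_div_assoc,
      res_mul (C.1.const_le c) (val_div_mv (hf C) hh), res_const]

theorem onto_of {h : K} (hh : Mv D C h) (hle : WC D C h ≤ LF D C h hh) : Onto D C := by
  intro h' hh' s hs
  have h1 := val_mv_div hh' hh
  have h2 := val_mv_div hh hh'
  have h0 := hh.1
  have h0' := hh'.1
  have : s * res C.1 (h' / h) ∈ WC D C h := by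
    intro p η hp hη
    obtain ⟨g, hg, e⟩ := hs p η hp hη
    refine ⟨g, hg, ?_⟩
    rw [← e, mul_assoc, ← res_mul h1.le (val_eqn_mv hp hη hh).le]
    congr 2
    field_simp
  obtain ⟨f, hf, e⟩ := hle this
  refine ⟨f, hf, ?_⟩
  have e1 : f / h' = f / h * (h / h') := by field_simp
  have e2 : h' / h * (h / h') = 1 := by field_simp
  rw [e1, res_mul (val_div_mv (hf C) hh) h2.le, e, mul_assoc, ← res_mul h1.le h2.le, e2, res_one,
    mul_one]

theorem step (D w : Dr M) (n e : ℕ) :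
    D + (n : ℝ) • w + (e : ℝ) • w = D + ((n + e : ℕ) : ℝ) • w := by
  rw [Nat.cast_add, add_smul, add_assoc]

theorem step1 (D w : Dr M) (n : ℕ) : D + (n : ℝ) • w + w = D + ((n + 1 : ℕ) : ℝ) • w := by
  rw [Nat.cast_succ, add_smul, one_smul, add_assoc]

theorem main (hF : M3C.StmtFING) (H : B3 M) (hl : LiftS M) (hD : IsInt D) {h : K}
    (hh : Mv D C h) {R : Dv ℂ (Rf C.1)} (hR : IsR D C h R) {c : Rf C.1} (hc0 : c ≠ 0)
    (hc : c ∈ LL (-R)) : ∀ᶠ k : ℕ in atTop, Onto (D + (k : ℝ) • wD M) C := by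
  classical
  obtain ⟨u0, hu0, h00, hI0⟩ := H.ch C.1.val.valuationSubring fun a => C.1.const_le a
  have hI0 : InC (chA M.U u0) C := hI0
  have hw0 : Mv (wD M) C u0 := ⟨h00, by linarith [(H.wC u0 hu0 h00 C).1 hI0]⟩
  have hmv : ∀ n : ℕ, Mv (D + (n : ℝ) • wD M) C (h * u0 ^ n) := fun n => mv_mul hh (mv_pow hw0 n)
  have hint : ∀ n : ℕ, IsInt (D + (n : ℝ) • wD M) := fun n => int_add hD (int_nsmul H.wZ n)
  have hle : ∀ u ∈ M.U, C.1.val (u / u0) ≤ 1 := fun u hu => hI0 _ (div_mem_chA hu)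
  let U : Finset (Rf C.1) := (M.fin.image fun u => res C.1 (u / u0)).toFinset
  have hU : ∀ {x}, x ∈ U ↔ ∃ u ∈ M.U, res C.1 (u / u0) = x := Set.Finite.mem_toFinset _
  let W : ℕ → Submodule ℂ (Rf C.1) := fun n => WC (D + (n : ℝ) • wD M) C (h * u0 ^ n)
  let L : ℕ → Submodule ℂ (Rf C.1) := fun n => LF _ C _ (hmv n)
  have := eft (H.ff C)
  obtain ⟨hfin, n0, hW⟩ := hF ℂ (Rf C.1) U c W
    ⟨1, hU.2 ⟨u0, hu0, by rw [div_self h00, res_one]⟩, one_ne_zero⟩ hc0
    (by
      intro n x hx s hs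
      obtain ⟨u, hu, rfl⟩ := hU.1 hx
      have := wc_mul H.toFinS (hint n) H.wZ (hmv n) hw0 (H.wsec u hu) hs
      rwa [step1, mul_assoc, ← pow_succ] at this)
    (by
      intro V hV x hx hx0 hdiv n s hs
      obtain ⟨u, hu, rfl⟩ := hU.1 hx
      by_cases hT : V = ⊤
      · rw [hT]
        trivial
      obtain ⟨y, hy⟩ := MP_cce4c9_lc.H7.dvr ℂ _ (H.ff C) V hV hT
      obtain ⟨p, hp⟩ := H.cex C y
      have hv1 : C.1.val (u / u0) = 1 :=
        le_antisymm (hle u hu) (not_lt.1 fun hlt => hx0 ((res_eq_zero (hle u hu)).2 hlt))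
      have hu' : u ≠ 0 := fun e => by simp [e] at hv1
      have key : ∀ f ∈ chA M.U u, C.1.val f ≤ 1 ∧ res C.1 f ∈ V := by
        intro f hf
        induction hf using Algebra.adjoin_induction with
        | mem x hx =>
          obtain ⟨u', hu1, rfl⟩ := hx
          have e : u' / u = u' / u0 / (u / u0) := by field_simp
          simp only
          rw [e, res_div (hle u' hu1) hv1, map_div₀, hv1, div_one]
          exact ⟨hle u' hu1, hdiv _ (hU.2 ⟨u', hu1, rfl⟩)⟩
        | algebraMap r => exact ⟨C.1.const_le r, by rw [res_const]; exact hV r⟩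
        | add a b _ _ ha hb =>
          exact ⟨(C.1.val.map_add a b).trans (max_le ha.1 hb.1),
            by rw [res_add ha.1 hb.1]; exact add_mem ha.2 hb.2⟩
        | mul a b _ _ ha hb =>
          exact ⟨by rw [map_mul]; exact mul_le_one' ha.1 hb.1,
            by rw [res_mul ha.1 hb.1]; exact mul_mem ha.2 hb.2⟩
      have hch := H.cch C y p hp u hu hu' (fun f hf => (key f hf).1)
        fun f hf => (hy _).1 (key f hf).2
      obtain ⟨η, hη⟩ := H.eqn D hD p
      obtain ⟨g, hg, e⟩ := hs p _ hp.1 (eqn_mul hη (eqn_pow (H.isW u hu hu' p hch) n))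
      have hv2 := val_eqn_mv hp.1 hη hh
      have e1 : η * u⁻¹ ^ n * (h * u0 ^ n) = η * h / (u / u0) ^ n := by
        rw [div_pow, inv_pow]
        field_simp
      rw [e1, res_div hv2.le (by rw [map_pow, hv1, one_pow]), res_pow (hle u hu)] at e
      have hr := res_ne hv2
      have e2 : c * s / res C.1 (u / u0) ^ n = c / res C.1 (η * h) * res C.1 g := by
        rw [← e]
        field_simp
      rw [e2, hy, map_mul, map_div₀]
      refine mul_le_one' (div_le_one_of_le₀ ?_ zero_le) (hp.2 g hg)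
      rw [y.val_eq (y.val_ne hr), ← hR y p η hp hη]
      exact hc y)
  refine (alg U W L n0 ?_ hW (hfin n0) ?_).mono fun n hn => onto_of (hmv n) hn
  · rintro n x hx _ ⟨f, hf, rfl⟩
    obtain ⟨u, hu, rfl⟩ := hU.1 hx
    refine ⟨f * u, step1 D (wD M) n ▸ h0_mul hf (H.wsec u hu), ?_⟩
    rw [← res_mul (hle u hu) (val_div_mv (hf C) (hmv n))]
    congr 1
    have := hh.1
    rw [pow_succ]
    field_simp
  · intro s hs x hx
    obtain ⟨u, hu, rfl⟩ := hU.1 hx
    by_cases hz : res C.1 (u / u0) = 0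
    · refine (eventually_ge_atTop 1).mono fun e he => ?_
      rw [hz, zero_pow (by omega), zero_mul]
      exact zero_mem _
    have hu' : u ≠ 0 := fun e => hz (by rw [e, zero_div, res_zero])
    have hI : InC (chA M.U u) C := by
      by_contra hn
      refine hz ((res_eq_zero (hle u hu)).2 ?_)
      have h1 := (H.wC u hu hu' C).2 hn
      have h2 := hw0.2
      rw [C.1.val_lt_one (C.1.val_ne (div_ne_zero hu' h00)), div_eq_mul_inv,
        C.1.ord_mul (C.1.val_ne hu') (C.1.val_ne (inv_ne_zero h00)), C.1.ord_inv,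
        ← Int.cast_lt (R := ℝ)]
      push_cast
      linarith
    obtain ⟨f, hf, rfl⟩ := hl u hu hu' _ C _ (hint n0) (hmv n0) hI s hs
    refine (H.clr2 u hu hu' _ f hf).mono fun e he => ⟨u ^ e * f, step D (wD M) n0 e ▸ he, ?_⟩
    rw [← res_pow (hle u hu), ← res_mul (by rw [map_pow]; exact pow_le_one' (hle u hu) e)
      (val_div_mv (hf C hI) (hmv n0))]
    congr 1
    have := hh.1
    rw [div_pow, pow_add]
    field_simp

end RSer

open RSer in
theorem rowSer : OfSer := by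
  intro hF K _ _ M H hl D C hD
  obtain ⟨g, hg⟩ := (MP_cce4c9_lc.H7.gen ℂ _ (H.ff C)).1
  obtain ⟨n1, hn1⟩ := exists_nat_ge (II M D (pr C) + g)
  have hD' : IsInt (D + ((-n1 : ℤ) : ℝ) • wD M) := int_add hD (int_smul H.wZ _)
  obtain ⟨h, hh⟩ := H.mv _ C hD'
  obtain ⟨R, hR, hdeg⟩ := H.rex _ C h hD' hh
  have hdeg' : (g : ℤ) ≤ (-R).degree := by
    rw [map_neg, ← Int.cast_le (R := ℝ)]
    rw [map_add, map_smul, LinearMap.add_apply, LinearMap.smul_apply, smul_eq_mul] at hdeg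
    have h1 := H.wpos C
    have h2 : (0 : ℝ) ≤ n1 := Nat.cast_nonneg _
    push_cast at hdeg ⊢
    nlinarith
  have hpos : 0 < finrank ℂ (LL (-R)) := by
    have := hg.ge (-R)
    omega
  have := hg.fin (-R)
  obtain ⟨c, hc⟩ := finrank_pos_iff_exists_ne_zero.1 hpos
  have h1 := main hF H hl hD' hh hR (fun e => hc (Subtype.ext e)) c.2
  obtain ⟨N, hN⟩ := eventually_atTop.1 h1
  refine eventually_atTop.2 ⟨N, fun k hk => ?_⟩
  have h2 := hN (k + n1) (by omega)
  have e : D + ((-n1 : ℤ) : ℝ) • wD M + ((k + n1 : ℕ) : ℝ) • wD M = D + (k : ℝ) • wD M := by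
    rw [add_assoc, ← add_smul]
    push_cast
    ring_nf
  rwa [e] at h2

end Pool.Agent.MP_ee8c61_ag.M3S
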