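import Pool.Agent.MP_ee8c61_ag.M3S.SpecF
import Pool.Agent.MP_ee8c61_ag.M3SN.SpecN

/-!
Finite generation of adjoint rings on an open surface: the statement.
-/

set_option autoImplicit false

namespace Pool.Agent.MP_ee8c61_ag.M3S

open Pool.Agent.MP_96693b_ag.RS

section

variable {K : Type} [Field K] [Algebra ℂ K] {M : Model K 2}

/-- Simple normal crossings at a point. -/
def SncP (J : Set (Crv M)) (p : M.P) : Prop :=
  ∃ κ : Chart K 2, IsCrd (M.loc p) κ ∧ ∀ C ∈ J, On C p → ∃ i, Eqn (pr C) p (κ.x i)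

/-- Sections of `D` off the support of `H`. -/
def Ha (H D : Dr M) (f : K) : Prop := f ≠ 0 → ∀ C, H C = 0 → 0 ≤ (C.1.ord f : ℝ) + D C

variable (M)

/-- Finite generation off the support of `H`. -/
def DescS : Prop := ∀ (l : ℕ) (W : Finset (Crv M)) (T H : Dr M) (B : Fin l → Dr M)
  (m : Fin l → ℕ), M3SN.IsQ T → Nef T → 0 < II M T T → (∀ C, H C = 0 → 0 < II M T (pr C)) →
  IsInt H → 0 ≤ H → Bpf H → (∀ p, (∀ C, On C p → H C = 0) → SncP (W : Set (Crv M)) p) →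
  (∀ i, M3SN.IsQ (B i) ∧ 0 ≤ B i ∧ (∀ C, B i C < 1) ∧ ∀ C, C ∉ W → B i C = 0) →
  (∀ i, 0 < m i) →
  M3SN.FGr fun n : Fin l → ℕ => Ha H (∑ i, ((n i * m i : ℕ) : ℝ) • (KD M + T + B i))

end

def StDESC : Prop := All DescS

theorem sncC_iff {K : Type} [Field K] [Algebra ℂ K] {M : Model K 2} {J : Set (Crv M)} :
    SncC J ↔ ∀ p, SncP J p := Iff.rfl

end Pool.Agent.MP_ee8c61_ag.M3S
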